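import Pool.Agent.Work.MP_f4b644_ag.Thin.Defs
import Pool.Agent.Work.MP_f4b644_ag.Big.Hinge

/-!
Exchange of two factors, the simultaneous hinge in the third factor, merging of groups.

`Gen_swap`: use the parameters a, c, b; the linear equivalence of function spaces induced by
α × β × γ ≃ α × γ × β (`LinearEquiv.funCongrLeft`) maps tp u v w to tp u w v, so it maps atoms to atoms.
`S_swap`: family on Fin s ⊕ Fin b ⊕ Fin f ⊕ Fin p, `fam_of_S`, `Gen_swap`, `Gen.red` (identity maps; the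
swap of the family with gadgets T 0 0, BP 0, CP 1, PT is contained in the family with T 0 0, CP 1, BP 0, PT),
`S_of_fam`.
`Gen_hingeC`: copy the proof of `Gen.hinge` (Big/Hinge.lean) with
ct t p = if κ p = p then c p else c (κ p) + t • c p. At t = 0 this is c (κ p) in both cases. For a token
(ia, ib, ic): tp (a ia) (b ib) (ct ic) lies in the B-fibre, tp (a ia) (b ib) (c (κ ic)) in the A-fibre
(ct (κ ic) = c (κ ic) by idempotence), the difference is t • tp (a ia) (b ib) (c ic).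
`S_mergeCP`: as `S.hinge` and `Hinge_rep` but without limit: a `Red` from the family with CP (z + z') to the
family with CP z and CP z' (a: (false, i) ↦ i, (true, i) ↦ z + i; b, c ↦ 0). Induction on n.
`S_mergeCP1`: induction on z. `red_T_tok`, `red_BP_T`: identity maps. `ruleC_Tz`: as `ruleC_T` in Big/Rules.lean
(import it if useful).
-/

set_option autoImplicit false

namespace Pool.Agent.Work.MP_f4b644_ag.Thin

open Big Multiset Big.Gad

theorem Gen_swap {P α β γ : Type} [Fintype α] [Fintype β] [Fintype γ] {X : Cfg P}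
    (h : Gen α β γ X) : Gen α γ β (swapC X) := by
  obtain ⟨a, b, c, e⟩ := h
  refine ⟨a, c, b, ?_⟩
  let L := LinearEquiv.funCongrLeft ℂ ℂ ((Equiv.refl α).prodCongr (Equiv.prodComm γ β))
  have hL : ∀ u v w, L (tp u v w) = tp u w v := fun u v w => by
    funext n
    exact mul_right_comm (u n.1) (v n.2.2) (w n.2.1)
  have : X.sp a b c ≤ ((swapC X).sp a c b).comap L.toLinearMap := by
    refine Cfg.sp_le (fun i j hq u => ?_) (fun i j hq u => ?_) (fun i j hq u => ?_)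
      (fun i j k hq => ?_) <;> rw [Submodule.mem_comap, LinearEquiv.coe_coe, hL]
    · exact Cfg.memA (X := swapC X) hq _
    · exact Cfg.memC (X := swapC X) hq _
    · exact Cfg.memB (X := swapC X) hq _
    · exact Cfg.memP (X := swapC X) hq
  rw [eq_top_iff]
  rintro w -
  obtain ⟨w, rfl⟩ := L.surjective w
  exact this (e ▸ Submodule.mem_top)

/-- exchange of the two kinds of single fibres -/
def Swap_sw (x : Gad) : Gad := if x = BP 0 then CP 1 else if x = CP 1 then BP 0 else x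

theorem Swap_sub (x : Gad) (hx : x = T 0 0 ∨ x = BP 0 ∨ x = CP 1 ∨ x = PT) :
    (∀ i j, (j, i) ∈ x.cfg.fA → (i, j) ∈ (Swap_sw x).cfg.fA) ∧
    (∀ q, q ∈ x.cfg.fC → q ∈ (Swap_sw x).cfg.fB) ∧ (∀ q, q ∈ x.cfg.fB → q ∈ (Swap_sw x).cfg.fC) ∧
    (∀ i j k, (i, k, j) ∈ x.cfg.pt → (i, j, k) ∈ (Swap_sw x).cfg.pt) := by
  rcases hx with rfl | rfl | rfl | rfl <;>
    simp [Swap_sw, Gad.cfg, Prod.ext_iff] <;> omega

theorem S_swap {I J K : ℕ} (s b f p : ℕ)
    (h : S I J K (replicate s (T 0 0) + replicate b (BP 0) + replicate f (CP 1) + replicate p PT)) :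
    S I K J (replicate s (T 0 0) + replicate f (BP 0) + replicate b (CP 1) + replicate p PT) := by
  obtain ⟨n, g, e, H⟩ := h
  have hg : ∀ i, g i = T 0 0 ∨ g i = BP 0 ∨ g i = CP 1 ∨ g i = PT := by
    intro i
    have : g i ∈ Finset.univ.val.map g := Multiset.mem_map_of_mem _ (Finset.mem_univ i)
    rw [e] at this
    simp only [Multiset.mem_add] at this
    rcases this with ((h | h) | h) | h
    · exact Or.inl (eq_of_mem_replicate h)
    · exact Or.inr (Or.inl (eq_of_mem_replicate h))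
    · exact Or.inr (Or.inr (Or.inl (eq_of_mem_replicate h)))
    · exact Or.inr (Or.inr (Or.inr (eq_of_mem_replicate h)))
  refine ⟨n, fun i => Swap_sw (g i), ?_, Gen.red ?_ (Gen_swap H)⟩
  · have : Finset.univ.val.map (fun i => Swap_sw (g i)) = (Finset.univ.val.map g).map Swap_sw := by
      rw [Multiset.map_map]
      rfl
    rw [this, e]
    simp only [Multiset.map_add, Multiset.map_replicate]
    have e1 : Swap_sw (T 0 0) = T 0 0 := by simp [Swap_sw]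
    have e2 : Swap_sw (BP 0) = CP 1 := by simp [Swap_sw]
    have e3 : Swap_sw (CP 1) = BP 0 := by simp [Swap_sw]
    have e4 : Swap_sw PT = PT := by simp [Swap_sw]
    rw [e1, e2, e3, e4]
    abel
  · refine ⟨id, id, id, ?_, ?_, ?_, ?_⟩
    · rintro ⟨⟨i, m⟩, j, l⟩ ⟨(rfl : i = j), hq⟩
      exact ⟨((i, m), (i, l)), ⟨rfl, (Swap_sub _ (hg i)).1 _ _ hq⟩, rfl, rfl⟩
    · rintro ⟨⟨i, m⟩, j, l⟩ ⟨(rfl : j = i), hq⟩
      exact ⟨((j, m), (j, l)), ⟨rfl, (Swap_sub _ (hg j)).2.1 _ hq⟩, rfl, rfl⟩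
    · rintro ⟨⟨i, m⟩, j, l⟩ ⟨(rfl : j = i), hq⟩
      exact ⟨((j, m), (j, l)), ⟨rfl, (Swap_sub _ (hg j)).2.2.1 _ hq⟩, rfl, rfl⟩
    · rintro ⟨⟨i, m⟩, ⟨j, l⟩, k, r⟩ ⟨(h1 : k = i), (h2 : j = i), hq⟩
      subst h1
      subst h2
      exact ⟨((j, m), (j, l), (j, r)), ⟨rfl, rfl, (Swap_sub _ (hg j)).2.2.2 _ _ _ hq⟩, rfl, rfl, rfl⟩

theorem Swap_lim {α β γ : Type} {S : ℂ → Submodule ℂ (α × β × γ → ℂ)} (u : α → ℂ)
    (v : β → ℂ) (z₀ z₁ : γ → ℂ) (h : ∀ t : ℂ, t ≠ 0 → tp u v (z₀ + t • z₁) ∈ S t) :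
    tp u v z₀ ∈ Lim S := by
  refine ⟨fun t => tp u v (z₀ + t • z₁), fun n => ?_, by simp, h⟩
  refine mem_PF.2 ⟨MvPolynomial.C (u n.1) * MvPolynomial.C (v n.2.1) *
    (MvPolynomial.C (z₀ n.2.2) + MvPolynomial.X () * MvPolynomial.C (z₁ n.2.2)), fun x => ?_⟩
  simp [tp]

theorem Gen_hingeC {P α β γ : Type} [Fintype α] [Fintype β] [Fintype γ] {X : Cfg P} (κ : P → P)
    (hκ : ∀ p, κ (κ p) = κ p) (h : Gen α β γ (hingeC X κ)) : Gen α β γ X := by
  classical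
  obtain ⟨a, b, c, h⟩ := h
  let ct : ℂ → P → γ → ℂ := fun t p => if κ p = p then c p else c (κ p) + t • c p
  have key : ∀ (ic : P) (u : α → ℂ) (v : β → ℂ),
      (∀ t : ℂ, tp u v (ct t ic) ∈ X.sp a b (ct t)) →
      tp u v (c (κ ic)) ∈ Lim fun t => X.sp a b (ct t) := by
    intro ic u v hu
    by_cases hi : κ ic = ic
    · refine Swap_lim u v (c (κ ic)) 0 fun t _ => ?_
      simpa [ct, hi] using hu t
    · refine Swap_lim u v (c (κ ic)) (c ic) fun t _ => ?_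
      simpa [ct, hi] using hu t
  have tok : ∀ (ic : P) (u : α → ℂ) (v : β → ℂ), κ ic ≠ ic →
      (∀ t : ℂ, tp u v (ct t ic) ∈ X.sp a b (ct t)) →
      (∀ t : ℂ, tp u v (ct t (κ ic)) ∈ X.sp a b (ct t)) →
      tp u v (c ic) ∈ Lim fun t => X.sp a b (ct t) := by
    intro ic u v hi h1 h0
    refine Swap_lim u v (c ic) 0 fun t ht => ?_
    have := Submodule.smul_mem _ t⁻¹ (Submodule.sub_mem _ (h1 t) (h0 t))
    convert this using 1
    funext n
    simp only [ct, tp, if_neg hi, if_pos (hκ ic), mul_zero, add_zero,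
      Pi.smul_apply, Pi.sub_apply, Pi.add_apply, smul_eq_mul, Pi.zero_apply]
    field_simp
    ring
  have hL : Lim (fun t => X.sp a b (ct t)) = ⊤ := by
    refine top_le_iff.1 (h ▸ Cfg.sp_le ?_ ?_ ?_ ?_)
    · rintro ib ic ⟨q, hq, e⟩ u
      obtain ⟨rfl, rfl⟩ := Prod.ext_iff.1 e
      exact key q.2 u _ fun t => Cfg.memA hq u
    · rintro ia ic ⟨q, hq, e⟩ u
      obtain ⟨rfl, rfl⟩ := Prod.ext_iff.1 e
      exact key q.2 _ u fun t => Cfg.memB hq u
    · intro ia ib hq u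
      exact Swap_lim _ _ u 0 fun t _ => Cfg.memC (X := X) hq _
    · rintro ia ib ic (⟨q, hq, e⟩ | ⟨h0, h1, h2⟩)
      · obtain ⟨rfl, e⟩ := Prod.ext_iff.1 e
        obtain ⟨rfl, rfl⟩ := Prod.ext_iff.1 e
        exact key q.2.2 _ _ fun t => Cfg.memP hq
      · exact tok ic _ _ h0 (fun t => Cfg.memB h1 _) fun t => Cfg.memA h2 _
  obtain ⟨t, -, ht⟩ := exists_top_of_Lim _ hL
  exact ⟨a, b, ct t, ht⟩

theorem Swap_merge1 {I J K : ℕ} (z z' : ℕ) (M : Multiset Gad)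
    (H : S I J K (CP (z + z') ::ₘ M)) : S I J K (CP z ::ₘ CP z' ::ₘ M) := by
  obtain ⟨n, g, rfl⟩ := exists_fam Gad M
  have h1 := fam_of_S (Sum.elim (fun _ : Unit => CP (z + z')) g) (by
    rw [map_univ_sum, map_univ_const]
    simp) H
  refine S_of_fam (Sum.elim (fun β : Bool => if β then CP z' else CP z) g) (le_of_eq ?_)
    (Gen.red ?_ h1)
  · rw [map_univ_sum]
    have : Finset.univ.val.map (fun β : Bool => if β then CP z' else CP z) = CP z ::ₘ {CP z'} := by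
      rw [Fintype.univ_bool]
      simp [Multiset.cons_swap, ← Multiset.cons_zero]
    rw [this]
    simp
  · refine ⟨Hinge_ext _ (fun q => if q.1 then z + q.2 else q.2), Hinge_ext _ (fun _ => 0),
      Hinge_ext _ (fun _ => 0), ?_, ?_, ?_, ?_⟩
    · rintro ⟨⟨⟨⟨⟩⟩ | l, i⟩, m, j⟩ ⟨e, hq⟩ <;> dsimp only at e <;> subst e
      · exact absurd hq (Set.notMem_empty _)
      · exact ⟨((Sum.inr l, i), (Sum.inr l, j)), ⟨rfl, hq⟩, rfl, rfl⟩
    · rintro ⟨⟨⟨⟨⟩⟩ | l, i⟩, m, j⟩ ⟨e, hq⟩ <;> dsimp only at e <;> subst e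
      · exact absurd hq (Set.notMem_empty _)
      · exact ⟨((Sum.inr l, i), (Sum.inr l, j)), ⟨rfl, hq⟩, rfl, rfl⟩
    · rintro ⟨⟨⟨⟨⟩⟩ | l, i⟩, m, j⟩ ⟨e, hq⟩ <;> dsimp only at e <;> subst e
      · obtain ⟨hi, hj⟩ : i < z + z' ∧ j = 0 := hq
        subst hj
        by_cases h : i < z
        · exact ⟨((Sum.inl false, i), (Sum.inl false, 0)), ⟨rfl, h, rfl⟩, rfl, rfl⟩
        · refine ⟨((Sum.inl true, i - z), (Sum.inl true, 0)), ⟨rfl, ?_, rfl⟩, ?_, rfl⟩
          · show i - z < z'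
            omega
          · refine Prod.ext rfl ?_
            show z + (i - z) = i
            omega
      · exact ⟨((Sum.inr l, i), (Sum.inr l, j)), ⟨rfl, hq⟩, rfl, rfl⟩
    · rintro ⟨⟨⟨⟨⟩⟩ | l, i⟩, ⟨m, j⟩, m', k⟩ ⟨e, e', hq⟩ <;> dsimp only at e e' <;>
        subst e e'
      · exact absurd hq (Set.notMem_empty _)
      · exact ⟨((Sum.inr l, i), (Sum.inr l, j), (Sum.inr l, k)), ⟨rfl, rfl, hq⟩, rfl, rfl, rfl⟩

theorem S_mergeCP {I J K : ℕ} (n z z' : ℕ) (M : Multiset Gad)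
    (h : S I J K (replicate n (CP (z + z')) + M)) :
    S I J K (replicate n (CP z) + replicate n (CP z') + M) := by
  induction n generalizing M with
  | zero => simpa using h
  | succ n ih =>
    have h1 := ih (CP (z + z') ::ₘ M) (h.of_eq (by simp [replicate_succ]))
    have h2 := Swap_merge1 z z' _ (h1.of_eq (Multiset.add_cons _ _ _))
    refine h2.of_eq ?_
    simp only [replicate_succ, ← Multiset.singleton_add]
    abel

theorem Swap_drop1 {I J K : ℕ} (M : Multiset Gad) (H : S I J K (CP 0 ::ₘ M)) : S I J K M := by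
  obtain ⟨n, g, rfl⟩ := exists_fam Gad M
  obtain ⟨a, b, c, h1⟩ := fam_of_S (Sum.elim (fun _ : Unit => CP 0) g) (by
    rw [map_univ_sum, map_univ_const]
    simp) H
  refine ⟨n, g, rfl, fun p => a (Sum.inr p.1, p.2), fun p => b (Sum.inr p.1, p.2),
    fun p => c (Sum.inr p.1, p.2), eq_top_iff.2 (h1 ▸ Cfg.sp_le ?_ ?_ ?_ ?_)⟩
  · rintro ⟨⟨⟨⟩⟩ | l, i⟩ ⟨m, j⟩ ⟨e, hq⟩ u <;> dsimp only at e <;> subst e
    · exact absurd hq (Set.notMem_empty _)
    · exact Cfg.memA (X := fam g) (ib := (l, i)) (ic := (l, j)) ⟨rfl, hq⟩ u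
  · rintro ⟨⟨⟨⟩⟩ | l, i⟩ ⟨m, j⟩ ⟨e, hq⟩ u <;> dsimp only at e <;> subst e
    · exact absurd hq (Set.notMem_empty _)
    · exact Cfg.memB (X := fam g) (ia := (l, i)) (ic := (l, j)) ⟨rfl, hq⟩ u
  · rintro ⟨⟨⟨⟩⟩ | l, i⟩ ⟨m, j⟩ ⟨e, hq⟩ u <;> dsimp only at e <;> subst e
    · exact absurd hq.1 (Nat.not_lt_zero _)
    · exact Cfg.memC (X := fam g) (ia := (l, i)) (ib := (l, j)) ⟨rfl, hq⟩ u
  · rintro ⟨⟨⟨⟩⟩ | l, i⟩ ⟨m, j⟩ ⟨m', k⟩ ⟨e, e', hq⟩ <;> dsimp only at e e' <;> subst e e'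
    · exact absurd hq (Set.notMem_empty _)
    · exact Cfg.memP (X := fam g) (ia := (l, i)) (ib := (l, j)) (ic := (l, k)) ⟨rfl, rfl, hq⟩

theorem Swap_drop {I J K : ℕ} (n : ℕ) (M : Multiset Gad)
    (H : S I J K (replicate n (CP 0) + M)) : S I J K M := by
  induction n with
  | zero => simpa using H
  | succ n ih => exact ih (Swap_drop1 _ (H.of_eq (by simp [replicate_succ])))

/-- `n` groups of size `z` from single fibres -/
theorem S_mergeCP1 {I J K : ℕ} (n z : ℕ) (M : Multiset Gad)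
    (h : S I J K (replicate n (CP z) + M)) : S I J K (replicate (n * z) (CP 1) + M) := by
  induction z generalizing M with
  | zero => simpa using Swap_drop n M h
  | succ z ih =>
    have h1 := S_mergeCP n z 1 M h
    rw [add_assoc] at h1
    refine (ih _ h1).of_eq ?_
    rw [Nat.mul_succ, replicate_add]
    abel

theorem red_T_tok (y d z : ℕ) : Red (T (y + d) z).cfg (T y (d + z)).cfg := by
  refine ⟨id, id, id, fun q hq => ⟨q, hq, rfl, rfl⟩, fun q hq => ⟨q, hq, rfl, rfl⟩,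
    fun q hq => ⟨q, ⟨?_, hq.2⟩, rfl, rfl⟩, fun q hq => ⟨q, ⟨?_, ?_, hq.2.2⟩, rfl, rfl, rfl⟩⟩
  · have := hq.1
    omega
  · have := hq.1
    omega
  · have := hq.2.1
    omega

theorem red_BP_T : Red (BP 0).cfg (T 0 0).cfg := by
  refine ⟨id, id, id, fun q hq => absurd hq (Set.notMem_empty _), fun q hq => ⟨q, hq, rfl, rfl⟩,
    fun q hq => absurd hq (Set.notMem_empty _), fun q hq => ?_⟩
  have h1 := hq.1
  have h2 := hq.2.1
  omega

theorem ruleC_Tz (y z : ℕ) : Rule Dir.C (T y z) (T y z) (CP (y + z + 1)) := by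
  refine ⟨Set.univ, ⟨id, id, id, fun q hq => ⟨q, ⟨hq, Set.mem_univ _⟩, rfl, rfl⟩,
    fun q hq => ⟨q, ⟨hq, Set.mem_univ _⟩, rfl, rfl⟩, fun q hq => ⟨q, hq, rfl, rfl⟩,
    fun q hq => ⟨q, ⟨hq, Set.mem_univ _⟩, rfl, rfl, rfl⟩⟩,
    ⟨id, id, id, fun q hq => absurd hq (Set.notMem_empty _),
    fun q hq => absurd hq (Set.notMem_empty _),
    fun q hq => ⟨q, ⟨Nat.lt_succ_iff.1 hq.1, hq.2⟩, rfl, rfl⟩,
    fun q hq => absurd hq (Set.notMem_empty _)⟩⟩

end Pool.Agent.Work.MP_f4b644_ag.Thin
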