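import Pool.Agent.Work.MP_f4b644_ag.Thin.M1Arith
import Pool.Agent.Work.MP_f4b644_ag.Thin.Swap
import Pool.Agent.Work.MP_f4b644_ag.Big.PureCore
import Pool.Agent.Work.MP_f4b644_ag.Big.Small

/-!
First dimension 3.

`S_row` (one row): induction on s generalizing f, k: if k = 0 use `S_zeroC`; otherwise split off one column (`S.splitC`, 1 + (k - 1)) with
one tangent (`S_T1`, `ruleC_T`), the rest sees one more CP 1. For s = 0: if I ≤ f use `S.splitA`-induction or `S_mergeCP1`; simplest:
write I = f' + q with f' = min f I, `S.splitA` with the f' C-fibres on the left (f' levels of dimension 1, `S_CP1 1 k`, induction) and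
the q k B-fibres on the right (`S_Blev q 1 k`).
`S_cutB`: `S.splitB` with `ruleB_T 0 0 0`, `ruleB_BP 0 0`, `ruleB_CP 1`.
`thmA`: strong induction on j + k. s = 0: `S_pc` with N = 0. j = 1: `S_row` (X ≤ 1; if X = 1 then s ≤ 1). k = 1: the same for the
transposed state and `S_swap` (p = 0). Otherwise `good`; in the second case prove the transposed statement and use `S_swap`.
`dense3`: r = s, X = 2 J - s, T = s - K; J ≤ s ≤ 2 J, K ≤ s ≤ 2 K follow from h1, h2 and J ≤ K ≤ 2 (J - 1). The state has no free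
fibres. The first family forces J = K odd, the two others have c ≠ B.
-/

set_option autoImplicit false

namespace Pool.Agent.Work.MP_f4b644_ag.Thin

open Big Multiset Big.Gad

theorem M1_cutC {I j k1 k2 : ℕ} (s1 s2 b1 b2 f : ℕ)
    (h1 : S I j k1 (replicate s1 (T 0 0) + replicate b1 (BP 0) + replicate (f + s2) (CP 1)))
    (h2 : S I j k2 (replicate s2 (T 0 0) + replicate b2 (BP 0) + replicate (f + s1) (CP 1))) :
    S I j (k1 + k2) (replicate (s1 + s2) (T 0 0) + replicate (b1 + b2) (BP 0) + replicate f (CP 1)) := by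
  have rT : Rule Dir.C (T 0 0) (T 0 0) (CP 1) := ruleC_T 0
  refine S.splitC ((((Spl.rep rT s1).add (Spl.rep rT.symm s2)).add
    (((Spl.repL (ruleC_BP 0) b1).add (Spl.repR (ruleC_BP 0).symm b2)).add
      (Spl.rep (ruleC_CP 1) f))).of_eq ?_ ?_ ?_) h1 h2
  all_goals
    simp only [replicate_add]
    abel

theorem M1_Clev (f k : ℕ) : S f 1 k (replicate f (CP 1)) := by
  induction f with
  | zero => exact S_zeroA _ _ _
  | succ f ih => exact S.splitA (Small_spl (ruleA_CP 1 0) f 1) ih (S_CP1 1 k)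

theorem M1_row0 (I k b f : ℕ) (h : (I - f) * k ≤ b) :
    S I 1 k (replicate b (BP 0) + replicate f (CP 1)) := by
  have rC : Rule Dir.A (CP 1) (CP 1) (CP 0) := ruleA_CP 1 0
  have h1 := S.splitA (((Spl.repR (ruleA_BP 0).symm ((I - f) * k)).add
    (Spl.repL rC (min f I))).of_eq rfl (zero_add _).symm (add_zero _).symm) (M1_Clev (min f I) k)
    (S_Blev (I - f) 1 k)
  rw [show min f I + (I - f) = I by omega] at h1
  exact h1.mono (add_le_add ((replicate_le_replicate _).2 h)
    ((replicate_le_replicate _).2 (min_le_left _ _)))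

theorem S_row (I k s b f : ℕ) (h : (I - s - f) * (k - s) ≤ b) :
    S I 1 k (replicate s (T 0 0) + replicate b (BP 0) + replicate f (CP 1)) := by
  induction s generalizing f k with
  | zero => exact (M1_row0 I k b f h).of_eq (by rw [replicate_zero, zero_add])
  | succ s ih =>
    obtain _ | k := k
    · exact S_zeroC _ _ _
    have h1 := M1_cutC 1 s 0 b f ((S_T1 I 0 0).mono (by
      rw [replicate_one, add_assoc]
      exact le_add_right _ _)) (ih k (f + 1) (by
        rw [show I - s - (f + 1) = I - (s + 1) - f by omega, show k - s = k + 1 - (s + 1) by omega]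
        exact h))
    rwa [add_comm 1 k, add_comm 1 s, Nat.zero_add] at h1

theorem S_cutB {I j1 j2 k : ℕ} (s1 s2 b f1 f2 : ℕ)
    (h1 : S I j1 k (replicate s1 (T 0 0) + replicate (b + s2) (BP 0) + replicate f1 (CP 1)))
    (h2 : S I j2 k (replicate s2 (T 0 0) + replicate (b + s1) (BP 0) + replicate f2 (CP 1))) :
    S I (j1 + j2) k (replicate (s1 + s2) (T 0 0) + replicate b (BP 0) + replicate (f1 + f2) (CP 1)) := by
  have rT : Rule Dir.B (T 0 0) (T 0 0) (BP 0) := ruleB_T 0 0 0
  have rB : Rule Dir.B (BP 0) (BP 0) (BP 0) := ruleB_BP 0 0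
  refine S.splitB ((((Spl.rep rT s1).add (Spl.rep rT.symm s2)).add ((Spl.rep rB b).add
    ((Spl.repL (ruleB_CP 1) f1).add (Spl.repR (ruleB_CP 1).symm f2)))).of_eq ?_ ?_ ?_) h1 h2
  all_goals
    simp only [replicate_add]
    abel

theorem S_cutC {I j k1 k2 : ℕ} (s1 s2 b1 b2 f : ℕ)
    (h1 : S I j k1 (replicate s1 (T 0 0) + replicate b1 (BP 0) + replicate (f + s2) (CP 1)))
    (h2 : S I j k2 (replicate s2 (T 0 0) + replicate b2 (BP 0) + replicate (f + s1) (CP 1))) :
    S I j (k1 + k2) (replicate (s1 + s2) (T 0 0) + replicate (b1 + b2) (BP 0) + replicate f (CP 1)) :=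
  M1_cutC s1 s2 b1 b2 f h1 h2

/-- the statement for a state -/
def M1_St (j X k T' s : ℕ) : Prop :=
  S 3 j k (replicate s (T 0 0) + replicate (k + T' - s) (BP 0) + replicate (2 * j - X - s) (CP 1))

theorem M1_tr {j X k T' s : ℕ} (hX : X ≤ j) (hT : T' ≤ k) (H : M1_St k (k - T') j (j - X) s) :
    M1_St j X k T' s := by
  have h1 := S_swap s _ _ 0 (S.of_eq (add_zero _).symm H)
  rw [show 2 * k - (k - T') - s = k + T' - s by omega,
    show j + (j - X) - s = 2 * j - X - s by omega] at h1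
  exact h1.of_eq (add_zero _)

theorem M1_one {X k T' s : ℕ} (h : Val1 1 X k T' s) : M1_St 1 X k T' s := by
  obtain ⟨-, h1, h2, h3, h4, h5, h6⟩ := h
  refine S_row 3 k s _ _ ?_
  rw [show 3 - s - (2 * 1 - X - s) = 1 + X by omega]
  interval_cases X <;> omega

theorem M1_good {j X k T' s : ℕ} (hs : s ≤ k + T') (hg : GoodB j X k T' s)
    (ih : ∀ j' X' s', j' < j → Val1 j' X' k T' s' → ¬ Exc1 j' X' k T' → M1_St j' X' k T' s') :
    M1_St j X k T' s := by
  obtain ⟨j1, X1, s1, j2, X2, s2, rfl, rfl, rfl, v1, e1, v2, e2⟩ := hg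
  have h1 := ih j1 X1 s1 (by have := v2.1; omega) v1 e1
  have h2 := ih j2 X2 s2 (by have := v1.1; omega) v2 e2
  have h3 := v1.2.2.2.2.2.1
  have h4 := v2.2.2.2.2.2.1
  rw [M1_St, show k + T' - s1 = k + T' - (s1 + s2) + s2 by omega] at h1
  rw [M1_St, show k + T' - s2 = k + T' - (s1 + s2) + s1 by omega] at h2
  rw [M1_St, show 2 * (j1 + j2) - (X1 + X2) - (s1 + s2) = 2 * j1 - X1 - s1 + (2 * j2 - X2 - s2) by
    omega]
  exact S_cutB _ _ _ _ _ h1 h2

theorem thmA (j X k T' s : ℕ) (h : Val1 j X k T' s) (he : ¬ Exc1 j X k T') :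
    S 3 j k (replicate s (T 0 0) + replicate (k + T' - s) (BP 0) + replicate (2 * j - X - s) (CP 1)) := by
  induction hn : j + k using Nat.strong_induction_on generalizing j X k T' s with
  | _ n ih =>
  subst hn
  change M1_St j X k T' s
  have ht := h.tr
  have ⟨h1, h2, h3, h4, h5, h6, h7⟩ := h
  obtain rfl | hs := Nat.eq_zero_or_pos s
  · exact (S_pc j k T' 0 X h3 h5).of_eq (by simp)
  obtain rfl | hj := h1.eq_or_lt
  · exact M1_one h
  obtain rfl | hk := h2.eq_or_lt
  · exact M1_tr h3 h4 (M1_one ht)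
  obtain hg | hg := good h he hj hk hs
  · exact M1_good h7 hg fun j' X' s' hl hv hx => ih (j' + k) (by omega) _ _ _ _ _ hv hx rfl
  · exact M1_tr h3 h4 (M1_good ht.2.2.2.2.2.2 hg fun j' X' s' hl hv hx =>
      ih (j' + j) (by omega) _ _ _ _ _ hv hx rfl)

theorem dense3 {J K : ℕ} (hJ : 3 ≤ J) (hJK : J ≤ K) (hK : K ≤ 2 * (J - 1))
    (hex : ¬ ∃ p : ℕ, J = 2 * p + 1 ∧ K = 2 * p + 1) (s : ℕ)
    (h1 : 3 * J * K + 2 * s ≤ s * (3 + J + K))
    (h2 : s * (3 + J + K) + 2 < 3 * J * K + 2 * s + (3 + J + K)) : Dense (RankSet 3 J K s) := by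
  have h3 : K ≤ s := by
    by_contra h
    have h4 : s * (J + K + 1) ≤ K * (J + K + 1) := Nat.mul_le_mul_right _ (by omega)
    have h5 : K * (J + K + 1) < K * (3 * J) := Nat.mul_lt_mul_of_pos_left (by omega) (by omega)
    nlinarith
  have h4 : s ≤ 2 * J := by
    by_contra h
    have h4 : (2 * J + 1) * (J + K + 1) ≤ s * (J + K + 1) := Nat.mul_le_mul_right _ (by omega)
    have h5 : J * K ≤ J * (2 * J) := Nat.mul_le_mul_left _ (by omega)
    nlinarith
  obtain ⟨X, hX⟩ := Nat.exists_eq_add_of_le h4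
  obtain ⟨T', rfl⟩ := Nat.exists_eq_add_of_le h3
  have h5 : K * (2 * J) = K * (K + T' + X) := by rw [hX]
  have h6 : K * X ≤ J * T' + (K + T') := by nlinarith
  have h7 := thmA J X K T' (K + T') ⟨by omega, by omega, by omega, by omega, h6, by omega, le_rfl⟩
    (by
      rintro (h | h | h)
      · exact hex ⟨T', by omega, by omega⟩
      · omega
      · omega)
  rw [Nat.sub_self, show 2 * J - X - (K + T') = 0 by omega] at h7
  exact dense_of_S (h7.of_eq (by simp))

end Pool.Agent.Work.MP_f4b644_ag.Thin
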