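import Pool.Agent.Work.MP_f4b644_ag.Thin.Blocks

/-!
First dimension 4 (m = 2), the last block. τ = J + 2, v = τ + ω, X = ω + 2. General facts from `FinD` (ω ≤ τ, B < v): k < τ,
Tt ≤ ω, Tt ≤ k, 1 ≤ Tt, B ≤ k + Tt + 1 (τ (k + Tt) ≥ k v > B τ - v), and the dimension count hD is ω k ≤ τ Tt.
If k = 1 then Tt = 1 and we use `V_col`.
`fin2a`: if Tt + 1 = ω use `V_B1` (τ (ω - 2) < ω k ≤ ω (B - Tt) gives 4 ω ω + 7 ω < 2 J + 4, and k ≥ J - 4 ω - 6);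
otherwise `V_A` (k ≤ B = J - 3 X).
`fin2b`: B = 2 d, k ≥ d. If 2 d + 4 ≤ J use `V_A`: Tt ≤ d, 3 k ≤ 2 τ, τ (k - Tt) ≤ (d + 4) k < (d + 3) τ; k ≤ 2 d.
Otherwise `V_B2` with a = (d + 2) / 4, t = k - Tt: τ t ≤ (d + 4) k gives t ≤ d + 3 ≤ 4 (a + 1) (F1); τ t + τ > (d + 4) k;
F2a, F2b follow from k (d + 6) ≤ t (J + d / 2 - 2) (multiply by τ; d ≥ 98, k ≥ d); hX2 follows from
(d + 4) Tt < ω t + τ and ω t ≥ 5 τ (3 ω + 6 > J, t ≥ 40).
-/

set_option autoImplicit false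

namespace Pool.Agent.Work.MP_f4b644_ag.Thin

open Big Multiset Big.Gad

theorem S4fin_gen {τ ω B k Tt : ℕ} (f1 : k * (τ + ω) ≤ B * τ) (f2 : B * τ < (k + 1) * (τ + ω))
    (f3 : ω * k ≤ τ * Tt) (f4 : τ * Tt < ω * k + τ) (h1 : ω ≤ τ) (h2 : B < τ + ω) (h3 : 1 ≤ ω)
    (hk : 1 ≤ k) : k < τ ∧ Tt ≤ ω ∧ Tt ≤ k ∧ 1 ≤ Tt ∧ B ≤ k + Tt + 1 := by
  have hτ : 0 < τ := by omega
  have a1 : k < τ := lt_of_mul_lt_mul_right (a := τ + ω) (by
    have := Nat.mul_lt_mul_of_pos_right h2 hτ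
    linarith) (Nat.zero_le _)
  refine ⟨a1, ?_, ?_, ?_, ?_⟩
  · refine Nat.lt_succ_iff.1 (lt_of_mul_lt_mul_left (a := τ) ?_ (Nat.zero_le _))
    have := Nat.mul_le_mul_left ω a1.le
    rw [Nat.mul_succ]
    linarith
  · refine Nat.lt_succ_iff.1 (lt_of_mul_lt_mul_left (a := τ) ?_ (Nat.zero_le _))
    have := Nat.mul_le_mul_right k h1
    rw [Nat.mul_succ]
    linarith
  · refine Nat.pos_of_ne_zero ?_
    rintro rfl
    have := Nat.mul_pos h3 hk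
    omega
  · refine Nat.lt_succ_iff.1 (lt_of_mul_lt_mul_right (a := τ) ?_ (Nat.zero_le _))
    rw [Nat.succ_mul]
    linarith

theorem S4fin_a {J B k T : ℕ} (hJ : 200 ≤ J) (hB : B + 3 * (T + 1 + 2) = J)
    (f4 : (J + 2) * T < (T + 1) * k + (J + 2)) (f5 : k + T ≤ B) (f6 : B ≤ k + T + 1) :
    T * (2 * T + 2 * 2 * 2 + 3 * 2) ≤ (2 * 2 + 2) * k := by
  have a1 : (T + 1) * (k + 4 * T + 9) ≤ (T + 1) * J := Nat.mul_le_mul_left _ (by omega)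
  have a2 : 4 * (T * T) + 15 * T + 7 < 2 * J := by linarith
  have e : T * (2 * T + 2 * 2 * 2 + 3 * 2) = 2 * (T * T) + 14 * T := by ring
  rcases le_total T 20 with h | h
  · omega
  · have := Nat.mul_le_mul_left T h
    omega

theorem S4fin_d {τ ω d k : ℕ} (f2 : 2 * d * τ < (k + 1) * (τ + ω)) (h1 : ω ≤ τ) : d ≤ k := by
  refine Nat.lt_succ_iff.1 (lt_of_mul_lt_mul_right (a := 2 * τ) ?_ (Nat.zero_le _))
  have := Nat.mul_le_mul_left (k + 1) h1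
  rw [Nat.succ_eq_add_one]
  linarith

theorem S4fin_A {ω d k T t : ℕ} (hd : d + 2 ≤ ω) (hd1 : 1 ≤ d) (ht : T + t = k)
    (f1 : k * (ω + d + 4 + ω) ≤ 2 * d * (ω + d + 4)) (f3 : ω * k ≤ (ω + d + 4) * T) :
    3 * k ≤ 2 * (ω + d + 4) ∧ t ≤ d + 2 := by
  have a1 : 3 * k ≤ 2 * (ω + d + 4) := Nat.le_of_mul_le_mul_left (c := d) (by
    have : k * (3 * d) ≤ k * (ω + d + 4 + ω) := Nat.mul_le_mul_left _ (by omega)
    linarith) hd1
  refine ⟨a1, Nat.lt_succ_iff.1 (lt_of_mul_lt_mul_left (a := 3 * (ω + d + 4)) ?_ (Nat.zero_le _))⟩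
  subst ht
  have a2 := Nat.mul_le_mul_left (d + 4) a1
  have a3 := Nat.zero_le (d * ω)
  have a4 := Nat.zero_le (d * d)
  rw [Nat.succ_eq_add_one]
  linarith

theorem S4fin_t {ω d k T t : ℕ} (hd : 99 ≤ d) (hω : ω ≤ d + 1) (ht : T + t = k) (hk : d ≤ k)
    (hk' : k < ω + d + 4) (f3 : ω * k ≤ (ω + d + 4) * T)
    (f4 : (ω + d + 4) * T < ω * k + (ω + d + 4)) : 41 ≤ t ∧ t ≤ d + 3 := by
  subst ht
  constructor
  · by_contra h
    have a1 : (ω + d + 4) * (t + 1) ≤ (2 * d + 5) * 41 := Nat.mul_le_mul (by omega) (by omega)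
    have a2 : 103 * d ≤ (d + 4) * (T + t) := Nat.mul_le_mul (by omega) hk
    linarith
  · refine Nat.lt_succ_iff.1 (lt_of_mul_lt_mul_left (a := ω + d + 4) ?_ (Nat.zero_le _))
    have := Nat.mul_lt_mul_of_pos_left hk' (show 0 < d + 4 by omega)
    rw [Nat.succ_eq_add_one]
    linarith

theorem S4fin_key {ω e k T t : ℕ} (hd : 91 ≤ e) (hω : ω ≤ e + 9) (ht : T + t = k)
    (hk' : k < ω + (e + 8) + 4) (h41 : 41 ≤ t)
    (f4 : (ω + (e + 8) + 4) * T < ω * k + (ω + (e + 8) + 4)) :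
    2 * (k * (e + 14)) ≤ t * (2 * (ω + e + 12) + e) := by
  subst ht
  have a1 : 41 * e ≤ t * e := Nat.mul_le_mul_right _ h41
  linarith

theorem fin2a (J ω B k Tt : ℕ) (hJ : 200 ≤ J) (hω : 2 ≤ ω) (hB : B + 3 * (ω + 2) = J)
    (h : FinD 2 J ω B k Tt) (hk : 1 ≤ k) : V 2 J (ω + 2) k Tt (k + Tt) 0 0 0 := by
  obtain ⟨f1, f2, f3, f4, f5⟩ := h
  obtain ⟨-, g2, g3, g4, g5⟩ := S4fin_gen f1 f2 f3 f4 (by omega) (by omega) (by omega) hk
  have hD : k * (ω + 2) ≤ J * Tt + 2 * (k + Tt) := by linarith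
  rcases Nat.eq_or_lt_of_le hk with rfl | hk2
  · obtain rfl : Tt = 1 := by omega
    exact V_col 2 J _ le_rfl (by omega) (by omega)
  by_cases hT : Tt + 1 = ω
  · subst hT
    exact V_B1 2 J _ k Tt le_rfl (by omega) g4 (S4fin_a hJ hB f4 f5 g5) (by omega) (by omega) hD
  · exact V_A 2 J _ k Tt le_rfl hk2 g3 (by omega) (by omega) (by omega) hD

theorem fin2b (J ω d k Tt : ℕ) (hJ : 200 ≤ J) (hd : ω + 2 + d = J) (hn : J < 3 * (ω + 2))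
    (h : FinD 2 J ω (2 * d) k Tt) (hk : 1 ≤ k) : V 2 J (ω + 2) k Tt (k + Tt) 0 0 0 := by
  obtain ⟨f1, f2, f3, f4, f5⟩ := h
  obtain ⟨g1, g2, g3, g4, -⟩ := S4fin_gen f1 f2 f3 f4 (by omega) (by omega) (by omega) hk
  have hD : k * (ω + 2) ≤ J * Tt + 2 * (k + Tt) := by linarith
  have hdk := S4fin_d f2 (by omega)
  rcases Nat.eq_or_lt_of_le hk with rfl | hk2
  · obtain rfl : Tt = 1 := by omega
    exact V_col 2 J _ le_rfl (by omega) (by omega)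
  obtain ⟨t, ht⟩ := Nat.exists_eq_add_of_le g3
  have e : J + 2 = ω + d + 4 := by omega
  rw [e] at f1 f3 f4 g1
  rcases le_or_gt (2 * d + 4) J with hc | hc
  · obtain ⟨a1, a2⟩ := S4fin_A (by omega) (by omega) ht.symm f1 f3
    exact V_A 2 J _ k Tt le_rfl hk2 g3 (by omega) (by omega) (by omega) hD
  obtain ⟨a1, a2⟩ := S4fin_t (by omega) (by omega) ht.symm hdk g1 f3 f4
  obtain ⟨c, rfl⟩ : ∃ c, d = c + 8 := ⟨d - 8, by omega⟩
  have key := S4fin_key (by omega) (by omega) ht.symm g1 a1 f4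
  obtain ⟨a, b1, b2⟩ : ∃ a, 4 * a ≤ c + 10 ∧ c + 7 ≤ 4 * a := ⟨(c + 10) / 4, by omega, by omega⟩
  have c1 := Nat.mul_le_mul_left k b1
  have c2 := Nat.mul_le_mul_left t b1
  subst hd
  refine V_B2 2 _ _ k Tt a (c + 8) t le_rfl rfl ht.symm g4 (by omega) (by omega) ?_ ?_ ?_ ?_ hD
  · have : k * t ≤ k * (4 * (a + 1)) := Nat.mul_le_mul_left _ (by omega)
    have := Nat.zero_le (a * t)
    linarith
  · have : t * k ≤ t * (ω + c + 11) := Nat.mul_le_mul_left _ (by omega)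
    linarith
  · have : t * Tt ≤ t * (ω + c + 11) := Nat.mul_le_mul_left _ (by omega)
    linarith
  · have c3 := Nat.mul_le_mul_left Tt b1
    have c4 := Nat.mul_le_mul_left ω a1
    have c5 : 5 * (ω + c + 12) ≤ ω * 41 := by omega
    subst ht
    linarith

end Pool.Agent.Work.MP_f4b644_ag.Thin
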