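import Pool.Agent.Work.MP_f4b644_ag.Thin.S4tau
import Pool.Agent.Work.MP_f4b644_ag.Thin.S4fin

/-!
First dimension 4, second dimension at least 200.
-/

set_option autoImplicit false

namespace Pool.Agent.Work.MP_f4b644_ag.Thin

open Big Multiset Big.Gad

theorem S4_Kle {K K0 v R : ℕ} (h : K * v ≤ R) (h2 : R < (K0 + 1) * v) : K ≤ K0 :=
  Nat.lt_succ_iff.1 (Nat.lt_of_mul_lt_mul_right (lt_of_le_of_lt h h2))

theorem S4_A (J X k Tt : ℕ) (x t : ℤ) (hX : (X : ℤ) = J + x) (hT : (Tt : ℤ) + t = k) (hk : 2 ≤ k)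
    (h1 : Tt ≤ k) (h2 : Tt + 4 ≤ X) (h3 : X + k ≤ J + Tt + 2) (h4 : X + 3 * k ≤ 3 * J + 2)
    (hD : (k : ℤ) * x + J * t ≤ 2 * (k + Tt)) : V 2 J X k Tt (k + Tt) 0 0 0 :=
  V_A 2 J X k Tt le_rfl hk h1 (Or.inr h2) h3 h4
    (Dx 2 J X k Tt (k + Tt) x t hX hT (by push_cast; linarith))

theorem S4_C (j X k Tt s : ℕ) (t : ℤ) (hX : X + 1 = j) (hT : (Tt : ℤ) + t = k) (h1 : 2 ≤ X)
    (h2 : s ≤ k) (h3 : s + X ≤ 3 * j) (hD : (j : ℤ) * t ≤ k + 2 * s) : V 2 j X k Tt s 0 0 0 :=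
  V_CG0 2 j X k Tt s le_rfl h1 (by omega) h2 h3
    (Dx 2 j X k Tt s (-1) t (by omega) hT (by push_cast; linarith))

theorem S4_root (J X r K : ℕ) (hJ : 200 ≤ J) (h2 : 2 ≤ X) (hX : X ≤ J + 1) (hr : r + X = 3 * J)
    (hK : K * (J + X) ≤ r * (J + 2)) : S (2 + 2) J K (replicate r (T 0 0)) := by
  obtain ⟨ω, rfl⟩ : ∃ ω, X = ω + 2 := ⟨X - 2, by omega⟩
  by_cases c0 : ω = 0
  · subst c0
    have h3 : K ≤ r := Nat.le_of_mul_le_mul_right hK (by omega)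
    exact S_of_V (T0 := 0) hr le_rfl (V_CG0 2 J (0 + 2) K 0 (K + 0) le_rfl le_rfl (by omega) le_rfl
      (by omega) (by omega))
  by_cases c1 : ω = 1
  · subst c1
    obtain ⟨i, rfl⟩ : ∃ i, J = i + 2 := ⟨J - 2, by omega⟩
    obtain rfl : r = 3 * i + 3 := by omega
    have h3 := V_A 2 (i + 2) (1 + 2) i 1 le_rfl (by omega) (by omega) (Or.inl rfl) (by omega)
      (by omega) (by omega)
    exact S_of_V (K0 := 3 * i) (T0 := 3) hr (S4_Kle hK (by nlinarith))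
      (V_cutC0 2 _ _ _ _ _ _ (by omega) (by omega) (by omega) (by omega) h3 h3)
  by_cases c2 : ω + 2 = J + 1
  · obtain rfl : J = ω + 1 := by omega
    obtain rfl : r = 2 * ω + 1 := by omega
    obtain ⟨a, ha1, ha2⟩ : ∃ a, 2 * a ≤ ω ∧ ω < 2 * a + 2 := ⟨ω / 2, by omega, by omega⟩
    obtain ⟨b, hb⟩ : ∃ b, ω = a + b := ⟨ω - a, by omega⟩
    exact S_of_V (K0 := ω + 1) (T0 := ω) hr (S4_Kle hK (by nlinarith))
      (V_cutC0 1 a a (a + a) (b + 1) b (b + 1 + b) (by omega) (by omega) (by omega) (by omega)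
        (S4_A _ _ _ _ 1 0 (by omega) (by omega) (by omega) (by omega) (by omega) (by omega)
          (by omega) (by omega))
        (S4_A _ _ _ _ 1 1 (by omega) (by omega) (by omega) (by omega) (by omega) (by omega)
          (by omega) (by omega)))
  obtain ⟨d, rfl⟩ : ∃ d, J = ω + 2 + d := ⟨J - (ω + 2), by omega⟩
  by_cases c3 : d = 1
  · subst c3
    obtain rfl : r = 2 * ω + 7 := by omega
    obtain ⟨a, ha1, ha2⟩ : ∃ a, 5 * a ≤ 2 * ω + 4 ∧ 2 * ω + 4 < 5 * a + 5 :=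
      ⟨(2 * ω + 4) / 5, by omega, by omega⟩
    obtain ⟨b, hb⟩ : ∃ b, ω + 1 = a + b := ⟨ω + 1 - a, by omega⟩
    exact S_of_V (K0 := ω + 6) (T0 := ω + 1) hr (S4_Kle hK (by nlinarith))
      (V_cutC0 1 (a + 2) a (a + 2 + a) (b + 3) b (b + 3 + b) (by omega) (by omega) (by omega)
        (by omega)
        (S4_A _ _ _ _ (-1) 2 (by omega) (by omega) (by omega) (by omega) (by omega) (by omega)
          (by omega) (by omega))
        (S4_A _ _ _ _ (-1) 3 (by omega) (by omega) (by omega) (by omega) (by omega) (by omega)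
          (by omega) (by omega)))
  by_cases c4 : d = 2
  · subst c4
    obtain rfl : r = 2 * ω + 10 := by omega
    obtain ⟨a, ha1, ha2⟩ : ∃ a, 2 * a ≤ ω + 2 ∧ ω + 2 < 2 * a + 2 :=
      ⟨(ω + 2) / 2, by omega, by omega⟩
    obtain ⟨b, hb⟩ : ∃ b, ω + 2 = a + b := ⟨ω + 2 - a, by omega⟩
    exact S_of_V (K0 := ω + 8) (T0 := ω + 2) hr (S4_Kle hK (by nlinarith))
      (V_cutB0 (a + 1) a (2 * a + 3) (b + 1) b (2 * b + 3) (by omega) (by omega) (by omega) le_rfl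
        (S4_C _ _ _ _ _ 6 rfl (by omega) (by omega) (by omega) (by omega) (by omega))
        (S4_C _ _ _ _ _ 6 rfl (by omega) (by omega) (by omega) (by omega) (by omega)))
  by_cases c5 : d = 3
  · subst c5
    obtain rfl : r = 2 * ω + 13 := by omega
    obtain ⟨a, ha1, ha2⟩ : ∃ a, 3 * a ≤ ω + 3 ∧ ω + 3 < 3 * a + 3 :=
      ⟨(ω + 3) / 3, by omega, by omega⟩
    obtain ⟨b, hb⟩ : ∃ b, ω + 2 = a + (a + b) := ⟨ω + 2 - a - a, by omega⟩
    have h3 : V 2 (a + 1) a (ω + 10) (ω + 3) (2 * a + 3) 0 0 0 :=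
      S4_C _ _ _ _ _ 7 rfl (by omega) (by omega) (by omega) (by omega) (by omega)
    exact S_of_V (K0 := ω + 10) (T0 := ω + 3) hr (S4_Kle hK (by nlinarith))
      (V_cutB0 (a + 1) a (2 * a + 3) (a + 1 + (b + 1)) (a + b) (2 * a + 3 + (2 * b + 3)) (by omega)
        (by omega) (by omega) le_rfl h3
        (V_cutB0 _ _ _ _ _ _ rfl rfl rfl (by omega) h3
          (S4_C _ _ _ _ _ 7 rfl (by omega) (by omega) (by omega) (by omega) (by omega))))
  have ht := tau2 (ω + 2 + d) d ω hJ rfl c1 (by omega)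
  have hK' : K * (ω + 2 + d + 2 + ω) ≤ r * (ω + 2 + d + 2) := by
    rwa [show ω + 2 + d + 2 + ω = ω + 2 + d + (ω + 2) by omega]
  by_cases c6 : 3 * (ω + 2) ≤ ω + 2 + d
  · exact S_tau 2 _ ω r K 2 (d - 2 * (ω + 2)) (by omega) hr (by omega) hK' ht
      (fun k Tt h hk => fin2a _ ω _ k Tt hJ (by omega) (by omega) h hk)
  · exact S_tau 2 _ ω r K 1 (2 * d) (by omega) hr (by omega) hK' ht
      (fun k Tt h hk => fin2b _ ω d k Tt hJ rfl (by omega) h hk)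

theorem dense4 {J K : ℕ} (hJ : 200 ≤ J) (hJK : J ≤ K) (hK : K ≤ 3 * (J - 1)) (s : ℕ)
    (h1 : 4 * J * K + 2 * s ≤ s * (4 + J + K))
    (h2 : s * (4 + J + K) + 2 < 4 * J * K + 2 * s + (4 + J + K)) : Dense (RankSet 4 J K s) := by
  have h3 := Top_le (4 * J) (J + 2) K s (by omega) (by nlinarith)
  have h4 : 2 * J ≤ s + 1 := by
    by_contra hc
    have h5 : s * (J + K + 2) ≤ (2 * J - 2) * (J + K + 2) := Nat.mul_le_mul_right _ (by omega)
    obtain ⟨i, rfl⟩ : ∃ i, J = i + 1 := ⟨J - 1, by omega⟩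
    rw [show 2 * (i + 1) - 2 = 2 * i by omega] at h5
    nlinarith
  obtain ⟨X, hX⟩ : ∃ X, s + X = 3 * J := ⟨3 * J - s, by omega⟩
  refine dense_of_S (S4_root J X s K hJ (by omega) (by omega) hX ?_)
  have h6 : K * (s + X) = K * (3 * J) := by rw [hX]
  nlinarith

end Pool.Agent.Work.MP_f4b644_ag.Thin
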