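import Pool.Agent.Work.MP_f4b644_ag.Thin.S5tok
import Pool.Agent.Work.MP_f4b644_ag.Big.Top

/-!
Three strips (j_a, X_a), D_a = k X_a - j_a Tt ≥ 0, k = J + 3, Tt = ω. For a = 2, 3 put s_a = D_a / 3, h_a = D_a % 3; these strips
receive h_a tokens, the first strip has s1 = k + Tt - s2 - s3 tangents, u = h2 + h3 ≤ 4 of them with a mate, and
D1 + u = 3 s1 (D1 + D2 + D3 = 3 (k + Tt)). All strips are `V_CG1`, glued by `tok3`. With c_a = 4 j_a - X_a put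
Φ_a = 3 c_a - D_a; then Φ1 + Φ2 + Φ3 = 3 Z, Z = J - 2 x, and one needs Φ1 ≥ 16, Φ2 ≥ 0, Φ3 ≥ 0.

Here ω + 3 = J + x. a = x / 3, X1 = j1 + a, X2 = j2 + a, X3 = j3 + x3 with x3 = x - 2 a; D_a = (J + 3) x_a - (x - 6) j_a (`Dx` with
t = 6 - x), Φ_a = (x + 3) j_a - (J + 6) x_a, (x + 3) D_a = x_a (9 J - 3 x + 45) - (x - 6) Φ_a. j1, j2 are the smallest numbers with
Φ1 ≥ 16, Φ2 ≥ 0 (`Top_ceil`), so Φ1 ≤ x + 18, Φ2 ≤ x + 2, Φ3 ≥ 3 J - 8 x - 20 ≥ 0. D1, D2 ≤ 3 J + 3, D2 ≥ 0, so D3 ≥ 0.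
D1 + D2 ≥ 3 ω + 33 (from 3 a ≥ x - 2; it reduces to J (3 x - 21) ≥ 7 x x + 20 x + 30, use J ≥ 4 x for x ≥ 25 and J ≥ 200
otherwise) gives s3 + 9 ≤ k and s3 + h3 ≤ k. j_a ≥ 2 x_a (J + 6 ≥ 2 (x + 3)), j3 ≥ 2 x3 from Φ3 ≥ 0; 3 j1, 3 j2 ≤ J + 12;
3 j1 ≥ 2 x + 27 (from (J + 6) (x - 2) ≥ (2 x + 27) (x + 3)) gives 2 j1 + u ≤ s1 = 3 j1 - a - (Φ1 - u) / 3.
Work with integers or introduce y = x - 9, J = 4 x + g; split into lemmas about the numbers only.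
-/

set_option autoImplicit false

namespace Pool.Agent.Work.MP_f4b644_ag.Thin

open Big Multiset Big.Gad

theorem S5M1_low (J x a j Φ : ℕ) (hJ : 200 ≤ J) (h1 : 9 ≤ x) (h2 : 4 * x ≤ J) (ha : x ≤ 3 * a + 2)
    (e : j * (x + 3) = (J + 6) * a + Φ) : 3 * J + 7 * x + 44 ≤ 18 * j := by
  refine Nat.le_of_mul_le_mul_right (c := x + 3) ?_ (by omega)
  have k1 : (J + 6) * x ≤ (J + 6) * (3 * a + 2) := Nat.mul_le_mul_left _ ha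
  obtain ⟨y, rfl⟩ : ∃ y, x = y + 7 := ⟨x - 7, by omega⟩
  have k2 : 7 * (y * y) + 127 * y + 750 ≤ 3 * (J * y) := by
    by_cases c : 18 ≤ y
    · have := Nat.mul_le_mul_right y h2
      have := Nat.mul_le_mul_right y c
      nlinarith
    · have := Nat.mul_le_mul_right y hJ
      have := Nat.mul_le_mul_right y (by omega : y ≤ 17)
      nlinarith
  nlinarith

theorem S5M1_up (J x a j Φ : ℕ) (hJ : 200 ≤ J) (h1 : 9 ≤ x) (h2 : 4 * x ≤ J) (ha : 3 * a ≤ x)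
    (e : j * (x + 3) = (J + 6) * a + Φ) : 9 * j ≤ 3 * J + 3 + 3 * a + Φ := by
  refine Nat.le_of_mul_le_mul_right (c := x + 3) ?_ (by omega)
  have k1 : (J + 6) * (3 * a) ≤ (J + 6) * x := Nat.mul_le_mul_left _ ha
  have k2 : Φ * 9 ≤ Φ * (x + 3) := Nat.mul_le_mul_left _ (by omega)
  have k3 : 0 ≤ a * (x + 3) := Nat.zero_le _
  nlinarith

theorem S5M1_D {J x ω a j Φ D : ℕ} (hω : ω + 3 = J + x) (e : j * (x + 3) = (J + 6) * a + Φ)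
    (eD : D + 3 * a + Φ = 9 * j) : (J + 3) * (j + a) = j * ω + D := by
  zify at *
  linear_combination -e - eD - j * hω

theorem tau3M1 (J x ω : ℕ) (hJ : 200 ≤ J) (h1 : 9 ≤ x) (h2 : 4 * x ≤ J) (hω : ω + 3 = J + x) :
    V 3 J (ω + 3) (J + 3) ω (J + 3 + ω) 0 0 0 := by
  obtain ⟨a, ha, ha'⟩ : ∃ a, 3 * a ≤ x ∧ x ≤ 3 * a + 2 := ⟨x / 3, by omega, by omega⟩
  obtain ⟨j1, p1, q1⟩ := Top_ceil ((J + 6) * a + 16) (x + 3) (by omega)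
  obtain ⟨j2, p2, q2⟩ := Top_ceil ((J + 6) * a) (x + 3) (by omega)
  obtain ⟨Φ1, e1⟩ := Nat.exists_eq_add_of_le (Nat.le_of_add_right_le p1)
  obtain ⟨Φ2, e2⟩ := Nat.exists_eq_add_of_le p2
  have l1 := S5M1_low J x a j1 Φ1 hJ h1 h2 ha' e1
  have l2 := S5M1_low J x a j2 Φ2 hJ h1 h2 ha' e2
  have u1 := S5M1_up J x a j1 Φ1 hJ h1 h2 ha e1
  have u2 := S5M1_up J x a j2 Φ2 hJ h1 h2 ha e2
  have b1 : 16 ≤ Φ1 ∧ Φ1 ≤ x + 18 := by omega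
  have b2 : Φ2 ≤ x + 2 := by omega
  clear p1 q1 p2 q2
  obtain ⟨j3, hj⟩ : ∃ j3, J = j2 + (j3 + j1) := ⟨J - j1 - j2, by omega⟩
  obtain ⟨x3, hx⟩ : ∃ x3, x = 2 * a + x3 := ⟨x - 2 * a, by omega⟩
  obtain ⟨Φ3, hΦ⟩ : ∃ Φ3, Φ1 + Φ2 + Φ3 + 6 * x = 3 * J := ⟨3 * J - 6 * x - Φ1 - Φ2, by omega⟩
  have e3 : j3 * (x + 3) = (J + 6) * x3 + Φ3 := by
    zify at hj hx hΦ e1 e2 ⊢
    linear_combination -e1 - e2 - hΦ - (x + 3) * hj + (J + 6) * hx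
  obtain ⟨D1, d1⟩ : ∃ D, D + 3 * a + Φ1 = 9 * j1 := ⟨9 * j1 - 3 * a - Φ1, by omega⟩
  obtain ⟨D2, d2⟩ : ∃ D, D + 3 * a + Φ2 = 9 * j2 := ⟨9 * j2 - 3 * a - Φ2, by omega⟩
  obtain ⟨D3, d3⟩ : ∃ D, D + 3 * x3 + Φ3 = 9 * j3 := ⟨9 * j3 - 3 * x3 - Φ3, by omega⟩
  have g1 := S5M1_D hω e1 d1
  have g2 := S5M1_D hω e2 d2
  have g3 := S5M1_D hω e3 d3
  have f1 : D1 ≤ 3 * J + 3 := by clear * - u1 d1; omega
  have f2 : D2 ≤ 3 * J + 3 := by clear * - u2 d2; omega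
  have f3 : D1 + D2 + D3 = 3 * (J + 3 + ω) := by clear * - d1 d2 d3 hj hx hΦ hω; omega
  have f4 : D3 + 24 ≤ 3 * J := by clear * - f3 hω d1 d2 l1 l2 b1 b2 ha; omega
  have f5 : 2 * a ≤ j1 ∧ 2 * x + 27 ≤ 3 * j1 := by clear * - l1 ha hJ h2; omega
  have f6 : 2 * a ≤ j2 := by clear * - l2 ha hJ h2; omega
  have f7 : 2 * x3 ≤ j3 := by clear * - u1 u2 b1 b2 ha ha' hx hj hJ h2; omega
  have f8 : 3 ≤ a ∧ 3 ≤ x3 := by clear * - ha ha' hx h1; omega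
  have f9 : 2 * j1 + 6 ≤ J := by clear * - u1 b1 ha hJ h2; omega
  have f10 : 2 * j2 + 6 ≤ J := by clear * - u2 b2 ha hJ h2; omega
  have f11 : ω + 3 = j2 + a + (j3 + x3 + (j1 + a)) := by clear * - hω hj hx; omega
  clear e1 e2 e3 l1 l2 u1 u2 hΦ hx hω h1 h2 hJ ha' b2
  obtain ⟨s2, t2, rfl, r2⟩ : ∃ s t, D2 = 3 * s + t ∧ t < 3 :=
    ⟨D2 / 3, D2 % 3, (Nat.div_add_mod _ _).symm, Nat.mod_lt _ (by norm_num)⟩
  obtain ⟨s3, t3, rfl, r3⟩ : ∃ s t, D3 = 3 * s + t ∧ t < 3 :=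
    ⟨D3 / 3, D3 % 3, (Nat.div_add_mod _ _).symm, Nat.mod_lt _ (by norm_num)⟩
  obtain ⟨s1, hs⟩ : ∃ s1, J + 3 + ω = s2 + (s3 + s1) :=
    ⟨J + 3 + ω - s2 - s3, by clear * - f3; omega⟩
  have f13 : D1 + (t2 + t3) = 3 * s1 := by clear * - f3 hs; omega
  refine tok3 j1 (j1 + a) s1 j2 (j2 + a) s2 t2 j3 (j3 + x3) s3 t3 hj f11 hs le_rfl ?_ ?_ ?_
  · clear g2 g3 d2 d3 f2 f3 f4 f6 f7 f10 f11 hs hj
    exact V_CG1 _ _ _ _ _ _ _ (by omega) (by omega) (by omega) (by omega) (by omega)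
      (Or.inl (by omega)) (Or.inr ⟨by omega, by omega, by omega⟩)
  · clear * - g2 d2 f2 f6 f8 f10 r2
    exact V_CG1 _ _ _ _ _ _ _ (by omega) (by omega) (by omega) (by omega) (by omega)
      (Or.inl (by omega)) (Or.inl rfl)
  · clear * - g3 d3 f4 f7 f8 r3
    exact V_CG1 _ _ _ _ _ _ _ (by omega) (by omega) (by omega) (by omega) (by omega)
      (Or.inr (by omega)) (Or.inl rfl)

end Pool.Agent.Work.MP_f4b644_ag.Thin
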