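import Pool.Agent.Work.MP_f4b644_ag.Thin.S5tok
import Pool.Agent.Work.MP_f4b644_ag.Big.Top

/-!
Three strips (j_a, X_a), D_a = k X_a - j_a Tt ≥ 0, k = J + 3, Tt = ω. For a = 2, 3 put s_a = D_a / 3, h_a = D_a % 3; these strips
receive h_a tokens, the first strip has s1 = k + Tt - s2 - s3 tangents, u = h2 + h3 ≤ 4 of them with a mate, and
D1 + u = 3 s1 (D1 + D2 + D3 = 3 (k + Tt)). All strips are `V_CG1`, glued by `tok3`. With c_a = 4 j_a - X_a put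
Φ_a = 3 c_a - D_a; then Φ1 + Φ2 + Φ3 = 3 Z, Z = J - 2 x, and one needs Φ1 ≥ 16, Φ2 ≥ 0, Φ3 ≥ 0.

Here 2 (ω + 3) + Z = 3 J. Z1 = (Z + 2) / 3, Z2 = (Z + 1) / 3, Z3 = Z / 3 (sum Z), j_a = Z_a + 2 i_a, X_a = Z_a + 3 i_a,
c_a = 3 Z_a + 5 i_a, 2 D_a = (15 + Z) j_a - (J + 3) Z_a (`Dh` with ρ = 15 + Z), 2 Φ_a = (J + 6 - Z) Z_a - 2 Z i_a.
i1 = ((J + 6 - Z) Z1 - 32) / (2 Z), i2 = (J + 6 - Z) Z2 / (2 Z), i3 = (J - Z) / 2 - i1 - i2; 32 ≤ 2 Φ1 < 32 + 2 Z, 0 ≤ 2 Φ2 < 2 Z,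
so 0 ≤ Φ3 ≤ 3 Z. Bounds: i_a ≥ 9 (J - Z ≥ 100, 3 Z_a ≥ Z - 2), D_a ≥ 0 (2 Z D_a = Z_a (15 J + 3 Z + 90) - 2 (15 + Z) Φ_a),
45 j_a ≤ 17 (J + 6) (so 2 j_a + 9 ≤ k), c_a + 2 ≤ J + 3 for a = 2, 3 (from J (Z - 5) ≥ Z Z + 25 Z + 30),
s1 ≤ c1 - 4 ≤ J + 3 (from (Z - 10) (Z - J) ≤ 420), s1 = c1 - (Φ1 - u) / 3 ≥ 2 j1 + u.
Work with integers or introduce J = 2 Z + g; split into lemmas about the numbers only.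
-/

set_option autoImplicit false

namespace Pool.Agent.Work.MP_f4b644_ag.Thin

open Big Multiset Big.Gad

theorem S5M2_lo (Z I Za i P : ℕ) (hZ : 15 ≤ Z) (hI : 50 ≤ I) (h : Z * i + P = (I + 3) * Za)
    (h3 : Z ≤ 3 * Za + 2) (hP : P ≤ 3 * Z) : 9 ≤ i := by
  by_contra hc
  have h1 : Z * i ≤ Z * 8 := Nat.mul_le_mul_left Z (by omega)
  have h2 : 53 * Za ≤ (I + 3) * Za := Nat.mul_le_mul_right Za (by omega)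
  omega

theorem S5M2_up2 (Z I Za i P : ℕ) (hZ : 15 ≤ Z) (hI : 50 ≤ I) (h : Z * i + P = (I + 3) * Za)
    (h3 : 3 * Za ≤ Z + 1) : 5 * i ≤ 2 * I := by
  by_contra hc
  have h1 : Z * (2 * I + 1) ≤ Z * (5 * i) := Nat.mul_le_mul_left Z (by omega)
  have h2 : (I + 3) * (3 * Za) ≤ (I + 3) * (Z + 1) := Nat.mul_le_mul_left _ h3
  obtain ⟨a, rfl⟩ := Nat.exists_eq_add_of_le hZ
  obtain ⟨b, rfl⟩ := Nat.exists_eq_add_of_le hI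
  nlinarith [Nat.zero_le (a * b), Nat.zero_le P]

theorem S5M2_up1 (Z I Za i P : ℕ) (hZ : 15 ≤ Z) (h : Z * i + P = (I + 3) * Za)
    (h3 : 3 * Za ≤ Z + 2) (hP : 16 ≤ P) : 5 * i ≤ 2 * I + 5 := by
  by_contra hc
  have h1 : Z * (2 * I + 6) ≤ Z * (5 * i) := Nat.mul_le_mul_left Z (by omega)
  have h2 : (I + 3) * (3 * Za) ≤ (I + 3) * (Z + 2) := Nat.mul_le_mul_left _ h3
  have h4 : 15 * I ≤ Z * I := Nat.mul_le_mul_right I hZ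
  nlinarith

theorem S5M2_D (Z I ω Za i P : ℕ) (hω : ω + 3 = Z + 3 * I) (h : Z * i + P = (I + 3) * Za) :
    (Z + 2 * I + 3) * (Za + 3 * i) + P = (Za + 2 * i) * ω + 9 * Za + 15 * i := by
  zify at hω h ⊢
  linear_combination h - ((Za : ℤ) + 2 * i) * hω

theorem S5M2_data (Z I : ℕ) (hZ : 15 ≤ Z) (hI : 50 ≤ I) : ∃ Z1 Z2 Z3 i1 i2 i3 P1 P2 P3 : ℕ,
    Z1 + Z2 + Z3 = Z ∧ i1 + i2 + i3 = I ∧ P1 + P2 + P3 = 3 * Z ∧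
    Z * i1 + P1 = (I + 3) * Z1 ∧ Z * i2 + P2 = (I + 3) * Z2 ∧ Z * i3 + P3 = (I + 3) * Z3 ∧
    16 ≤ P1 ∧ P1 < Z + 16 ∧ Z ≤ 3 * Z1 ∧ 3 * Z1 ≤ Z + 2 ∧ Z ≤ 3 * Z2 + 2 ∧ 3 * Z2 ≤ Z + 1 ∧
    Z ≤ 3 * Z3 + 2 ∧ 3 * Z3 ≤ Z + 1 := by
  obtain ⟨Z1, Z2, Z3, hs, a1, a2, a3, a4, a5, a6⟩ : ∃ Z1 Z2 Z3 : ℕ, Z1 + Z2 + Z3 = Z ∧ Z ≤ 3 * Z1 ∧
      3 * Z1 ≤ Z + 2 ∧ Z ≤ 3 * Z2 + 2 ∧ 3 * Z2 ≤ Z + 1 ∧ Z ≤ 3 * Z3 + 2 ∧ 3 * Z3 ≤ Z + 1 :=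
    ⟨(Z + 2) / 3, (Z + 1) / 3, Z / 3, by omega, by omega, by omega, by omega, by omega, by omega,
      by omega⟩
  have h53 : 53 * Z1 ≤ (I + 3) * Z1 := Nat.mul_le_mul_right Z1 (by omega)
  have hZ0 : 0 < Z := by omega
  obtain ⟨i1, P1, e1, b1, b2⟩ : ∃ i1 P1 : ℕ, Z * i1 + P1 = (I + 3) * Z1 ∧ 16 ≤ P1 ∧ P1 < Z + 16 := by
    have d1 := Nat.div_add_mod ((I + 3) * Z1 - 16) Z
    have d2 := Nat.mod_lt ((I + 3) * Z1 - 16) hZ0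
    exact ⟨((I + 3) * Z1 - 16) / Z, ((I + 3) * Z1 - 16) % Z + 16, by omega, by omega, by omega⟩
  obtain ⟨i2, P2, e2, b3⟩ : ∃ i2 P2 : ℕ, Z * i2 + P2 = (I + 3) * Z2 ∧ P2 < Z :=
    ⟨((I + 3) * Z2) / Z, ((I + 3) * Z2) % Z, Nat.div_add_mod _ _, Nat.mod_lt _ hZ0⟩
  have u1 := S5M2_up1 Z I Z1 i1 P1 hZ e1 a2 b1
  have u2 := S5M2_up2 Z I Z2 i2 P2 hZ hI e2 a4
  obtain ⟨i3, hi3⟩ : ∃ i3, i1 + i2 + i3 = I := ⟨I - i1 - i2, by omega⟩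
  obtain ⟨P3, hP3⟩ : ∃ P3, P1 + P2 + P3 = 3 * Z := ⟨3 * Z - P1 - P2, by omega⟩
  refine ⟨Z1, Z2, Z3, i1, i2, i3, P1, P2, P3, hs, hi3, hP3, e1, e2, ?_, b1, b2, a1, a2, a3, a4,
    a5, a6⟩
  zify at hs hi3 hP3 e1 e2 ⊢
  linear_combination (Z : ℤ) * hi3 + hP3 - e1 - e2 - ((I : ℤ) + 3) * hs

theorem tau3M2 (J Z ω : ℕ) (hJ : 200 ≤ J) (h1 : 15 ≤ Z) (h2 : 2 * Z ≤ J) (hω : 2 * (ω + 3) + Z = 3 * J) :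
    V 3 J (ω + 3) (J + 3) ω (J + 3 + ω) 0 0 0 := by
  obtain ⟨I, rfl⟩ : ∃ I, J = Z + 2 * I := ⟨(J - Z) / 2, by omega⟩
  have hI : 50 ≤ I := by omega
  have hw : ω + 3 = Z + 3 * I := by omega
  obtain ⟨Z1, Z2, Z3, i1, i2, i3, P1, P2, P3, hs, hi, hP, e1, e2, e3, b1, b2, a1, a2, a3, a4,
    a5, a6⟩ := S5M2_data Z I h1 hI
  have l1 := S5M2_lo Z I Z1 i1 P1 h1 hI e1 (by omega) (by omega)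
  have l2 := S5M2_lo Z I Z2 i2 P2 h1 hI e2 a3 (by omega)
  have l3 := S5M2_lo Z I Z3 i3 P3 h1 hI e3 a5 (by omega)
  have u1 := S5M2_up1 Z I Z1 i1 P1 h1 e1 a2 b1
  have u2 := S5M2_up2 Z I Z2 i2 P2 h1 hI e2 a4
  have u3 := S5M2_up2 Z I Z3 i3 P3 h1 hI e3 a6
  have d1 := S5M2_D Z I ω Z1 i1 P1 hw e1
  have d2 := S5M2_D Z I ω Z2 i2 P2 hw e2
  have d3 := S5M2_D Z I ω Z3 i3 P3 hw e3
  clear e1 e2 e3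
  obtain ⟨s2, t2, c2, ht2⟩ : ∃ s t : ℕ, 3 * s + t + P2 = 9 * Z2 + 15 * i2 ∧ t ≤ 2 :=
    ⟨(9 * Z2 + 15 * i2 - P2) / 3, (9 * Z2 + 15 * i2 - P2) % 3, by omega, by omega⟩
  obtain ⟨s3, t3, c3, ht3⟩ : ∃ s t : ℕ, 3 * s + t + P3 = 9 * Z3 + 15 * i3 ∧ t ≤ 2 :=
    ⟨(9 * Z3 + 15 * i3 - P3) / 3, (9 * Z3 + 15 * i3 - P3) % 3, by omega, by omega⟩
  obtain ⟨s1, c1⟩ : ∃ s1, Z + 2 * I + 3 + ω = s2 + (s3 + s1) :=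
    ⟨Z + 2 * I + 3 + ω - s2 - s3, by omega⟩
  have c1' : 3 * s1 + P1 = 9 * Z1 + 15 * i1 + (t2 + t3) := by omega
  refine tok3 (Z1 + 2 * i1) (Z1 + 3 * i1) s1 (Z2 + 2 * i2) (Z2 + 3 * i2) s2 t2 (Z3 + 2 * i3)
    (Z3 + 3 * i3) s3 t3 (by omega) (by omega) c1 le_rfl ?_ ?_ ?_
  · exact V_CG1 _ _ _ _ _ _ _ (by omega) (by omega) (by omega) (by omega) (by omega)
      (Or.inl (by omega)) (Or.inr ⟨by omega, by omega, by omega⟩)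
  · exact V_CG1 _ _ _ _ _ _ _ (by omega) (by omega) (by omega) (by omega) (by omega)
      (Or.inl (by omega)) (Or.inl rfl)
  · exact V_CG1 _ _ _ _ _ _ _ (by omega) (by omega) (by omega) (by omega) (by omega)
      (Or.inl (by omega)) (Or.inl rfl)

end Pool.Agent.Work.MP_f4b644_ag.Thin
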