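import Pool.Agent.Work.MP_f4b644_ag.Thin.Base
import Pool.Agent.Work.MP_f4b644_ag.Big.Top

/-!
Blocks with s = k + Tt, cut by `V_cutB0` into two strips.
`V_A`: k ≤ J; the strip `V_sq0 m k Tt` (k rows, X1 = Tt + m, k tangents) and the strip with J - k rows, X - Tt - m,
Tt tangents (`V_X0` if X = Tt + m, otherwise `V_CG0`).
`V_B1`: i = the ceiling of (k + m) / (Tt + m (m + 1)) (`Top_ceil`), strips (m i, m, k - Tt i) and
(J - m i, X - m, Tt + Tt i), both `V_CG0`. With N = Tt + m m + m: i N < k + m + N gives Tt (i + 1) ≤ k by h1;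
i N ≥ k + m gives k - Tt i + m ≤ (m + 1) m i; m (m + 1) i ≤ (m + 1) (m + 1) + k (from (i - 1) (m m + m + 1) < k + m)
gives the conditions of the second strip by h2, h3.
`V_B2`: i = the ceiling of (k a + Tt) / t, s1 = t i - k a, Tt ≤ s1 < k, i > a. Strips (m i, m (i - a), s1) and
(J - m i, X - m (i - a), k + Tt - s1), both `V_CG0`. After multiplying by t (t i = k a + s1) the conditions
s1 ≤ m m i + m a and k + Tt - s1 + m m i + m a ≤ m J + d are linear in s1 and follow from their values at s1 = 0, k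
(F1), resp. s1 = Tt, k (F2a, F2b); hX2 gives m (i - a) + m ≤ X (t i < k a + k = t a + Tt a + k).
`fin_data`: k = B τ / v, Tt by `Top_ceil`; τ (k + Tt - 1) < k v ≤ B τ. `S_of_V`: `Blk_of_V`, `Blk.drop`, `Blk.toS`.
`S_tau`: `fin_data`, `Blk.mul`, `Blk.zero` if k = 0, `Blk.drop`; K ≤ n τ + k because K v ≤ n v τ + B τ < (n τ + k + 1) v.
-/

set_option autoImplicit false

namespace Pool.Agent.Work.MP_f4b644_ag.Thin

open Big Multiset Big.Gad

theorem V_A (m J X k Tt : ℕ) (hm : 2 ≤ m) (hk : 2 ≤ k) (h1 : Tt ≤ k) (h2 : X = Tt + m ∨ Tt + 2 * m ≤ X)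
    (h3 : X + k ≤ J + Tt + m) (h4 : X + (m + 1) * k ≤ (m + 1) * J + m)
    (hD : k * X ≤ J * Tt + m * (k + Tt)) : V m J X k Tt (k + Tt) 0 0 0 := by
  obtain ⟨Y, rfl⟩ : ∃ Y, X = Tt + m + Y := ⟨X - (Tt + m), by omega⟩
  obtain ⟨j, rfl⟩ : ∃ j, J = k + j := ⟨J - k, by omega⟩
  have h5 : Tt + Y ≤ (m + 1) * j := by
    rw [mul_add] at h4
    omega
  refine V_cutB0 k (Tt + m) k j Y Tt rfl rfl rfl le_rfl (V_sq0 m k Tt hm hk h1) ?_
  rcases h2 with h2 | h2
  · obtain rfl : Y = 0 := by omega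
    exact V_X0 m j k Tt Tt h5 (by omega)
  · exact V_CG0 m j Y k Tt Tt hm (by omega) (by omega) h1 h5 (by linarith)

theorem V_B1 (m J X k Tt : ℕ) (hm : 2 ≤ m) (hX : 2 * m ≤ X) (hT : 1 ≤ Tt)
    (h1 : Tt * (2 * Tt + 2 * m * m + 3 * m) ≤ (m * m + m) * k)
    (h2 : 2 * k + X + (m + 1) * (m + 1) ≤ (m + 1) * J) (h3 : (m + 1) * (X + 1) + k ≤ (m + 1) * J)
    (hD : k * X ≤ J * Tt + m * (k + Tt)) : V m J X k Tt (k + Tt) 0 0 0 := by
  obtain ⟨i, i1, i2⟩ := Top_ceil (k + m) (Tt + m * m + m) (by omega)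
  obtain ⟨i, rfl⟩ : ∃ n, i = n + 1 := Nat.exists_eq_succ_of_ne_zero (by
    rintro rfl
    omega)
  have a1 : Tt * (i + 2) ≤ k := Nat.le_of_mul_le_mul_right (c := Tt + m * m + m) (by
    have := Nat.mul_le_mul_left Tt i2.le
    linarith) (by omega)
  have a2 : (m + 1) * (m * i) + 1 ≤ k + m := by
    have := Nat.zero_le (i * Tt)
    linarith
  obtain ⟨Y, rfl⟩ : ∃ Y, X = m + Y := ⟨X - m, by omega⟩
  have a3 : Y + m * (i + 1) ≤ J := Nat.le_of_mul_le_mul_left (c := m + 1) (by linarith) (by omega)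
  obtain ⟨j, rfl⟩ : ∃ j, J = m * (i + 1) + j := ⟨J - m * (i + 1), by omega⟩
  obtain ⟨s, hs⟩ : ∃ s, k = Tt * (i + 1) + s := ⟨k - Tt * (i + 1), by
    have : Tt * (i + 1) ≤ k := (Nat.mul_le_mul_left _ (by omega)).trans a1
    omega⟩
  refine V_cutB0 (m * (i + 1)) m s j Y (Tt * (i + 2)) rfl rfl (by linarith) le_rfl
    (V_CG0 _ _ _ _ _ _ hm le_rfl (Nat.le_mul_of_pos_right _ i.succ_pos) (by omega) (by linarith)
      (le_of_eq (by rw [hs]; ring)))
    (V_CG0 _ _ _ _ _ _ hm (by omega) (by omega) a1 ?_ (by linarith))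
  have := Nat.zero_le m
  linarith

theorem V_B2 (m J X k Tt a d t : ℕ) (hm : 2 ≤ m) (hd : X + d = J) (ht : Tt + t = k) (hT : 1 ≤ Tt)
    (ht1 : 1 ≤ t) (ha : m * a ≤ d) (F1 : k * t ≤ m * m * (k * (a + 1)) + m * (a * t))
    (F2a : m * m * (k * a + Tt) + t * (m * a + k) ≤ t * (m * J + d))
    (F2b : m * m * (k * (a + 1)) + t * (m * a + Tt) ≤ t * (m * J + d))
    (hX2 : m * (Tt * a + k + t) ≤ t * X) (hD : k * X ≤ J * Tt + m * (k + Tt)) :
    V m J X k Tt (k + Tt) 0 0 0 := by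
  obtain ⟨i, i1, i2⟩ := Top_ceil (k * a + Tt) t ht1
  obtain ⟨p, hp⟩ : ∃ p, i * t = k * a + Tt + p := ⟨i * t - (k * a + Tt), by omega⟩
  obtain ⟨q, rfl⟩ : ∃ q, t = p + q := ⟨t - p, by omega⟩
  subst ht
  have a1 : a < i := lt_of_mul_lt_mul_right (a := p + q) (by
    have := Nat.zero_le (Tt * a)
    linarith) (Nat.zero_le _)
  obtain ⟨c, rfl⟩ : ∃ c, i = a + (c + 1) := ⟨i - a - 1, by omega⟩
  have a2 : m * (c + 1) + m ≤ X := Nat.le_of_mul_le_mul_left (c := p + q) (by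
    have h : m * ((a + (c + 1)) * (p + q)) = _ := congrArg _ hp
    have := Nat.zero_le (m * q)
    linarith) ht1
  obtain ⟨Y, rfl⟩ : ∃ Y, X = m * (c + 1) + Y := ⟨X - m * (c + 1), by omega⟩
  obtain ⟨d, rfl⟩ := Nat.exists_eq_add_of_le ha
  have h3 : m * ((a + (c + 1)) * (p + q)) = _ := congrArg _ hp
  have h4 : m * (m * ((a + (c + 1)) * (p + q))) = _ := congrArg _ h3
  have a3 : Tt + p ≤ m * m * (a + (c + 1)) + m * a := Nat.le_of_mul_le_mul_left (c := p + q) (by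
    rcases le_total (p + q) (m * m) with h | h
    · have := Nat.mul_le_mul_right (Tt + p) h
      have := Nat.zero_le (m * m * ((Tt + (p + q)) * a))
      have := Nat.zero_le (m * (a * (p + q)))
      linarith
    · have := Nat.mul_le_mul_right q h
      linarith) ht1
  have a4 : Tt + q + m * m * (a + (c + 1)) + m * a ≤ m * J + (m * a + d) :=
    Nat.le_of_mul_le_mul_left (c := p + q) (by
      rcases le_total (p + q) (m * m) with h | h
      · have := Nat.mul_le_mul_right q h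
        linarith
      · have := Nat.mul_le_mul_right p h
        linarith) ht1
  subst hd
  refine V_cutB0 (m * (a + (c + 1))) (m * (c + 1)) (Tt + p) (Y + d) Y (Tt + q) (by ring) rfl
    (by ring) le_rfl
    (V_CG0 _ _ _ _ _ _ hm (Nat.le_mul_of_pos_right _ c.succ_pos)
      (Nat.mul_le_mul_left _ (by omega)) (by omega) (by linarith) (by linarith))
    (V_CG0 _ _ _ _ _ _ hm (by omega) (by omega) (by omega) (by linarith) (by linarith))

/-- the data of the last block -/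
def FinD (m J ω B k Tt : ℕ) : Prop :=
  k * (J + m + ω) ≤ B * (J + m) ∧ B * (J + m) < (k + 1) * (J + m + ω) ∧ ω * k ≤ (J + m) * Tt ∧
    (J + m) * Tt < ω * k + (J + m) ∧ k + Tt ≤ B

theorem fin_data (m J ω B : ℕ) (hm : 1 ≤ m) : ∃ k Tt, FinD m J ω B k Tt := by
  obtain ⟨t, t1, t2⟩ := Top_ceil (ω * (B * (J + m) / (J + m + ω))) (J + m) (by omega)
  have h1 := Nat.div_mul_le_self (B * (J + m)) (J + m + ω)
  have h2 := Nat.lt_div_mul_add (a := B * (J + m)) (b := J + m + ω) (by omega)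
  refine ⟨_, t, h1, by linarith, by linarith, by linarith, Nat.lt_succ_iff.1
    (lt_of_mul_lt_mul_right (a := J + m) ?_ (Nat.zero_le _))⟩
  rw [Nat.succ_mul]
  linarith

theorem Blocks_toS {I J r K K0 B : ℕ} (hK : K ≤ K0) (hB : K0 ≤ B) (h : Blk I J r K0 B) :
    S I J K (replicate r (T 0 0)) := by
  obtain ⟨n, rfl⟩ := Nat.exists_eq_add_of_le hK
  obtain ⟨b, rfl⟩ : ∃ b, B = b + n := ⟨B - n, by omega⟩
  exact (h.drop n).toS

theorem S_of_V {m J X r K K0 T0 : ℕ} (hr : r + X = (m + 1) * J) (hK : K ≤ K0)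
    (h : V m J X K0 T0 (K0 + T0) 0 0 0) : S (m + 2) J K (replicate r (T 0 0)) := by
  exact Blocks_toS hK (Nat.le_add_right _ _) (Blk_of_V hr h)

theorem S_tau (m J ω r K n B : ℕ) (hm : 1 ≤ m) (hr : r + (ω + m) = (m + 1) * J)
    (hn : r = n * (J + m + ω) + B) (hK : K * (J + m + ω) ≤ r * (J + m))
    (h1 : V m J (ω + m) (J + m) ω (J + m + ω) 0 0 0)
    (h2 : ∀ k Tt, FinD m J ω B k Tt → 1 ≤ k → V m J (ω + m) k Tt (k + Tt) 0 0 0) :
    S (m + 2) J K (replicate r (T 0 0)) := by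
  obtain ⟨k, Tt, hF⟩ := fin_data m J ω B hm
  have h3 : ∃ b, k ≤ b ∧ b ≤ B ∧ Blk (m + 2) J r k b := by
    rcases Nat.eq_zero_or_pos k with rfl | hk
    · exact ⟨0, le_rfl, Nat.zero_le _, Blk.zero _ _ _⟩
    · exact ⟨_, Nat.le_add_right _ _, hF.2.2.2.2, Blk_of_V hr (h2 k Tt hF hk)⟩
  obtain ⟨b, b1, b2, b3⟩ := h3
  refine Blocks_toS (Nat.lt_succ_iff.1 (lt_of_mul_lt_mul_right (a := J + m + ω) ?_ (Nat.zero_le _)))
    (Nat.add_le_add (Nat.mul_le_mul_left _ (Nat.le_add_right _ _)) b1)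
    (Blk.mul n (by omega) (Blk_of_V hr h1) b3)
  have := hF.2.1
  rw [hn] at hK
  rw [Nat.succ_eq_add_one]
  linarith

end Pool.Agent.Work.MP_f4b644_ag.Thin
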