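import Pool.Agent.Work.MP_f4b644_ag.Thin.CG1
import Pool.Agent.Work.MP_f4b644_ag.Thin.Blocks

/-!
First dimension 5, the nearly square formats: with Z = 3 J - 2 X between -7 and 14 the root is cut into three strips.
-/

set_option autoImplicit false

namespace Pool.Agent.Work.MP_f4b644_ag.Thin

open Big Multiset Big.Gad

theorem K_le {K K0 v R : ℕ} (h : K * v ≤ R) (h2 : R < (K0 + 1) * v) : K ≤ K0 :=
  Nat.lt_succ_iff.1 (Nat.lt_of_mul_lt_mul_right (lt_of_le_of_lt h h2))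

theorem Zd_strip (j X K Tt s : ℕ) (z ρ : ℤ) (h1 : 2 * (X : ℤ) + z = 3 * j)
    (h2 : 2 * (Tt : ℤ) + ρ = 3 * K) (h3 : (j : ℤ) * ρ ≤ K * z + 6 * s) (h4 : j + 3 ≤ X)
    (h5 : 9 * X ≤ 14 * j) (h6 : s ≤ K) (h7 : s + X = 4 * j) (h8 : 2 * j + 9 ≤ K) :
    V 3 j X K Tt s 0 0 0 :=
  V_CG1 j X K Tt s 0 0 h4 h5 h6 h7.le (Dh j X K Tt s z ρ h1 h2 h3) (Or.inl h8) (Or.inl rfl)

theorem Zd_n7 (i K : ℕ) (hi : 90 ≤ i)
    (hK : K * (2 * i + 21 + (3 * i + 35)) ≤ (5 * i + 49) * (2 * i + 21 + 3)) :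
    S (3 + 2) (2 * i + 21) K (replicate (5 * i + 49) (T 0 0)) := by
  obtain ⟨a, ha1, ha2⟩ : ∃ a, 6 * a ≤ 1 * (2 * i + 21) + 0 ∧ 1 * (2 * i + 21) + 0 < 6 * a + 6 :=
    ⟨(1 * (2 * i + 21) + 0) / 6, by omega, by omega⟩
  obtain ⟨b, hb1, hb2⟩ : ∃ b, 7 * b ≤ 1 * (2 * i + 21) + 0 ∧ 1 * (2 * i + 21) + 0 < 7 * b + 7 :=
    ⟨(1 * (2 * i + 21) + 0) / 7, by omega, by omega⟩
  obtain ⟨j, hj⟩ : ∃ j, 2 * i + 21 = 2 * a + 0 + (2 * b + 0 + j) := ⟨2 * i + 21 - (2 * a + 0) - (2 * b + 0), by omega⟩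
  obtain ⟨X, hX⟩ : ∃ X, 3 * i + 35 = 3 * a + 1 + (3 * b + 1 + X) := ⟨3 * i + 35 - (3 * a + 1) - (3 * b + 1), by omega⟩
  refine S_of_V (X := 3 * i + 35) (K0 := 2 * i + 21) (T0 := 3 * i + 28) (by omega) (K_le hK (by nlinarith)) ?_
  refine V_cutB0 _ _ (5 * a - 1) _ _ (5 * b - 1 + (4 * j - X)) hj hX (by omega) le_rfl
    (Zd_strip _ _ _ _ _ (-2) 7 (by omega) (by omega) (by omega) (by omega) (by omega) (by omega) (by omega) (by omega)) ?_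
  exact V_cutB0 _ _ _ _ _ _ rfl rfl rfl (by omega)
    (Zd_strip _ _ _ _ _ (-2) 7 (by omega) (by omega) (by omega) (by omega) (by omega) (by omega) (by omega) (by omega))
    (Zd_strip _ _ _ _ _ (-3) 7 (by omega) (by omega) (by omega) (by omega) (by omega) (by omega) (by omega) (by omega))

theorem Zd_n6 (i K : ℕ) (hi : 90 ≤ i)
    (hK : K * (2 * i + 20 + (3 * i + 33)) ≤ (5 * i + 47) * (2 * i + 20 + 3)) :
    S (3 + 2) (2 * i + 20) K (replicate (5 * i + 47) (T 0 0)) := by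
  obtain ⟨a, ha1, ha2⟩ : ∃ a, 6 * a ≤ 1 * (2 * i + 20) + 0 ∧ 1 * (2 * i + 20) + 0 < 6 * a + 6 :=
    ⟨(1 * (2 * i + 20) + 0) / 6, by omega, by omega⟩
  obtain ⟨b, hb1, hb2⟩ : ∃ b, 6 * b ≤ 1 * (2 * i + 20) + 0 ∧ 1 * (2 * i + 20) + 0 < 6 * b + 6 :=
    ⟨(1 * (2 * i + 20) + 0) / 6, by omega, by omega⟩
  obtain ⟨j, hj⟩ : ∃ j, 2 * i + 20 = 2 * a + 0 + (2 * b + 0 + j) := ⟨2 * i + 20 - (2 * a + 0) - (2 * b + 0), by omega⟩
  obtain ⟨X, hX⟩ : ∃ X, 3 * i + 33 = 3 * a + 1 + (3 * b + 1 + X) := ⟨3 * i + 33 - (3 * a + 1) - (3 * b + 1), by omega⟩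
  refine S_of_V (X := 3 * i + 33) (K0 := 2 * i + 20) (T0 := 3 * i + 27) (by omega) (K_le hK (by nlinarith)) ?_
  refine V_cutB0 _ _ (5 * a - 1) _ _ (5 * b - 1 + (4 * j - X)) hj hX (by omega) le_rfl
    (Zd_strip _ _ _ _ _ (-2) 6 (by omega) (by omega) (by omega) (by omega) (by omega) (by omega) (by omega) (by omega)) ?_
  exact V_cutB0 _ _ _ _ _ _ rfl rfl rfl (by omega)
    (Zd_strip _ _ _ _ _ (-2) 6 (by omega) (by omega) (by omega) (by omega) (by omega) (by omega) (by omega) (by omega))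
    (Zd_strip _ _ _ _ _ (-2) 6 (by omega) (by omega) (by omega) (by omega) (by omega) (by omega) (by omega) (by omega))

theorem Zd_n5 (i K : ℕ) (hi : 90 ≤ i)
    (hK : K * (2 * i + 21 + (3 * i + 34)) ≤ (5 * i + 50) * (2 * i + 21 + 3)) :
    S (3 + 2) (2 * i + 21) K (replicate (5 * i + 50) (T 0 0)) := by
  obtain ⟨a, ha1, ha2⟩ : ∃ a, 6 * a ≤ 1 * (2 * i + 21) + 0 ∧ 1 * (2 * i + 21) + 0 < 6 * a + 6 :=
    ⟨(1 * (2 * i + 21) + 0) / 6, by omega, by omega⟩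
  obtain ⟨b, hb1, hb2⟩ : ∃ b, 6 * b ≤ 1 * (2 * i + 21) + 0 ∧ 1 * (2 * i + 21) + 0 < 6 * b + 6 :=
    ⟨(1 * (2 * i + 21) + 0) / 6, by omega, by omega⟩
  obtain ⟨j, hj⟩ : ∃ j, 2 * i + 21 = 2 * a + 0 + (2 * b + 0 + j) := ⟨2 * i + 21 - (2 * a + 0) - (2 * b + 0), by omega⟩
  obtain ⟨X, hX⟩ : ∃ X, 3 * i + 34 = 3 * a + 1 + (3 * b + 1 + X) := ⟨3 * i + 34 - (3 * a + 1) - (3 * b + 1), by omega⟩
  refine S_of_V (X := 3 * i + 34) (K0 := 2 * i + 21) (T0 := 3 * i + 29) (by omega) (K_le hK (by nlinarith)) ?_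
  refine V_cutB0 _ _ (5 * a - 1) _ _ (5 * b - 1 + (4 * j - X)) hj hX (by omega) le_rfl
    (Zd_strip _ _ _ _ _ (-2) 5 (by omega) (by omega) (by omega) (by omega) (by omega) (by omega) (by omega) (by omega)) ?_
  exact V_cutB0 _ _ _ _ _ _ rfl rfl rfl (by omega)
    (Zd_strip _ _ _ _ _ (-2) 5 (by omega) (by omega) (by omega) (by omega) (by omega) (by omega) (by omega) (by omega))
    (Zd_strip _ _ _ _ _ (-1) 5 (by omega) (by omega) (by omega) (by omega) (by omega) (by omega) (by omega) (by omega))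

theorem Zd_n4 (i K : ℕ) (hi : 90 ≤ i)
    (hK : K * (2 * i + 20 + (3 * i + 32)) ≤ (5 * i + 48) * (2 * i + 20 + 3)) :
    S (3 + 2) (2 * i + 20) K (replicate (5 * i + 48) (T 0 0)) := by
  obtain ⟨a, ha1, ha2⟩ : ∃ a, 40 * a ≤ 7 * (2 * i + 20) + 0 ∧ 7 * (2 * i + 20) + 0 < 40 * a + 40 :=
    ⟨(7 * (2 * i + 20) + 0) / 40, by omega, by omega⟩
  obtain ⟨b, hb1, hb2⟩ : ∃ b, 6 * b ≤ 1 * (2 * i + 20) + 0 ∧ 1 * (2 * i + 20) + 0 < 6 * b + 6 :=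
    ⟨(1 * (2 * i + 20) + 0) / 6, by omega, by omega⟩
  obtain ⟨j, hj⟩ : ∃ j, 2 * i + 20 = 2 * a + 0 + (2 * b + 1 + j) := ⟨2 * i + 20 - (2 * a + 0) - (2 * b + 1), by omega⟩
  obtain ⟨X, hX⟩ : ∃ X, 3 * i + 32 = 3 * a + 1 + (3 * b + 2 + X) := ⟨3 * i + 32 - (3 * a + 1) - (3 * b + 2), by omega⟩
  refine S_of_V (X := 3 * i + 32) (K0 := 2 * i + 21) (T0 := 3 * i + 27) (by omega) (K_le hK (by nlinarith)) ?_
  refine V_cutB0 _ _ (5 * a - 1) _ _ (5 * b + 2 + (4 * j - X)) hj hX (by omega) le_rfl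
    (Zd_strip _ _ _ _ _ (-2) 9 (by omega) (by omega) (by omega) (by omega) (by omega) (by omega) (by omega) (by omega)) ?_
  exact V_cutB0 _ _ _ _ _ _ rfl rfl rfl (by omega)
    (Zd_strip _ _ _ _ _ (-1) 9 (by omega) (by omega) (by omega) (by omega) (by omega) (by omega) (by omega) (by omega))
    (Zd_strip _ _ _ _ _ (-1) 9 (by omega) (by omega) (by omega) (by omega) (by omega) (by omega) (by omega) (by omega))

theorem Zd_n3 (i K : ℕ) (hi : 90 ≤ i)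
    (hK : K * (2 * i + 21 + (3 * i + 33)) ≤ (5 * i + 51) * (2 * i + 21 + 3)) :
    S (3 + 2) (2 * i + 21) K (replicate (5 * i + 51) (T 0 0)) := by
  obtain ⟨a, ha1, ha2⟩ : ∃ a, 6 * a ≤ 1 * (2 * i + 21) + 0 ∧ 1 * (2 * i + 21) + 0 < 6 * a + 6 :=
    ⟨(1 * (2 * i + 21) + 0) / 6, by omega, by omega⟩
  obtain ⟨b, hb1, hb2⟩ : ∃ b, 6 * b ≤ 1 * (2 * i + 21) + 0 ∧ 1 * (2 * i + 21) + 0 < 6 * b + 6 :=
    ⟨(1 * (2 * i + 21) + 0) / 6, by omega, by omega⟩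
  obtain ⟨j, hj⟩ : ∃ j, 2 * i + 21 = 2 * a + 1 + (2 * b + 1 + j) := ⟨2 * i + 21 - (2 * a + 1) - (2 * b + 1), by omega⟩
  obtain ⟨X, hX⟩ : ∃ X, 3 * i + 33 = 3 * a + 2 + (3 * b + 2 + X) := ⟨3 * i + 33 - (3 * a + 2) - (3 * b + 2), by omega⟩
  refine S_of_V (X := 3 * i + 33) (K0 := 2 * i + 22) (T0 := 3 * i + 29) (by omega) (K_le hK (by nlinarith)) ?_
  refine V_cutB0 _ _ (5 * a + 2) _ _ (5 * b + 2 + (4 * j - X)) hj hX (by omega) le_rfl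
    (Zd_strip _ _ _ _ _ (-1) 8 (by omega) (by omega) (by omega) (by omega) (by omega) (by omega) (by omega) (by omega)) ?_
  exact V_cutB0 _ _ _ _ _ _ rfl rfl rfl (by omega)
    (Zd_strip _ _ _ _ _ (-1) 8 (by omega) (by omega) (by omega) (by omega) (by omega) (by omega) (by omega) (by omega))
    (Zd_strip _ _ _ _ _ (-1) 8 (by omega) (by omega) (by omega) (by omega) (by omega) (by omega) (by omega) (by omega))

theorem Zd_n2 (i K : ℕ) (hi : 90 ≤ i)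
    (hK : K * (2 * i + 20 + (3 * i + 31)) ≤ (5 * i + 49) * (2 * i + 20 + 3)) :
    S (3 + 2) (2 * i + 20) K (replicate (5 * i + 49) (T 0 0)) := by
  obtain ⟨a, ha1, ha2⟩ : ∃ a, 40 * a ≤ 7 * (2 * i + 20) + 0 ∧ 7 * (2 * i + 20) + 0 < 40 * a + 40 :=
    ⟨(7 * (2 * i + 20) + 0) / 40, by omega, by omega⟩
  obtain ⟨b, hb1, hb2⟩ : ∃ b, 40 * b ≤ 7 * (2 * i + 20) + 0 ∧ 7 * (2 * i + 20) + 0 < 40 * b + 40 :=
    ⟨(7 * (2 * i + 20) + 0) / 40, by omega, by omega⟩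
  obtain ⟨j, hj⟩ : ∃ j, 2 * i + 20 = 2 * a + 1 + (2 * b + 1 + j) := ⟨2 * i + 20 - (2 * a + 1) - (2 * b + 1), by omega⟩
  obtain ⟨X, hX⟩ : ∃ X, 3 * i + 31 = 3 * a + 2 + (3 * b + 2 + X) := ⟨3 * i + 31 - (3 * a + 2) - (3 * b + 2), by omega⟩
  refine S_of_V (X := 3 * i + 31) (K0 := 2 * i + 22) (T0 := 3 * i + 27) (by omega) (K_le hK (by nlinarith)) ?_
  refine V_cutB0 _ _ (5 * a + 2) _ _ (5 * b + 2 + (4 * j - X)) hj hX (by omega) le_rfl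
    (Zd_strip _ _ _ _ _ (-1) 12 (by omega) (by omega) (by omega) (by omega) (by omega) (by omega) (by omega) (by omega)) ?_
  exact V_cutB0 _ _ _ _ _ _ rfl rfl rfl (by omega)
    (Zd_strip _ _ _ _ _ (-1) 12 (by omega) (by omega) (by omega) (by omega) (by omega) (by omega) (by omega) (by omega))
    (Zd_strip _ _ _ _ _ 0 12 (by omega) (by omega) (by omega) (by omega) (by omega) (by omega) (by omega) (by omega))

theorem Zd_n1 (i K : ℕ) (hi : 90 ≤ i)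
    (hK : K * (2 * i + 21 + (3 * i + 32)) ≤ (5 * i + 52) * (2 * i + 21 + 3)) :
    S (3 + 2) (2 * i + 21) K (replicate (5 * i + 52) (T 0 0)) := by
  obtain ⟨a, ha1, ha2⟩ : ∃ a, 6 * a ≤ 1 * (2 * i + 21) + 0 ∧ 1 * (2 * i + 21) + 0 < 6 * a + 6 :=
    ⟨(1 * (2 * i + 21) + 0) / 6, by omega, by omega⟩
  obtain ⟨b, hb1, hb2⟩ : ∃ b, 6 * b ≤ 1 * (2 * i + 21) + 0 ∧ 1 * (2 * i + 21) + 0 < 6 * b + 6 :=
    ⟨(1 * (2 * i + 21) + 0) / 6, by omega, by omega⟩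
  obtain ⟨j, hj⟩ : ∃ j, 2 * i + 21 = 2 * a + 1 + (2 * b + 0 + j) := ⟨2 * i + 21 - (2 * a + 1) - (2 * b + 0), by omega⟩
  obtain ⟨X, hX⟩ : ∃ X, 3 * i + 32 = 3 * a + 2 + (3 * b + 0 + X) := ⟨3 * i + 32 - (3 * a + 2) - (3 * b + 0), by omega⟩
  refine S_of_V (X := 3 * i + 32) (K0 := 2 * i + 23) (T0 := 3 * i + 29) (by omega) (K_le hK (by nlinarith)) ?_
  refine V_cutB0 _ _ (5 * a + 2) _ _ (5 * b + 0 + (4 * j - X)) hj hX (by omega) le_rfl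
    (Zd_strip _ _ _ _ _ (-1) 11 (by omega) (by omega) (by omega) (by omega) (by omega) (by omega) (by omega) (by omega)) ?_
  exact V_cutB0 _ _ _ _ _ _ rfl rfl rfl (by omega)
    (Zd_strip _ _ _ _ _ 0 11 (by omega) (by omega) (by omega) (by omega) (by omega) (by omega) (by omega) (by omega))
    (Zd_strip _ _ _ _ _ 0 11 (by omega) (by omega) (by omega) (by omega) (by omega) (by omega) (by omega) (by omega))

theorem Zd_p0 (i K : ℕ) (hi : 90 ≤ i)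
    (hK : K * (2 * i + 20 + (3 * i + 30)) ≤ (5 * i + 50) * (2 * i + 20 + 3)) :
    S (3 + 2) (2 * i + 20) K (replicate (5 * i + 50) (T 0 0)) := by
  obtain ⟨a, ha1, ha2⟩ : ∃ a, 6 * a ≤ 1 * (2 * i + 20) + 0 ∧ 1 * (2 * i + 20) + 0 < 6 * a + 6 :=
    ⟨(1 * (2 * i + 20) + 0) / 6, by omega, by omega⟩
  obtain ⟨b, hb1, hb2⟩ : ∃ b, 6 * b ≤ 1 * (2 * i + 20) + 0 ∧ 1 * (2 * i + 20) + 0 < 6 * b + 6 :=
    ⟨(1 * (2 * i + 20) + 0) / 6, by omega, by omega⟩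
  obtain ⟨j, hj⟩ : ∃ j, 2 * i + 20 = 2 * a + 0 + (2 * b + 0 + j) := ⟨2 * i + 20 - (2 * a + 0) - (2 * b + 0), by omega⟩
  obtain ⟨X, hX⟩ : ∃ X, 3 * i + 30 = 3 * a + 0 + (3 * b + 0 + X) := ⟨3 * i + 30 - (3 * a + 0) - (3 * b + 0), by omega⟩
  refine S_of_V (X := 3 * i + 30) (K0 := 2 * i + 23) (T0 := 3 * i + 27) (by omega) (K_le hK (by nlinarith)) ?_
  refine V_cutB0 _ _ (5 * a + 0) _ _ (5 * b + 0 + (4 * j - X)) hj hX (by omega) le_rfl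
    (Zd_strip _ _ _ _ _ 0 15 (by omega) (by omega) (by omega) (by omega) (by omega) (by omega) (by omega) (by omega)) ?_
  exact V_cutB0 _ _ _ _ _ _ rfl rfl rfl (by omega)
    (Zd_strip _ _ _ _ _ 0 15 (by omega) (by omega) (by omega) (by omega) (by omega) (by omega) (by omega) (by omega))
    (Zd_strip _ _ _ _ _ 0 15 (by omega) (by omega) (by omega) (by omega) (by omega) (by omega) (by omega) (by omega))

theorem Zd_p1 (i K : ℕ) (hi : 90 ≤ i)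
    (hK : K * (2 * i + 21 + (3 * i + 31)) ≤ (5 * i + 53) * (2 * i + 21 + 3)) :
    S (3 + 2) (2 * i + 21) K (replicate (5 * i + 53) (T 0 0)) := by
  obtain ⟨a, ha1, ha2⟩ : ∃ a, 6 * a ≤ 1 * (2 * i + 21) + 0 ∧ 1 * (2 * i + 21) + 0 < 6 * a + 6 :=
    ⟨(1 * (2 * i + 21) + 0) / 6, by omega, by omega⟩
  obtain ⟨b, hb1, hb2⟩ : ∃ b, 6 * b ≤ 1 * (2 * i + 21) + 0 ∧ 1 * (2 * i + 21) + 0 < 6 * b + 6 :=
    ⟨(1 * (2 * i + 21) + 0) / 6, by omega, by omega⟩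
  obtain ⟨j, hj⟩ : ∃ j, 2 * i + 21 = 2 * a + 0 + (2 * b + 0 + j) := ⟨2 * i + 21 - (2 * a + 0) - (2 * b + 0), by omega⟩
  obtain ⟨X, hX⟩ : ∃ X, 3 * i + 31 = 3 * a + 0 + (3 * b + 0 + X) := ⟨3 * i + 31 - (3 * a + 0) - (3 * b + 0), by omega⟩
  refine S_of_V (X := 3 * i + 31) (K0 := 2 * i + 24) (T0 := 3 * i + 29) (by omega) (K_le hK (by nlinarith)) ?_
  refine V_cutB0 _ _ (5 * a + 0) _ _ (5 * b + 0 + (4 * j - X)) hj hX (by omega) le_rfl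
    (Zd_strip _ _ _ _ _ 0 14 (by omega) (by omega) (by omega) (by omega) (by omega) (by omega) (by omega) (by omega)) ?_
  exact V_cutB0 _ _ _ _ _ _ rfl rfl rfl (by omega)
    (Zd_strip _ _ _ _ _ 0 14 (by omega) (by omega) (by omega) (by omega) (by omega) (by omega) (by omega) (by omega))
    (Zd_strip _ _ _ _ _ 1 14 (by omega) (by omega) (by omega) (by omega) (by omega) (by omega) (by omega) (by omega))

theorem Zd_p2 (i K : ℕ) (hi : 90 ≤ i)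
    (hK : K * (2 * i + 20 + (3 * i + 29)) ≤ (5 * i + 51) * (2 * i + 20 + 3)) :
    S (3 + 2) (2 * i + 20) K (replicate (5 * i + 51) (T 0 0)) := by
  obtain ⟨a, ha1, ha2⟩ : ∃ a, 6 * a ≤ 1 * (2 * i + 20) + 0 ∧ 1 * (2 * i + 20) + 0 < 6 * a + 6 :=
    ⟨(1 * (2 * i + 20) + 0) / 6, by omega, by omega⟩
  obtain ⟨b, hb1, hb2⟩ : ∃ b, 6 * b ≤ 1 * (2 * i + 20) + 0 ∧ 1 * (2 * i + 20) + 0 < 6 * b + 6 :=
    ⟨(1 * (2 * i + 20) + 0) / 6, by omega, by omega⟩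
  obtain ⟨j, hj⟩ : ∃ j, 2 * i + 20 = 2 * a + 0 + (2 * b + 1 + j) := ⟨2 * i + 20 - (2 * a + 0) - (2 * b + 1), by omega⟩
  obtain ⟨X, hX⟩ : ∃ X, 3 * i + 29 = 3 * a + 0 + (3 * b + 1 + X) := ⟨3 * i + 29 - (3 * a + 0) - (3 * b + 1), by omega⟩
  refine S_of_V (X := 3 * i + 29) (K0 := 2 * i + 23) (T0 := 3 * i + 28) (by omega) (K_le hK (by nlinarith)) ?_
  refine V_cutB0 _ _ (5 * a + 0) _ _ (5 * b + 3 + (4 * j - X)) hj hX (by omega) le_rfl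
    (Zd_strip _ _ _ _ _ 0 13 (by omega) (by omega) (by omega) (by omega) (by omega) (by omega) (by omega) (by omega)) ?_
  exact V_cutB0 _ _ _ _ _ _ rfl rfl rfl (by omega)
    (Zd_strip _ _ _ _ _ 1 13 (by omega) (by omega) (by omega) (by omega) (by omega) (by omega) (by omega) (by omega))
    (Zd_strip _ _ _ _ _ 1 13 (by omega) (by omega) (by omega) (by omega) (by omega) (by omega) (by omega) (by omega))

theorem Zd_p3 (i K : ℕ) (hi : 90 ≤ i)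
    (hK : K * (2 * i + 21 + (3 * i + 30)) ≤ (5 * i + 54) * (2 * i + 21 + 3)) :
    S (3 + 2) (2 * i + 21) K (replicate (5 * i + 54) (T 0 0)) := by
  obtain ⟨a, ha1, ha2⟩ : ∃ a, 6 * a ≤ 1 * (2 * i + 21) + 0 ∧ 1 * (2 * i + 21) + 0 < 6 * a + 6 :=
    ⟨(1 * (2 * i + 21) + 0) / 6, by omega, by omega⟩
  obtain ⟨b, hb1, hb2⟩ : ∃ b, 6 * b ≤ 1 * (2 * i + 21) + 0 ∧ 1 * (2 * i + 21) + 0 < 6 * b + 6 :=
    ⟨(1 * (2 * i + 21) + 0) / 6, by omega, by omega⟩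
  obtain ⟨j, hj⟩ : ∃ j, 2 * i + 21 = 2 * a + 1 + (2 * b + 1 + j) := ⟨2 * i + 21 - (2 * a + 1) - (2 * b + 1), by omega⟩
  obtain ⟨X, hX⟩ : ∃ X, 3 * i + 30 = 3 * a + 1 + (3 * b + 1 + X) := ⟨3 * i + 30 - (3 * a + 1) - (3 * b + 1), by omega⟩
  refine S_of_V (X := 3 * i + 30) (K0 := 2 * i + 25) (T0 := 3 * i + 29) (by omega) (K_le hK (by nlinarith)) ?_
  refine V_cutB0 _ _ (5 * a + 3) _ _ (5 * b + 3 + (4 * j - X)) hj hX (by omega) le_rfl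
    (Zd_strip _ _ _ _ _ 1 17 (by omega) (by omega) (by omega) (by omega) (by omega) (by omega) (by omega) (by omega)) ?_
  exact V_cutB0 _ _ _ _ _ _ rfl rfl rfl (by omega)
    (Zd_strip _ _ _ _ _ 1 17 (by omega) (by omega) (by omega) (by omega) (by omega) (by omega) (by omega) (by omega))
    (Zd_strip _ _ _ _ _ 1 17 (by omega) (by omega) (by omega) (by omega) (by omega) (by omega) (by omega) (by omega))

theorem Zd_p4 (i K : ℕ) (hi : 90 ≤ i)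
    (hK : K * (2 * i + 20 + (3 * i + 28)) ≤ (5 * i + 52) * (2 * i + 20 + 3)) :
    S (3 + 2) (2 * i + 20) K (replicate (5 * i + 52) (T 0 0)) := by
  obtain ⟨a, ha1, ha2⟩ : ∃ a, 6 * a ≤ 1 * (2 * i + 20) + 0 ∧ 1 * (2 * i + 20) + 0 < 6 * a + 6 :=
    ⟨(1 * (2 * i + 20) + 0) / 6, by omega, by omega⟩
  obtain ⟨b, hb1, hb2⟩ : ∃ b, 6 * b ≤ 1 * (2 * i + 20) + 0 ∧ 1 * (2 * i + 20) + 0 < 6 * b + 6 :=
    ⟨(1 * (2 * i + 20) + 0) / 6, by omega, by omega⟩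
  obtain ⟨j, hj⟩ : ∃ j, 2 * i + 20 = 2 * a + 1 + (2 * b + 1 + j) := ⟨2 * i + 20 - (2 * a + 1) - (2 * b + 1), by omega⟩
  obtain ⟨X, hX⟩ : ∃ X, 3 * i + 28 = 3 * a + 1 + (3 * b + 1 + X) := ⟨3 * i + 28 - (3 * a + 1) - (3 * b + 1), by omega⟩
  refine S_of_V (X := 3 * i + 28) (K0 := 2 * i + 24) (T0 := 3 * i + 28) (by omega) (K_le hK (by nlinarith)) ?_
  refine V_cutB0 _ _ (5 * a + 3) _ _ (5 * b + 3 + (4 * j - X)) hj hX (by omega) le_rfl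
    (Zd_strip _ _ _ _ _ 1 16 (by omega) (by omega) (by omega) (by omega) (by omega) (by omega) (by omega) (by omega)) ?_
  exact V_cutB0 _ _ _ _ _ _ rfl rfl rfl (by omega)
    (Zd_strip _ _ _ _ _ 1 16 (by omega) (by omega) (by omega) (by omega) (by omega) (by omega) (by omega) (by omega))
    (Zd_strip _ _ _ _ _ 2 16 (by omega) (by omega) (by omega) (by omega) (by omega) (by omega) (by omega) (by omega))

theorem Zd_p5 (i K : ℕ) (hi : 90 ≤ i)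
    (hK : K * (2 * i + 21 + (3 * i + 29)) ≤ (5 * i + 55) * (2 * i + 21 + 3)) :
    S (3 + 2) (2 * i + 21) K (replicate (5 * i + 55) (T 0 0)) := by
  obtain ⟨a, ha1, ha2⟩ : ∃ a, 10 * a ≤ 1 * (2 * i + 21) + 3 ∧ 1 * (2 * i + 21) + 3 < 10 * a + 10 :=
    ⟨(1 * (2 * i + 21) + 3) / 10, by omega, by omega⟩
  obtain ⟨b, hb1, hb2⟩ : ∃ b, 5 * b ≤ 1 * (2 * i + 21) + 4 ∧ 1 * (2 * i + 21) + 4 < 5 * b + 5 :=
    ⟨(1 * (2 * i + 21) + 4) / 5, by omega, by omega⟩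
  obtain ⟨j, hj⟩ : ∃ j, 2 * i + 21 = 2 * a + 1 + (2 * b + 0 + j) := ⟨2 * i + 21 - (2 * a + 1) - (2 * b + 0), by omega⟩
  obtain ⟨X, hX⟩ : ∃ X, 3 * i + 29 = 3 * a + 1 + (3 * b - 1 + X) := ⟨3 * i + 29 - (3 * a + 1) - (3 * b - 1), by omega⟩
  refine S_of_V (X := 3 * i + 29) (K0 := 2 * i + 26) (T0 := 3 * i + 29) (by omega) (K_le hK (by nlinarith)) ?_
  refine V_cutB0 _ _ (5 * a + 3) _ _ (5 * b + 1 + (4 * j - X)) hj hX (by omega) le_rfl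
    (Zd_strip _ _ _ _ _ 1 20 (by omega) (by omega) (by omega) (by omega) (by omega) (by omega) (by omega) (by omega)) ?_
  exact V_cutB0 _ _ _ _ _ _ rfl rfl rfl (by omega)
    (Zd_strip _ _ _ _ _ 2 20 (by omega) (by omega) (by omega) (by omega) (by omega) (by omega) (by omega) (by omega))
    (Zd_strip _ _ _ _ _ 2 20 (by omega) (by omega) (by omega) (by omega) (by omega) (by omega) (by omega) (by omega))

theorem Zd_p6 (i K : ℕ) (hi : 90 ≤ i)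
    (hK : K * (2 * i + 20 + (3 * i + 27)) ≤ (5 * i + 53) * (2 * i + 20 + 3)) :
    S (3 + 2) (2 * i + 20) K (replicate (5 * i + 53) (T 0 0)) := by
  obtain ⟨a, ha1, ha2⟩ : ∃ a, 6 * a ≤ 1 * (2 * i + 20) + 0 ∧ 1 * (2 * i + 20) + 0 < 6 * a + 6 :=
    ⟨(1 * (2 * i + 20) + 0) / 6, by omega, by omega⟩
  obtain ⟨b, hb1, hb2⟩ : ∃ b, 6 * b ≤ 1 * (2 * i + 20) + 0 ∧ 1 * (2 * i + 20) + 0 < 6 * b + 6 :=
    ⟨(1 * (2 * i + 20) + 0) / 6, by omega, by omega⟩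
  obtain ⟨j, hj⟩ : ∃ j, 2 * i + 20 = 2 * a + 0 + (2 * b + 0 + j) := ⟨2 * i + 20 - (2 * a + 0) - (2 * b + 0), by omega⟩
  obtain ⟨X, hX⟩ : ∃ X, 3 * i + 27 = 3 * a - 1 + (3 * b - 1 + X) := ⟨3 * i + 27 - (3 * a - 1) - (3 * b - 1), by omega⟩
  refine S_of_V (X := 3 * i + 27) (K0 := 2 * i + 25) (T0 := 3 * i + 28) (by omega) (K_le hK (by nlinarith)) ?_
  refine V_cutB0 _ _ (5 * a + 1) _ _ (5 * b + 1 + (4 * j - X)) hj hX (by omega) le_rfl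
    (Zd_strip _ _ _ _ _ 2 19 (by omega) (by omega) (by omega) (by omega) (by omega) (by omega) (by omega) (by omega)) ?_
  exact V_cutB0 _ _ _ _ _ _ rfl rfl rfl (by omega)
    (Zd_strip _ _ _ _ _ 2 19 (by omega) (by omega) (by omega) (by omega) (by omega) (by omega) (by omega) (by omega))
    (Zd_strip _ _ _ _ _ 2 19 (by omega) (by omega) (by omega) (by omega) (by omega) (by omega) (by omega) (by omega))

theorem Zd_p7 (i K : ℕ) (hi : 90 ≤ i)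
    (hK : K * (2 * i + 21 + (3 * i + 28)) ≤ (5 * i + 56) * (2 * i + 21 + 3)) :
    S (3 + 2) (2 * i + 21) K (replicate (5 * i + 56) (T 0 0)) := by
  obtain ⟨a, ha1, ha2⟩ : ∃ a, 6 * a ≤ 1 * (2 * i + 21) + 0 ∧ 1 * (2 * i + 21) + 0 < 6 * a + 6 :=
    ⟨(1 * (2 * i + 21) + 0) / 6, by omega, by omega⟩
  obtain ⟨b, hb1, hb2⟩ : ∃ b, 6 * b ≤ 1 * (2 * i + 21) + 0 ∧ 1 * (2 * i + 21) + 0 < 6 * b + 6 :=
    ⟨(1 * (2 * i + 21) + 0) / 6, by omega, by omega⟩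
  obtain ⟨j, hj⟩ : ∃ j, 2 * i + 21 = 2 * a + 0 + (2 * b + 0 + j) := ⟨2 * i + 21 - (2 * a + 0) - (2 * b + 0), by omega⟩
  obtain ⟨X, hX⟩ : ∃ X, 3 * i + 28 = 3 * a - 1 + (3 * b - 1 + X) := ⟨3 * i + 28 - (3 * a - 1) - (3 * b - 1), by omega⟩
  refine S_of_V (X := 3 * i + 28) (K0 := 2 * i + 26) (T0 := 3 * i + 30) (by omega) (K_le hK (by nlinarith)) ?_
  refine V_cutB0 _ _ (5 * a + 1) _ _ (5 * b + 1 + (4 * j - X)) hj hX (by omega) le_rfl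
    (Zd_strip _ _ _ _ _ 2 18 (by omega) (by omega) (by omega) (by omega) (by omega) (by omega) (by omega) (by omega)) ?_
  exact V_cutB0 _ _ _ _ _ _ rfl rfl rfl (by omega)
    (Zd_strip _ _ _ _ _ 2 18 (by omega) (by omega) (by omega) (by omega) (by omega) (by omega) (by omega) (by omega))
    (Zd_strip _ _ _ _ _ 3 18 (by omega) (by omega) (by omega) (by omega) (by omega) (by omega) (by omega) (by omega))

theorem Zd_p8 (i K : ℕ) (hi : 90 ≤ i)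
    (hK : K * (2 * i + 20 + (3 * i + 26)) ≤ (5 * i + 54) * (2 * i + 20 + 3)) :
    S (3 + 2) (2 * i + 20) K (replicate (5 * i + 54) (T 0 0)) := by
  obtain ⟨a, ha1, ha2⟩ : ∃ a, 8 * a ≤ 1 * (2 * i + 20) + 0 ∧ 1 * (2 * i + 20) + 0 < 8 * a + 8 :=
    ⟨(1 * (2 * i + 20) + 0) / 8, by omega, by omega⟩
  obtain ⟨b, hb1, hb2⟩ : ∃ b, 5 * b ≤ 1 * (2 * i + 20) + 0 ∧ 1 * (2 * i + 20) + 0 < 5 * b + 5 :=
    ⟨(1 * (2 * i + 20) + 0) / 5, by omega, by omega⟩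
  obtain ⟨j, hj⟩ : ∃ j, 2 * i + 20 = 2 * a + 0 + (2 * b + 1 + j) := ⟨2 * i + 20 - (2 * a + 0) - (2 * b + 1), by omega⟩
  obtain ⟨X, hX⟩ : ∃ X, 3 * i + 26 = 3 * a - 1 + (3 * b + 0 + X) := ⟨3 * i + 26 - (3 * a - 1) - (3 * b + 0), by omega⟩
  refine S_of_V (X := 3 * i + 26) (K0 := 2 * i + 26) (T0 := 3 * i + 28) (by omega) (K_le hK (by nlinarith)) ?_
  refine V_cutB0 _ _ (5 * a + 1) _ _ (5 * b + 4 + (4 * j - X)) hj hX (by omega) le_rfl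
    (Zd_strip _ _ _ _ _ 2 22 (by omega) (by omega) (by omega) (by omega) (by omega) (by omega) (by omega) (by omega)) ?_
  exact V_cutB0 _ _ _ _ _ _ rfl rfl rfl (by omega)
    (Zd_strip _ _ _ _ _ 3 22 (by omega) (by omega) (by omega) (by omega) (by omega) (by omega) (by omega) (by omega))
    (Zd_strip _ _ _ _ _ 3 22 (by omega) (by omega) (by omega) (by omega) (by omega) (by omega) (by omega) (by omega))

theorem Zd_p9 (i K : ℕ) (hi : 90 ≤ i)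
    (hK : K * (2 * i + 21 + (3 * i + 27)) ≤ (5 * i + 57) * (2 * i + 21 + 3)) :
    S (3 + 2) (2 * i + 21) K (replicate (5 * i + 57) (T 0 0)) := by
  obtain ⟨a, ha1, ha2⟩ : ∃ a, 6 * a ≤ 1 * (2 * i + 21) + 0 ∧ 1 * (2 * i + 21) + 0 < 6 * a + 6 :=
    ⟨(1 * (2 * i + 21) + 0) / 6, by omega, by omega⟩
  obtain ⟨b, hb1, hb2⟩ : ∃ b, 6 * b ≤ 1 * (2 * i + 21) + 0 ∧ 1 * (2 * i + 21) + 0 < 6 * b + 6 :=
    ⟨(1 * (2 * i + 21) + 0) / 6, by omega, by omega⟩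
  obtain ⟨j, hj⟩ : ∃ j, 2 * i + 21 = 2 * a + 1 + (2 * b + 1 + j) := ⟨2 * i + 21 - (2 * a + 1) - (2 * b + 1), by omega⟩
  obtain ⟨X, hX⟩ : ∃ X, 3 * i + 27 = 3 * a + 0 + (3 * b + 0 + X) := ⟨3 * i + 27 - (3 * a + 0) - (3 * b + 0), by omega⟩
  refine S_of_V (X := 3 * i + 27) (K0 := 2 * i + 27) (T0 := 3 * i + 30) (by omega) (K_le hK (by nlinarith)) ?_
  refine V_cutB0 _ _ (5 * a + 4) _ _ (5 * b + 4 + (4 * j - X)) hj hX (by omega) le_rfl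
    (Zd_strip _ _ _ _ _ 3 21 (by omega) (by omega) (by omega) (by omega) (by omega) (by omega) (by omega) (by omega)) ?_
  exact V_cutB0 _ _ _ _ _ _ rfl rfl rfl (by omega)
    (Zd_strip _ _ _ _ _ 3 21 (by omega) (by omega) (by omega) (by omega) (by omega) (by omega) (by omega) (by omega))
    (Zd_strip _ _ _ _ _ 3 21 (by omega) (by omega) (by omega) (by omega) (by omega) (by omega) (by omega) (by omega))

theorem Zd_p10 (i K : ℕ) (hi : 90 ≤ i)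
    (hK : K * (2 * i + 20 + (3 * i + 25)) ≤ (5 * i + 55) * (2 * i + 20 + 3)) :
    S (3 + 2) (2 * i + 20) K (replicate (5 * i + 55) (T 0 0)) := by
  obtain ⟨a, ha1, ha2⟩ : ∃ a, 20 * a ≤ 3 * (2 * i + 20) + 0 ∧ 3 * (2 * i + 20) + 0 < 20 * a + 20 :=
    ⟨(3 * (2 * i + 20) + 0) / 20, by omega, by omega⟩
  obtain ⟨b, hb1, hb2⟩ : ∃ b, 20 * b ≤ 3 * (2 * i + 20) + 0 ∧ 3 * (2 * i + 20) + 0 < 20 * b + 20 :=
    ⟨(3 * (2 * i + 20) + 0) / 20, by omega, by omega⟩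
  obtain ⟨j, hj⟩ : ∃ j, 2 * i + 20 = 2 * a + 1 + (2 * b + 1 + j) := ⟨2 * i + 20 - (2 * a + 1) - (2 * b + 1), by omega⟩
  obtain ⟨X, hX⟩ : ∃ X, 3 * i + 25 = 3 * a + 0 + (3 * b + 0 + X) := ⟨3 * i + 25 - (3 * a + 0) - (3 * b + 0), by omega⟩
  refine S_of_V (X := 3 * i + 25) (K0 := 2 * i + 27) (T0 := 3 * i + 28) (by omega) (K_le hK (by nlinarith)) ?_
  refine V_cutB0 _ _ (5 * a + 4) _ _ (5 * b + 4 + (4 * j - X)) hj hX (by omega) le_rfl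
    (Zd_strip _ _ _ _ _ 3 25 (by omega) (by omega) (by omega) (by omega) (by omega) (by omega) (by omega) (by omega)) ?_
  exact V_cutB0 _ _ _ _ _ _ rfl rfl rfl (by omega)
    (Zd_strip _ _ _ _ _ 3 25 (by omega) (by omega) (by omega) (by omega) (by omega) (by omega) (by omega) (by omega))
    (Zd_strip _ _ _ _ _ 4 25 (by omega) (by omega) (by omega) (by omega) (by omega) (by omega) (by omega) (by omega))

theorem Zd_p11 (i K : ℕ) (hi : 90 ≤ i)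
    (hK : K * (2 * i + 21 + (3 * i + 26)) ≤ (5 * i + 58) * (2 * i + 21 + 3)) :
    S (3 + 2) (2 * i + 21) K (replicate (5 * i + 58) (T 0 0)) := by
  obtain ⟨a, ha1, ha2⟩ : ∃ a, 6 * a ≤ 1 * (2 * i + 21) + 0 ∧ 1 * (2 * i + 21) + 0 < 6 * a + 6 :=
    ⟨(1 * (2 * i + 21) + 0) / 6, by omega, by omega⟩
  obtain ⟨b, hb1, hb2⟩ : ∃ b, 6 * b ≤ 1 * (2 * i + 21) + 0 ∧ 1 * (2 * i + 21) + 0 < 6 * b + 6 :=
    ⟨(1 * (2 * i + 21) + 0) / 6, by omega, by omega⟩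
  obtain ⟨j, hj⟩ : ∃ j, 2 * i + 21 = 2 * a + 1 + (2 * b + 0 + j) := ⟨2 * i + 21 - (2 * a + 1) - (2 * b + 0), by omega⟩
  obtain ⟨X, hX⟩ : ∃ X, 3 * i + 26 = 3 * a + 0 + (3 * b - 2 + X) := ⟨3 * i + 26 - (3 * a + 0) - (3 * b - 2), by omega⟩
  refine S_of_V (X := 3 * i + 26) (K0 := 2 * i + 28) (T0 := 3 * i + 30) (by omega) (K_le hK (by nlinarith)) ?_
  refine V_cutB0 _ _ (5 * a + 4) _ _ (5 * b + 2 + (4 * j - X)) hj hX (by omega) le_rfl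
    (Zd_strip _ _ _ _ _ 3 24 (by omega) (by omega) (by omega) (by omega) (by omega) (by omega) (by omega) (by omega)) ?_
  exact V_cutB0 _ _ _ _ _ _ rfl rfl rfl (by omega)
    (Zd_strip _ _ _ _ _ 4 24 (by omega) (by omega) (by omega) (by omega) (by omega) (by omega) (by omega) (by omega))
    (Zd_strip _ _ _ _ _ 4 24 (by omega) (by omega) (by omega) (by omega) (by omega) (by omega) (by omega) (by omega))

theorem Zd_p12 (i K : ℕ) (hi : 90 ≤ i)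
    (hK : K * (2 * i + 20 + (3 * i + 24)) ≤ (5 * i + 56) * (2 * i + 20 + 3)) :
    S (3 + 2) (2 * i + 20) K (replicate (5 * i + 56) (T 0 0)) := by
  obtain ⟨a, ha1, ha2⟩ : ∃ a, 6 * a ≤ 1 * (2 * i + 20) + 0 ∧ 1 * (2 * i + 20) + 0 < 6 * a + 6 :=
    ⟨(1 * (2 * i + 20) + 0) / 6, by omega, by omega⟩
  obtain ⟨b, hb1, hb2⟩ : ∃ b, 6 * b ≤ 1 * (2 * i + 20) + 0 ∧ 1 * (2 * i + 20) + 0 < 6 * b + 6 :=
    ⟨(1 * (2 * i + 20) + 0) / 6, by omega, by omega⟩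
  obtain ⟨j, hj⟩ : ∃ j, 2 * i + 20 = 2 * a + 0 + (2 * b + 0 + j) := ⟨2 * i + 20 - (2 * a + 0) - (2 * b + 0), by omega⟩
  obtain ⟨X, hX⟩ : ∃ X, 3 * i + 24 = 3 * a - 2 + (3 * b - 2 + X) := ⟨3 * i + 24 - (3 * a - 2) - (3 * b - 2), by omega⟩
  refine S_of_V (X := 3 * i + 24) (K0 := 2 * i + 27) (T0 := 3 * i + 29) (by omega) (K_le hK (by nlinarith)) ?_
  refine V_cutB0 _ _ (5 * a + 2) _ _ (5 * b + 2 + (4 * j - X)) hj hX (by omega) le_rfl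
    (Zd_strip _ _ _ _ _ 4 23 (by omega) (by omega) (by omega) (by omega) (by omega) (by omega) (by omega) (by omega)) ?_
  exact V_cutB0 _ _ _ _ _ _ rfl rfl rfl (by omega)
    (Zd_strip _ _ _ _ _ 4 23 (by omega) (by omega) (by omega) (by omega) (by omega) (by omega) (by omega) (by omega))
    (Zd_strip _ _ _ _ _ 4 23 (by omega) (by omega) (by omega) (by omega) (by omega) (by omega) (by omega) (by omega))

theorem Zd_p13 (i K : ℕ) (hi : 90 ≤ i)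
    (hK : K * (2 * i + 21 + (3 * i + 25)) ≤ (5 * i + 59) * (2 * i + 21 + 3)) :
    S (3 + 2) (2 * i + 21) K (replicate (5 * i + 59) (T 0 0)) := by
  obtain ⟨a, ha1, ha2⟩ : ∃ a, 6 * a ≤ 1 * (2 * i + 21) + 0 ∧ 1 * (2 * i + 21) + 0 < 6 * a + 6 :=
    ⟨(1 * (2 * i + 21) + 0) / 6, by omega, by omega⟩
  obtain ⟨b, hb1, hb2⟩ : ∃ b, 6 * b ≤ 1 * (2 * i + 21) + 0 ∧ 1 * (2 * i + 21) + 0 < 6 * b + 6 :=
    ⟨(1 * (2 * i + 21) + 0) / 6, by omega, by omega⟩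
  obtain ⟨j, hj⟩ : ∃ j, 2 * i + 21 = 2 * a + 0 + (2 * b + 0 + j) := ⟨2 * i + 21 - (2 * a + 0) - (2 * b + 0), by omega⟩
  obtain ⟨X, hX⟩ : ∃ X, 3 * i + 25 = 3 * a - 2 + (3 * b - 2 + X) := ⟨3 * i + 25 - (3 * a - 2) - (3 * b - 2), by omega⟩
  refine S_of_V (X := 3 * i + 25) (K0 := 2 * i + 29) (T0 := 3 * i + 30) (by omega) (K_le hK (by nlinarith)) ?_
  refine V_cutB0 _ _ (5 * a + 2) _ _ (5 * b + 2 + (4 * j - X)) hj hX (by omega) le_rfl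
    (Zd_strip _ _ _ _ _ 4 27 (by omega) (by omega) (by omega) (by omega) (by omega) (by omega) (by omega) (by omega)) ?_
  exact V_cutB0 _ _ _ _ _ _ rfl rfl rfl (by omega)
    (Zd_strip _ _ _ _ _ 4 27 (by omega) (by omega) (by omega) (by omega) (by omega) (by omega) (by omega) (by omega))
    (Zd_strip _ _ _ _ _ 5 27 (by omega) (by omega) (by omega) (by omega) (by omega) (by omega) (by omega) (by omega))

theorem Zd_p14 (i K : ℕ) (hi : 90 ≤ i)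
    (hK : K * (2 * i + 20 + (3 * i + 23)) ≤ (5 * i + 57) * (2 * i + 20 + 3)) :
    S (3 + 2) (2 * i + 20) K (replicate (5 * i + 57) (T 0 0)) := by
  obtain ⟨a, ha1, ha2⟩ : ∃ a, 6 * a ≤ 1 * (2 * i + 20) + 0 ∧ 1 * (2 * i + 20) + 0 < 6 * a + 6 :=
    ⟨(1 * (2 * i + 20) + 0) / 6, by omega, by omega⟩
  obtain ⟨b, hb1, hb2⟩ : ∃ b, 6 * b ≤ 1 * (2 * i + 20) + 0 ∧ 1 * (2 * i + 20) + 0 < 6 * b + 6 :=
    ⟨(1 * (2 * i + 20) + 0) / 6, by omega, by omega⟩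
  obtain ⟨j, hj⟩ : ∃ j, 2 * i + 20 = 2 * a + 0 + (2 * b + 1 + j) := ⟨2 * i + 20 - (2 * a + 0) - (2 * b + 1), by omega⟩
  obtain ⟨X, hX⟩ : ∃ X, 3 * i + 23 = 3 * a - 2 + (3 * b - 1 + X) := ⟨3 * i + 23 - (3 * a - 2) - (3 * b - 1), by omega⟩
  refine S_of_V (X := 3 * i + 23) (K0 := 2 * i + 28) (T0 := 3 * i + 29) (by omega) (K_le hK (by nlinarith)) ?_
  refine V_cutB0 _ _ (5 * a + 2) _ _ (5 * b + 5 + (4 * j - X)) hj hX (by omega) le_rfl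
    (Zd_strip _ _ _ _ _ 4 26 (by omega) (by omega) (by omega) (by omega) (by omega) (by omega) (by omega) (by omega)) ?_
  exact V_cutB0 _ _ _ _ _ _ rfl rfl rfl (by omega)
    (Zd_strip _ _ _ _ _ 5 26 (by omega) (by omega) (by omega) (by omega) (by omega) (by omega) (by omega) (by omega))
    (Zd_strip _ _ _ _ _ 5 26 (by omega) (by omega) (by omega) (by omega) (by omega) (by omega) (by omega) (by omega))

theorem S5_Zd (J X r K : ℕ) (hJ : 200 ≤ J) (h1 : 3 * J ≤ 2 * X + 14) (h2 : 2 * X ≤ 3 * J + 7)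
    (hr : r + X = 4 * J) (hK : K * (J + X) ≤ r * (J + 3)) : S 5 J K (replicate r (T 0 0)) := by
  obtain ⟨i, hi⟩ : ∃ i, J = 2 * i + 20 ∨ J = 2 * i + 21 := ⟨J / 2 - 10, by omega⟩
  rcases hi with rfl | rfl
  · have h : X = 3 * i + 33 ∨ X = 3 * i + 32 ∨ X = 3 * i + 31 ∨ X = 3 * i + 30 ∨ X = 3 * i + 29 ∨ X = 3 * i + 28 ∨ X = 3 * i + 27 ∨ X = 3 * i + 26 ∨ X = 3 * i + 25 ∨ X = 3 * i + 24 ∨ X = 3 * i + 23 := by omega
    rcases h with rfl | rfl | rfl | rfl | rfl | rfl | rfl | rfl | rfl | rfl | rfl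
    · obtain rfl : r = 5 * i + 47 := by omega
      exact Zd_n6 i K (by omega) hK
    · obtain rfl : r = 5 * i + 48 := by omega
      exact Zd_n4 i K (by omega) hK
    · obtain rfl : r = 5 * i + 49 := by omega
      exact Zd_n2 i K (by omega) hK
    · obtain rfl : r = 5 * i + 50 := by omega
      exact Zd_p0 i K (by omega) hK
    · obtain rfl : r = 5 * i + 51 := by omega
      exact Zd_p2 i K (by omega) hK
    · obtain rfl : r = 5 * i + 52 := by omega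
      exact Zd_p4 i K (by omega) hK
    · obtain rfl : r = 5 * i + 53 := by omega
      exact Zd_p6 i K (by omega) hK
    · obtain rfl : r = 5 * i + 54 := by omega
      exact Zd_p8 i K (by omega) hK
    · obtain rfl : r = 5 * i + 55 := by omega
      exact Zd_p10 i K (by omega) hK
    · obtain rfl : r = 5 * i + 56 := by omega
      exact Zd_p12 i K (by omega) hK
    · obtain rfl : r = 5 * i + 57 := by omega
      exact Zd_p14 i K (by omega) hK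
  · have h : X = 3 * i + 35 ∨ X = 3 * i + 34 ∨ X = 3 * i + 33 ∨ X = 3 * i + 32 ∨ X = 3 * i + 31 ∨ X = 3 * i + 30 ∨ X = 3 * i + 29 ∨ X = 3 * i + 28 ∨ X = 3 * i + 27 ∨ X = 3 * i + 26 ∨ X = 3 * i + 25 := by omega
    rcases h with rfl | rfl | rfl | rfl | rfl | rfl | rfl | rfl | rfl | rfl | rfl
    · obtain rfl : r = 5 * i + 49 := by omega
      exact Zd_n7 i K (by omega) hK
    · obtain rfl : r = 5 * i + 50 := by omega
      exact Zd_n5 i K (by omega) hK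
    · obtain rfl : r = 5 * i + 51 := by omega
      exact Zd_n3 i K (by omega) hK
    · obtain rfl : r = 5 * i + 52 := by omega
      exact Zd_n1 i K (by omega) hK
    · obtain rfl : r = 5 * i + 53 := by omega
      exact Zd_p1 i K (by omega) hK
    · obtain rfl : r = 5 * i + 54 := by omega
      exact Zd_p3 i K (by omega) hK
    · obtain rfl : r = 5 * i + 55 := by omega
      exact Zd_p5 i K (by omega) hK
    · obtain rfl : r = 5 * i + 56 := by omega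
      exact Zd_p7 i K (by omega) hK
    · obtain rfl : r = 5 * i + 57 := by omega
      exact Zd_p9 i K (by omega) hK
    · obtain rfl : r = 5 * i + 58 := by omega
      exact Zd_p11 i K (by omega) hK
    · obtain rfl : r = 5 * i + 59 := by omega
      exact Zd_p13 i K (by omega) hK

end Pool.Agent.Work.MP_f4b644_ag.Thin
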