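import Pool.Agent.Work.MP_f4b644_ag.Thin.Blocks

/-!
First dimension 5 (m = 3), the last block. τ = J + 3, v = τ + ω, X = ω + 3, d = J - X. General facts from `FinD` (B < v): k < τ,
Tt ≤ ω, 1 ≤ Tt; if ω ≤ τ also Tt ≤ k, B ≤ k + Tt + 1 (τ (k + Tt) ≥ k v > B τ - v); the dimension count hD is ω k ≤ τ Tt;
τ (k - Tt) ≤ (d + 6) k < τ (k - Tt) + τ. If k = 1 then Tt = 1 and we use `V_col`. When `V_B2` is used, a = (d + 3) / 6,
t = k - Tt ≤ d + 5 ≤ 9 (a + 1) (F1), F2a and F2b follow from k (3 d + 27) ≤ t (4 J + d - 7) (multiply by τ), hX2 follows from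
(d + 6) Tt < ω t + τ and ω t ≥ 7 τ.

`fin3a`: if Tt + 1 = ω or Tt + 2 = ω use `V_B1` (τ (ω - 3) < ω k ≤ ω (B - Tt) gives 5 ω ω + 13 ω < 3 J + 9, and
k ≥ J - 5 ω - 12); otherwise `V_A` (k ≤ B = J - 4 X).
`fin3b`: 3 d ≥ J. If 10 X ≥ 3 J use `V_A`: 13 k ≤ 11 τ, so ω (τ - k) ≥ 3 τ and Tt + 3 ≤ ω, k - Tt ≤ d + 3;
4 k ≤ 4 J + 3 - X because 4 (2 J - 3 X) (J + 3) < (4 J + 4 - X) (J + X). Otherwise `V_B2` (13 (k + 1) > 11 τ, 10 d > 7 J).
-/

set_option autoImplicit false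

namespace Pool.Agent.Work.MP_f4b644_ag.Thin

open Big Multiset Big.Gad

theorem S5finA_gen {J ω B k Tt : ℕ} (h : FinD 3 J ω B k Tt) (hk : 1 ≤ k) (hω : 1 ≤ ω)
    (hτ : ω ≤ J + 3) :
    1 ≤ Tt ∧ Tt ≤ k ∧ B ≤ k + Tt + 1 ∧ k * (ω + 3) ≤ J * Tt + 3 * (k + Tt) := by
  obtain ⟨-, h2, h3, h4, -⟩ := h
  refine ⟨?_, ?_, ?_, by linarith⟩
  · rcases Nat.eq_zero_or_pos Tt with rfl | h0
    · have := Nat.mul_le_mul hω hk
      omega
    · exact h0
  · have h6 := Nat.mul_le_mul_right k hτ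
    exact Nat.lt_succ_iff.1 (lt_of_mul_lt_mul_left (a := J + 3) (by linarith) (Nat.zero_le _))
  · exact Nat.lt_succ_iff.1 (lt_of_mul_lt_mul_left (a := J + 3) (by linarith) (Nat.zero_le _))

theorem S5finA_B2 {J ω d k Tt t : ℕ} (hJ : 200 ≤ J) (hd : ω + 3 + d = J) (ht : Tt + t = k)
    (hn : J < 4 * (ω + 3)) (hX : 10 * (ω + 3) < 3 * J) (hT : 1 ≤ Tt) (hk1 : k < J + 3)
    (hk2 : 11 * (J + 3) < 13 * (k + 1)) (h3 : ω * k ≤ (J + 3) * Tt)
    (h4 : (J + 3) * Tt < ω * k + (J + 3)) : V 3 J (ω + 3) k Tt (k + Tt) 0 0 0 := by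
  obtain ⟨a, a1, a2⟩ : ∃ a, 6 * a ≤ d + 3 ∧ d + 3 < 6 * a + 6 := ⟨(d + 3) / 6, by omega, by omega⟩
  have e1 : (J + 3) * k = ω * k + (d + 6) * k := by rw [← hd]; ring
  have e2 : (J + 3) * k = (J + 3) * Tt + (J + 3) * t := by rw [← ht]; ring
  have e3 : (J + 3) * Tt = ω * Tt + (d + 6) * Tt := by rw [← hd]; ring
  have e4 : ω * k = ω * Tt + ω * t := by rw [← ht]; ring
  have b1 : t < d + 6 := lt_of_mul_lt_mul_left (a := J + 3) (by
    have := Nat.mul_lt_mul_of_pos_left hk1 (show 0 < d + 6 by omega)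
    linarith) (Nat.zero_le _)
  have b2 : 7 * k < 10 * (t + 1) := lt_of_mul_lt_mul_left (a := J + 3) (by
    have := Nat.mul_le_mul_right k (show 7 * (J + 3) ≤ 10 * (d + 6) by omega)
    linarith) (Nat.zero_le _)
  have b3 : 7 * (J + 3) ≤ ω * t := by
    have := Nat.mul_le_mul_right t (show 14 ≤ ω by omega)
    omega
  have c1 := Nat.mul_le_mul_right k a1
  have c2 := Nat.mul_le_mul_right t a1
  have c3 := Nat.mul_le_mul_right Tt a1
  have c4 := Nat.mul_le_mul_left t (show k ≤ J + 2 by omega)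
  have c5 := Nat.mul_le_mul_left t (show Tt ≤ k by omega)
  have c6 := Nat.mul_le_mul_left t (show 19 ≤ d by omega)
  have c7 := Nat.mul_le_mul_left k (show 11 ≤ d by omega)
  have c8 : J + 3 ≤ 2 * k := by omega
  have c9 := Nat.mul_le_mul_left k (show t ≤ 9 * (a + 1) by omega)
  have c10 := Nat.zero_le (a * t)
  have c11 : Tt ≤ k := by omega
  exact V_B2 3 J (ω + 3) k Tt a d t (by omega) hd ht hT (by omega) (by omega) (by linarith)
    (by linarith) (by linarith) (by linarith) (by linarith)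

theorem fin3a (J ω B k Tt : ℕ) (hJ : 200 ≤ J) (hω : 3 ≤ ω) (hB : B + 4 * (ω + 3) = J)
    (h : FinD 3 J ω B k Tt) (hk : 1 ≤ k) : V 3 J (ω + 3) k Tt (k + Tt) 0 0 0 := by
  obtain ⟨hT, hTk, hBk, hD⟩ := S5finA_gen h hk (by omega) (by omega)
  obtain ⟨-, -, -, h4, h5⟩ := h
  rcases Nat.eq_or_lt_of_le hk with rfl | hk2
  · obtain rfl : Tt = 1 := by omega
    exact V_col 3 J (ω + 3) (by omega) (by omega) (by omega)
  have hTω : Tt < ω + 1 := lt_of_mul_lt_mul_left (a := J + 3) (by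
    have := Nat.mul_le_mul_left ω (show k ≤ J + 3 by omega)
    linarith) (Nat.zero_le _)
  by_cases hc : Tt + 1 = ω ∨ Tt + 2 = ω
  · have c1 := Nat.mul_le_mul_left (J + 3) (show ω ≤ Tt + 2 by omega)
    have c2 := Nat.mul_le_mul_left ω (show k + 5 * ω + 10 ≤ J by omega)
    have c3 : 5 * (ω * ω) + 13 * ω < 3 * J + 9 := by linarith
    have c4 : 10 * ω ≤ J := by
      by_contra hc4
      have := Nat.mul_le_mul_right ω (show 21 ≤ ω by omega)
      omega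
    have c5 := Nat.mul_le_mul (show Tt ≤ ω by omega) (show 2 * Tt + 2 * 3 * 3 + 3 * 3 ≤ 2 * ω + 25 by omega)
    have c6 : J ≤ k + 5 * ω + 12 := by omega
    exact V_B1 3 J (ω + 3) k Tt (by omega) (by omega) hT (by linarith) (by omega) (by omega) hD
  · exact V_A 3 J (ω + 3) k Tt (by omega) hk2 hTk (by omega) (by omega) (by omega) hD

theorem fin3b (J ω B k Tt : ℕ) (hJ : 200 ≤ J) (hn : J < 4 * (ω + 3)) (hB : B + 3 * (ω + 3) = 2 * J)
    (h : FinD 3 J ω B k Tt) (hk : 1 ≤ k) : V 3 J (ω + 3) k Tt (k + Tt) 0 0 0 := by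
  obtain ⟨hT, hTk, -, hD⟩ := S5finA_gen h hk (by omega) (by omega)
  obtain ⟨h1, h2, h3, h4, h5⟩ := h
  rcases Nat.eq_or_lt_of_le hk with rfl | hk2
  · obtain rfl : Tt = 1 := by omega
    exact V_col 3 J (ω + 3) (by omega) (by omega) (by omega)
  obtain ⟨d, hd⟩ : ∃ d, ω + 3 + d = J := ⟨J - (ω + 3), by omega⟩
  obtain ⟨t, ht⟩ : ∃ t, Tt + t = k := ⟨k - Tt, by omega⟩
  rcases le_or_gt (3 * J) (10 * (ω + 3)) with hc | hc
  · have c1 : 13 * k ≤ 11 * (J + 3) := Nat.le_of_mul_le_mul_right (c := J + 3 + ω) (by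
      have := Nat.mul_le_mul_right (J + 3) (show 13 * B ≤ 11 * (J + 3 + ω) by omega)
      linarith) (by omega)
    have c2 : Tt + 2 < ω := lt_of_mul_lt_mul_left (a := 13 * (J + 3)) (by
      have := Nat.mul_le_mul_left ω c1
      have := Nat.mul_le_mul_right (J + 3) (show 20 ≤ ω by omega)
      linarith) (Nat.zero_le _)
    have e1 : (J + 3) * k = ω * k + (d + 6) * k := by rw [← hd]; ring
    have e2 : (J + 3) * k = (J + 3) * Tt + (J + 3) * t := by rw [← ht]; ring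
    have c3 : t < d + 4 := lt_of_mul_lt_mul_left (a := 13 * (J + 3)) (by
      have := Nat.mul_le_mul_left (d + 6) c1
      have := Nat.mul_le_mul_right (J + 3) (show 8 ≤ d by omega)
      linarith) (Nat.zero_le _)
    exact V_A 3 J (ω + 3) k Tt (by omega) hk2 hTk (by omega) (by omega) (by omega) hD
  · have c1 : k < J + 3 := lt_of_mul_lt_mul_right (a := J + 3 + ω) (by
      have := Nat.mul_le_mul_right (J + 3) (show B + 1 ≤ J + 3 + ω by omega)
      linarith) (Nat.zero_le _)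
    have c2 : 11 * (J + 3) < 13 * (k + 1) := lt_of_mul_lt_mul_right (a := J + 3 + ω) (by
      have := Nat.mul_le_mul_right (J + 3) (show 11 * (J + 3 + ω) ≤ 13 * B by omega)
      linarith) (Nat.zero_le _)
    exact S5finA_B2 hJ hd ht hn hc hT c1 c2 h3 h4

end Pool.Agent.Work.MP_f4b644_ag.Thin
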