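import Pool.Agent.Work.MP_f4b644_ag.Thin.VDefs
import Pool.Agent.Work.MP_f4b644_ag.Thin.Swap
import Pool.Agent.Work.MP_f4b644_ag.Big.Levels

/-!
Cuts of states. Always write the truncated differences as new variables first
(`obtain ⟨b, hb⟩ := Nat.exists_eq_add_of_le ..`, then `rw [show k + Tt - s - e = .. by omega]`).

`V_peelB`: hinge h tangents T 0 0 of the second part with h copies of CP 1 (`S.hingeT` with u = 0, y = 1), then
`S.splitB`: T 0 1 ↦ (BP 1, T 1 0) (`ruleB_T 0 0 1`, symm), T 0 0 ↦ (T 0 0, BP 0) or (BP 0, T 0 0),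
T 1 0 ↦ (BP 0, T 1 0), BP 0 ↦ (BP 0, BP 0), BP 1 ↦ (BP 0, BP 1), CP z goes to one side.
`V_strips`: induction on n (`Finset.sum_range_succ`), peel the last strip of the family first or last.
`V_cutC`: `S.splitC`: T 0 0 ↦ (T 0 0, CP 1), T 1 0 ↦ (T 1 0, CP 2), BP goes to one side, CP z to both.
`V_peelSQ`: induction on q with `V_cutC` (u1 = e1 = 0, G = 0).
`V_mono`: `S.mono`. `PV_root`: `S.hingePP` (w = 0), `ruleB_PP`, as `S_level1` but with pairs in both directions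
and with further BP 0, CP 1.
-/

set_option autoImplicit false

namespace Pool.Agent.Work.MP_f4b644_ag.Thin

open Big Multiset Big.Gad

theorem Cuts_congr {I j k s u b e G f s' u' b' e' G' f' : ℕ} (h : BS I j k s u b e G f)
    (h1 : s = s') (h2 : u = u') (h3 : b = b') (h4 : e = e') (h5 : G = G') (h6 : f = f') :
    BS I j k s' u' b' e' G' f' := by
  subst h1 h2 h3 h4 h5 h6
  exact h

theorem Cuts_peel {I j1 j2 k : ℕ} (s1 a h u b e G f1 f2 : ℕ)
    (h1 : BS I j1 k s1 0 (a + u + b + e) h 0 f1) (h2 : BS I j2 k a (u + h) (s1 + b) e G f2) :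
    BS I (j1 + j2) k (s1 + a + h) u b e G (f1 + f2 + h) := by
  have r1 : Rule Dir.B (T 0 1) (T 1 0) (BP 1) := ruleB_T 0 0 1
  have r2 : Rule Dir.B (T 0 0) (T 0 0) (BP 0) := ruleB_T 0 0 0
  have r3 : Rule Dir.B (T 1 0) (T 1 0) (BP 0) := ruleB_T 1 0 0
  have r4 : Rule Dir.B (BP 0) (BP 0) (BP 0) := ruleB_BP 0 0
  have r5 : Rule Dir.B (BP 1) (BP 0) (BP 1) := ruleB_BP 0 1
  have hs := (Spl.rep r1.symm h).add ((((((((Spl.rep r2 s1).add (Spl.rep r2.symm a)).add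
    (Spl.rep r3.symm u)).add (Spl.rep r4 b)).add (Spl.rep r5 e)).add
    (Spl.repR (ruleB_CP 2).symm G)).add (Spl.repL (ruleB_CP 1) f1)).add
    (Spl.repR (ruleB_CP 1).symm f2))
  have h3 := S.hingeT h 0 1 _ (S.splitB (hs.of_eq rfl ?_ ?_) h1 h2)
  · refine h3.of_eq ?_
    simp only [replicate_add, mul_one]
    abel
  · simp only [replicate_add, replicate_zero]
    abel
  · simp only [replicate_add]
    abel

theorem Cuts_cut {I j k1 k2 : ℕ} (a1 a2 u1 u2 b1 b2 e1 e2 G f : ℕ)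
    (h1 : BS I j k1 a1 u1 b1 e1 (G + u2) (f + a2)) (h2 : BS I j k2 a2 u2 b2 e2 (G + u1) (f + a1)) :
    BS I j (k1 + k2) (a1 + a2) (u1 + u2) (b1 + b2) (e1 + e2) G f := by
  have r1 : Rule Dir.C (T 0 0) (T 0 0) (CP 1) := ruleC_T 0
  have r2 : Rule Dir.C (T 1 0) (T 1 0) (CP 2) := ruleC_T 1
  have hs := (((((((((Spl.rep r1 a1).add (Spl.rep r1.symm a2)).add (Spl.rep r2 u1)).add
    (Spl.rep r2.symm u2)).add (Spl.repL (ruleC_BP 0) b1)).add
    (Spl.repR (ruleC_BP 0).symm b2)).add (Spl.repL (ruleC_BP 1) e1)).add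
    (Spl.repR (ruleC_BP 1).symm e2)).add (Spl.rep (ruleC_CP 2) G)).add (Spl.rep (ruleC_CP 1) f)
  refine S.splitC (hs.of_eq ?_ ?_ ?_) h1 h2
  · simp only [replicate_add]
    abel
  · simp only [replicate_add]
    abel
  · simp only [replicate_add]
    abel

theorem Cuts_root {I j1 j2 k : ℕ} (a1 a2 p1 p2 b f1 f2 : ℕ)
    (h1 : S I j1 k (replicate a1 (T 0 0) + replicate 0 (T 1 0) + replicate p1 (TT 0) +
      replicate (a2 + b) (BP 0) + replicate 0 (BP 1) + replicate p2 (PB 0 true) +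
      replicate f1 (CP 1)))
    (h2 : S I j2 k (replicate a2 (T 0 0) + replicate 0 (T 1 0) + replicate p2 (TT 0) +
      replicate (a1 + b) (BP 0) + replicate 0 (BP 1) + replicate p1 (PB 0 true) +
      replicate f2 (CP 1))) :
    BS I (j1 + j2) k (2 * (p1 + p2) + a1 + a2) 0 b 0 0 (f1 + f2) := by
  have r2 : Rule Dir.B (T 0 0) (T 0 0) (BP 0) := ruleB_T 0 0 0
  have r4 : Rule Dir.B (BP 0) (BP 0) (BP 0) := ruleB_BP 0 0
  have hs := ((Spl.rep (ruleB_PP 0) p1).add (Spl.rep (ruleB_PP 0).symm p2)).add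
    (((((Spl.rep r2 a1).add (Spl.rep r2.symm a2)).add (Spl.rep r4 b)).add
    (Spl.repL (ruleB_CP 1) f1)).add (Spl.repR (ruleB_CP 1).symm f2))
  rw [← replicate_add] at hs
  have h3 := S.hingePP (p1 + p2) 0 _ (S.splitB (hs.of_eq rfl ?_ ?_) h1 h2)
  · refine h3.of_eq ?_
    generalize 2 * (p1 + p2) = n
    simp only [replicate_add, mul_zero, replicate_zero]
    abel
  · simp only [replicate_add, replicate_zero]
    abel
  · simp only [replicate_add, replicate_zero]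
    abel

theorem V_peelB {m j1 X1 j2 X2 k Tt s1 s2 h u e G : ℕ} (h1 : V m j1 X1 k Tt s1 0 h 0)
    (h2 : V m j2 X2 k Tt s2 (u + h) e G) (hB : s1 + s2 + e ≤ k + Tt) :
    V m (j1 + j2) (X1 + X2) k Tt (s1 + s2) u e G := by
  obtain ⟨-, a2, a3, a4⟩ := h1
  obtain ⟨b1, b2, b3, b4⟩ := h2
  unfold V
  rw [mul_add (m + 1) j1 j2]
  generalize (m + 1) * j1 = N1 at *
  generalize (m + 1) * j2 = N2 at *
  refine ⟨by omega, hB, by omega, ?_⟩
  exact Cuts_congr (Cuts_peel s1 (s2 - (u + h)) h u (k + Tt - (s1 + s2) - e) e G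
    (N1 - X1 - s1 - 0 - 2 * 0) (N2 - X2 - s2 - (u + h) - 2 * G)
    (Cuts_congr a4 rfl rfl (by clear a4 b4; omega) rfl rfl rfl)
    (Cuts_congr b4 rfl rfl (by clear a4 b4; omega) rfl rfl rfl))
    (by clear a4 b4; omega) rfl rfl rfl rfl (by clear a4 b4; omega)

theorem V_strips {m k Tt jl Xl sl u e G : ℕ} (n : ℕ) (j X s h : ℕ → ℕ)
    (H : ∀ a < n, V m (j a) (X a) k Tt (s a) 0 (h a) 0)
    (Hl : V m jl Xl k Tt sl (u + ∑ a ∈ Finset.range n, h a) e G)
    (hB : ∑ a ∈ Finset.range n, s a + sl + e ≤ k + Tt) :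
    V m (∑ a ∈ Finset.range n, j a + jl) (∑ a ∈ Finset.range n, X a + Xl) k Tt
      (∑ a ∈ Finset.range n, s a + sl) u e G := by
  induction n generalizing jl Xl sl with
  | zero => simpa using Hl
  | succ n ih =>
    rw [Finset.sum_range_succ] at Hl hB
    rw [← add_assoc] at Hl
    have h1 := V_peelB (H n (Nat.lt_succ_self n)) Hl (by omega)
    have h2 := ih (fun a ha => H a (Nat.lt_succ_of_lt ha)) h1 (by omega)
    simpa only [Finset.sum_range_succ, add_assoc] using h2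

theorem V_cutC {m j X k1 T1 s1 u1 e1 k2 T2 s2 u2 e2 G : ℕ} (h1 : V m j X k1 T1 s1 u1 e1 (G + u2))
    (h2 : V m j X k2 T2 s2 u2 e2 (G + u1))
    (hC : s1 + s2 + (u1 + u2) + 2 * G + X ≤ (m + 1) * j) :
    V m j X (k1 + k2) (T1 + T2) (s1 + s2) (u1 + u2) (e1 + e2) G := by
  obtain ⟨a1, a2, a3, a4⟩ := h1
  obtain ⟨b1, b2, b3, b4⟩ := h2
  unfold V
  generalize (m + 1) * j = N at *
  refine ⟨by omega, by omega, hC, ?_⟩
  exact Cuts_congr (Cuts_cut (s1 - u1) (s2 - u2) u1 u2 (k1 + T1 - s1 - e1) (k2 + T2 - s2 - e2) e1 e2 G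
    (N - X - (s1 + s2) - (u1 + u2) - 2 * G)
    (Cuts_congr a4 rfl rfl rfl rfl rfl (by clear a4 b4; omega))
    (Cuts_congr b4 rfl rfl rfl rfl rfl (by clear a4 b4; omega)))
    (by clear a4 b4; omega) rfl (by clear a4 b4; omega) rfl rfl rfl

theorem V_peelSQ {m j X T1 k Tt s u e : ℕ} (q : ℕ) (h1 : 1 ≤ q → V m j X j T1 j 0 0 u)
    (h2 : V m j X k Tt s u e 0) (hC : q * j + s + u + X ≤ (m + 1) * j) :
    V m j X (q * j + k) (q * T1 + Tt) (q * j + s) u e 0 := by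
  induction q with
  | zero => simpa using h2
  | succ q ih =>
    have h3 := h1 (Nat.le_add_left 1 q)
    rw [add_mul, one_mul] at hC
    have h4 := ih (fun _ => h3) (by omega)
    have h5 := V_cutC (G := 0) (u1 := 0) (by rw [zero_add]; exact h3) h4 (by omega)
    have e1 : (q + 1) * j + k = j + (q * j + k) := by ring
    have e2 : (q + 1) * T1 + Tt = T1 + (q * T1 + Tt) := by ring
    have e3 : (q + 1) * j + s = j + (q * j + s) := by ring
    rw [e1, e2, e3]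
    simpa only [zero_add] using h5

theorem V_mono {m j X X' k Tt s u e G : ℕ} (hX : X ≤ X') (h : V m j X' k Tt s u e G) :
    V m j X k Tt s u e G := by
  obtain ⟨a1, a2, a3, a4⟩ := h
  refine ⟨a1, a2, by omega, S.mono ?_ a4⟩
  refine add_le_add le_rfl ((replicate_le_replicate _).2 ?_)
  clear a4
  omega

theorem Blk_of_V {m J X r K Tt : ℕ} (hr : r + X = (m + 1) * J) (h : V m J X K Tt (K + Tt) 0 0 0) :
    Blk (m + 2) J r K (K + Tt) := by
  obtain ⟨-, -, a3, a4⟩ := h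
  refine ⟨by omega, S.of_eq ?_ a4⟩
  have e1 : (m + 1) * J - X - (K + Tt) - 0 - 2 * 0 = r - (K + Tt) := by
    clear a4
    omega
  rw [e1]
  simp

theorem V_of_PV {m j X k Tt s u e : ℕ} (h : PV m j X k Tt s u e 0 0) : V m j X k Tt s u e 0 := by
  obtain ⟨a1, a2, a3, a4⟩ := h
  refine ⟨by omega, by omega, by omega, S.of_eq ?_ a4⟩
  simp

theorem PV_root {m j1 X1 j2 X2 k Tt s1 s2 p1 p2 : ℕ} (h1 : PV m j1 X1 k Tt s1 0 0 p1 p2)
    (h2 : PV m j2 X2 k Tt s2 0 0 p2 p1) (hB : s1 + s2 ≤ k + Tt) :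
    V m (j1 + j2) (X1 + X2) k Tt (s1 + s2) 0 0 0 := by
  obtain ⟨a1, a2, a3, a4⟩ := h1
  obtain ⟨b1, b2, b3, b4⟩ := h2
  unfold V
  rw [mul_add (m + 1) j1 j2]
  generalize (m + 1) * j1 = N1 at *
  generalize (m + 1) * j2 = N2 at *
  refine ⟨Nat.zero_le _, hB, by omega, ?_⟩
  have e1 : k + Tt - s1 - 0 - 2 * p2 = (s2 - 2 * p2 - 0) + (k + Tt - (s1 + s2) - 0) := by
    clear a4 b4
    omega
  have e2 : k + Tt - s2 - 0 - 2 * p1 = (s1 - 2 * p1 - 0) + (k + Tt - (s1 + s2) - 0) := by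
    clear a4 b4
    omega
  rw [e1] at a4
  rw [e2] at b4
  exact Cuts_congr (Cuts_root _ _ _ _ _ _ _ a4 b4) (by clear a4 b4; omega) rfl rfl rfl rfl
    (by clear a4 b4; omega)

end Pool.Agent.Work.MP_f4b644_ag.Thin
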