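import Pool.Agent.Work.MP_f4b644_ag.Thin.Sq
import Pool.Agent.Work.MP_f4b644_ag.Thin.Cuts
import Pool.Agent.Work.MP_f4b644_ag.Thin.M1

/-!
Small rules for the states `V` without tokens.
`V_swap`: unfold `V`, `BS`, use `S_swap` (p = 0). `V_row`: `S_row` with f = m + 1 - X - s. `V_monoT`: `S.mono`.
`V_cutB0`: `V_peelB` with h = 0. `V_cutC0`: induction on n with `V_cutC` (u = e = G = 0). `V_X0`: induction on j with `V_cutB0`,
the new row takes min s (m + 1) tangents (`V_row`); j = 0 is `S_zeroB`. `V_col`: `V_swap` of `V_row m (m - 1) J (m J - X) 2`.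
`V_sq0`: `V_sq` with w = 0, b = Tt if Tt < h; with w = 1, b = 1 if Tt = h and m ≥ 3; for m = 2, Tt = h it is `V_swap` of
`V_sq 2 h h (h - 2) 0 0 1 (h - 2)`.
`V_CG0`: q = s / j, `V_peelSQ` with the squares `V_sq m j X (X - m) 0 0 (m - 1) (X - m)` and the rest `V_G` (w = 0) with
k' = k - q j, s' = s - q j, T' = Tt - q (X - m); q (X - m) ≤ Tt because j Tt ≥ k X - m s = j q (X - m) + k' X - m s' and
k' X ≥ m s'.
-/

set_option autoImplicit false

namespace Pool.Agent.Work.MP_f4b644_ag.Thin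

open Big Multiset Big.Gad

theorem Base_iff {m j X k Tt s : ℕ} : V m j X k Tt s 0 0 0 ↔ s ≤ k + Tt ∧ s + X ≤ (m + 1) * j ∧
    S (m + 2) j k (replicate s (T 0 0) + replicate (k + Tt - s) (BP 0) +
      replicate ((m + 1) * j - X - s) (CP 1)) := by
  constructor
  · rintro ⟨-, a2, a3, a4⟩
    exact ⟨by omega, by omega, S.of_eq (by simp) a4⟩
  · rintro ⟨a2, a3, a4⟩
    exact ⟨Nat.zero_le _, by omega, by omega, S.of_eq (by simp) a4⟩

theorem V_swap {m j X k Tt s X' T' : ℕ} (hX : X' + Tt = m * k) (hT : T' + X = m * j)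
    (h : V m j X k Tt s 0 0 0) : V m k X' j T' s 0 0 0 := by
  obtain ⟨a1, a2, a3⟩ := Base_iff.1 h
  have e1 : (m + 1) * j = m * j + j := by ring
  have e2 : (m + 1) * k = m * k + k := by ring
  have H := S_swap _ _ _ 0 (a3.of_eq (add_zero _).symm)
  clear a3 h
  have e3 : (m + 1) * j - X - s = j + T' - s := by omega
  have e4 : k + Tt - s = (m + 1) * k - X' - s := by omega
  rw [e3, e4] at H
  exact Base_iff.2 ⟨by omega, by omega, H.of_eq (add_zero _)⟩

theorem V_row (m X k Tt s : ℕ) (h1 : s + X ≤ m + 1) (h2 : s ≤ k + Tt) (h3 : X * (k - s) ≤ Tt) :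
    V m 1 X k Tt s 0 0 0 := by
  refine Base_iff.2 ⟨h2, by omega, S_row _ _ _ _ _ ?_⟩
  have e1 : m + 2 - s - ((m + 1) * 1 - X - s) = X + 1 := by omega
  rw [e1, add_mul, one_mul]
  rcases le_total s k with h | h
  · omega
  · rw [Nat.sub_eq_zero_of_le h]
    omega

theorem V_monoT {m j X k Tt T' s u e G : ℕ} (hT : Tt ≤ T') (h : V m j X k Tt s u e G) :
    V m j X k T' s u e G := by
  obtain ⟨a1, a2, a3, a4⟩ := h
  refine ⟨a1, by omega, a3, S.mono ?_ a4⟩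
  refine add_le_add (add_le_add (add_le_add (add_le_add le_rfl
    ((replicate_le_replicate _).2 ?_)) le_rfl) le_rfl) le_rfl
  clear a4
  omega

theorem V_cutB0 {m J X k Tt s : ℕ} (j1 X1 s1 j2 X2 s2 : ℕ) (hJ : J = j1 + j2) (hX : X = X1 + X2)
    (hs : s = s1 + s2) (hB : s ≤ k + Tt) (h1 : V m j1 X1 k Tt s1 0 0 0)
    (h2 : V m j2 X2 k Tt s2 0 0 0) : V m J X k Tt s 0 0 0 := by
  subst hJ hX hs
  exact V_peelB (h := 0) (u := 0) h1 h2 hB

theorem V_cutC0 {m j X K Tt s : ℕ} (n k1 T1 s1 k2 T2 s2 : ℕ) (hK : K = n * k1 + k2)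
    (hT : Tt = n * T1 + T2) (hs : s = n * s1 + s2) (hC : s + X ≤ (m + 1) * j)
    (h1 : V m j X k1 T1 s1 0 0 0) (h2 : V m j X k2 T2 s2 0 0 0) : V m j X K Tt s 0 0 0 := by
  induction n generalizing K Tt s with
  | zero =>
    rw [zero_mul, zero_add] at hK hT hs
    subst hK hT hs
    exact h2
  | succ n ih =>
    rw [add_mul, one_mul] at hK hT hs
    have h3 := ih (K := n * k1 + k2) (Tt := n * T1 + T2) (s := n * s1 + s2) rfl rfl rfl
      (by omega)
    have h4 := V_cutC (G := 0) (u1 := 0) (u2 := 0) (e1 := 0) (e2 := 0) h1 h3 (by omega)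
    obtain rfl : K = k1 + (n * k1 + k2) := by omega
    obtain rfl : Tt = T1 + (n * T1 + T2) := by omega
    obtain rfl : s = s1 + (n * s1 + s2) := by omega
    exact h4

theorem V_X0 (m j k Tt s : ℕ) (h1 : s ≤ (m + 1) * j) (h2 : s ≤ k + Tt) : V m j 0 k Tt s 0 0 0 := by
  induction j generalizing s with
  | zero => exact Base_iff.2 ⟨h2, by omega, S_zeroB _ _ _⟩
  | succ j ih =>
    rw [mul_add, mul_one] at h1
    exact V_cutB0 j 0 (s - (m + 1)) 1 0 (min s (m + 1)) rfl rfl (by omega) h2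
      (ih _ (by omega) (by omega)) (V_row _ _ _ _ _ (by omega) (by omega) (by omega))

theorem V_col (m J X : ℕ) (hm : 2 ≤ m) (hJ : 2 ≤ J) (hX : X + 2 ≤ J + 2 * m) :
    V m J X 1 1 (1 + 1) 0 0 0 := by
  obtain ⟨a, rfl⟩ := Nat.exists_eq_add_of_le' hm
  obtain ⟨b, rfl⟩ := Nat.exists_eq_add_of_le' hJ
  have e1 : (a + 2) * (b + 2) = a * b + 2 * a + 2 * b + 4 := by ring
  have e2 : (a + 1) * (b + 2 - (1 + 1)) = a * b + b := by
    rw [show b + 2 - (1 + 1) = b by omega]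
    ring
  exact V_swap (j := 1) (X := a + 1) (Tt := (a + 2) * (b + 2) - X) (by omega) (by omega)
    (V_row _ _ _ _ _ (by omega) (by omega) (by omega))

theorem V_sq0 (m h Tt : ℕ) (hm : 2 ≤ m) (hh : 2 ≤ h) (hT : Tt ≤ h) :
    V m h (Tt + m) h Tt h 0 0 0 := by
  rcases hT.lt_or_eq with h1 | rfl
  · exact V_sq m h _ Tt 0 0 (m - 1) Tt (by omega) (by omega) hh (by omega) h1 le_rfl (Or.inl rfl)
  rcases hm.lt_or_eq with h1 | rfl
  · exact V_sq m Tt _ Tt 0 1 (m - 2) 1 (by omega) (by omega) hh (by omega) hh le_rfl (Or.inl rfl)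
  · exact V_swap (X := Tt) (Tt := Tt - 2) (by omega) (by omega)
      (V_sq 2 Tt Tt (Tt - 2) 0 0 1 (Tt - 2) rfl le_rfl hh (by omega) (by omega) (by omega)
        (Or.inl rfl))

theorem V_CG0 (m j X k Tt s : ℕ) (hm : 2 ≤ m) (h1 : m ≤ X) (h2 : X ≤ j) (h3 : s ≤ k)
    (h4 : s + X ≤ (m + 1) * j) (hD : k * X ≤ j * Tt + m * s) : V m j X k Tt s 0 0 0 := by
  have hj : 0 < j := by omega
  obtain ⟨q, s', hs', rfl⟩ : ∃ q s', s' < j ∧ s = q * j + s' :=
    ⟨s / j, s % j, Nat.mod_lt _ hj, (Nat.div_add_mod' s j).symm⟩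
  obtain ⟨k', rfl⟩ : ∃ k', k = q * j + k' := ⟨k - q * j, by omega⟩
  obtain ⟨x, rfl⟩ := Nat.exists_eq_add_of_le' h1
  have e1 : (q * j + k') * (x + m) = j * (q * x) + m * (q * j) + k' * (x + m) := by ring
  have e2 : m * (q * j + s') = m * (q * j) + m * s' := by ring
  have e3 : m * s' ≤ k' * (x + m) := by
    rw [mul_comm]
    exact Nat.mul_le_mul (by omega) (by omega)
  have e4 : q * x ≤ Tt := Nat.le_of_mul_le_mul_left (by omega) hj
  obtain ⟨T', rfl⟩ := Nat.exists_eq_add_of_le e4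
  have e5 : j * (q * x + T') = j * (q * x) + j * T' := by ring
  exact V_peelSQ q (fun _ => V_sq m j _ x 0 0 (m - 1) x (by omega) (by omega) (by omega)
      (by omega) (by omega) le_rfl (Or.inl rfl))
    (V_G m j _ k' T' s' 0 0 0 0 (m - 1) (by omega) (by omega) (Nat.zero_le _) (by omega)
      (by omega) (by omega) (by omega) (by omega) (Or.inl ⟨rfl, by omega⟩)) (by omega)

theorem Dx (m j X k Tt s : ℕ) (x t : ℤ) (h1 : (X : ℤ) = j + x) (h2 : (Tt : ℤ) + t = k)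
    (h3 : (k : ℤ) * x + j * t ≤ m * s) : k * X ≤ j * Tt + m * s := by
  zify
  have h4 : (Tt : ℤ) = k - t := by linarith
  rw [h1, h4]
  linarith

theorem Dh (j X k Tt s : ℕ) (z ρ : ℤ) (h1 : 2 * (X : ℤ) + z = 3 * j) (h2 : 2 * (Tt : ℤ) + ρ = 3 * k)
    (h3 : (j : ℤ) * ρ ≤ k * z + 6 * s) : k * X ≤ j * Tt + 3 * s := by
  zify
  have h4 : z = 3 * j - 2 * X := by linarith
  have h5 : ρ = 3 * k - 2 * Tt := by linarith
  rw [h4, h5] at h3
  linarith

end Pool.Agent.Work.MP_f4b644_ag.Thin
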