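import Pool.Agent.Work.MP_f4b644_ag.Thin.Q
import Pool.Agent.Work.MP_f4b644_ag.Thin.Base

/-!
`V_QQ`: apply `V_Q` with u = e = G = 0, e1 = 0, z0 = 1, js = j - s. In the first two cases q = s / k, s' = s % k,
X' = the ceiling of s' (T' + 1) / k, E = k X' - s' (T' + 1) < k (E = 0 if T' + 1 = k), e2 = min E (k - s'), E2 = E - e2
(if E2 > 0 then X' ≥ 2, because X' = 1 gives E ≤ k - s'; E2 ≤ s'; if q = 0 then T' + 1 = k and E = 0). In the third case
q = 0, s' = s, X' = T' + 1, E = E2 = (T' + 1) (k - s), e2 = 0. In all cases k (q (Tt + w + 1) + w s' + X') = s (Tt + w + 1) + E,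
so Xs = X - (..) satisfies k Xs + s (Tt + w + 1) + E = k X; hlow gives y ≤ Xs (E < k or E ≤ s), hD gives the token count
and, with hup, Xs + js ≤ m js.
`V_t1`, `V_tall`: σ = j Tt + 3 s - k X, `V_mono` to X + σ / k (then the slack is < k), `V_QQ` with w = 0, y = 2,
T' = Tt, resp. w = 1, y = 1, T' = Tt + 1 - k. In `V_tall` the third case has T' = 1 (and s ≥ 2, we may assume s ≤ k);
hlow follows from (j - s) Tt ≥ 4 (k - 1) ≥ 3 k - 1, hup from s ≤ g (2 k - Tt) ≤ (j - s) (2 k - Tt).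
-/

set_option autoImplicit false

namespace Pool.Agent.Work.MP_f4b644_ag.Thin

open Big Multiset Big.Gad

theorem Tall_ceil (N k : ℕ) (hk : 0 < k) : ∃ X E, k * X = N + E ∧ E < k := by
  have h1 := Nat.div_add_mod N k
  have h2 := Nat.mod_lt N hk
  by_cases h : N % k = 0
  · exact ⟨N / k, 0, by omega, hk⟩
  · exact ⟨N / k + 1, k - N % k, by rw [Nat.mul_add, Nat.mul_one]; omega, by omega⟩

theorem Tall_floor (N k X : ℕ) (hk : 0 < k) (h : k * X ≤ N) :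
    ∃ X', X ≤ X' ∧ k * X' ≤ N ∧ N < k * X' + k := by
  have h1 := Nat.div_add_mod N k
  have h2 := Nat.mod_lt N hk
  exact ⟨N / k, (Nat.le_div_iff_mul_le hk).2 (by rwa [Nat.mul_comm]), by omega, by omega⟩

theorem Tall_core (m X k Tt s w y T' js q s' X' e2 E2 : ℕ) (hm : m = y + w + 1) (hy : 1 ≤ y)
    (hT : Tt + w = w * k + T') (hT' : T' + 1 ≤ k) (hw : w ≤ k) (hjs : 1 ≤ js) (hB : s ≤ k + Tt)
    (hD : k * X ≤ (s + js) * Tt + m * s) (hlow : s * (Tt + w + 2) + (y + 1) * k ≤ k * X)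
    (hup : js * Tt + y * s + js * k ≤ m * js * k) (hs : s = q * k + s') (hX' : X' ≤ s')
    (hE : k * X' = s' * (T' + 1) + (e2 + E2)) (hEs : e2 + E2 ≤ s + k) (hk : s' + e2 ≤ k)
    (hq : q = 0 → e2 = 0) (hE2 : E2 ≤ s') (h1 : 1 ≤ X' ∨ e2 = 0) (h2 : 2 ≤ X' ∨ E2 = 0) :
    V m (s + js) X k Tt s 0 0 0 := by
  have hk0 : 0 < k := by omega
  have hA : k * (q * (Tt + w + 1) + w * s' + X') = s * (Tt + w + 1) + (e2 + E2) := by
    have e : s' * (Tt + w + 1) = s' * (w * k + T' + 1) := by rw [hT]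
    rw [hs, Nat.mul_add, hE, Nat.add_mul (q * k), e]
    ring
  have hAX : q * (Tt + w + 1) + w * s' + X' + y ≤ X := by
    refine Nat.le_of_mul_le_mul_left ?_ hk0
    rw [Nat.mul_add, hA]
    nlinarith
  obtain ⟨Xs, hXs⟩ : ∃ Xs, X = q * (Tt + w + 1) + w * s' + X' + Xs :=
    ⟨X - (q * (Tt + w + 1) + w * s' + X'), by omega⟩
  have hD' : k * Xs + (e2 + E2) ≤ js * Tt + y * s := by
    rw [hXs, Nat.mul_add, hA, hm] at hD
    nlinarith
  refine V_Q m (s + js) X k Tt s 0 0 0 w y T' q s' X' 1 0 e2 E2 js Xs hm hy hT hT' hw hs rfl hjs hX'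
    hXs (by omega) le_rfl (by omega) ?_ hy (by omega) (by omega) (by omega) (by omega) ?_
    (by omega) (by omega)
  · rcases Nat.eq_zero_or_pos q with h0 | h0
    · exact Or.inl ⟨h0, hq h0, Nat.zero_le _, by omega⟩
    · have : k ≤ q * k := Nat.le_mul_of_pos_left k h0
      exact Or.inr ⟨h0, Nat.zero_le _, Or.inl (by omega), by omega⟩
  · refine Nat.le_of_mul_le_mul_left ?_ hk0
    nlinarith

theorem V_QQ (m j X k Tt s w y T' : ℕ) (hm : m = y + w + 1) (hy : 1 ≤ y)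
    (hT : Tt + w = w * k + T') (hT' : T' + 1 ≤ k) (hw : w ≤ k)
    (hj : s + 1 ≤ j) (hB : s ≤ k + Tt) (hD : k * X ≤ j * Tt + m * s)
    (hlow : s * (Tt + w + 2) + (y + 1) * k ≤ k * X)
    (hup : (j - s) * Tt + y * s + (j - s) * k ≤ m * (j - s) * k)
    (hc : T' + 1 = k ∨ k ≤ s ∨ (s ≤ k ∧ 1 ≤ T' ∧ T' + 1 ≤ s ∧ (T' + 1) * (k - s) ≤ s)) :
    V m j X k Tt s 0 0 0 := by
  obtain ⟨js, rfl⟩ : ∃ js, j = s + js := ⟨j - s, by omega⟩
  rw [Nat.add_sub_cancel_left] at hup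
  have hk0 : 0 < k := by omega
  have hs : s = s / k * k + s % k := (Nat.div_add_mod' s k).symm
  have hs' := Nat.mod_lt s hk0
  have core := fun q s' X' e2 E2 => Tall_core m X k Tt s w y T' js q s' X' e2 E2 hm hy hT hT' hw
    (by omega) hB hD hlow hup
  rcases hc with hc | hc | ⟨c1, c2, c3, c4⟩
  · exact core (s / k) (s % k) (s % k) 0 0 hs le_rfl (by rw [hc, Nat.mul_comm]; rfl) (by omega)
      (by omega) (fun _ => rfl) (by omega) (Or.inr rfl) (Or.inr rfl)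
  · have hq : 0 < s / k := Nat.div_pos hc hk0
    generalize s / k = q at hs hq
    generalize s % k = s' at hs hs'
    obtain ⟨X', E, hE, hEk⟩ := Tall_ceil (s' * (T' + 1)) k hk0
    have h1 : s' * (T' + 1) ≤ s' * k := Nat.mul_le_mul_left _ hT'
    have h2 : s' ≤ s' * (T' + 1) := Nat.le_mul_of_pos_right _ (by omega)
    have h3 : X' ≤ s' := by
      refine Nat.le_of_lt_succ (Nat.lt_of_mul_lt_mul_left (a := k) ?_)
      rw [Nat.succ_eq_add_one, Nat.mul_add, Nat.mul_comm k s']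
      omega
    refine core q s' X' (min E (k - s')) (E - min E (k - s')) hs h3 (by omega) (by omega)
      (by omega) (by omega) (by omega) ?_ ?_
    · rcases Nat.eq_zero_or_pos X' with rfl | h0
      · omega
      · exact Or.inl h0
    · obtain rfl | rfl | h0 : X' = 0 ∨ X' = 1 ∨ 2 ≤ X' := by omega
      · omega
      · omega
      · exact Or.inl h0
  · obtain ⟨d, rfl⟩ : ∃ d, k = s + d := ⟨k - s, by omega⟩
    rw [Nat.add_sub_cancel_left] at c4
    exact core 0 s (T' + 1) 0 ((T' + 1) * d) (by omega) c3 (by ring) (by omega) (by omega)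
      (fun _ => rfl) c4 (Or.inr rfl) (Or.inl (by omega))

theorem V_t1 (j X k Tt s : ℕ) (hT : Tt + 1 = k) (h1 : 2 ≤ k) (h2 : 3 ≤ s) (h3 : s + 4 ≤ j)
    (h4 : s ≤ k + Tt) (hD : k * X ≤ j * Tt + 3 * s) : V 3 j X k Tt s 0 0 0 := by
  obtain ⟨X', hX, hl, hu⟩ := Tall_floor _ k X (by omega) hD
  obtain ⟨js, rfl⟩ : ∃ js, j = s + js := ⟨j - s, by omega⟩
  have hjs : 4 ≤ js := by omega
  subst hT
  refine V_mono hX (V_QQ 3 (s + js) X' (Tt + 1) Tt s 0 2 Tt rfl (by omega) (by omega) le_rfl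
    (by omega) (by omega) h4 hl ?_ ?_ (Or.inl rfl))
  · nlinarith [Nat.mul_le_mul_right Tt hjs]
  · rw [Nat.add_sub_cancel_left]
    nlinarith [Nat.mul_le_mul_right Tt hjs]

theorem V_tall (j X k Tt s g : ℕ) (h1 : 3 ≤ k) (h2 : k ≤ Tt + 1) (h3 : Tt + 2 ≤ 2 * k)
    (h4 : s ≤ k + Tt) (hg : 4 ≤ g) (h5 : s + g ≤ j) (h6 : s + g * Tt ≤ g * (2 * k))
    (hD : k * X ≤ j * Tt + 3 * s) (hc : k ≤ s ∨ (Tt = k ∧ 2 * k ≤ 3 * s)) :
    V 3 j X k Tt s 0 0 0 := by
  obtain ⟨X', hX, hl, hu⟩ := Tall_floor _ k X (by omega) hD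
  obtain ⟨js, rfl⟩ : ∃ js, j = s + js := ⟨j - s, by omega⟩
  have hjs : g ≤ js := by omega
  obtain ⟨T', hT'⟩ : ∃ T', Tt + 1 = k + T' := ⟨Tt + 1 - k, by omega⟩
  refine V_mono hX (V_QQ 3 (s + js) X' k Tt s 1 1 T' rfl le_rfl (by omega) (by omega)
    (by omega) (by omega) h4 hl ?_ ?_ ?_)
  · nlinarith [Nat.mul_le_mul_right Tt (hg.trans hjs)]
  · rw [Nat.add_sub_cancel_left]
    obtain ⟨d, hd⟩ : ∃ d, 2 * k = Tt + d := ⟨2 * k - Tt, by omega⟩
    have e1 : s ≤ g * d := by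
      rw [hd, Nat.mul_add] at h6
      omega
    have e2 : js * (2 * k) = js * (Tt + d) := by rw [hd]
    nlinarith [Nat.mul_le_mul_right d hjs]
  · by_cases hs : k ≤ s
    · exact Or.inr (Or.inl hs)
    · obtain ⟨c1, c2⟩ := hc.resolve_left hs
      obtain rfl : T' = 1 := by omega
      exact Or.inr (Or.inr ⟨by omega, le_rfl, by omega, by omega⟩)

end Pool.Agent.Work.MP_f4b644_ag.Thin
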