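import Pool.Agent.Work.MP_f4b644_ag.Thin.Blocks
import Pool.Agent.Work.MP_f4b644_ag.Thin.Tall

/-!
First dimension 5 (m = 3), the last block. τ = J + 3, v = τ + ω, X = ω + 3, d = J - X. General facts from `FinD` (B < v): k < τ,
Tt ≤ ω, 1 ≤ Tt; if ω ≤ τ also Tt ≤ k, B ≤ k + Tt + 1 (τ (k + Tt) ≥ k v > B τ - v); the dimension count hD is ω k ≤ τ Tt;
τ (k - Tt) ≤ (d + 6) k < τ (k - Tt) + τ. If k = 1 then Tt = 1 and we use `V_col`. When `V_B2` is used, a = (d + 3) / 6,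
t = k - Tt ≤ d + 5 ≤ 9 (a + 1) (F1), F2a and F2b follow from k (3 d + 27) ≤ t (4 J + d - 7) (multiply by τ), hX2 follows from
(d + 6) Tt < ω t + τ and ω t ≥ 7 τ.

`fin3c`: d ≥ -1. If 5 X ≥ 4 J use `V_A`: 9 k ≤ 7 τ, k ≥ 2, ω (τ - k) ≥ 3 τ gives Tt + 3 ≤ ω; k (2 J - d) ≤ (J + 2 d) τ and
(d + 6) (J + 2 d) < (d + 4) (2 J - d) give (d + 6) k < (d + 4) τ, so k - Tt ≤ d + 3 (put d' = d + 1 ≥ 0);
4 k ≤ 4 J + 3 - X because 4 (3 J - 2 X) (J + 3) < (4 J + 4 - X) (J + X). Otherwise `V_B2` (9 (k + 1) > 7 τ, 5 d > J).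
`fin3d`: `V_tall` with g = 4 for x ≤ 5 (Tt ≤ k) and g = 12 for x ≥ 6; s ≤ B = J - 2 x, k ≥ 4 (2 v ≤ 5 J), 2 k < τ,
τ (k - Tt) ≤ 4 k gives k ≤ Tt + 1, 2 ω ≤ 3 τ gives 2 Tt ≤ 3 k + 1.
-/

set_option autoImplicit false

namespace Pool.Agent.Work.MP_f4b644_ag.Thin

open Big Multiset Big.Gad

theorem S5finB_cancel {a b c : ℕ} (h : c * a < c * b) : a < b :=
  lt_of_mul_lt_mul_left h (Nat.zero_le c)

theorem S5finB_h3 (J e k Tt ω B : ℕ) (hJ : 200 ≤ J) (he : ω + 2 + e = J) (h5 : 5 * e ≤ J + 5)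
    (hB : B + 2 = J + 2 * e) (h1 : k * (J + 3 + ω) ≤ B * (J + 3)) (h3 : ω * k ≤ (J + 3) * Tt) :
    ω + k ≤ J + Tt := by
  have a1 : (e + 5) * B < (e + 3) * (J + 3 + ω) := by
    obtain ⟨b, rfl⟩ : ∃ b, J = b + 2 := ⟨J - 2, by omega⟩
    obtain rfl : B = b + 2 * e := by omega
    obtain rfl : b = ω + e := by omega
    have c1 : 4 * e ≤ ω + 7 := by omega
    have c2 : 150 ≤ ω := by omega
    nlinarith [Nat.mul_le_mul_left e c1, Nat.mul_le_mul_left e c2]
  have a2 : (e + 5) * k < (e + 3) * (J + 3) := by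
    apply S5finB_cancel (c := J + 3 + ω)
    calc (J + 3 + ω) * ((e + 5) * k) = (e + 5) * (k * (J + 3 + ω)) := by ring
      _ ≤ (e + 5) * (B * (J + 3)) := Nat.mul_le_mul_left _ h1
      _ = (e + 5) * B * (J + 3) := by ring
      _ < (e + 3) * (J + 3 + ω) * (J + 3) := Nat.mul_lt_mul_of_pos_right a1 (by omega)
      _ = (J + 3 + ω) * ((e + 3) * (J + 3)) := by ring
  have a3 : k < Tt + (e + 3) := by
    apply S5finB_cancel (c := J + 3)
    have : (J + 3) * k = ω * k + (e + 5) * k := by rw [← he]; ring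
    nlinarith
  omega

theorem S5finB_h4 (J X k B : ℕ) (hJ : 200 ≤ J) (h5 : 4 * J ≤ 5 * X) (hX : X ≤ J + 1)
    (hB : B + 2 * X = 3 * J) (h1 : k * (J + X) ≤ B * (J + 3)) : X + 4 * k ≤ 4 * J + 3 := by
  obtain ⟨Y, hY⟩ : ∃ Y, X + Y = 4 * J + 4 := ⟨4 * J + 4 - X, by omega⟩
  have a1 : 4 * B * (J + 3) < Y * (J + X) := by
    obtain ⟨e, he⟩ : ∃ e, X + e = J + 1 := ⟨J + 1 - X, by omega⟩
    have c1 : 5 * e ≤ J + 5 := by omega
    have c2 := Nat.mul_le_mul_left J c1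
    have c3 := Nat.mul_le_mul c1 c1
    have c4 := Nat.mul_le_mul_left J hJ
    zify at *
    have e1 : (X : ℤ) = J + 1 - e := by linarith
    have e2 : (B : ℤ) = J - 2 + 2 * e := by linarith
    have e3 : (Y : ℤ) = 3 * J + 3 + e := by linarith
    rw [e1, e2, e3]
    nlinarith
  have a2 : 4 * k < Y := by
    apply S5finB_cancel (c := J + X)
    calc (J + X) * (4 * k) = 4 * (k * (J + X)) := by ring
      _ ≤ 4 * (B * (J + 3)) := Nat.mul_le_mul_left _ h1
      _ = 4 * B * (J + 3) := by ring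
      _ < Y * (J + X) := a1
      _ = (J + X) * Y := by ring
  omega

theorem S5finB_B2 (J ω d k Tt : ℕ) (hd : ω + 3 + d = J) (hd1 : 41 ≤ d) (hd2 : 3 * d ≤ J)
    (hk1 : k < J + 3) (hk2 : J + 3 ≤ 2 * k) (h3 : ω * k ≤ (J + 3) * Tt)
    (h4 : (J + 3) * Tt < ω * k + (J + 3)) : V 3 J (ω + 3) k Tt (k + Tt) 0 0 0 := by
  have hD : k * (ω + 3) ≤ J * Tt + 3 * (k + Tt) := by nlinarith
  have e0 : (J + 3) * k = ω * k + (d + 6) * k := by rw [← hd]; ring
  have a1 : Tt < k + 1 := by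
    apply S5finB_cancel (c := J + 3)
    have b1 : ω ≤ J + 3 := by omega
    have b2 := Nat.mul_le_mul_right k b1
    nlinarith
  obtain ⟨t, ht⟩ : ∃ t, Tt + t = k := ⟨k - Tt, by omega⟩
  have e1 : (J + 3) * k = (J + 3) * Tt + (J + 3) * t := by rw [← ht]; ring
  have a2 : (J + 3) * t ≤ (d + 6) * k := by omega
  have a3 : (d + 6) * k < (J + 3) * t + (J + 3) := by omega
  have a4 : t < d + 6 := by
    apply S5finB_cancel (c := J + 3)
    have b1 : (d + 6) * k < (d + 6) * (J + 3) := Nat.mul_lt_mul_of_pos_left hk1 (by omega)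
    nlinarith
  have a5 : 15 < t + 1 := by
    apply S5finB_cancel (c := J + 3)
    have b1 : 47 * k ≤ (d + 6) * k := Nat.mul_le_mul_right k (by omega)
    nlinarith
  have a6 : 1 ≤ Tt := by
    rcases Nat.eq_zero_or_pos Tt with h0 | h0
    · rw [h0] at h3
      have b1 : 1 * 1 ≤ ω * k := Nat.mul_le_mul (by omega) (by omega)
      omega
    · exact h0
  obtain ⟨a, ha1, ha2⟩ : ∃ a, 6 * a ≤ d + 3 ∧ d + 3 < 6 * a + 6 := ⟨(d + 3) / 6, by omega, by omega⟩
  have a7 : k * (3 * d + 27) + 7 * t ≤ t * (4 * J + d) := by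
    have b1 : 41 * k ≤ d * k := Nat.mul_le_mul_right k hd1
    have b2 : 19 * t ≤ d * t := Nat.mul_le_mul_right t (by omega)
    nlinarith
  have b1 := Nat.mul_le_mul_left k ha1
  have b2 := Nat.mul_le_mul_left t ha1
  have b3 : t * k ≤ t * (J + 2) := Nat.mul_le_mul_left t (by omega)
  have b4 : t * Tt ≤ t * (J + 2) := Nat.mul_le_mul_left t (by omega)
  refine V_B2 3 J (ω + 3) k Tt a d t (by omega) hd ht a6 (by omega) (by omega) ?_ ?_ ?_ ?_ hD
  · have c1 : k * t ≤ k * (9 * (a + 1)) := Nat.mul_le_mul_left k (by omega)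
    nlinarith [Nat.zero_le (a * t)]
  · nlinarith
  · nlinarith
  · have c1 : (d + 6) * Tt < ω * t + (J + 3) := by
      have e2 : (J + 3) * Tt = ω * Tt + (d + 6) * Tt := by rw [← hd]; ring
      have e3 : ω * k = ω * Tt + ω * t := by rw [← ht]; ring
      omega
    have c2 : ω * 14 ≤ ω * t := Nat.mul_le_mul_left ω (by omega)
    have c3 : Tt * (6 * a) ≤ Tt * (d + 6) := Nat.mul_le_mul_left Tt (by omega)
    have c4 : J + 3 ≤ 2 * ω := by omega
    nlinarith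

theorem fin3c (J ω B k Tt : ℕ) (hJ : 200 ≤ J) (hn : 2 * J < 3 * (ω + 3)) (hX : ω + 3 ≤ J + 1)
    (hB : B + 2 * (ω + 3) = 3 * J) (h : FinD 3 J ω B k Tt) : V 3 J (ω + 3) k Tt (k + Tt) 0 0 0 := by
  obtain ⟨h1, h2, h3, h4, h5⟩ := h
  rcases le_or_gt (4 * J) (5 * (ω + 3)) with hc | hc
  · have hD : k * (ω + 3) ≤ J * Tt + 3 * (k + Tt) := by nlinarith
    have a1 : 9 * k < 7 * (J + 3) + 1 := by
      apply S5finB_cancel (c := J + 3 + ω)
      have b1 : 9 * B ≤ 7 * (J + 3 + ω) := by omega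
      have b2 := Nat.mul_le_mul_right (J + 3) b1
      nlinarith
    have a2 : 2 < k + 1 := by
      apply S5finB_cancel (c := J + 3 + ω)
      have b1 : 4 * (J + 3) ≤ B * (J + 3) := Nat.mul_le_mul_right _ (by omega)
      have b2 : (J + 3 + ω) * 2 ≤ 4 * (J + 3) := by omega
      calc (J + 3 + ω) * 2 ≤ B * (J + 3) := b2.trans b1
        _ < (k + 1) * (J + 3 + ω) := h2
        _ = (J + 3 + ω) * (k + 1) := by ring
    have a3 : Tt < k + 1 := by
      apply S5finB_cancel (c := J + 3)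
      have b1 : ω ≤ J + 3 := by omega
      have b2 := Nat.mul_le_mul_right k b1
      nlinarith
    have a4 : Tt + 2 < ω := by
      apply S5finB_cancel (c := J + 3)
      have b1 : ω * (9 * k) ≤ ω * (7 * (J + 3)) := Nat.mul_le_mul_left ω (by omega)
      have b2 : 14 * (J + 3) ≤ ω * (J + 3) := Nat.mul_le_mul_right _ (by omega)
      nlinarith
    have a5 := S5finB_h3 J (J - (ω + 2)) k Tt ω B hJ (by omega) (by omega) (by omega) h1 h3
    have a6 := S5finB_h4 J (ω + 3) k B hJ hc hX hB (by rw [← add_assoc, add_right_comm]; exact h1)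
    exact V_A 3 J (ω + 3) k Tt (by omega) (by omega) (by omega) (Or.inr (by omega)) (by omega)
      (by omega) hD
  · have a1 : k < J + 3 := by
      apply S5finB_cancel (c := J + 3 + ω)
      have b1 : B < J + 3 + ω := by omega
      calc (J + 3 + ω) * k = k * (J + 3 + ω) := by ring
        _ ≤ B * (J + 3) := h1
        _ < (J + 3 + ω) * (J + 3) := Nat.mul_lt_mul_of_pos_right b1 (by omega)
    have a2 : 7 * (J + 3) < 9 * (k + 1) := by
      apply S5finB_cancel (c := J + 3 + ω)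
      have b1 : 7 * (J + 3 + ω) ≤ 9 * B := by omega
      have b2 := Nat.mul_le_mul_right (J + 3) b1
      nlinarith
    exact S5finB_B2 J ω (J - (ω + 3)) k Tt (by omega) (by omega) (by omega) a1 (by omega) h3 h4

theorem fin3d (J ω x B k Tt : ℕ) (hJ : 200 ≤ J) (hx : 2 ≤ x) (hω : ω + 3 = J + x) (hB : B + 2 * x = J)
    (h15 : 15 ≤ B) (h : FinD 3 J ω B k Tt) : V 3 J (ω + 3) k Tt (k + Tt) 0 0 0 := by
  obtain ⟨h1, h2, h3, h4, h5⟩ := h
  have a1 : 6 < k + 1 := by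
    apply S5finB_cancel (c := J + 3 + ω)
    have b1 : 15 * (J + 3) ≤ B * (J + 3) := Nat.mul_le_mul_right _ h15
    have b2 : (J + 3 + ω) * 6 ≤ 15 * (J + 3) := by omega
    calc (J + 3 + ω) * 6 ≤ B * (J + 3) := b2.trans b1
      _ < (k + 1) * (J + 3 + ω) := h2
      _ = (J + 3 + ω) * (k + 1) := by ring
  have a2 : 2 * k < J + 3 := by
    apply S5finB_cancel (c := J + 3 + ω)
    have b1 : 2 * B < J + 3 + ω := by omega
    calc (J + 3 + ω) * (2 * k) = 2 * (k * (J + 3 + ω)) := by ring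
      _ ≤ 2 * (B * (J + 3)) := Nat.mul_le_mul_left _ h1
      _ = 2 * B * (J + 3) := by ring
      _ < (J + 3 + ω) * (J + 3) := Nat.mul_lt_mul_of_pos_right b1 (by omega)
  have a3 : k < Tt + 2 := by
    apply S5finB_cancel (c := J + 3)
    have b1 : J + 3 ≤ ω + 4 := by omega
    have b2 := Nat.mul_le_mul_right k b1
    nlinarith
  have a4 : 2 * Tt < 3 * k + 2 := by
    apply S5finB_cancel (c := J + 3)
    have b1 : 2 * ω ≤ 3 * (J + 3) := by omega
    have b2 := Nat.mul_le_mul_right k b1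
    nlinarith
  have hD : k * (ω + 3) ≤ J * Tt + 3 * (k + Tt) := by nlinarith
  rcases le_or_gt x 5 with hx5 | hx5
  · have a5 : Tt < k + 1 := by
      apply S5finB_cancel (c := J + 3)
      have b1 : ω ≤ J + 3 := by omega
      have b2 := Nat.mul_le_mul_right k b1
      nlinarith
    exact V_tall J (ω + 3) k Tt (k + Tt) 4 (by omega) (by omega) (by omega) le_rfl le_rfl
      (by omega) (by omega) hD (Or.inl (by omega))
  · exact V_tall J (ω + 3) k Tt (k + Tt) 12 (by omega) (by omega) (by omega) le_rfl (by omega)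
      (by omega) (by omega) hD (Or.inl (by omega))

end Pool.Agent.Work.MP_f4b644_ag.Thin
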