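import Pool.Agent.Work.MP_f4b644_ag.Thin.Tall

/-!
First dimension 5, the block with J + 3 columns for X = J + x, 1 ≤ x ≤ 8: two strips, each cut into tall blocks.
-/

set_option autoImplicit false

namespace Pool.Agent.Work.MP_f4b644_ag.Thin

open Big Multiset Big.Gad

theorem tx_t1 (j X k Tt s : ℕ) (x : ℤ) (hX : (X : ℤ) = j + x) (hT : Tt + 1 = k) (h1 : 2 ≤ k)
    (h2 : 3 ≤ s) (h3 : s + 4 ≤ j) (h4 : s ≤ k + Tt) (hD : (k : ℤ) * x + j ≤ 3 * s) :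
    V 3 j X k Tt s 0 0 0 :=
  V_t1 j X k Tt s hT h1 h2 h3 h4 (Dx 3 j X k Tt s x 1 hX (by omega) (by push_cast; linarith))

theorem tx_t0 (j X k Tt s : ℕ) (x : ℤ) (hX : (X : ℤ) = j + x) (hT : Tt = k) (h1 : 3 ≤ k)
    (h2 : 2 * k ≤ 3 * s) (h3 : s + 4 ≤ j) (h4 : s ≤ 2 * k) (hD : (k : ℤ) * x ≤ 3 * s) :
    V 3 j X k Tt s 0 0 0 :=
  V_tall j X k Tt s 4 h1 (by omega) (by omega) (by omega) le_rfl h3 (by omega)
    (Dx 3 j X k Tt s x 0 hX (by omega) (by push_cast; linarith)) (Or.inr ⟨hT, h2⟩)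

theorem tx_G (j X k Tt s : ℕ) (x t : ℤ) (hX : (X : ℤ) = j + x) (hT : (Tt : ℤ) + t = k) (h1 : s ≤ j)
    (h2 : s ≤ k) (h3 : k ≤ Tt) (h4 : X ≤ 2 * j) (h5 : j + 3 ≤ X) (h6 : Tt + 3 ≤ 2 * k)
    (hD : (k : ℤ) * x + j * t ≤ 3 * s) : V 3 j X k Tt s 0 0 0 :=
  V_G 3 j X k Tt s 0 0 0 1 1 rfl le_rfl (Nat.zero_le _) h1 h2 (by omega) (by omega)
    (Dx 3 j X k Tt s x t hX hT (by push_cast; linarith)) (Or.inr ⟨by omega, by omega⟩)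

theorem tx_C (j k Tt s : ℕ) (t : ℤ) (hT : (Tt : ℤ) + t = k) (h1 : 3 ≤ j) (h2 : s ≤ k) (h3 : s ≤ 3 * j)
    (hD : (j : ℤ) * t ≤ 3 * s) : V 3 j j k Tt s 0 0 0 :=
  V_CG0 3 j j k Tt s (by omega) h1 le_rfl h2 (by omega)
    (Dx 3 j j k Tt s 0 t (by omega) hT (by push_cast; linarith))

theorem tx_1 (J ω : ℕ) (hJ : 200 ≤ J) (hω : ω + 3 = J + 1) :
    V 3 J (ω + 3) (J + 3) ω (J + 3 + ω) 0 0 0 := by
  obtain ⟨a, ha1, ha2⟩ : ∃ a, 15 * a ≤ 2 * J ∧ 2 * J < 15 * a + 15 :=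
    ⟨(2 * J) / 15, by omega, by omega⟩
  obtain ⟨j, ej⟩ : ∃ j, J = 3 * a + j := ⟨J - (3 * a), by omega⟩
  obtain ⟨b, hb1, hb2⟩ : ∃ b, 5 * b ≤ J + 3 ∧ J + 3 < 5 * b + 5 :=
    ⟨(J + 3) / 5, by omega, by omega⟩
  obtain ⟨k, s, hk1, hk2, hk3⟩ : ∃ k s, 1 * k + j = 3 * s + 0 ∧ k ≤ b ∧ b ≤ k + 2 :=
    ⟨b - (b + j) % 3, (1 * (b - (b + j) % 3) + j - 0) / 3, by omega, by omega, by omega⟩
  obtain ⟨l, el⟩ : ∃ l, J + 3 = 4 * k + l := ⟨J + 3 - (4 * k), by omega⟩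
  obtain ⟨u, eu⟩ : ∃ u, J + 3 + ω = 5 * a + 4 * s + u := ⟨J + 3 + ω - (5 * a + 4 * s), by omega⟩
  exact V_cutB0 (3 * a) (3 * a) (5 * a) (j) (j + 1) (4 * s + u) (by omega) (by omega) (by omega) le_rfl
    (tx_C _ _ _ _ 5 (by omega) (by omega) (by omega) (by omega) (by omega))
    (V_cutC0 4 (k) (k - 1) (s) (l) (l - 1) (u) (by omega) (by omega) (by omega) (by omega)
      (tx_t1 _ _ _ _ _ 1 (by omega) (by omega) (by omega) (by omega) (by omega) (by omega) (by omega))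
      (tx_t1 _ _ _ _ _ 1 (by omega) (by omega) (by omega) (by omega) (by omega) (by omega) (by omega)))

theorem tx_2 (J ω : ℕ) (hJ : 200 ≤ J) (hω : ω + 3 = J + 2) :
    V 3 J (ω + 3) (J + 3) ω (J + 3 + ω) 0 0 0 := by
  obtain ⟨a, ha1, ha2⟩ : ∃ a, 15 * a ≤ 2 * J ∧ 2 * J < 15 * a + 15 :=
    ⟨(2 * J) / 15, by omega, by omega⟩
  obtain ⟨j, ej⟩ : ∃ j, J = 3 * a + j := ⟨J - (3 * a), by omega⟩
  obtain ⟨b, hb1, hb2⟩ : ∃ b, 4 * b ≤ J + 3 ∧ J + 3 < 4 * b + 4 :=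
    ⟨(J + 3) / 4, by omega, by omega⟩
  obtain ⟨k, s, hk1, hk2, hk3⟩ : ∃ k s, 2 * k + j = 3 * s + 0 ∧ k ≤ b ∧ b ≤ k + 2 :=
    ⟨b - (b + 2 * j) % 3, (2 * (b - (b + 2 * j) % 3) + j - 0) / 3, by omega, by omega, by omega⟩
  obtain ⟨l, el⟩ : ∃ l, J + 3 = 3 * k + l := ⟨J + 3 - (3 * k), by omega⟩
  obtain ⟨u, eu⟩ : ∃ u, J + 3 + ω = 4 * a + 3 * s + u := ⟨J + 3 + ω - (4 * a + 3 * s), by omega⟩
  exact V_cutB0 (3 * a) (3 * a) (4 * a) (j) (j + 2) (3 * s + u) (by omega) (by omega) (by omega) le_rfl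
    (tx_C _ _ _ _ 4 (by omega) (by omega) (by omega) (by omega) (by omega))
    (V_cutC0 3 (k) (k - 1) (s) (l) (l - 1) (u) (by omega) (by omega) (by omega) (by omega)
      (tx_t1 _ _ _ _ _ 2 (by omega) (by omega) (by omega) (by omega) (by omega) (by omega) (by omega))
      (tx_t1 _ _ _ _ _ 2 (by omega) (by omega) (by omega) (by omega) (by omega) (by omega) (by omega)))

theorem tx_3 (J ω : ℕ) (hJ : 200 ≤ J) (hω : ω + 3 = J + 3) :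
    V 3 J (ω + 3) (J + 3) ω (J + 3 + ω) 0 0 0 := by
  obtain ⟨a, ha1, ha2⟩ : ∃ a, 5 * a ≤ J ∧ J < 5 * a + 5 :=
    ⟨(J) / 5, by omega, by omega⟩
  obtain ⟨j, ej⟩ : ∃ j, J = 3 * a + j := ⟨J - (3 * a), by omega⟩
  obtain ⟨k, hk1, hk2⟩ : ∃ k, 3 * k ≤ J + 3 ∧ J + 3 < 3 * k + 3 :=
    ⟨(J + 3) / 3, by omega, by omega⟩
  obtain ⟨l, el⟩ : ∃ l, J + 3 = 2 * k + l := ⟨J + 3 - (2 * k), by omega⟩
  exact V_cutB0 (j) (j) (j) (3 * a) (3 * a + 3) (J + 3 + 3 * a) (by omega) (by omega) (by omega) le_rfl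
    (tx_C _ _ _ _ 3 (by omega) (by omega) (by omega) (by omega) (by omega))
    (V_cutC0 2 (k) (k - 1) (k + a) (l) (l - 1) (l + a) (by omega) (by omega) (by omega) (by omega)
      (tx_t1 _ _ _ _ _ 3 (by omega) (by omega) (by omega) (by omega) (by omega) (by omega) (by omega))
      (tx_t1 _ _ _ _ _ 3 (by omega) (by omega) (by omega) (by omega) (by omega) (by omega) (by omega)))

theorem tx_4 (J ω : ℕ) (hJ : 200 ≤ J) (hω : ω + 3 = J + 4) :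
    V 3 J (ω + 3) (J + 3) ω (J + 3 + ω) 0 0 0 := by
  obtain ⟨a, ha1, ha2⟩ : ∃ a, 2 * a ≤ J ∧ J < 2 * a + 2 :=
    ⟨(J) / 2, by omega, by omega⟩
  obtain ⟨j, s, hj1, hj2, hj3⟩ : ∃ j s, 2 * j + 2 * (J + 3) = 3 * s + 0 ∧ j ≤ a ∧ a ≤ j + 2 :=
    ⟨a - (a + J) % 3, (2 * (a - (a + J) % 3) + 2 * (J + 3) - 0) / 3, by omega, by omega, by omega⟩
  obtain ⟨i, ei⟩ : ∃ i, J = j + i := ⟨J - (j), by omega⟩
  obtain ⟨t, et⟩ : ∃ t, J + 3 + ω = s + t := ⟨J + 3 + ω - (s), by omega⟩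
  obtain ⟨b, hb1, hb2⟩ : ∃ b, 3 * b ≤ J + 3 ∧ J + 3 < 3 * b + 3 :=
    ⟨(J + 3) / 3, by omega, by omega⟩
  obtain ⟨k, u, hk1, hk2, hk3⟩ : ∃ k u, 2 * k + j = 3 * u + 0 ∧ k ≤ b ∧ b ≤ k + 2 :=
    ⟨b - (b + 2 * j) % 3, (2 * (b - (b + 2 * j) % 3) + j - 0) / 3, by omega, by omega, by omega⟩
  obtain ⟨l, el⟩ : ∃ l, J + 3 = 2 * k + l := ⟨J + 3 - (2 * k), by omega⟩
  obtain ⟨v, ev⟩ : ∃ v, s = 2 * u + v := ⟨s - (2 * u), by omega⟩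
  obtain ⟨p, w, hp1, hp2, hp3⟩ : ∃ p w, 2 * p + i = 3 * w + 0 ∧ p ≤ b ∧ b ≤ p + 2 :=
    ⟨b - (b + 2 * i) % 3, (2 * (b - (b + 2 * i) % 3) + i - 0) / 3, by omega, by omega, by omega⟩
  obtain ⟨q, eq⟩ : ∃ q, J + 3 = 2 * p + q := ⟨J + 3 - (2 * p), by omega⟩
  obtain ⟨z, ez⟩ : ∃ z, t = 2 * w + z := ⟨t - (2 * w), by omega⟩
  exact V_cutB0 (j) (j + 2) (s) (i) (i + 2) (t) (by omega) (by omega) (by omega) le_rfl
    (V_cutC0 2 (k) (k - 1) (u) (l) (l) (v) (by omega) (by omega) (by omega) (by omega)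
      (tx_t1 _ _ _ _ _ 2 (by omega) (by omega) (by omega) (by omega) (by omega) (by omega) (by omega))
      (tx_t0 _ _ _ _ _ 2 (by omega) (by omega) (by omega) (by omega) (by omega) (by omega) (by omega)))
    (V_cutC0 2 (p) (p - 1) (w) (q) (q) (z) (by omega) (by omega) (by omega) (by omega)
      (tx_t1 _ _ _ _ _ 2 (by omega) (by omega) (by omega) (by omega) (by omega) (by omega) (by omega))
      (tx_t0 _ _ _ _ _ 2 (by omega) (by omega) (by omega) (by omega) (by omega) (by omega) (by omega)))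

theorem tx_5 (J ω : ℕ) (hJ : 200 ≤ J) (hω : ω + 3 = J + 5) :
    V 3 J (ω + 3) (J + 3) ω (J + 3 + ω) 0 0 0 := by
  obtain ⟨a, ha1, ha2⟩ : ∃ a, 6 * a ≤ J + 6 ∧ J + 6 < 6 * a + 6 :=
    ⟨(J + 6) / 6, by omega, by omega⟩
  obtain ⟨i, ei⟩ : ∃ i, J = 3 * a + i := ⟨J - (3 * a), by omega⟩
  obtain ⟨k, hk1, hk2⟩ : ∃ k, 8 * k ≤ 3 * J + 9 ∧ 3 * J + 9 < 8 * k + 8 :=
    ⟨(3 * J + 9) / 8, by omega, by omega⟩
  obtain ⟨l, el⟩ : ∃ l, J + 3 = 2 * k + l := ⟨J + 3 - (2 * k), by omega⟩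
  obtain ⟨b, hb1, hb2⟩ : ∃ b, 9 * b ≤ J + 3 ∧ J + 3 < 9 * b + 9 :=
    ⟨(J + 3) / 9, by omega, by omega⟩
  obtain ⟨q, eq⟩ : ∃ q, J + 3 = 6 * b + q := ⟨J + 3 - (6 * b), by omega⟩
  obtain ⟨z, ez⟩ : ∃ z, ω = a + 4 * b + z := ⟨ω - (a + 4 * b), by omega⟩
  exact V_cutB0 (3 * a) (3 * a + 3) (J + 3 + a) (i) (i + 2) (4 * b + z) (by omega) (by omega) (by omega) le_rfl
    (V_cutC0 2 (k) (k) (k) (l) (l - 1) (l + a) (by omega) (by omega) (by omega) (by omega)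
      (tx_G _ _ _ _ _ 3 0 (by omega) (by omega) (by omega) (by omega) (by omega) (by omega) (by omega) (by omega) (by omega))
      (tx_t1 _ _ _ _ _ 3 (by omega) (by omega) (by omega) (by omega) (by omega) (by omega) (by omega)))
    (V_cutC0 2 (3 * b) (3 * b) (2 * b) (q) (q - 1) (z) (by omega) (by omega) (by omega) (by omega)
      (tx_t0 _ _ _ _ _ 2 (by omega) (by omega) (by omega) (by omega) (by omega) (by omega) (by omega))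
      (tx_t1 _ _ _ _ _ 2 (by omega) (by omega) (by omega) (by omega) (by omega) (by omega) (by omega)))

theorem tx_6 (J ω : ℕ) (hJ : 200 ≤ J) (hω : ω + 3 = J + 6) :
    V 3 J (ω + 3) (J + 3) ω (J + 3 + ω) 0 0 0 := by
  obtain ⟨j, hj1, hj2⟩ : ∃ j, 2 * j ≤ J ∧ J < 2 * j + 2 :=
    ⟨(J) / 2, by omega, by omega⟩
  obtain ⟨i, ei⟩ : ∃ i, J = j + i := ⟨J - (j), by omega⟩
  obtain ⟨k, hk1, hk2⟩ : ∃ k, 3 * k ≤ J + 3 ∧ J + 3 < 3 * k + 3 :=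
    ⟨(J + 3) / 3, by omega, by omega⟩
  obtain ⟨l, el⟩ : ∃ l, J + 3 = 2 * k + l := ⟨J + 3 - (2 * k), by omega⟩
  exact V_cutB0 (j) (j + 3) (J + 3) (i) (i + 3) (J + 3) (by omega) (by omega) (by omega) le_rfl
    (V_cutC0 2 (k) (k) (k) (l) (l) (l) (by omega) (by omega) (by omega) (by omega)
      (tx_G _ _ _ _ _ 3 0 (by omega) (by omega) (by omega) (by omega) (by omega) (by omega) (by omega) (by omega) (by omega))
      (tx_G _ _ _ _ _ 3 0 (by omega) (by omega) (by omega) (by omega) (by omega) (by omega) (by omega) (by omega) (by omega)))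
    (V_cutC0 2 (k) (k) (k) (l) (l) (l) (by omega) (by omega) (by omega) (by omega)
      (tx_G _ _ _ _ _ 3 0 (by omega) (by omega) (by omega) (by omega) (by omega) (by omega) (by omega) (by omega) (by omega))
      (tx_G _ _ _ _ _ 3 0 (by omega) (by omega) (by omega) (by omega) (by omega) (by omega) (by omega) (by omega) (by omega)))

theorem tx_7 (J ω : ℕ) (hJ : 200 ≤ J) (hω : ω + 3 = J + 7) :
    V 3 J (ω + 3) (J + 3) ω (J + 3 + ω) 0 0 0 := by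
  obtain ⟨a, ha1, ha2⟩ : ∃ a, 20 * a ≤ 3 * J ∧ 3 * J < 20 * a + 20 :=
    ⟨(3 * J) / 20, by omega, by omega⟩
  obtain ⟨i, ei⟩ : ∃ i, J = 3 * a + i := ⟨J - (3 * a), by omega⟩
  obtain ⟨k, hk1, hk2⟩ : ∃ k, 3 * k ≤ J + 3 ∧ J + 3 < 3 * k + 3 :=
    ⟨(J + 3) / 3, by omega, by omega⟩
  obtain ⟨l, el⟩ : ∃ l, J + 3 = 2 * k + a + l := ⟨J + 3 - (2 * k + a), by omega⟩
  obtain ⟨b, hb1, hb2⟩ : ∃ b, 9 * b ≤ J + 3 ∧ J + 3 < 9 * b + 9 :=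
    ⟨(J + 3) / 9, by omega, by omega⟩
  obtain ⟨q, eq⟩ : ∃ q, J + 3 = 6 * b + q := ⟨J + 3 - (6 * b), by omega⟩
  obtain ⟨z, ez⟩ : ∃ z, ω + a = 8 * b + z := ⟨ω + a - (8 * b), by omega⟩
  exact V_cutB0 (3 * a) (3 * a + 3) (2 * k + l) (i) (i + 4) (8 * b + z) (by omega) (by omega) (by omega) le_rfl
    (V_cutC0 2 (k) (k) (k) (a + l) (a + l + 1) (l) (by omega) (by omega) (by omega) (by omega)
      (tx_G _ _ _ _ _ 3 0 (by omega) (by omega) (by omega) (by omega) (by omega) (by omega) (by omega) (by omega) (by omega))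
      (tx_G _ _ _ _ _ 3 (-1) (by omega) (by omega) (by omega) (by omega) (by omega) (by omega) (by omega) (by omega) (by omega)))
    (V_cutC0 2 (3 * b) (3 * b) (4 * b) (q) (q + 1) (z) (by omega) (by omega) (by omega) (by omega)
      (tx_t0 _ _ _ _ _ 4 (by omega) (by omega) (by omega) (by omega) (by omega) (by omega) (by omega))
      (tx_G _ _ _ _ _ 4 (-1) (by omega) (by omega) (by omega) (by omega) (by omega) (by omega) (by omega) (by omega) (by omega)))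

theorem tx_8 (J ω : ℕ) (hJ : 200 ≤ J) (hω : ω + 3 = J + 8) :
    V 3 J (ω + 3) (J + 3) ω (J + 3 + ω) 0 0 0 := by
  obtain ⟨a, ha1, ha2⟩ : ∃ a, 2 * a ≤ J ∧ J < 2 * a + 2 :=
    ⟨(J) / 2, by omega, by omega⟩
  obtain ⟨j, s, hj1, hj2, hj3⟩ : ∃ j s, 3 * s + 2 * j = 4 * (J + 3) ∧ j ≤ a ∧ a ≤ j + 2 :=
    ⟨a - (a + J) % 3, (4 * (J + 3) - 2 * (a - (a + J) % 3)) / 3, by omega, by omega, by omega⟩
  obtain ⟨i, ei⟩ : ∃ i, J = j + i := ⟨J - (j), by omega⟩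
  obtain ⟨t, et⟩ : ∃ t, J + 3 + ω = s + t := ⟨J + 3 + ω - (s), by omega⟩
  obtain ⟨b, hb1, hb2⟩ : ∃ b, 5 * b ≤ 2 * J + 6 ∧ 2 * J + 6 < 5 * b + 5 :=
    ⟨(2 * J + 6) / 5, by omega, by omega⟩
  obtain ⟨k, u, hk1, hk2, hk3⟩ : ∃ k u, 4 * k + 0 = 3 * u + j ∧ k ≤ b ∧ b ≤ k + 2 :=
    ⟨b - (b + 2 * j) % 3, (4 * (b - (b + 2 * j) % 3) + 0 - j) / 3, by omega, by omega, by omega⟩
  obtain ⟨l, el⟩ : ∃ l, J + 3 = 2 * k + l := ⟨J + 3 - (2 * k), by omega⟩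
  obtain ⟨v, ev⟩ : ∃ v, s = 2 * u + v := ⟨s - (2 * u), by omega⟩
  obtain ⟨p, w, hp1, hp2, hp3⟩ : ∃ p w, 4 * p + 0 = 3 * w + i ∧ p ≤ b ∧ b ≤ p + 2 :=
    ⟨b - (b + 2 * i) % 3, (4 * (b - (b + 2 * i) % 3) + 0 - i) / 3, by omega, by omega, by omega⟩
  obtain ⟨q, eq⟩ : ∃ q, J + 3 = 2 * p + q := ⟨J + 3 - (2 * p), by omega⟩
  obtain ⟨z, ez⟩ : ∃ z, t = 2 * w + z := ⟨t - (2 * w), by omega⟩
  exact V_cutB0 (j) (j + 4) (s) (i) (i + 4) (t) (by omega) (by omega) (by omega) le_rfl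
    (V_cutC0 2 (k) (k + 1) (u) (l) (l) (v) (by omega) (by omega) (by omega) (by omega)
      (tx_G _ _ _ _ _ 4 (-1) (by omega) (by omega) (by omega) (by omega) (by omega) (by omega) (by omega) (by omega) (by omega))
      (tx_t0 _ _ _ _ _ 4 (by omega) (by omega) (by omega) (by omega) (by omega) (by omega) (by omega)))
    (V_cutC0 2 (p) (p + 1) (w) (q) (q) (z) (by omega) (by omega) (by omega) (by omega)
      (tx_G _ _ _ _ _ 4 (-1) (by omega) (by omega) (by omega) (by omega) (by omega) (by omega) (by omega) (by omega) (by omega))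
      (tx_t0 _ _ _ _ _ 4 (by omega) (by omega) (by omega) (by omega) (by omega) (by omega) (by omega)))

theorem tau3x (J x ω : ℕ) (hJ : 200 ≤ J) (h1 : 1 ≤ x) (h8 : x ≤ 8) (hω : ω + 3 = J + x) :
    V 3 J (ω + 3) (J + 3) ω (J + 3 + ω) 0 0 0 := by
  interval_cases x
  · exact tx_1 J ω hJ hω
  · exact tx_2 J ω hJ hω
  · exact tx_3 J ω hJ hω
  · exact tx_4 J ω hJ hω
  · exact tx_5 J ω hJ hω
  · exact tx_6 J ω hJ hω
  · exact tx_7 J ω hJ hω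
  · exact tx_8 J ω hJ hω

end Pool.Agent.Work.MP_f4b644_ag.Thin
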