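import Pool.Agent.Work.MP_f4b644_ag.Thin.S5tauA
import Pool.Agent.Work.MP_f4b644_ag.Thin.S5tauX
import Pool.Agent.Work.MP_f4b644_ag.Thin.S5M1
import Pool.Agent.Work.MP_f4b644_ag.Thin.S5M2
import Pool.Agent.Work.MP_f4b644_ag.Thin.S5finA
import Pool.Agent.Work.MP_f4b644_ag.Thin.S5finB
import Pool.Agent.Work.MP_f4b644_ag.Thin.S5Zd

/-!
First dimension 5, second dimension at least 200.
-/

set_option autoImplicit false

namespace Pool.Agent.Work.MP_f4b644_ag.Thin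

open Big Multiset Big.Gad

theorem S5_root (J X r K : ℕ) (hJ : 200 ≤ J) (h3 : 3 ≤ X) (hX : 2 * X ≤ 3 * J + 7)
    (hr : r + X = 4 * J) (hK : K * (J + X) ≤ r * (J + 3)) : S (3 + 2) J K (replicate r (T 0 0)) := by
  by_cases cZ : 3 * J ≤ 2 * X + 14
  · exact S5_Zd J X r K hJ cZ hX hr hK
  obtain ⟨ω, rfl⟩ : ∃ ω, X = ω + 3 := ⟨X - 3, by omega⟩
  by_cases c0 : ω = 0
  · subst c0
    have h4 : K ≤ r := Nat.le_of_mul_le_mul_right hK (by omega)
    exact S_of_V (T0 := 0) hr le_rfl (V_CG0 3 J (0 + 3) K 0 (K + 0) (by omega) le_rfl (by omega)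
      le_rfl (by omega) (by omega))
  by_cases c1 : ω = 1
  · subst c1
    obtain ⟨i, rfl⟩ : ∃ i, J = i + 2 := ⟨J - 2, by omega⟩
    obtain rfl : r = 4 * i + 4 := by omega
    have h4 := V_A 3 (i + 2) (1 + 3) i 1 (by omega) (by omega) (by omega) (Or.inl rfl) (by omega)
      (by omega) (by omega)
    exact S_of_V (K0 := 4 * i) (T0 := 4) hr (K_le hK (by nlinarith))
      (V_cutC0 3 _ _ _ _ _ _ (by omega) (by omega) (by omega) (by omega) h4 h4)
  by_cases c2 : ω = 2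
  · subst c2
    obtain ⟨i, rfl⟩ : ∃ i, J = i + 4 := ⟨J - 4, by omega⟩
    obtain rfl : r = 4 * i + 11 := by omega
    have h4 := V_A 3 (i + 4) (2 + 3) (i + 1) 2 (by omega) (by omega) (by omega) (Or.inl rfl)
      (by omega) (by omega) (by omega)
    have h5 := V_A 3 (i + 4) (2 + 3) i 2 (by omega) (by omega) (by omega) (Or.inl rfl)
      (by omega) (by omega) (by omega)
    exact S_of_V (K0 := 4 * i + 3) (T0 := 8) hr (K_le hK (by nlinarith))
      (V_cutC0 3 _ _ _ _ _ _ (by omega) (by omega) (by omega) (by omega) h4 h5)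
  have ht : V 3 J (ω + 3) (J + 3) ω (J + 3 + ω) 0 0 0 := by
    by_cases c3 : ω + 3 ≤ J
    · exact tau3a J (J - (ω + 3)) ω hJ (by omega) (by omega)
    by_cases c4 : ω + 3 ≤ J + 8
    · exact tau3x J (ω + 3 - J) ω hJ (by omega) (by omega) (by omega)
    by_cases c5 : 4 * (ω + 3) ≤ 5 * J
    · exact tau3M1 J (ω + 3 - J) ω hJ (by omega) (by omega) (by omega)
    · exact tau3M2 J (3 * J - 2 * (ω + 3)) ω hJ (by omega) (by omega) (by omega)
  have hK' : K * (J + 3 + ω) ≤ r * (J + 3) := by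
    rwa [show J + 3 + ω = J + (ω + 3) by omega]
  by_cases c6 : 4 * (ω + 3) ≤ J
  · exact S_tau 3 J ω r K 3 (J - 4 * (ω + 3)) (by omega) hr (by omega) hK' ht
      (fun k Tt h hk => fin3a J ω _ k Tt hJ (by omega) (by omega) h hk)
  by_cases c7 : 3 * (ω + 3) ≤ 2 * J
  · exact S_tau 3 J ω r K 2 (2 * J - 3 * (ω + 3)) (by omega) hr (by omega) hK' ht
      (fun k Tt h hk => fin3b J ω _ k Tt hJ (by omega) (by omega) h hk)
  refine S_tau 3 J ω r K 1 (3 * J - 2 * (ω + 3)) (by omega) hr (by omega) hK' ht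
    (fun k Tt h _ => ?_)
  by_cases c8 : ω + 3 ≤ J + 1
  · exact fin3c J ω _ k Tt hJ (by omega) c8 (by omega) h
  · exact fin3d J ω (ω + 3 - J) _ k Tt hJ (by omega) (by omega) (by omega) (by omega) h

theorem dense5 {J K : ℕ} (hJ : 200 ≤ J) (hJK : J ≤ K) (hK : K ≤ 4 * (J - 1)) (s : ℕ)
    (h1 : 5 * J * K + 2 * s ≤ s * (5 + J + K))
    (h2 : s * (5 + J + K) + 2 < 5 * J * K + 2 * s + (5 + J + K)) : Dense (RankSet 5 J K s) := by
  have h3 := Top_le (5 * J) (J + 3) K s (by omega) (by nlinarith)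
  have h4 : 5 * J ≤ 2 * s + 7 := by
    by_contra hc
    have h5 : (2 * s + 8) * (J + K + 3) ≤ 5 * J * (J + K + 3) := Nat.mul_le_mul_right _ (by omega)
    nlinarith
  obtain ⟨X, hX⟩ : ∃ X, s + X = 4 * J := ⟨4 * J - s, by omega⟩
  refine dense_of_S (S5_root J X s K hJ (by omega) (by omega) hX ?_)
  have h6 : K * (s + X) = K * (4 * J) := by rw [hX]
  nlinarith

end Pool.Agent.Work.MP_f4b644_ag.Thin
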