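import Pool.Agent.Work.MP_f4b644_ag.Thin.Swap

/-!
From the grid with tokens to gadgets.

Index type ι = Fin s ⊕ Fin (k - s) ⊕ Mt ⊕ Fin nB ⊕ Fin (j - s) ⊕ Fin nC, where
Mt = {q : Fin k × Fin w // ¬ (q.1 < t ∧ q.2 = q.1)} (level q.2 + 1 of the column q.1; card = w k - t because t ≤ w, t ≤ k: the
complement is in bijection with Fin t). Gadgets: T (y - z p) (z p), BP (e l), BP 0, BP 0, CP (y + 1), CP 1.
`S_of_fam` (`map_univ_sum`, `map_univ_const`; for the first two summands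
`Finset.univ.val.map (fun p : Fin s => f p) = (Multiset.range s).map f`, e.g. from `Fin.univ_val_map`/`List.ofFn` or
`Finset.range_val` and `Fin.map_valEmbedding_univ`), then `Gen_hingeC` with κ (mate (l, ν), 0) = (tangent l, 0) if l < s and
κ = id on all other indices, then `Gen.red` from `tok (grid ..)` to `hingeC (fam g) κ` with the maps (values in Lb ⊕ Tk):
tangent p: a (p, i) = row p i, b (p, 0) = row p 0, b (p, i) = own token ⟨p, y - i⟩ if y - i < z p and 0 < i, c = col p 0;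
free column l: a (l, 0) = col (s + l) 0, a (l, i + 1) = aB, b (l, i + 1) = foreign token ⟨l, i⟩ if i < e l, c = col (s + l) 0;
mate (l, ν): a = col l (ν + 1); c (_, 0) = col l 0 if s ≤ l, = col ν 0 if l < s and ν < t, = row token (l, ν - t) if l < s and t ≤ ν;
extra B-fibre g: a = aB, c = vB g; row i: a (i, μ) = row (s + i) μ, b = row (s + i) 0; extra C-fibre g: a = aC, b = vC g.
The B-fibre of a mate with l < s is (a of the mate, c of the tangent l) in the hinge, its token is (a of the mate, b of the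
tangent l, c of the mate). The points of the grid (d < t, i < j = s, i ≠ d) are the tokens of the mates (i, d).
-/

set_option autoImplicit false

namespace Pool.Agent.Work.MP_f4b644_ag.Thin

open Big Multiset Big.Gad

/-- the mates -/
abbrev Bridge_Mt (k w t : ℕ) : Type := {q : Fin k × Fin w // ¬ (q.1.1 < t ∧ q.2.1 = q.1.1)}

/-- the index type of the family -/
abbrev Bridge_I (j k s w t nB nC : ℕ) : Type :=
  Fin s ⊕ Fin (k - s) ⊕ Bridge_Mt k w t ⊕ Fin nB ⊕ Fin (j - s) ⊕ Fin nC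

theorem Bridge_card {k w t : ℕ} (htw : t ≤ w) (htk : t ≤ k) :
    Fintype.card (Bridge_Mt k w t) = w * k - t := by
  have h : Fintype.card {q : Fin k × Fin w // q.1.1 < t ∧ q.2.1 = q.1.1} = Fintype.card (Fin t) :=
    Fintype.card_congr
      { toFun := fun q => ⟨q.1.1.1, q.2.1⟩
        invFun := fun d => ⟨(⟨d.1, d.2.trans_le htk⟩, ⟨d.1, d.2.trans_le htw⟩), d.2, rfl⟩
        left_inv := fun q => Subtype.ext (Prod.ext rfl (Fin.ext q.2.2.symm))
        right_inv := fun _ => rfl }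
  rw [Fintype.card_subtype_compl, h, Fintype.card_prod, Fintype.card_fin, Fintype.card_fin,
    Fintype.card_fin, mul_comm]

theorem Bridge_range {δ : Type} (n : ℕ) (f : ℕ → δ) :
    Finset.univ.val.map (fun p : Fin n => f p) = (range n).map f := by
  have h := congrArg Finset.val (Fin.map_valEmbedding_univ (n := n))
  rw [Nat.Iio_eq_range, Finset.map_val, Finset.range_val] at h
  rw [← h, map_map]
  rfl

section
variable (j k s y w t nB nC : ℕ) (z e : ℕ → ℕ)

/-- the gadgets -/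
def Bridge_g : Bridge_I j k s w t nB nC → Gad :=
  Sum.elim (fun p => T (y - z p) (z p)) (Sum.elim (fun l => BP (e l)) (Sum.elim (fun _ => BP 0)
    (Sum.elim (fun _ => BP 0) (Sum.elim (fun _ => CP (y + 1)) fun _ => CP 1))))

/-- the hinge -/
def Bridge_k : Bridge_I j k s w t nB nC × ℕ → Bridge_I j k s w t nB nC × ℕ
  | (.inr (.inr (.inl m)), i) =>
    if h : m.1.1.1 < s then (.inl ⟨m.1.1.1, h⟩, i) else (.inr (.inr (.inl m)), i)
  | p => p

/-- the first vectors -/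
def Bridge_a : Bridge_I j k s w t nB nC × ℕ → Lb ⊕ Tk k s w t z e
  | (.inl p, i) => .inl (.row p i)
  | (.inr (.inl l), 0) => .inl (.col (s + l) 0)
  | (.inr (.inl _), _ + 1) => .inl .aB
  | (.inr (.inr (.inl m)), _) => .inl (.col m.1.1 (m.1.2 + 1))
  | (.inr (.inr (.inr (.inl _))), _) => .inl .aB
  | (.inr (.inr (.inr (.inr (.inl i)))), μ) => .inl (.row (s + i) μ)
  | (.inr (.inr (.inr (.inr (.inr _)))), _) => .inl .aC

/-- the second vectors -/
def Bridge_b : Bridge_I j k s w t nB nC × ℕ → Lb ⊕ Tk k s w t z e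
  | (.inl p, i) =>
    if h : 0 < i ∧ y - i < z p then .inr (.inl ⟨p, ⟨y - i, h.2⟩⟩) else .inl (.row p 0)
  | (.inr (.inl l), i) => if h : i - 1 < e l then .inr (.inr (.inl ⟨l, ⟨i - 1, h⟩⟩)) else .inl .aB
  | (.inr (.inr (.inl _)), _) => .inl .aB
  | (.inr (.inr (.inr (.inl _))), _) => .inl .aB
  | (.inr (.inr (.inr (.inr (.inl i)))), _) => .inl (.row (s + i) 0)
  | (.inr (.inr (.inr (.inr (.inr g)))), _) => .inl (.vC g)

/-- the third vectors -/
def Bridge_c : Bridge_I j k s w t nB nC × ℕ → Lb ⊕ Tk k s w t z e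
  | (.inl p, _) => .inl (.col p 0)
  | (.inr (.inl l), _) => .inl (.col (s + l) 0)
  | (.inr (.inr (.inl m)), _) =>
    if h : m.1.1.1 < s then
      if h' : m.1.2.1 < t then .inl (.col m.1.2 0)
      else .inr (.inr (.inr (⟨m.1.1.1, h⟩, ⟨m.1.2.1 - t, by have := m.1.2.2; omega⟩)))
    else .inl (.col m.1.1 0)
  | (.inr (.inr (.inr (.inl g))), _) => .inl (.vB g)
  | (.inr (.inr (.inr (.inr _))), _) => .inl .aB

theorem Bridge_kk (p : Bridge_I j k s w t nB nC × ℕ) :
    Bridge_k j k s w t nB nC (Bridge_k j k s w t nB nC p) = Bridge_k j k s w t nB nC p := by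
  obtain ⟨p | l | m | g | i | g, n⟩ := p
  · rfl
  · rfl
  · by_cases h : m.1.1.1 < s
    · simp only [Bridge_k, dif_pos h]
    · simp only [Bridge_k, dif_neg h]
  · rfl
  · rfl
  · rfl

theorem Bridge_ck (m : Bridge_Mt k w t) :
    Bridge_c j k s w t nB nC z e (Bridge_k j k s w t nB nC (.inr (.inr (.inl m)), 0)) =
      .inl (.col m.1.1 0) := by
  by_cases h : m.1.1.1 < s
  · simp only [Bridge_k, dif_pos h, Bridge_c]
  · simp only [Bridge_k, dif_neg h, Bridge_c]

/-- the token of a mate -/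
theorem Bridge_tok (m : Bridge_Mt k w t) (h : m.1.1.1 < s) :
    ((.inr (.inr (.inl m)), 0), (.inl ⟨m.1.1.1, h⟩, 0), (.inr (.inr (.inl m)), 0)) ∈
      (hingeC (fam (Bridge_g j k s y w t nB nC z e)) (Bridge_k j k s w t nB nC)).pt := by
  refine Or.inr ⟨?_, ⟨rfl, rfl⟩, ?_⟩
  · simp [Bridge_k, h]
  · simp only [Bridge_k, dif_pos h]
    exact ⟨rfl, rfl⟩

theorem Bridge_red (hsk : s ≤ k) (htw : t ≤ w) (ht : 0 < t → s = j) (hz : ∀ p < s, z p ≤ y) :
    Red (tok (grid j k s y w t nB nC) (tkA k s y w t z e) (tkN k s w t z e) (tkC k s w t z e))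
      (hingeC (fam (Bridge_g j k s y w t nB nC z e)) (Bridge_k j k s w t nB nC)) := by
  have b0 : ∀ p : Fin s, Bridge_b j k s y w t nB nC z e (.inl p, 0) = .inl (.row p 0) :=
    fun p => by simp [Bridge_b]
  refine ⟨Bridge_a j k s w t nB nC z e, Bridge_b j k s y w t nB nC z e,
    Bridge_c j k s w t nB nC z e, ?_, ?_, ?_, ?_⟩
  · rintro _ ⟨_, ⟨p, hp, rfl⟩, rfl⟩
    exact ⟨_, ⟨((.inl ⟨p, hp⟩, 0), (.inl ⟨p, hp⟩, 0)), ⟨rfl, rfl⟩, rfl⟩, b0 _, rfl⟩
  · rintro _ ⟨_, ⟨l, hl, ν, hν, h1, rfl⟩ | ⟨g, hg, rfl⟩, rfl⟩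
    · rcases ν with _ | ν
      · by_cases h : l < s
        · exact ⟨_, ⟨((.inl ⟨l, h⟩, 0), (.inl ⟨l, h⟩, 0)), ⟨rfl, rfl⟩, rfl⟩,
            congrArg Sum.inl (if_pos ⟨rfl, h⟩).symm, rfl⟩
        · obtain ⟨l, rfl⟩ := Nat.exists_eq_add_of_le (not_lt.1 h)
          exact ⟨_, ⟨((.inr (.inl ⟨l, by omega⟩), 0), (.inr (.inl ⟨l, by omega⟩), 0)),
            ⟨rfl, rfl⟩, rfl⟩, congrArg Sum.inl (if_neg fun k => h k.2).symm, rfl⟩
      · let m : Bridge_Mt k w t := ⟨(⟨l, hl⟩, ⟨ν, hν⟩), fun k => h1 ⟨k.1, congrArg (· + 1) k.2⟩⟩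
        exact ⟨_, ⟨((.inr (.inr (.inl m)), 0), (.inr (.inr (.inl m)), 0)), ⟨rfl, rfl⟩, rfl⟩,
          rfl,
          Bridge_ck j k s w t nB nC z e m⟩
    · exact ⟨_, ⟨((.inr (.inr (.inr (.inl ⟨g, hg⟩))), 0), (.inr (.inr (.inr (.inl ⟨g, hg⟩))), 0)),
        ⟨rfl, rfl⟩, rfl⟩, rfl, rfl⟩
  · rintro _ ⟨_, ⟨i, hi, μ, hμ, rfl⟩ | ⟨g, hg, rfl⟩, rfl⟩
    · by_cases h : i < s
      · refine ⟨((.inl ⟨i, h⟩, μ), (.inl ⟨i, h⟩, 0)), ⟨rfl, ?_, rfl⟩, rfl, b0 _⟩
        have := hz i h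
        change μ ≤ y - z i + z i
        omega
      · obtain ⟨i, rfl⟩ := Nat.exists_eq_add_of_le (not_lt.1 h)
        exact ⟨((.inr (.inr (.inr (.inr (.inl ⟨i, by omega⟩)))), μ),
          (.inr (.inr (.inr (.inr (.inl ⟨i, by omega⟩)))), 0)), ⟨rfl, Nat.lt_succ_of_le hμ, rfl⟩,
          rfl, rfl⟩
    · exact ⟨((.inr (.inr (.inr (.inr (.inr ⟨g, hg⟩)))), 0),
        (.inr (.inr (.inr (.inr (.inr ⟨g, hg⟩)))), 0)), ⟨rfl, Nat.one_pos, rfl⟩, rfl, rfl⟩
  · rintro _ (⟨_, ⟨d, hd, i, hi, hid, rfl⟩, rfl⟩ | ⟨τ, ⟨h1, rfl⟩ | ⟨h1, rfl⟩⟩)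
    · have h : i < s := by have := ht (by omega); omega
      let m : Bridge_Mt k w t := ⟨(⟨i, by omega⟩, ⟨d, by omega⟩), fun k => hid k.2.symm⟩
      exact ⟨_, Bridge_tok j k s y w t nB nC z e m h, rfl, b0 _,
        (dif_pos h).trans (dif_pos hd)⟩
    · obtain ⟨p, r⟩ | ⟨l, r⟩ | q := τ
      · have h2 := hz p p.2
        have h3 := r.2
        refine ⟨_, Or.inl ⟨((.inl p, y - r), (.inl p, y - r), (.inl p, 0)),
          ⟨rfl, rfl, ?_, ?_, rfl, rfl⟩, rfl⟩, rfl,
          (dif_pos (show 0 < y - r ∧ y - (y - r) < z p by omega)).trans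
            (congrArg (fun x : Fin (z p) => (Sum.inr (Sum.inl ⟨p, x⟩) : Lb ⊕ Tk k s w t z e))
              (Fin.ext ?_)), rfl⟩
        · change y - z p < y - r
          omega
        · change y - r ≤ y - z p + z p
          omega
        · change y - (y - r) = r
          omega
      · exact ⟨_, Or.inl ⟨((.inr (.inl l), r + 1), (.inr (.inl l), r + 1), (.inr (.inl l), 0)),
          ⟨rfl, rfl, Nat.succ_pos _, r.2, rfl, rfl⟩, rfl⟩, rfl, dif_pos r.2, rfl⟩
      · exact h1.elim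
    · obtain q | q | ⟨p, r⟩ := τ
      · exact (h1 trivial).elim
      · exact (h1 trivial).elim
      · have h2 := p.2
        have h3 := r.2
        let m : Bridge_Mt k w t := ⟨(⟨p, by omega⟩, ⟨t + r, by omega⟩), fun k => by
          have h4 : p.1 < t := k.1
          have h5 : t + r.1 = p.1 := k.2
          omega⟩
        refine ⟨_, Bridge_tok j k s y w t nB nC z e m h2,
          congrArg (fun x => Sum.inl (Lb.col p x)) (Nat.add_right_comm t r 1), b0 _,
          ((dif_pos h2).trans (dif_neg (show ¬ t + r.1 < t by omega))).trans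
            (congrArg (fun x => Sum.inr (Sum.inr (Sum.inr (p, x)))) (Fin.ext ?_))⟩
        change t + r.1 - t = r
        omega

end

theorem S_of_tok (I j k s y w t nB nC : ℕ) (z e : ℕ → ℕ) (hsj : s ≤ j) (hsk : s ≤ k) (htw : t ≤ w)
    (htk : t ≤ k) (ht : 0 < t → s = j) (hz : ∀ p < s, z p ≤ y)
    (h : Gen (Fin I) (Fin j) (Fin k) (tok (grid j k s y w t nB nC) (tkA k s y w t z e)
      (tkN k s w t z e) (tkC k s w t z e))) :
    S I j k ((range s).map (fun p => T (y - z p) (z p)) + (range (k - s)).map (fun l => BP (e l)) +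
      replicate (w * k - t + nB) (BP 0) + replicate (j - s) (CP (y + 1)) + replicate nC (CP 1)) := by
  refine S_of_fam (Bridge_g j k s y w t nB nC z e) (le_of_eq ?_)
    (Gen_hingeC _ (Bridge_kk j k s w t nB nC)
      (h.red (Bridge_red j k s y w t nB nC z e hsk htw ht hz)))
  rw [Bridge_g, map_univ_sum, map_univ_sum, map_univ_sum, map_univ_sum, map_univ_sum,
    Bridge_range s fun p => T (y - z p) (z p), Bridge_range (k - s) fun l => BP (e l),
    map_univ_const, map_univ_const, map_univ_const, map_univ_const, Bridge_card htw htk,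
    Fintype.card_fin, Fintype.card_fin, Fintype.card_fin, replicate_add]
  abel

end Pool.Agent.Work.MP_f4b644_ag.Thin
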