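import Pool.Agent.Work.MP_f4b644_ag.Thin.Defs
import Pool.Agent.Work.MP_f4b644_ag.Big.SqCore

/-!
The grid certificate. Model: `S_sq4` in Big/SqCore.lean (read its header and proof first).

`window2`: Δ = 2 n + 4. If ¬ wr: θ = 2 e - 1, η = Δ n + 1, η' = - Δ p + 1. If wr: θ = 2 e - 1, η = Δ (p - 1) + 1,
η' = 1 (integers). Use: x < p → Δ x + Δ ≤ Δ p, p ≤ x → Δ p ≤ Δ x; generalize the products, then omega.
(¬ wr: for p ≤ x the expression is 2 e - 1 - 2 x, for x < p it is 2 e + (Δ - 2) x - Δ p < 0.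
wr: for x < p it is 2 e - 1 - 2 x, for p ≤ x it is 2 e - 2 - 2 x + Δ (x - p + 1) > 0.)

`Gen_grid`: first factor Fin 4 ⊕ Fin y' ⊕ Fin w with y = y' + 1, then `Gen.equiv`. For a row i: M i = Δ pos i,
M' i = - Δ pos i, σ i = i + 1, X i = t ^ M i, X' i = t ^ M' i, q i = t ^ η i and q' i = t ^ η' i if i < s (data of the
column i; the gap gives M i < η i, M' i < η' i), otherwise q i = t ^ (M i + 1), q' i = t ^ (M' i + 1);
r i = (q i - X i) / σ i, r' i the same. Vectors (first four coordinates, then unit vectors g μ, f ν):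
a (row i 0) = (1, σ i, q i, q' i), a (row i 1) = (0, 1, r i, r' i), a (row i (μ + 2)) = g μ + i • e3,
a (col l 0) = (1, 0, t ^ η l, t ^ η' l), a (col l (ν + 1)) = f ν + l • e3, a aB = e3, a aC = e2 (e2, e3 the unit vectors
with index 2, 3), b (row i 0) = unit vector i, b (vC g) i = i ^ g, c (col l 0) = unit vector l, c (vB g) l = l ^ g
(all other labels and out of range indices arbitrary, e.g. 0).
`top_of_ann`: v i l = Φ (2, i, l), w i l = Φ (3, i, l). In a cell (i, l) write Φ(a) = ∑ Φ (s, i, l) a s. The two row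
vectors give Φ1 = - r v - r' w, Φ0 = - X v - X' w. The column vector cv s l 0 = (1, ς, Q, Q') with ς = σ l if l < s,
ς = 0 otherwise, Q = t ^ η l, Q' = t ^ η' l gives v D + w D' = 0, D = Q - X i - ς r i
= Q - (1 - ς / σ i) X i - (ς / σ i) q i, valuation min (M i) (η l) when ς ≠ σ i, i.e. for every non tangent cell
(M even, η odd); the same for D'. On a tangent cell Φ = 0 by the A-fibre.
Killed cells (the point, B-fibre or C-fibre gives Φ(a g) = 0 in the cell):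
g = aB gives w = 0, then v D = 0, D ≠ 0 eventually. g = row l (μ + 2): with Φ(a (row i (μ + 2))) = 0 get
(l - i) w = 0. g = col i (ν + 1) with t < ν + 1: the column l has its level ν + 1 (if l < t then l + 1 ≤ t), get
(i - l) w = 0. g = row l 1 (l < s, i ≠ l): the four vectors a (row i 0), a (row i 1), a (row l 0), a (row l 1) vanish,
so v (X i - X l) + w (X' i - X' l) = 0 and v (r i - r l) + w (r' i - r' l) = 0; the determinant
E = (X i - X l) (r' i - r' l) - (X' i - X' l) (r i - r l) is eventually nonzero: if pos i < pos l then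
E / t ^ (M i + M' l) tends to 1 / σ l - 1 / σ i ≠ 0 (X i / t ^ M i = 1, X l / t ^ M i → 0, r i / t ^ M i → - 1 / σ i,
r l / t ^ M i → 0, and the same with primes and i, l exchanged); symmetric otherwise.
`tk` with Bc = ¬ kill ∧ ¬ tangent ∧ PosW, Cc = ¬ kill ∧ ¬ tangent ∧ ¬ PosW, ρ i = (2 Δ - 2) pos i gives v = w = 0
everywhere. Then Φ0 = Φ1 = 0, Φ(g μ) = - i w = 0, and Φ(f ν) = 0: from the B-fibre of level ν + 1 of the column, or,
if l < t and ν = l, from the point (col i (l + 1), row i 0, col l 0) when i ≠ l, from the A-fibre when i = l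
(then i < j = s).
-/

set_option autoImplicit false

namespace Pool.Agent.Work.MP_f4b644_ag.Thin

open Big

theorem window2 (n p e : ℕ) (wr : Prop) (he : e ≤ n) :
    ∃ θ η η' : ℤ, η % 2 = 1 ∧ η' % 2 = 1 ∧
      (∀ x : ℕ, x < n → PosW wr p e x → 0 < θ + (2 * (2 * n + 4) - 2 : ℤ) * x +
        min (-(2 * n + 4 : ℤ) * x) η' - min ((2 * n + 4 : ℤ) * x) η) ∧
      (∀ x : ℕ, x < n → ¬ PosW wr p e x → θ + (2 * (2 * n + 4) - 2 : ℤ) * x +
        min (-(2 * n + 4 : ℤ) * x) η' - min ((2 * n + 4 : ℤ) * x) η < 0) ∧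
      (∀ x : ℕ, x < n → Gap wr p e x → (2 * n + 4 : ℤ) * x < η ∧ -(2 * n + 4 : ℤ) * x < η') := by
  have k1 : ∀ x z : ℕ, x < z → (n + 2 : ℤ) * x + (n + 2) ≤ (n + 2 : ℤ) * z := fun x z h => by
    have : (x : ℤ) + 1 ≤ z := by exact_mod_cast h
    nlinarith
  have k2 : ∀ x z : ℕ, z ≤ x → (n + 2 : ℤ) * z ≤ (n + 2 : ℤ) * x := fun x z h => by
    have : (z : ℤ) ≤ x := by exact_mod_cast h
    nlinarith
  have k3 : ∀ x : ℕ, (2 * (2 * n + 4) - 2 : ℤ) * x = 4 * ((n + 2 : ℤ) * x) - 2 * x := fun x => by ring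
  have k4 : ∀ x : ℕ, (2 * n + 4 : ℤ) * x = 2 * ((n + 2 : ℤ) * x) := fun x => by ring
  have k5 : ∀ x : ℕ, -(2 * n + 4 : ℤ) * x = -(2 * ((n + 2 : ℤ) * x)) := fun x => by ring
  have k6 : ∀ x : ℕ, (x : ℤ) ≤ (n + 2 : ℤ) * x := fun x => by
    have : (0 : ℤ) ≤ x := by positivity
    have : (0 : ℤ) ≤ n := by positivity
    nlinarith
  unfold PosW Gap
  by_cases hw : wr
  · refine ⟨2 * e - 1, 2 * ((n + 2 : ℤ) * p) - 2 * (n + 2) + 1, 1, by omega, by omega,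
      fun x h1 h2 => ?_, fun x h1 h2 => ?_, fun x h1 h2 => ?_⟩
    · have := k1 x p
      have := k2 x p
      have := k6 x
      rw [k3, k4, k5]
      simp only [hw, true_and, not_true, false_and, or_false] at h2
      omega
    · have := k1 x p
      have := k6 x
      rw [k3, k4, k5]
      simp only [hw, true_and, not_true, false_and, or_false] at h2
      omega
    · have := k1 x p (h2.2.1 hw)
      have := k6 x
      rw [k4, k5]
      omega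
  · refine ⟨2 * e - 1, 2 * ((n + 2 : ℤ) * n) + 1, -(2 * ((n + 2 : ℤ) * p)) + 1, by omega, by omega,
      fun x h1 h2 => ?_, fun x h1 h2 => ?_, fun x h1 h2 => ?_⟩
    · have := k1 x n h1
      have := k2 x p
      rw [k3, k4, k5]
      simp only [hw, false_and, not_false_eq_true, true_and, false_or] at h2
      omega
    · have := k1 x n h1
      have := k1 x p
      have := k2 x p
      rw [k3, k4, k5]
      simp only [hw, false_and, not_false_eq_true, true_and, false_or] at h2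
      omega
    · have := k1 x n h1
      have := k2 x p ((h2.2.2 hw).trans h2.1)
      rw [k4, k5]
      omega

open Filter Topology

/-- `f t / t ^ n` tends to `c` -/
def Grid_Lim (f : ℝ → ℂ) (n : ℤ) (c : ℂ) : Prop :=
  Tendsto (fun t : ℝ => f t / (t : ℂ) ^ n) (𝓝[>] 0) (𝓝 c)

theorem Grid_self (n : ℤ) : Grid_Lim (fun t => (t : ℂ) ^ n) n 1 :=
  tendsto_const_nhds.congr' (Trop_ne.mono fun _ ht => (div_self (zpow_ne_zero n ht)).symm)

theorem Grid_lt {n k : ℤ} (h : n < k) : Grid_Lim (fun t => (t : ℂ) ^ k) n 0 :=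
  (Trop_pow (sub_pos.2 h)).congr' (Trop_ne.mono fun _ ht => by simp only [zpow_sub₀ ht])

theorem Grid_sub {f g : ℝ → ℂ} {n : ℤ} {c d : ℂ} (hf : Grid_Lim f n c) (hg : Grid_Lim g n d) :
    Grid_Lim (fun t => f t - g t) n (c - d) := by
  unfold Grid_Lim at *
  simpa only [sub_div] using hf.sub hg

theorem Grid_cmul {f : ℝ → ℂ} {n : ℤ} {c : ℂ} (d : ℂ) (hf : Grid_Lim f n c) :
    Grid_Lim (fun t => d * f t) n (d * c) := by
  unfold Grid_Lim at *
  simpa only [mul_div_assoc] using hf.const_mul d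

theorem Grid_mul {f g : ℝ → ℂ} {n m : ℤ} {c d : ℂ} (hf : Grid_Lim f n c) (hg : Grid_Lim g m d) :
    Grid_Lim (fun t => f t * g t) (n + m) (c * d) :=
  (Tendsto.mul hf hg).congr' (Trop_ne.mono fun t ht => by
    simp only [zpow_add₀ ht, div_mul_div_comm])

/-- the slope -/
noncomputable def Grid_r (σ : ℂ) (m e : ℤ) (t : ℝ) : ℂ := σ⁻¹ * ((t : ℂ) ^ e - (t : ℂ) ^ m)

/-- the cell coefficient -/
noncomputable def Grid_D (σ ς : ℂ) (m e η : ℤ) (t : ℝ) : ℂ :=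
  (t : ℂ) ^ η - (t : ℂ) ^ m - ς * Grid_r σ m e t

/-- the determinant of a cell killed by a slope vector -/
noncomputable def Grid_E (σ σ₂ : ℂ) (m e m' e' m₂ e₂ m₂' e₂' : ℤ) (t : ℝ) : ℂ :=
  ((t : ℂ) ^ m - (t : ℂ) ^ m₂) * (Grid_r σ m' e' t - Grid_r σ₂ m₂' e₂' t) -
    ((t : ℂ) ^ m' - (t : ℂ) ^ m₂') * (Grid_r σ m e t - Grid_r σ₂ m₂ e₂ t)

theorem Grid_valD {σ ς : ℂ} {m e η : ℤ} (hσ : σ ≠ 0) (hς : ς ≠ σ) (h1 : m < e) (h2 : m ≠ η) :
    Val (Grid_D σ ς m e η) (min m η) := by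
  have h3 : Val (fun t : ℝ => (t : ℂ) ^ m + ς * Grid_r σ m e t) m := by
    refine ⟨1 - ς * σ⁻¹, ?_, ?_⟩
    · intro h
      apply hς
      field_simp at h
      linear_combination -h
    · have := Grid_sub (Grid_self m) (Grid_cmul (-ς) (Grid_cmul σ⁻¹ (Grid_sub (Grid_lt h1) (Grid_self m))))
      refine (show Grid_Lim _ m _ from ?_)
      convert this using 1
      · funext t
        unfold Grid_r
        ring
      · ring
  rw [min_comm]
  refine ((Val.zpow η).sub_ne h3 h2.symm).congr fun t _ => ?_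
  unfold Grid_D
  ring

theorem Grid_r_self (σ : ℂ) {m e : ℤ} (h : m < e) : Grid_Lim (Grid_r σ m e) m (-σ⁻¹) := by
  have := Grid_cmul σ⁻¹ (Grid_sub (Grid_lt h) (Grid_self m))
  rw [zero_sub, mul_neg, mul_one] at this
  exact this

theorem Grid_r_lt (σ : ℂ) {n m e : ℤ} (h0 : n < m) (h : m < e) : Grid_Lim (Grid_r σ m e) n 0 := by
  have := Grid_cmul σ⁻¹ (Grid_sub (Grid_lt (h0.trans h)) (Grid_lt h0))
  rw [sub_zero, mul_zero] at this
  exact this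

theorem Grid_valE {σ σ₂ : ℂ} {m e m' e' m₂ e₂ m₂' e₂' : ℤ} (hσ : σ ≠ σ₂) (h1 : m < e) (h2 : m' < e')
    (h3 : m₂ < e₂) (h4 : m₂' < e₂') (h : (m < m₂ ∧ m₂' < m') ∨ (m₂ < m ∧ m' < m₂')) :
    ∀ᶠ t in 𝓝[>] (0 : ℝ), Grid_E σ σ₂ m e m' e' m₂ e₂ m₂' e₂' t ≠ 0 := by
  have hi : σ₂⁻¹ - σ⁻¹ ≠ 0 := sub_ne_zero.2 fun h => hσ (inv_injective h).symm
  rcases h with ⟨a, b⟩ | ⟨a, b⟩
  · have p1 := Grid_mul (Grid_sub (Grid_self m) (Grid_lt a))
      (Grid_sub (Grid_r_lt σ b h2) (Grid_r_self σ₂ h4))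
    have p2 := Grid_mul (Grid_sub (Grid_lt b) (Grid_self m₂'))
      (Grid_sub (Grid_r_self σ h1) (Grid_r_lt σ₂ a h3))
    rw [add_comm m₂' m] at p2
    refine Val.ne_zero (n := m + m₂') ⟨_, ?_, Grid_sub p1 p2⟩
    convert hi using 1
    ring
  · have p1 := Grid_mul (Grid_sub (Grid_lt a) (Grid_self m₂))
      (Grid_sub (Grid_r_self σ h2) (Grid_r_lt σ₂ b h4))
    have p2 := Grid_mul (Grid_sub (Grid_self m') (Grid_lt b))
      (Grid_sub (Grid_r_lt σ a h1) (Grid_r_self σ₂ h3))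
    rw [add_comm m' m₂] at p2
    refine Val.ne_zero (n := m₂ + m') ⟨_, ?_, Grid_sub p1 p2⟩
    convert neg_ne_zero.2 hi using 1
    ring

/-- the first vectors -/
noncomputable def Grid_a (y w : ℕ) (q q' r r' Q Q' : ℕ → ℂ) : Lb → Fin 4 ⊕ Fin y ⊕ Fin w → ℂ
  | Lb.row i 0 => Sum.elim ![1, (i : ℂ) + 1, q i, q' i] 0
  | Lb.row i 1 => Sum.elim ![0, 1, r i, r' i] 0
  | Lb.row i (μ + 2) => Sum.elim ![0, 0, 0, (i : ℂ)] (Sum.elim (fun m => if (m : ℕ) = μ then 1 else 0) 0)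
  | Lb.col l 0 => Sum.elim ![1, 0, Q l, Q' l] 0
  | Lb.col l (ν + 1) => Sum.elim ![0, 0, 0, (l : ℂ)] (Sum.elim 0 fun m => if (m : ℕ) = ν then 1 else 0)
  | Lb.aB => Sum.elim ![0, 0, 0, 1] 0
  | Lb.aC => Sum.elim ![0, 0, 1, 0] 0
  | _ => 0

/-- the second vectors -/
noncomputable def Grid_b (j : ℕ) : Lb → Fin j → ℂ
  | Lb.row i _ => fun x => if (x : ℕ) = i then 1 else 0
  | Lb.vC g => fun x => ((x : ℕ) : ℂ) ^ g
  | _ => 0

/-- the third vectors -/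
noncomputable def Grid_c (k : ℕ) : Lb → Fin k → ℂ
  | Lb.col l _ => fun x => if (x : ℕ) = l then 1 else 0
  | Lb.vB g => fun x => ((x : ℕ) : ℂ) ^ g
  | _ => 0

theorem Grid_b_row {j : ℕ} (i : Fin j) : Grid_b j (Lb.row i 0) = Pi.single i 1 := by
  funext x
  simp [Grid_b, Pi.single_apply, Fin.ext_iff]

theorem Grid_c_col {k : ℕ} (l : Fin k) : Grid_c k (Lb.col l 0) = Pi.single l 1 := by
  funext x
  simp [Grid_c, Pi.single_apply, Fin.ext_iff]

theorem Grid_cell {α : Type} [Fintype α] {j k : ℕ} (Φ : α × Fin j × Fin k → ℂ) (u : α → ℂ)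
    (i : Fin j) (l : Fin k) :
    ∑ n, Φ n * tp u (Pi.single i (1 : ℂ)) (Pi.single l (1 : ℂ)) n = ∑ s, Φ (s, i, l) * u s := by
  simp [SqCore_pair, Pi.single_apply]

section Eval

variable {y w : ℕ} (q q' r r' Q Q' : ℕ → ℂ) (ψ : Fin 4 ⊕ Fin y ⊕ Fin w → ℂ)

theorem Grid_row0 (i : ℕ) : ∑ s, ψ s * Grid_a y w q q' r r' Q Q' (Lb.row i 0) s =
    ψ (.inl 0) + ψ (.inl 1) * ((i : ℂ) + 1) + ψ (.inl 2) * q i + ψ (.inl 3) * q' i := by
  simp [Grid_a, Fin.sum_univ_four]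

theorem Grid_row1 (i : ℕ) : ∑ s, ψ s * Grid_a y w q q' r r' Q Q' (Lb.row i 1) s =
    ψ (.inl 1) + ψ (.inl 2) * r i + ψ (.inl 3) * r' i := by
  simp [Grid_a, Fin.sum_univ_four]

theorem Grid_row2 (i : ℕ) (μ : Fin y) : ∑ s, ψ s * Grid_a y w q q' r r' Q Q' (Lb.row i (μ + 2)) s =
    ψ (.inl 3) * i + ψ (.inr (.inl μ)) := by
  simp [Grid_a, Fin.sum_univ_four, Fin.val_inj]

theorem Grid_col0 (l : ℕ) : ∑ s, ψ s * Grid_a y w q q' r r' Q Q' (Lb.col l 0) s =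
    ψ (.inl 0) + ψ (.inl 2) * Q l + ψ (.inl 3) * Q' l := by
  simp [Grid_a, Fin.sum_univ_four]

theorem Grid_col1 (l : ℕ) (ν : Fin w) : ∑ s, ψ s * Grid_a y w q q' r r' Q Q' (Lb.col l (ν + 1)) s =
    ψ (.inl 3) * l + ψ (.inr (.inr ν)) := by
  simp [Grid_a, Fin.sum_univ_four, Fin.val_inj]

theorem Grid_aB : ∑ s, ψ s * Grid_a y w q q' r r' Q Q' Lb.aB s = ψ (.inl 3) := by
  simp [Grid_a, Fin.sum_univ_four]

theorem Grid_aC : ∑ s, ψ s * Grid_a y w q q' r r' Q Q' Lb.aC s = ψ (.inl 2) := by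
  simp [Grid_a, Fin.sum_univ_four]

end Eval

theorem Gen_grid (j k s y w t nB nC N : ℕ) (hy : 1 ≤ y) (hsj : s ≤ j) (hsk : s ≤ k) (htw : t ≤ w)
    (ht : 0 < t → s = j) (Q : Pat (Fin j) (Fin k) (fun i l => (i : ℕ) = l ∧ (i : ℕ) < s) nB nC N)
    (X : Cfg Lb) (hA : (grid j k s y w t nB nC).fA ⊆ X.fA) (hB : (grid j k s y w t nB nC).fB ⊆ X.fB)
    (hC : (grid j k s y w t nB nC).fC ⊆ X.fC) (hP : (grid j k s y w t nB nC).pt ⊆ X.pt)
    (hK : ∀ (i : Fin j) (l : Fin k), Q.kill i l → ((i : ℕ) = l ∧ (i : ℕ) < s) ∨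
      ∃ g, Killer s y w t i l g ∧ ((g, Lb.row i 0, Lb.col l 0) ∈ X.pt ∨ (g, Lb.col l 0) ∈ X.fB ∨
        (g, Lb.row i 0) ∈ X.fC)) :
    Gen (Fin (y + w + 3)) (Fin j) (Fin k) X := by
  classical
  obtain ⟨y', rfl⟩ : ∃ y', y = y' + 1 := ⟨y - 1, by omega⟩
  refine Gen.equiv (α := Fin 4 ⊕ Fin y' ⊕ Fin w) (Fintype.equivFinOfCardEq (by simp; omega))
    (Equiv.refl _) (Equiv.refl _) ?_
  choose θ η0 η0' w1 w2 w3 w4 w5 using fun l : Fin k =>
    window2 Q.n (Q.p l) (Q.e l) (Q.wr l) (Q.e_le l)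
  obtain ⟨ps, hps⟩ : ∃ ps : ℕ → ℕ, ∀ i : Fin j, ps i = Q.pos i :=
    ⟨fun i => if h : i < j then Q.pos ⟨i, h⟩ else 0, fun i => dif_pos i.2⟩
  obtain ⟨η, hη⟩ : ∃ η : ℕ → ℤ, ∀ l : Fin k, η l = η0 l :=
    ⟨fun l => if h : l < k then η0 ⟨l, h⟩ else 0, fun l => dif_pos l.2⟩
  obtain ⟨η', hη'⟩ : ∃ η' : ℕ → ℤ, ∀ l : Fin k, η' l = η0' l :=
    ⟨fun l => if h : l < k then η0' ⟨l, h⟩ else 0, fun l => dif_pos l.2⟩
  obtain ⟨M, hM⟩ : ∃ M : ℕ → ℤ, ∀ i, M i = (2 * Q.n + 4 : ℤ) * ps i := ⟨_, fun _ => rfl⟩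
  obtain ⟨M', hM'⟩ : ∃ M' : ℕ → ℤ, ∀ i, M' i = -(2 * Q.n + 4 : ℤ) * ps i := ⟨_, fun _ => rfl⟩
  obtain ⟨e, he⟩ : ∃ e : ℕ → ℤ, ∀ i, e i = if i < s then η i else M i + 1 := ⟨_, fun _ => rfl⟩
  obtain ⟨e', he'⟩ : ∃ e' : ℕ → ℤ, ∀ i, e' i = if i < s then η' i else M' i + 1 := ⟨_, fun _ => rfl⟩
  obtain ⟨ς, hς⟩ : ∃ ς : ℕ → ℂ, ∀ l, ς l = if l < s then (l : ℂ) + 1 else 0 := ⟨_, fun _ => rfl⟩
  have hσ : ∀ i : ℕ, (i : ℂ) + 1 ≠ 0 := fun i => Nat.cast_add_one_ne_zero _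
  have hMe : ∀ i : Fin j, M i < e i ∧ M' i < e' i := fun i => by
    rw [he, he']
    split_ifs with h
    · have := w5 ⟨i, h.trans_le hsk⟩ (Q.pos i) (Q.pos_lt i) (Q.gap i ⟨i, h.trans_le hsk⟩ ⟨rfl, h⟩)
      rw [← hη, ← hη', ← hps, ← hM, ← hM'] at this
      exact this
    · omega
  have hpar : ∀ (i : ℕ) (l : Fin k), M i ≠ η l ∧ M' i ≠ η' l := fun i l => by
    have a1 := w1 l
    have a2 := w2 l
    have a3 : M i = 2 * ((Q.n + 2 : ℤ) * ps i) := by rw [hM]; ring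
    have a4 : M' i = -(2 * ((Q.n + 2 : ℤ) * ps i)) := by rw [hM']; ring
    rw [hη, hη']
    omega
  have hςσ : ∀ i l : ℕ, ¬ (i = l ∧ i < s) → ς l ≠ (i : ℂ) + 1 := fun i l h => by
    rw [hς]
    split_ifs with h1
    · intro h2
      have : l = i := Nat.cast_injective (R := ℂ) (add_right_cancel h2)
      exact h ⟨this.symm, this ▸ h1⟩
    · exact (hσ i).symm
  have vD : ∀ (i : Fin j) (l : Fin k), ¬ ((i : ℕ) = l ∧ (i : ℕ) < s) →
      Val (Grid_D ((i : ℕ) + 1) (ς l) (M i) (e i) (η l)) (min (M i) (η l)) ∧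
      Val (Grid_D ((i : ℕ) + 1) (ς l) (M' i) (e' i) (η' l)) (min (M' i) (η' l)) := fun i l h =>
    ⟨Grid_valD (hσ i) (hςσ i l h) (hMe i).1 (hpar i l).1,
      Grid_valD (hσ i) (hςσ i l h) (hMe i).2 (hpar i l).2⟩
  have hx : ∀ m : ℕ, Function.Injective fun i : Fin m => ((i : ℕ) : ℂ) := fun m i j e =>
    Fin.ext (Nat.cast_injective (R := ℂ) e)
  have ev := tk nB nC _ (hx j) _ (hx k)
    (fun i l => ¬ Q.kill i l ∧ ¬ ((i : ℕ) = l ∧ (i : ℕ) < s) ∧ PosW (Q.wr l) (Q.p l) (Q.e l) (Q.pos i))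
    (fun i l => ¬ Q.kill i l ∧ ¬ ((i : ℕ) = l ∧ (i : ℕ) < s) ∧
      ¬ PosW (Q.wr l) (Q.p l) (Q.e l) (Q.pos i)) Q.rowc Q.colc _ _ _ _
    (fun i l hil => vD i l (hil.elim (fun h => h.2.1) fun h => h.2.1))
    (fun i => (2 * (2 * Q.n + 4) - 2 : ℤ) * Q.pos i) θ
    (fun i l h => by
      rw [hM, hM', hps, hη, hη']
      exact w3 l _ (Q.pos_lt i) h.2.2)
    (fun i l h => by
      rw [hM, hM', hps, hη, hη']
      exact w4 l _ (Q.pos_lt i) h.2.2)
  have ev1 : ∀ᶠ t in 𝓝[>] (0 : ℝ), ∀ (i : Fin j) (l : Fin k), ¬ ((i : ℕ) = l ∧ (i : ℕ) < s) →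
      Grid_D ((i : ℕ) + 1) (ς l) (M i) (e i) (η l) t ≠ 0 := by
    refine eventually_all.2 fun i => eventually_all.2 fun l => ?_
    by_cases h : (i : ℕ) = l ∧ (i : ℕ) < s
    · exact Eventually.of_forall fun t h' => absurd h h'
    · exact (vD i l h).1.ne_zero.mono fun t ht _ => ht
  have ev2 : ∀ᶠ t in 𝓝[>] (0 : ℝ), ∀ i l : Fin j, i ≠ l → Grid_E ((i : ℕ) + 1) ((l : ℕ) + 1)
      (M i) (e i) (M' i) (e' i) (M l) (e l) (M' l) (e' l) t ≠ 0 := by
    refine eventually_all.2 fun i => eventually_all.2 fun l => ?_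
    by_cases h : i = l
    · exact Eventually.of_forall fun t h' => absurd h h'
    · refine (Grid_valE (fun h2 => h (hx j (add_right_cancel h2))) (hMe i).1 (hMe i).2 (hMe l).1
        (hMe l).2 ?_).mono fun t ht _ => ht
      have hn : (0 : ℤ) < 2 * Q.n + 4 := by positivity
      simp only [hM, hM', hps]
      rcases lt_or_gt_of_ne (fun h2 => h (Q.inj h2)) with h2 | h2
      · have : (Q.pos i : ℤ) < Q.pos l := by exact_mod_cast h2
        left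
        constructor <;> nlinarith
      · have : (Q.pos l : ℤ) < Q.pos i := by exact_mod_cast h2
        right
        constructor <;> nlinarith
  obtain ⟨u, h1, h2, h3⟩ := (ev.and (ev1.and ev2)).exists
  obtain ⟨a, ha⟩ : ∃ a, a = Grid_a y' w (fun i => (u : ℂ) ^ e i) (fun i => (u : ℂ) ^ e' i)
    (fun i => Grid_r ((i : ℕ) + 1) (M i) (e i) u) (fun i => Grid_r ((i : ℕ) + 1) (M' i) (e' i) u)
    (fun l => (u : ℂ) ^ η l) (fun l => (u : ℂ) ^ η' l) := ⟨_, rfl⟩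
  refine ⟨a, Grid_b j, Grid_c k, top_of_ann _ fun Φ hΦ => ?_⟩
  have cC : ∀ g (i : Fin j) (l : Fin k), (g, Lb.row i 0) ∈ X.fC → ∑ x, Φ (x, i, l) * a g x = 0 :=
    fun g i l h => by
      have := hΦ _ (Cfg.memC h (Pi.single l 1))
      rwa [Grid_b_row, Grid_cell] at this
  have cB : ∀ g (i : Fin j) (l : Fin k), (g, Lb.col l 0) ∈ X.fB → ∑ x, Φ (x, i, l) * a g x = 0 :=
    fun g i l h => by
      have := hΦ _ (Cfg.memB h (Pi.single i 1))
      rwa [Grid_c_col, Grid_cell] at this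
  have cP : ∀ g (i : Fin j) (l : Fin k), (g, Lb.row i 0, Lb.col l 0) ∈ X.pt →
      ∑ x, Φ (x, i, l) * a g x = 0 := fun g i l h => by
    have := hΦ _ (Cfg.memP h)
    rwa [Grid_b_row, Grid_c_col, Grid_cell] at this
  have cA : ∀ (i : Fin j) (l : Fin k), (i : ℕ) = l ∧ (i : ℕ) < s → ∀ x, Φ (x, i, l) = 0 :=
    fun i l h x => by
      have := hΦ _ (Cfg.memA (ib := Lb.row i 0) (ic := Lb.col l 0)
        (hA ⟨i, h.2, by rw [← h.1]⟩) (Pi.single x 1))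
      rw [Grid_b_row, Grid_c_col, Grid_cell] at this
      simpa [Pi.single_apply] using this
  have r0 : ∀ (i : Fin j) (l : Fin k) (μ : ℕ), μ ≤ y' + 1 →
      ∑ x, Φ (x, i, l) * a (Lb.row i μ) x = 0 := fun i l μ h =>
    cC _ i l (hC (Or.inl ⟨i, i.2, μ, h, rfl⟩))
  have c0 : ∀ (i : Fin j) (l : Fin k) (ν : ℕ), ν ≤ w → ¬ ((l : ℕ) < t ∧ ν = l + 1) →
      ∑ x, Φ (x, i, l) * a (cv s l ν) x = 0 := fun i l ν h h' =>
    cB _ i l (hB (Or.inl ⟨l, l.2, ν, h, h', rfl⟩))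
  have hX : ∀ (ψ : Fin 4 ⊕ Fin y' ⊕ Fin w → ℂ) (i : ℕ), ∑ x, ψ x * a (Lb.row i 0) x = 0 →
      ∑ x, ψ x * a (Lb.row i 1) x = 0 →
      ψ (.inl 0) + ψ (.inl 2) * (u : ℂ) ^ M i + ψ (.inl 3) * (u : ℂ) ^ M' i = 0 ∧
      ψ (.inl 1) + ψ (.inl 2) * Grid_r ((i : ℕ) + 1) (M i) (e i) u +
        ψ (.inl 3) * Grid_r ((i : ℕ) + 1) (M' i) (e' i) u = 0 := fun ψ i b0 b1 => by
    rw [ha, Grid_row0] at b0
    rw [ha, Grid_row1] at b1
    refine ⟨?_, b1⟩
    have hi := mul_inv_cancel₀ (hσ i)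
    unfold Grid_r at b1
    linear_combination b0 - ((i : ℂ) + 1) * b1 + (ψ (.inl 2) * ((u : ℂ) ^ e i - (u : ℂ) ^ M i) +
      ψ (.inl 3) * ((u : ℂ) ^ e' i - (u : ℂ) ^ M' i)) * hi
  have hR := fun (i : Fin j) (l : Fin k) =>
    hX (fun x => Φ (x, i, l)) i (r0 i l 0 (by omega)) (r0 i l 1 (by omega))
  have hcol : ∀ (i : Fin j) (l : Fin k), Φ (.inl 0, i, l) + Φ (.inl 1, i, l) * ς l +
      Φ (.inl 2, i, l) * (u : ℂ) ^ η l + Φ (.inl 3, i, l) * (u : ℂ) ^ η' l = 0 := fun i l => by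
    have b := c0 i l 0 (Nat.zero_le _) (by omega)
    rw [hς]
    unfold cv at b
    by_cases h : (l : ℕ) < s
    · rw [if_pos ⟨rfl, h⟩, ha, Grid_row0 (ψ := fun x => Φ (x, i, l)), he, he', if_pos h, if_pos h] at b
      rw [if_pos h]
      exact b
    · rw [if_neg fun h' => h h'.2, ha, Grid_col0 (ψ := fun x => Φ (x, i, l))] at b
      rw [if_neg h, mul_zero, add_zero]
      exact b
  have hD : ∀ (i : Fin j) (l : Fin k),
      Φ (.inl 2, i, l) * Grid_D ((i : ℕ) + 1) (ς l) (M i) (e i) (η l) u +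
      Φ (.inl 3, i, l) * Grid_D ((i : ℕ) + 1) (ς l) (M' i) (e' i) (η' l) u = 0 := fun i l => by
    unfold Grid_D
    linear_combination hcol i l - (hR i l).1 - ς l * (hR i l).2
  have hlev : ∀ (i : Fin j) (l : Fin k) (ν : Fin w), ¬ ((l : ℕ) < t ∧ (ν : ℕ) = l) →
      Φ (.inl 3, i, l) * (l : ℕ) + Φ (.inr (.inr ν), i, l) = 0 := fun i l ν h => by
    have b := c0 i l (ν + 1) ν.2 (by omega)
    unfold cv at b
    rwa [if_neg (by omega), ha, Grid_col1 (ψ := fun x => Φ (x, i, l))] at b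
  have hrow : ∀ (i : Fin j) (l : Fin k) (μ : Fin y'),
      Φ (.inl 3, i, l) * (i : ℕ) + Φ (.inr (.inl μ), i, l) = 0 := fun i l μ => by
    have b := r0 i l (μ + 2) (by omega)
    rwa [ha, Grid_row2 (ψ := fun x => Φ (x, i, l))] at b
  have key := h1 (fun i l => Φ (.inl 2, i, l)) (fun i l => Φ (.inl 3, i, l)) (fun i l _ => hD i l)
    (fun i l n1 n2 => ?_) (fun i g hg => ?_) fun l g hg => ?_
  · funext ⟨x, i, l⟩
    obtain ⟨k2, k3⟩ := key i l
    have k0 : Φ (.inl 0, i, l) = 0 := by simpa [k2, k3] using (hR i l).1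
    have k1 : Φ (.inl 1, i, l) = 0 := by simpa [k2, k3] using (hR i l).2
    rcases x with x | μ | ν
    · fin_cases x
      exacts [k0, k1, k2, k3]
    · simpa [k3] using hrow i l μ
    · by_cases h : (l : ℕ) < t ∧ (ν : ℕ) = l
      · by_cases h' : (i : ℕ) = l
        · exact cA i l ⟨h', by have := ht (by omega); have := i.2; omega⟩ _
        · have b := cP _ i l (hP ⟨l, h.1, i, i.2, h', rfl⟩)
          rw [← h.2, ha, Grid_col1 (ψ := fun x => Φ (x, i, l))] at b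
          simpa [k3] using b
      · simpa [k3] using hlev i l ν h
  · by_cases tg : (i : ℕ) = l ∧ (i : ℕ) < s
    · exact ⟨cA i l tg _, cA i l tg _⟩
    have hk : Q.kill i l := by
      by_contra hk
      exact n2 ⟨hk, tg, fun h => n1 ⟨hk, tg, h⟩⟩
    obtain ⟨g, hg, hm⟩ := (hK i l hk).resolve_left tg
    have b : ∑ x, Φ (x, i, l) * a g x = 0 :=
      hm.elim (cP g i l) fun hm => hm.elim (cB g i l) (cC g i l)
    have fin : Φ (.inl 3, i, l) = 0 → Φ (.inl 2, i, l) = 0 ∧ Φ (.inl 3, i, l) = 0 := fun h => by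
      have := hD i l
      rw [h, zero_mul, add_zero] at this
      exact ⟨(mul_eq_zero.1 this).resolve_right (h2 i l tg), h⟩
    have hne : (i : ℕ) ≠ l → ((i : ℕ) : ℂ) - (l : ℕ) ≠ 0 := fun h =>
      sub_ne_zero.2 fun h' => h (Nat.cast_injective (R := ℂ) h')
    rcases hg with rfl | ⟨ls, il, μ, m1, m2, rfl⟩ | ⟨_, il, ν, m1, m2, rfl⟩
    · rw [ha, Grid_aB (ψ := fun x => Φ (x, i, l))] at b
      exact fin b
    · rcases Nat.lt_or_ge μ 2 with m3 | m3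
      · obtain rfl : μ = 1 := by omega
        have b0 := c0 i l 0 (Nat.zero_le _) (by omega)
        unfold cv at b0
        rw [if_pos ⟨rfl, ls⟩] at b0
        obtain ⟨p1, p2⟩ := hX (fun x => Φ (x, i, l)) l b0 b
        obtain ⟨p3, p4⟩ := hR i l
        have hE := h3 i ⟨l, ls.trans_le hsj⟩ fun h => il (congrArg Fin.val h)
        unfold Grid_E at hE
        refine ⟨(mul_eq_zero.1 ?_).resolve_right hE, (mul_eq_zero.1 ?_).resolve_right hE⟩
        · linear_combination (Grid_r ((i : ℕ) + 1) (M' i) (e' i) u -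
            Grid_r ((l : ℕ) + 1) (M' l) (e' l) u) * (p3 - p1) -
            ((u : ℂ) ^ M' i - (u : ℂ) ^ M' l) * (p4 - p2)
        · linear_combination ((u : ℂ) ^ M i - (u : ℂ) ^ M l) * (p4 - p2) -
            (Grid_r ((i : ℕ) + 1) (M i) (e i) u - Grid_r ((l : ℕ) + 1) (M l) (e l) u) * (p3 - p1)
      · obtain ⟨m, rfl⟩ : ∃ m : Fin y', μ = m + 2 := ⟨⟨μ - 2, by omega⟩, by simp; omega⟩
        rw [ha, Grid_row2 (ψ := fun x => Φ (x, i, l))] at b
        refine fin ((mul_eq_zero.1 ?_).resolve_right (hne il))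
        linear_combination hrow i l m - b
    · obtain ⟨m, rfl⟩ : ∃ m : Fin w, ν = m + 1 := ⟨⟨ν - 1, by omega⟩, by simp; omega⟩
      rw [ha, Grid_col1 (ψ := fun x => Φ (x, i, l))] at b
      refine fin ((mul_eq_zero.1 ?_).resolve_right (hne il))
      linear_combination b - hlev i l m (by omega)
  · have := hΦ _ (Cfg.memB (ia := Lb.aB) (ic := Lb.vB g) (hB (Or.inr ⟨g, hg, rfl⟩)) (Pi.single i 1))
    rw [SqCore_pair] at this
    have hb : ∀ (i : Fin j) (l : Fin k), ∑ x, Φ (x, i, l) * a Lb.aB x = Φ (.inl 3, i, l) :=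
      fun i l => by rw [ha, Grid_aB (ψ := fun x => Φ (x, i, l))]
    simp only [hb] at this
    simpa [Grid_c, Pi.single_apply] using this
  · have := hΦ _ (Cfg.memC (ia := Lb.aC) (ib := Lb.vC g) (hC (Or.inr ⟨g, hg, rfl⟩)) (Pi.single l 1))
    rw [SqCore_pair] at this
    have hb : ∀ (i : Fin j) (l : Fin k), ∑ x, Φ (x, i, l) * a Lb.aC x = Φ (.inl 2, i, l) :=
      fun i l => by rw [ha, Grid_aC (ψ := fun x => Φ (x, i, l))]
    simp only [hb] at this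
    simpa [Grid_b, Pi.single_apply] using this

end Pool.Agent.Work.MP_f4b644_ag.Thin
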