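import Pool.Agent.Work.MP_f4b644_ag.Thin.Defs
import Pool.Agent.Work.MP_f4b644_ag.Big.Rado

/-!
Rado theorem for tokens of an arbitrary configuration. Model: `S.rado` and `Rado_one` in Big/Rado.lean.

Parameter space σ = P × (α ⊕ β ⊕ γ); `Rado_a x`, `Rado_b x`, `Rado_c x` are the vectors of x. For a token t let
F x t = {tp (a (ta t)) v (c (tn t)) | v} if col t, {tp (a (ta t)) (b (tn t)) v | v} otherwise. For a finset s
of tokens the hypothesis for the set ↑s gives parameters on P ⊕ τ; let x_s be their restriction to P and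
w t = tp (a (inr t)) (b (inr t)) (c (inr t)) for t ∉ s (constants). With R x = X.sp x ⊔ ⨆ t ∈ s, span (F x t),
`generic_span` applied to {y | IsPV y ∧ ∀ x, y x ∈ R x ⊔ span (range w)} gives a polynomial function Φ_s, nonzero at
x_s, such that finrank V ≤ finrank (R x) + (card τ - card s) whenever Φ_s x ≠ 0. `PF_exists_forall` gives one z
for all s, `rado` gives f t ∈ F z t, i.e. vectors v t. Parameters for `tok`: on inl those of z, b (inr t) = v t
if col t, c (inr t) = v t otherwise.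
-/

set_option autoImplicit false

namespace Pool.Agent.Work.MP_f4b644_ag.Thin

open Big

/-- the possible values of a token -/
def RadoC_F {P τ α β γ : Type} (ta tn : τ → P) (col : τ → Prop) (x : P × (α ⊕ β ⊕ γ) → ℂ)
    (t : τ) : Set (α × β × γ → ℂ) :=
  {w | (col t ∧ ∃ v, w = tp (Rado_a x (ta t)) v (Rado_c x (tn t))) ∨
    (¬ col t ∧ ∃ v, w = tp (Rado_a x (ta t)) (Rado_b x (tn t)) v)}

theorem RadoC_one {P τ α β γ : Type} [Fintype τ] [DecidableEq τ] [Fintype α] [Fintype β]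
    [Fintype γ] (X : Cfg P) (ta tn : τ → P) (col : τ → Prop) (s : Finset τ)
    (h : Gen α β γ (con X ta tn col (s : Set τ))) :
    ∃ Φ ∈ PF (P × (α ⊕ β ⊕ γ)), (∃ x, Φ x ≠ 0) ∧ ∀ x, Φ x ≠ 0 →
      Module.finrank ℂ (α × β × γ → ℂ) ≤ Module.finrank ℂ (Rado_L (RadoC_F ta tn col x)
        (X.sp (Rado_a x) (Rado_b x) (Rado_c x)) s) + sᶜ.card := by
  obtain ⟨a, b, c, h⟩ := h
  let w : {t // t ∈ sᶜ} → α × β × γ → ℂ := fun i =>
    tp (a (Sum.inr i.1)) (b (Sum.inr i.1)) (c (Sum.inr i.1))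
  let R := fun x : P × (α ⊕ β ⊕ γ) → ℂ => Rado_L (RadoC_F ta tn col x)
    (X.sp (Rado_a x) (Rado_b x) (Rado_c x)) s
  let x0 : P × (α ⊕ β ⊕ γ) → ℂ := fun q => Sum.elim (a (Sum.inl q.1))
    (Sum.elim (b (Sum.inl q.1)) (c (Sum.inl q.1))) q.2
  have k0 : ∀ {N : Type} (u : N → ℂ), IsPV fun _ : P × (α ⊕ β ⊕ γ) → ℂ => u :=
    fun u n => const_mem_PF _
  have ka : ∀ p, IsPV fun x : P × (α ⊕ β ⊕ γ) → ℂ => Rado_a x p :=
    fun p n => coord_mem_PF _
  have kb : ∀ p, IsPV fun x : P × (α ⊕ β ⊕ γ) → ℂ => Rado_b x p :=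
    fun p n => coord_mem_PF _
  have kc : ∀ p, IsPV fun x : P × (α ⊕ β ⊕ γ) → ℂ => Rado_c x p :=
    fun p n => coord_mem_PF _
  have hR : ∀ x, ∀ y ∈ X.sp (Rado_a x) (Rado_b x) (Rado_c x),
      y ∈ R x ⊔ Submodule.span ℂ (Set.range w) :=
    fun x y hy => Submodule.mem_sup_left (Rado_U hy)
  obtain ⟨Φ, h1, h2, h3⟩ := generic_span
    {y | IsPV y ∧ ∀ x, y x ∈ R x ⊔ Submodule.span ℂ (Set.range w)} (fun _ hy => hy.1) x0 (by
      rw [eq_top_iff, ← h]
      refine Cfg.sp_le ?_ ?_ ?_ ?_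
      · rintro i i' ⟨⟨p, p'⟩, hq, e⟩ u
        obtain ⟨rfl, rfl⟩ := Prod.mk.inj e
        exact Submodule.subset_span ⟨_, ⟨Rado_pv (k0 u) (kb p) (kc p'),
          fun x => hR x _ (Cfg.memA hq u)⟩, rfl⟩
      · rintro i i' (⟨⟨p, p'⟩, hq, e⟩ | ⟨t, ht, hc, e⟩) u
        · obtain ⟨rfl, rfl⟩ := Prod.mk.inj e
          exact Submodule.subset_span ⟨_, ⟨Rado_pv (ka p) (k0 u) (kc p'),
            fun x => hR x _ (Cfg.memB hq u)⟩, rfl⟩
        · obtain ⟨rfl, rfl⟩ := Prod.mk.inj e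
          exact Submodule.subset_span ⟨_, ⟨Rado_pv (ka (ta t)) (k0 u) (kc (tn t)),
            fun x => Submodule.mem_sup_left (Rado_t t ht (Or.inl ⟨hc, u, rfl⟩))⟩, rfl⟩
      · rintro i i' (⟨⟨p, p'⟩, hq, e⟩ | ⟨t, ht, hc, e⟩) u
        · obtain ⟨rfl, rfl⟩ := Prod.mk.inj e
          exact Submodule.subset_span ⟨_, ⟨Rado_pv (ka p) (kb p') (k0 u),
            fun x => hR x _ (Cfg.memC hq u)⟩, rfl⟩
        · obtain ⟨rfl, rfl⟩ := Prod.mk.inj e
          exact Submodule.subset_span ⟨_, ⟨Rado_pv (ka (ta t)) (kb (tn t)) (k0 u),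
            fun x => Submodule.mem_sup_left (Rado_t t ht (Or.inr ⟨hc, u, rfl⟩))⟩, rfl⟩
      · rintro i i' i'' (⟨⟨p, p', p''⟩, hq, e⟩ | ⟨t, ht, e⟩)
        · obtain ⟨rfl, e'⟩ := Prod.mk.inj e
          obtain ⟨rfl, rfl⟩ := Prod.mk.inj e'
          exact Submodule.subset_span ⟨_, ⟨Rado_pv (ka p) (kb p') (kc p''),
            fun x => hR x _ (Cfg.memP hq)⟩, rfl⟩
        · obtain ⟨rfl, e'⟩ := Prod.mk.inj e
          obtain ⟨rfl, rfl⟩ := Prod.mk.inj e'
          exact Submodule.subset_span ⟨_, ⟨k0 (w ⟨t, Finset.mem_compl.2 ht⟩), fun x =>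
            Submodule.mem_sup_right (Submodule.subset_span ⟨_, rfl⟩)⟩, rfl⟩)
  refine ⟨Φ, h1, ⟨x0, h2⟩, fun x hx => ?_⟩
  have h4 : R x ⊔ Submodule.span ℂ (Set.range w) = ⊤ := by
    rw [eq_top_iff, ← h3 x hx, Submodule.span_le]
    rintro _ ⟨y, hy, rfl⟩
    exact hy.2 x
  have h5 := Submodule.finrank_add_le_finrank_add_finrank (R x) (Submodule.span ℂ (Set.range w))
  have h6 : Module.finrank ℂ (Submodule.span ℂ (Set.range w)) ≤ sᶜ.card :=
    (finrank_range_le_card w).trans_eq (Fintype.card_coe _)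
  rw [h4, finrank_top] at h5
  exact h5.trans (add_le_add le_rfl h6)

theorem Gen_rado {P τ α β γ : Type} [Fintype τ] [Fintype α] [Fintype β] [Fintype γ] (X : Cfg P)
    (ta tn : τ → P) (col : τ → Prop) (h : ∀ s : Set τ, Gen α β γ (con X ta tn col s)) :
    Gen α β γ (tok X ta tn col) := by
  classical
  choose Φ h1 h2 h3 using fun s : Finset τ => RadoC_one X ta tn col s (h s)
  obtain ⟨z, hz⟩ := PF_exists_forall Finset.univ Φ (fun s _ => h1 s) fun s _ => h2 s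
  obtain ⟨f, f1, f2⟩ := Big.rado (X.sp (Rado_a z) (Rado_b z) (Rado_c z))
    (RadoC_F ta tn col z) (fun t => by
      by_cases e : col t
      · exact ⟨_, Or.inl ⟨e, 0, rfl⟩⟩
      · exact ⟨_, Or.inr ⟨e, 0, rfl⟩⟩) fun s => by
      have a1 := h3 s z (hz _ (Finset.mem_univ _))
      have a2 := Finset.card_add_card_compl s
      rw [Rado_L] at a1
      omega
  have g : ∀ t, ∃ (u : β → ℂ) (v : γ → ℂ),
      (col t → f t = tp (Rado_a z (ta t)) u (Rado_c z (tn t))) ∧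
      (¬ col t → f t = tp (Rado_a z (ta t)) (Rado_b z (tn t)) v) := fun t => by
    rcases f1 t with ⟨e, u, hu⟩ | ⟨e, v, hv⟩
    · exact ⟨u, 0, fun _ => hu, fun e' => absurd e e'⟩
    · exact ⟨0, v, fun e' => absurd e' e, fun _ => hv⟩
  choose u v hu hv using g
  refine ⟨Sum.elim (Rado_a z) 0, Sum.elim (Rado_b z) u, Sum.elim (Rado_c z) v, ?_⟩
  rw [eq_top_iff, ← f2]
  refine sup_le (Cfg.sp_le ?_ ?_ ?_ ?_) (Submodule.span_le.2 ?_)
  · exact fun p p' hq y => Cfg.memA (X := tok X ta tn col) (a := Sum.elim (Rado_a z) 0)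
      (b := Sum.elim (Rado_b z) u) (c := Sum.elim (Rado_c z) v) (ib := Sum.inl p)
      (ic := Sum.inl p') ⟨_, hq, rfl⟩ y
  · exact fun p p' hq y => Cfg.memB (X := tok X ta tn col) (a := Sum.elim (Rado_a z) 0)
      (b := Sum.elim (Rado_b z) u) (c := Sum.elim (Rado_c z) v) (ia := Sum.inl p)
      (ic := Sum.inl p') ⟨_, hq, rfl⟩ y
  · exact fun p p' hq y => Cfg.memC (X := tok X ta tn col) (a := Sum.elim (Rado_a z) 0)
      (b := Sum.elim (Rado_b z) u) (c := Sum.elim (Rado_c z) v) (ia := Sum.inl p)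
      (ib := Sum.inl p') ⟨_, hq, rfl⟩ y
  · exact fun p p' p'' hq => Cfg.memP (X := tok X ta tn col) (a := Sum.elim (Rado_a z) 0)
      (b := Sum.elim (Rado_b z) u) (c := Sum.elim (Rado_c z) v) (ia := Sum.inl p)
      (ib := Sum.inl p') (ic := Sum.inl p'') (Or.inl ⟨_, hq, rfl⟩)
  · rintro _ ⟨t, rfl⟩
    by_cases e : col t
    · rw [hu t e]
      exact Cfg.memP (X := tok X ta tn col) (a := Sum.elim (Rado_a z) 0)
        (b := Sum.elim (Rado_b z) u) (c := Sum.elim (Rado_c z) v) (ia := Sum.inl (ta t))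
        (ib := Sum.inr t) (ic := Sum.inl (tn t)) (Or.inr ⟨t, Or.inl ⟨e, rfl⟩⟩)
    · rw [hv t e]
      exact Cfg.memP (X := tok X ta tn col) (a := Sum.elim (Rado_a z) 0)
        (b := Sum.elim (Rado_b z) u) (c := Sum.elim (Rado_c z) v) (ia := Sum.inl (ta t))
        (ib := Sum.inl (tn t)) (ic := Sum.inr t) (Or.inr ⟨t, Or.inr ⟨e, rfl⟩⟩)

end Pool.Agent.Work.MP_f4b644_ag.Thin
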