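import Pool.Agent.Work.MP_f4b644_ag.Thin.PatAll
import Pool.Agent.Work.MP_f4b644_ag.Thin.Grid
import Pool.Agent.Work.MP_f4b644_ag.Thin.RadoC

/-!
The grid with tokens spans (`Gen_rado` + `Gen_con`).

`Gen_con`: let S be a set of tokens. dL l: some column token of S sits in the column l (tkN = col l 0); dR i: some row token
of S sits in the row i. a = number of dead rows (≤ s, and = 0 if w - t = 0), b2 = number of dead columns l < s (≤ F2, they have 0 < z l),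
b1 = number of dead columns l ≥ s (≤ F1). N = number of tokens outside S. Living rows j' = j - a, living columns k' = k - b1 - b2, living tangent
cells s' ≥ s - min s (a + b2). All tokens of living rows and columns are outside S, so
N + (w - t) a + b1 n1 + b2 n2 ≥ (w - t) s + ∑ z + ∑ e. Count j' k' ≤ s' + N + j' nB + k' nC (`Contract_count`, natural numbers):
trivial if j' ≤ nC or k' ≤ nB; otherwise a < j - nC = X, b1 + b2 < k - nB = Y and with j = X + nC, k = Y + nB the claim is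
`hcount` + `Corner` (j' k' - j' nB - k' nC = D - b X - a Y + a b with D = j k - j nB - k nC).
`pat_all` on the living rows and columns, `pat_ext`. Choose an injection of the set of Q-killed cells into the tokens outside S
(`Function.Embedding.nonempty_of_card_le`), and let cell : token → ℕ × ℕ be a left inverse. Let X' : Cfg Lb be the grid plus the
fibres (tkA τ, tkN τ) for τ ∈ S (B-fibres for column tokens, C-fibres for row tokens) plus the points (aB, row i 0, col l 0)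
for the Q-killed cells. `Gen_grid` gives Gen for X' (own token (p, μ): Killer with row p (y - μ), 1 ≤ y - μ since μ < z p ≤ y;
the cell (p, p) is a tangent cell), and `Gen.red` with the maps inl q ↦ q, inr τ ↦ aB, row (cell τ).1 0, col (cell τ).2 0.
-/

set_option autoImplicit false

namespace Pool.Agent.Work.MP_f4b644_ag.Thin

open Big Finset

theorem Contract_count {j k j' k' s s' W Z N nB nC F1 F2 n1 n2 a b1 b2 : ℕ} (hj : j' + a = j)
    (hk : k' + (b2 + b1) = k) (hs : s ≤ s' + min s (a + b2))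
    (hN : s * W + Z ≤ N + (W * a + b1 * n1 + b2 * n2)) (ha : a ≤ s) (h1 : b1 ≤ F1) (h2 : b2 ≤ F2)
    (h0 : W = 0 → a = 0) (hc : j * k ≤ s * (W + 1) + Z + j * nB + k * nC)
    (hcor : Corner s (j - nC) (k - nB) W F1 F2 n1 n2) :
    j' * k' ≤ s' + N + j' * nB + k' * nC := by
  rcases le_or_gt j' nC with h3 | h3
  · have := Nat.mul_le_mul_left k' h3
    rw [mul_comm]
    omega
  rcases le_or_gt k' nB with h4 | h4
  · have := Nat.mul_le_mul_left j' h4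
    omega
  obtain ⟨u, rfl⟩ := Nat.exists_eq_add_of_le h3.le
  obtain ⟨v, rfl⟩ := Nat.exists_eq_add_of_le h4.le
  have h5 := hcor a b1 b2 ha (by omega) h1 h2 (by omega) h0
  rw [show j - nC = u + a by omega, show k - nB = v + (b1 + b2) by omega] at h5
  subst hj hk
  generalize min s (a + b2) = m at hs h5
  nlinarith

theorem Contract_card (j : ℕ) (A : Finset ℕ) (h : ∀ i ∈ A, i < j) :
    Fintype.card {i : Fin j // ¬ (i : ℕ) ∈ A} + A.card = j := by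
  have e : Fintype.card {i : Fin j // (i : ℕ) ∈ A} = A.card := by
    rw [Fintype.card_subtype]
    refine card_bij (fun i _ => (i : ℕ)) (fun i hi => (mem_filter.1 hi).2)
      (fun _ _ _ _ e => Fin.ext e) fun i hi => ⟨⟨i, h i hi⟩, mem_filter.2 ⟨mem_univ _, hi⟩, rfl⟩
  have := Fintype.card_subtype_le fun i : Fin j => (i : ℕ) ∈ A
  rw [Fintype.card_subtype_compl, e, Fintype.card_fin] at *
  omega

theorem Contract_tok {k s w t n1 n2 : ℕ} {z e : ℕ → ℕ} (hz2 : ∀ p < s, z p ≤ n2)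
    (he1 : ∀ l < k - s, e l ≤ n1) (S : Set (Tk k s w t z e)) (A B1 B2 : Finset ℕ)
    (hA : ∀ q, Sum.inr (Sum.inr q) ∈ S → (q.1 : ℕ) ∈ A)
    (h1 : ∀ q, Sum.inr (Sum.inl q) ∈ S → s + (q.1 : ℕ) ∈ B1)
    (h2 : ∀ q, Sum.inl q ∈ S → (q.1 : ℕ) ∈ B2) :
    s * (w - t) + (∑ p ∈ range s, z p + ∑ l ∈ range (k - s), e l) ≤
      Sᶜ.ncard + ((w - t) * A.card + B1.card * n1 + B2.card * n2) := by
  classical
  have e1 := Set.ncard_add_ncard_compl S
  rw [Nat.card_eq_fintype_card] at e1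
  simp only [Fintype.card_sum, Fintype.card_sigma, Fintype.card_fin, Fintype.card_prod,
    Fin.sum_univ_eq_sum_range] at e1
  let f : Tk k s w t z e → ℕ × ℕ × ℕ := Sum.elim (fun q => (0, q.1, q.2))
    (Sum.elim (fun q => (1, s + q.1, q.2)) fun q => (2, q.1, q.2))
  have e2 : S.ncard ≤ ((({2} ×ˢ A ×ˢ range (w - t) ∪ {1} ×ˢ B1 ×ˢ range n1 ∪
      {0} ×ˢ B2 ×ˢ range n2 : Finset (ℕ × ℕ × ℕ)) : Set (ℕ × ℕ × ℕ))).ncard := by
    refine Set.ncard_le_ncard_of_injOn f ?_ ?_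
    · rintro (q | q | q) hq
      · simpa [f] using ⟨h2 q hq, q.2.2.trans_le (hz2 _ q.1.2)⟩
      · simpa [f] using ⟨h1 q hq, q.2.2.trans_le (he1 _ q.1.2)⟩
      · simpa [f] using hA q hq
    · rintro (⟨p, μ⟩ | ⟨p, μ⟩ | ⟨p, μ⟩) - (⟨p', μ'⟩ | ⟨p', μ'⟩ | ⟨p', μ'⟩) - h <;>
        simp only [f, Sum.elim_inl, Sum.elim_inr, Prod.mk.injEq, true_and, Nat.add_left_cancel_iff,
          Fin.val_inj] at h <;>
        first
          | omega
          | (obtain ⟨rfl, h⟩ := h; rw [Fin.ext h])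
          | (obtain ⟨rfl, rfl⟩ := h; rfl)
  rw [Set.ncard_coe_finset] at e2
  have e3 := e2.trans ((card_union_le _ _).trans (Nat.add_le_add_right (card_union_le _ _) _))
  simp only [card_product, card_singleton, card_range, one_mul] at e3
  rw [mul_comm (w - t)]
  omega

theorem Gen_con (j k s y w t nB nC F1 F2 n1 n2 : ℕ) (z e : ℕ → ℕ) (hy : 1 ≤ y) (hsj : s ≤ j)
    (hsk : s ≤ k) (htw : t ≤ w) (ht : 0 < t → s = j) (hz : ∀ p < s, z p ≤ y)
    (hz2 : ∀ p < s, z p ≤ n2) (he1 : ∀ l < k - s, e l ≤ n1)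
    (hF2 : ((range s).filter fun p => 0 < z p).card ≤ F2)
    (hF1 : ((range (k - s)).filter fun l => 0 < e l).card ≤ F1)
    (hcount : j * k ≤ s * (w - t + 1) + ∑ p ∈ range s, z p + ∑ l ∈ range (k - s), e l + j * nB + k * nC)
    (hcor : Corner s (j - nC) (k - nB) (w - t) F1 F2 n1 n2) (S : Set (Tk k s w t z e)) :
    Gen (Fin (y + w + 3)) (Fin j) (Fin k) (con (grid j k s y w t nB nC) (tkA k s y w t z e)
      (tkN k s w t z e) (tkC k s w t z e) S) := by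
  classical
  obtain ⟨A, hA⟩ : ∃ A : Finset ℕ, ∀ i, i ∈ A ↔ ∃ q, Sum.inr (Sum.inr q) ∈ S ∧ (q.1 : ℕ) = i :=
    ⟨(range s).filter fun i => ∃ q, Sum.inr (Sum.inr q) ∈ S ∧ (q.1 : ℕ) = i, fun i => by
      rw [mem_filter, mem_range]
      exact ⟨fun h => h.2, fun ⟨q, h1, h2⟩ => ⟨h2 ▸ q.1.2, q, h1, h2⟩⟩⟩
  obtain ⟨B2, hB2⟩ : ∃ B : Finset ℕ, ∀ i, i ∈ B ↔ ∃ q, Sum.inl q ∈ S ∧ (q.1 : ℕ) = i :=
    ⟨(range s).filter fun i => ∃ q, Sum.inl q ∈ S ∧ (q.1 : ℕ) = i, fun i => by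
      rw [mem_filter, mem_range]
      exact ⟨fun h => h.2, fun ⟨q, h1, h2⟩ => ⟨h2 ▸ q.1.2, q, h1, h2⟩⟩⟩
  obtain ⟨B1, hB1⟩ : ∃ B : Finset ℕ, ∀ i, i ∈ B ↔
      ∃ q, Sum.inr (Sum.inl q) ∈ S ∧ s + (q.1 : ℕ) = i :=
    ⟨(range k).filter fun i => ∃ q, Sum.inr (Sum.inl q) ∈ S ∧ s + (q.1 : ℕ) = i, fun i => by
      rw [mem_filter, mem_range]
      exact ⟨fun h => h.2, fun ⟨q, h1, h2⟩ => ⟨by have := q.1.2; omega, q, h1, h2⟩⟩⟩
  have a1 : ∀ i ∈ A, i < s := fun i hi => by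
    obtain ⟨q, -, rfl⟩ := (hA i).1 hi
    exact q.1.2
  have a2 : ∀ i ∈ B2, i < s ∧ 0 < z i := fun i hi => by
    obtain ⟨q, -, rfl⟩ := (hB2 i).1 hi
    exact ⟨q.1.2, q.2.pos⟩
  have a3 : ∀ i ∈ B1, s ≤ i ∧ i < k ∧ 0 < e (i - s) := fun i hi => by
    obtain ⟨q, -, rfl⟩ := (hB1 i).1 hi
    have := q.1.2
    exact ⟨by omega, by omega, by rw [Nat.add_sub_cancel_left]; exact q.2.pos⟩
  have c1 := Contract_card j A fun i hi => (a1 i hi).trans_le hsj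
  have c2 := Contract_card k (B2 ∪ B1) fun i hi =>
    (mem_union.1 hi).elim (fun h => (a2 i h).1.trans_le hsk) fun h => (a3 i h).2.1
  rw [card_union_of_disjoint (disjoint_left.2 fun i h h' => (a3 i h').1.not_gt (a2 i h).1)] at c2
  have c3 := Contract_tok hz2 he1 S A B1 B2 (fun q h => (hA _).2 ⟨q, h, rfl⟩)
    (fun q h => (hB1 _).2 ⟨q, h, rfl⟩) fun q h => (hB2 _).2 ⟨q, h, rfl⟩
  have c4 : s ≤ {q : {i : Fin j // ¬ (i : ℕ) ∈ A} × {l : Fin k // ¬ (l : ℕ) ∈ B2 ∪ B1} |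
      (q.1.1 : ℕ) = q.2.1 ∧ (q.1.1 : ℕ) < s}.ncard + min s (A.card + B2.card) := by
    have d1 : ((range s \ (A ∪ B2) : Finset ℕ) : Set ℕ) ⊆ (fun q => (q.1.1 : ℕ)) ''
        {q : {i : Fin j // ¬ (i : ℕ) ∈ A} × {l : Fin k // ¬ (l : ℕ) ∈ B2 ∪ B1} |
          (q.1.1 : ℕ) = q.2.1 ∧ (q.1.1 : ℕ) < s} := by
      intro p hp
      simp only [coe_sdiff, coe_range, coe_union, Set.mem_diff, Set.mem_Iio, Set.mem_union,
        mem_coe, not_or] at hp
      exact ⟨(⟨⟨p, hp.1.trans_le hsj⟩, hp.2.1⟩, ⟨⟨p, hp.1.trans_le hsk⟩, fun h =>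
        (mem_union.1 h).elim hp.2.2 fun h => (a3 p h).1.not_gt hp.1⟩), ⟨rfl, hp.1⟩, rfl⟩
    have d2 := (Set.ncard_le_ncard d1).trans (Set.ncard_image_le (Set.toFinite _))
    rw [Set.ncard_coe_finset] at d2
    have d3 := le_card_sdiff (A ∪ B2) (range s)
    have d4 := card_union_le A B2
    rw [card_range] at d3
    omega
  have c5 := Contract_count c1 c2 c4 c3
    ((card_le_card fun i hi => mem_range.2 (a1 i hi)).trans (card_range s).le)
    (le_trans (card_le_card_of_injOn (· - s) (fun i hi => by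
      have := a3 i hi
      exact mem_coe.2 (mem_filter.2 ⟨mem_range.2 (by show i - s < _; omega), this.2.2⟩))
      fun i hi i' hi' h => by
        have := a3 i hi
        have := a3 i' hi'
        have h : i - s = i' - s := h
        omega) hF1)
    (le_trans (card_le_card fun i hi => mem_filter.2 ⟨mem_range.2 (a2 i hi).1, (a2 i hi).2⟩) hF2)
    (fun h => card_eq_zero.2 (eq_empty_of_forall_notMem fun i hi => by
      obtain ⟨q, -, -⟩ := (hA i).1 hi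
      exact absurd q.2.pos (by omega))) (by omega) hcor
  obtain ⟨Q⟩ := pat_all (R := {i : Fin j // ¬ (i : ℕ) ∈ A}) (L := {l : Fin k // ¬ (l : ℕ) ∈ B2 ∪ B1})
    (fun i l => (i.1 : ℕ) = l.1 ∧ (i.1 : ℕ) < s)
    (fun i l l' h h' => Subtype.ext (Fin.ext (h.1.symm.trans h'.1)))
    (fun i i' l h h' => Subtype.ext (Fin.ext (h.1.trans h'.1.symm))) nB nC Sᶜ.ncard c5
  obtain ⟨Q', hQ⟩ := pat_ext j k (fun i l => (i : ℕ) = l ∧ (i : ℕ) < s)
    (fun i l l' h h' => Fin.ext (h.1.symm.trans h'.1))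
    (fun i i' l h h' => Fin.ext (h.1.trans h'.1.symm)) (fun i => (i : ℕ) ∈ A)
    (fun l => (l : ℕ) ∈ B2 ∪ B1) nB nC _ Q
  obtain ⟨ι⟩ : Nonempty ({q : {i : Fin j // ¬ (i : ℕ) ∈ A} × {l : Fin k // ¬ (l : ℕ) ∈ B2 ∪ B1} |
      Q.kill q.1 q.2} ↪ (Sᶜ : Set _)) := by
    refine Function.Embedding.nonempty_of_card_le ?_
    rw [← Nat.card_eq_fintype_card, ← Nat.card_eq_fintype_card]
    exact Q.killc
  obtain ⟨cell, hcell⟩ : ∃ cell : Tk k s w t z e → ℕ × ℕ, ∀ q,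
      cell (ι q).1 = ((q.1.1.1 : ℕ), (q.1.2.1 : ℕ)) :=
    ⟨Function.extend (fun q => (ι q).1) (fun q => ((q.1.1.1 : ℕ), (q.1.2.1 : ℕ))) fun _ => (0, 0),
      (Subtype.val_injective.comp ι.injective).extend_apply _ _⟩
  refine Gen.red (X := ⟨(grid j k s y w t nB nC).fA,
    (grid j k s y w t nB nC).fB ∪ {q | ∃ τ ∈ S, tkC k s w t z e τ ∧
      q = (tkA k s y w t z e τ, tkN k s w t z e τ)},
    (grid j k s y w t nB nC).fC ∪ {q | ∃ τ ∈ S, ¬ tkC k s w t z e τ ∧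
      q = (tkA k s y w t z e τ, tkN k s w t z e τ)},
    (grid j k s y w t nB nC).pt ∪ {q | ∃ τ, τ ∉ S ∧
      q = (Lb.aB, Lb.row (cell τ).1 0, Lb.col (cell τ).2 0)}⟩)
    ⟨Sum.elim id fun _ => Lb.aB, Sum.elim id fun τ => Lb.row (cell τ).1 0,
      Sum.elim id fun τ => Lb.col (cell τ).2 0, fun q h => ⟨_, ⟨q, h, rfl⟩, rfl, rfl⟩, ?_, ?_, ?_⟩
    (Gen_grid j k s y w t nB nC _ hy hsj hsk htw ht Q' _ subset_rfl Set.subset_union_left
      Set.subset_union_left Set.subset_union_left fun i l h => ?_)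
  · rintro q (h | ⟨τ, h1, h2, rfl⟩)
    exacts [⟨_, .inl ⟨q, h, rfl⟩, rfl, rfl⟩, ⟨_, .inr ⟨τ, h1, h2, rfl⟩, rfl, rfl⟩]
  · rintro q (h | ⟨τ, h1, h2, rfl⟩)
    exacts [⟨_, .inl ⟨q, h, rfl⟩, rfl, rfl⟩, ⟨_, .inr ⟨τ, h1, h2, rfl⟩, rfl, rfl⟩]
  · rintro q (h | ⟨τ, h1, rfl⟩)
    exacts [⟨_, .inl ⟨q, h, rfl⟩, rfl, rfl, rfl⟩, ⟨_, .inr ⟨τ, h1, rfl⟩, rfl, rfl, rfl⟩]
  rcases hQ i l h with h | h | ⟨hi, hl, h⟩
  · obtain ⟨q, h1, h2⟩ := (hA _).1 h
    by_cases h3 : (i : ℕ) = l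
    · exact .inl ⟨h3, a1 _ h⟩
    have := q.2.2
    exact .inr ⟨Lb.col i (t + 1 + q.2), .inr (.inr ⟨a1 _ h, h3, _, by omega, by omega, rfl⟩),
      .inr (.inr (.inr ⟨_, h1, id, by rw [← h2]; rfl⟩))⟩
  · rcases mem_union.1 h with h | h
    · obtain ⟨q, h1, h2⟩ := (hB2 _).1 h
      by_cases h3 : (i : ℕ) = l
      · exact .inl ⟨h3, h3 ▸ (a2 _ h).1⟩
      have := q.2.2.trans_le (hz _ q.1.2)
      exact .inr ⟨Lb.row l (y - q.2), .inr (.inl ⟨(a2 _ h).1, h3, _, by omega, by omega, rfl⟩),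
        .inr (.inl (.inr ⟨_, h1, trivial, by rw [← h2]; rfl⟩))⟩
    · obtain ⟨q, h1, h2⟩ := (hB1 _).1 h
      exact .inr ⟨Lb.aB, .inl rfl, .inr (.inl (.inr ⟨_, h1, trivial, by rw [← h2]; rfl⟩))⟩
  · exact .inr ⟨Lb.aB, .inl rfl, .inl (.inr ⟨_, (ι ⟨(⟨i, hi⟩, ⟨l, hl⟩), h⟩).2, by rw [hcell]⟩)⟩

theorem Gen_tok (j k s y w t nB nC F1 F2 n1 n2 : ℕ) (z e : ℕ → ℕ) (hy : 1 ≤ y) (hsj : s ≤ j)
    (hsk : s ≤ k) (htw : t ≤ w) (ht : 0 < t → s = j) (hz : ∀ p < s, z p ≤ y)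
    (hz2 : ∀ p < s, z p ≤ n2) (he1 : ∀ l < k - s, e l ≤ n1)
    (hF2 : ((range s).filter fun p => 0 < z p).card ≤ F2)
    (hF1 : ((range (k - s)).filter fun l => 0 < e l).card ≤ F1)
    (hcount : j * k ≤ s * (w - t + 1) + ∑ p ∈ range s, z p + ∑ l ∈ range (k - s), e l + j * nB + k * nC)
    (hcor : Corner s (j - nC) (k - nB) (w - t) F1 F2 n1 n2) :
    Gen (Fin (y + w + 3)) (Fin j) (Fin k) (tok (grid j k s y w t nB nC) (tkA k s y w t z e)
      (tkN k s w t z e) (tkC k s w t z e)) :=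
  Gen_rado _ _ _ _ (Gen_con j k s y w t nB nC F1 F2 n1 n2 z e hy hsj hsk htw ht hz hz2 he1 hF2 hF1
    hcount hcor)

end Pool.Agent.Work.MP_f4b644_ag.Thin
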