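import Pool.Agent.Work.MP_f4b644_ag.Thin.VDefs
import Pool.Agent.Work.MP_f4b644_ag.Thin.Bridge
import Pool.Agent.Work.MP_f4b644_ag.Thin.Contract
import Pool.Agent.Work.MP_f4b644_ag.Big.Pure

/-!
The leaves.

`cornerG`: with b = b1 + b2 one has 2 a b ≤ a (Y - 1) + b (X - 1) because a < X, b < Y, and
min s (a + b2) ≤ a + b2. `cornerW`: w = 0 forces a = 0.
`S_G`: `S_of_tok` and `Gen_tok` with t = 0, s = s0 + u, z p = if p < s0 then y else y - 1,
e l = if l < e then 1 else 0, F1 = e, F2 = s0 + u, n1 = 1, n2 = y. Then undo the hinges: `S.hingeT` turns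
T 0 y into T 0 0 and y copies of CP 1, T 1 (y - 1) into T 1 0 and y - 1 copies of CP 1; among the
j - s groups CP (y + 1), G are CP 2 merged with CP (y - 1) (`S_mergeCP`, `S_mergeCP1`), the others come from
y + 1 copies of CP 1 (`S_mergeCP1`). To evaluate (range (a + b)).map of a function with an if, split the
range (`Multiset.range_add` or `List.range_add`, `map_congr`, `map_const`).
`S_A0`: the same with t = w, s = j, z p = the entries of an enumeration of Z (`exists_fam`, or induction-free: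
Z.toList.getD p 0), e l as above, F1 = e, F2 = if Z.sum = 0 then 0 else j, n1 = 1, n2 = z0, `cornerW`.
`V_pure`: `S_gpl` with N = replicate b 0 + replicate e 1 + ..., Gr = replicate G 2 + replicate f 1 and R = 1 in
`GrOK` (`grOK2`); for X = 0 there is no need of tokens: demote them by `red_BP` / `S.rep`.
`S_sink`: the same with a general multiset of tokens; if X = 0 demote all tokens (`S.rel`, `red_BP`).
-/

set_option autoImplicit false

namespace Pool.Agent.Work.MP_f4b644_ag.Thin

open Big Multiset Big.Gad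

theorem cornerG (s X Y w y F1 F2 : ℕ) (hy : 1 ≤ y) (hY : 2 * w + 1 ≤ Y) (hX : 2 * y + 1 ≤ X) :
    Corner s X Y w F1 F2 1 y := by
  intro a b1 b2 _ ha _ _ hb _
  have e1 := Nat.mul_le_mul_left a (Nat.succ_le_of_lt hb)
  have e2 := Nat.mul_le_mul_left (b1 + b2) (Nat.succ_le_of_lt ha)
  have e3 := Nat.mul_le_mul_left a hY
  have e4 := Nat.mul_le_mul_left (b1 + b2) hX
  have e5 := min_le_right s (a + b2)
  simp only [Nat.succ_eq_add_one] at e1 e2
  linarith [Nat.zero_le (b1 * y)]

theorem cornerW (s X Y F1 F2 n1 n2 : ℕ) (h1 : n1 ≤ X ∨ F1 = 0) (h2 : n2 + 1 ≤ X ∨ F2 = 0) :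
    Corner s X Y 0 F1 F2 n1 n2 := by
  intro a b1 b2 _ _ hb1 hb2 _ h0
  obtain rfl := h0 rfl
  have e1 : b1 * n1 ≤ b1 * X := by
    rcases h1 with h | h
    · exact Nat.mul_le_mul_left _ h
    · obtain rfl : b1 = 0 := by omega
      simp
  have e2 : b2 * (n2 + 1) ≤ b2 * X := by
    rcases h2 with h | h
    · exact Nat.mul_le_mul_left _ h
    · obtain rfl : b2 = 0 := by omega
      simp
  have e3 := min_le_right s (0 + b2)
  linarith

theorem Leaf_range {δ : Type} (a b : ℕ) (F : ℕ → δ) {x x' : δ} (h1 : ∀ p < a, F p = x)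
    (h2 : ∀ p, a ≤ p → F p = x') : (range (a + b)).map F = replicate a x + replicate b x' := by
  rw [range_add, Multiset.map_add, map_map, map_congr rfl fun p hp => h1 p (mem_range.1 hp),
    map_congr (f := F ∘ fun x => a + x) (g := fun _ => x') rfl
      fun p _ => h2 _ (Nat.le_add_right a p)]
  simp

theorem Leaf_sum (a b : ℕ) (F : ℕ → ℕ) {x x' : ℕ} (h1 : ∀ p < a, F p = x)
    (h2 : ∀ p, a ≤ p → F p = x') : ∑ p ∈ Finset.range (a + b), F p = a * x + b * x' := by
  have := congrArg Multiset.sum (Leaf_range a b F h1 h2)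
  rw [sum_add, sum_replicate, sum_replicate] at this
  exact this

/-- one token in each of the first `e` free columns -/
def Leaf_e (e l : ℕ) : ℕ := if l < e then 1 else 0

theorem Leaf_e1 (e l : ℕ) : Leaf_e e l ≤ 1 := by
  unfold Leaf_e
  split_ifs <;> omega

theorem Leaf_eF (e n : ℕ) : ((Finset.range n).filter fun l => 0 < Leaf_e e l).card ≤ e := by
  refine (Finset.card_le_card fun l hl => ?_).trans (Finset.card_range e).le
  have := (Finset.mem_filter.1 hl).2
  unfold Leaf_e at this
  split_ifs at this with h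
  · exact Finset.mem_range.2 h
  · omega

theorem Leaf_esum (e q : ℕ) : ∑ l ∈ Finset.range (e + q), Leaf_e e l = e := by
  rw [Leaf_sum e q (Leaf_e e) (fun p hp => if_pos hp) fun p hp => if_neg hp.not_gt]
  simp

theorem Leaf_emap (e q : ℕ) : (range (e + q)).map (fun l => BP (Leaf_e e l)) =
    replicate e (BP 1) + replicate q (BP 0) :=
  Leaf_range e q _ (fun _ hp => congrArg BP (if_pos hp)) fun _ hp => congrArg BP (if_neg hp.not_gt)

theorem Leaf_enum (Z : Multiset ℕ) : ∃ z : ℕ → ℕ, (range Z.card).map z = Z := by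
  induction Z using Multiset.induction_on with
  | empty => exact ⟨id, rfl⟩
  | cons a Z ih =>
    obtain ⟨z, hz⟩ := ih
    refine ⟨Function.update z Z.card a, ?_⟩
    rw [card_cons, range_succ, map_cons, Function.update_self,
      map_congr rfl fun p hp => Function.update_of_ne (mem_range.1 hp).ne a z, hz]

theorem S_G (j k s0 u b e G f y w nB nC : ℕ) (hy : 1 ≤ y) (h1 : s0 + u + G ≤ j) (h2 : s0 + u + e ≤ k)
    (hB : s0 + u + e + b = (w + 1) * k + nB) (hC : s0 + 2 * u + 2 * G + f = (y + 1) * j + nC)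
    (hD : j * k + u ≤ (y + w + 1) * (s0 + u) + e + j * nB + k * nC)
    (hcor : Corner (s0 + u) (j - nC) (k - nB) w e (s0 + u) 1 y) :
    BS (y + w + 3) j k s0 u b e G f := by
  obtain ⟨y, rfl⟩ : ∃ y', y = y' + 1 := ⟨y - 1, by omega⟩
  obtain ⟨r, hr⟩ := Nat.exists_eq_add_of_le h1
  obtain ⟨q, hq⟩ := Nat.exists_eq_add_of_le h2
  have k1 : k - (s0 + u) = e + q := by omega
  have j1 : j - (s0 + u) = G + r := by omega
  let z : ℕ → ℕ := fun p => if p < s0 then y + 1 else y
  have hz : ∀ p < s0 + u, z p ≤ y + 1 := fun p _ => by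
    simp only [z]
    split_ifs <;> omega
  have z1 : ∀ p < s0, z p = y + 1 := fun p hp => if_pos hp
  have z2 : ∀ p, s0 ≤ p → z p = y := fun p hp => if_neg (by omega)
  have H := S_of_tok _ j k (s0 + u) (y + 1) w 0 nB nC z (Leaf_e e) (by omega) (by omega)
    (Nat.zero_le _) (Nat.zero_le _) (by omega) hz
    (Gen_tok j k (s0 + u) (y + 1) w 0 nB nC e (s0 + u) 1 (y + 1) z (Leaf_e e) hy (by omega)
      (by omega) (Nat.zero_le _) (by omega) hz hz (fun l _ => Leaf_e1 e l)
      ((Finset.card_filter_le _ _).trans (Finset.card_range _).le) (Leaf_eF e _) (by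
        have : (y + 1 + w + 1) * (s0 + u) =
            (s0 + u) * (w + 1) + (s0 * (y + 1) + u * y) + u := by ring
        rw [Leaf_sum s0 u z z1 z2, k1, Leaf_esum, Nat.sub_zero]
        omega) hcor)
  rw [Leaf_range s0 u _ (x := T 0 (y + 1)) (x' := T 1 y) (fun p hp => by simp [z1 p hp])
    (fun p hp => by simp [z2 p hp]), k1, Leaf_emap, j1, replicate_add G r] at H
  have H1 := S.hingeT s0 0 (y + 1) _ (H.of_eq (M' := _ + (replicate u (T 1 y) +
    (replicate e (BP 1) + replicate q (BP 0) + replicate (w * k - 0 + nB) (BP 0) +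
      (replicate G (CP (y + 1 + 1)) + replicate r (CP (y + 1 + 1))) + replicate nC (CP 1))))
    (by abel))
  have H2 := S.hingeT u 1 y _ (H1.of_eq (add_left_comm _ _ _))
  have H3 := S_mergeCP1 r (y + 1 + 1) _ (H2.of_eq (M' := _ + (replicate G (CP (y + 2)) +
    (replicate u (T 1 0) + replicate (u * y) (CP 1) + replicate s0 (T 0 0) +
      replicate (s0 * (y + 1)) (CP 1) + replicate e (BP 1) + replicate q (BP 0) +
      replicate (w * k - 0 + nB) (BP 0) + replicate nC (CP 1)))) (by abel))
  have H4 := S_mergeCP G y 2 _ (H3.of_eq (add_left_comm _ _ _))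
  have H5 := S_mergeCP1 G y _ (H4.of_eq (add_assoc _ _ _))
  have eb : b = q + (w * k - 0 + nB) := by
    have : (w + 1) * k = w * k + k := by ring
    omega
  have ef : f = G * y + r * (y + 1 + 1) + u * y + s0 * (y + 1) + nC := by
    have : (y + 1 + 1) * (s0 + u + G + r) =
        G * y + r * (y + 1 + 1) + u * y + s0 * (y + 1) + (s0 + 2 * u + 2 * G) := by ring
    rw [hr, this] at hC
    omega
  refine H5.of_eq ?_
  rw [eb, ef]
  simp only [replicate_add]
  abel

theorem S_A0 (j k b e y w nB nC z0 : ℕ) (Z : Multiset ℕ) (hy : 1 ≤ y) (hZ : Z.card = j)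
    (hz : ∀ z ∈ Z, z ≤ z0) (hz0 : z0 ≤ y) (h2 : j + e ≤ k) (hw : w ≤ k)
    (hB : j + e + b + w = (w + 1) * k + nB) (hD : j * k ≤ j + Z.sum + e + j * nB + k * nC)
    (h1 : nC + 1 ≤ j ∨ e = 0) (h3 : nC + z0 + 1 ≤ j ∨ Z.sum = 0) :
    S (y + w + 3) j k (Z.map (fun z => T (y - z) z) + replicate b (BP 0) + replicate e (BP 1) +
      replicate nC (CP 1)) := by
  obtain ⟨z, rfl⟩ : ∃ z : ℕ → ℕ, (range j).map z = Z := hZ ▸ Leaf_enum Z
  obtain ⟨q, hq⟩ := Nat.exists_eq_add_of_le h2
  have k1 : k - j = e + q := by omega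
  have z0' : ∀ p < j, z p ≤ z0 := fun p hp => hz _ (mem_map_of_mem z (mem_range.2 hp))
  have hs : ∑ p ∈ Finset.range j, z p = ((range j).map z).sum := rfl
  have H := S_of_tok _ j k j y w w nB nC z (Leaf_e e) le_rfl (by omega) le_rfl hw (fun _ => rfl)
    (fun p hp => (z0' p hp).trans hz0)
    (Gen_tok j k j y w w nB nC e (if ((range j).map z).sum = 0 then 0 else j) 1 z0 z (Leaf_e e) hy
      le_rfl (by omega) le_rfl (fun _ => rfl) (fun p hp => (z0' p hp).trans hz0) z0'
      (fun l _ => Leaf_e1 e l) (by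
        split_ifs with h
        · rw [← hs, Finset.sum_eq_zero_iff] at h
          rw [Finset.filter_eq_empty_iff.2 fun p hp => (h p hp).not_gt, Finset.card_empty]
        · exact (Finset.card_filter_le _ _).trans (Finset.card_range _).le)
      (Leaf_eF e _) (by
        rw [hs, k1, Leaf_esum, Nat.sub_self]
        omega) (by
        rw [Nat.sub_self]
        refine cornerW _ _ _ _ _ _ _ (by omega) (h3.imp (by omega) fun h => if_pos h)))
  have ew : w ≤ w * k := by
    rcases Nat.eq_zero_or_pos w with h | h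
    · omega
    · exact Nat.le_mul_of_pos_right w (by omega)
  have eb : b = q + (w * k - w + nB) := by
    have : (w + 1) * k = w * k + k := by ring
    omega
  refine H.of_eq ?_
  rw [k1, Leaf_emap, Nat.sub_self, eb, map_map, replicate_add q, replicate_zero, add_zero]
  simp only [Function.comp_def]
  abel

theorem grOK2 (m j X G f : ℕ) (hm : 2 ≤ m) (hj : 1 ≤ j) (hG : G ≤ j) (hX : X + j ≤ m * j)
    (hf : 2 * G + f + X = (m + 1) * j) : GrOK (m + 2) j X (replicate G 2 + replicate f 1) := by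
  have hs : (replicate G 2 + replicate f 1 : Multiset ℕ).sum = 2 * G + f := by simp [mul_comm]
  have hc : (replicate G 2 + replicate f 1 : Multiset ℕ).card = G + f := by simp
  have e1 : (m + 2) * j = (m + 1) * j + j := by ring
  refine ⟨hj, by omega, 1, le_rfl, ?_, fun w hw => ?_, ?_, by omega⟩
  · obtain ⟨m, rfl⟩ := Nat.exists_eq_add_of_le' hm
    have : (X - 1) / j < m + 1 := by
      rw [Nat.div_lt_iff_lt_mul hj]
      have e2 : (m + 1) * j = m * j + j := by ring
      have e3 : (m + 2) * j = m * j + j + j := by ring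
      omega
    omega
  · simp only [mem_add, mem_replicate] at hw
    omega
  · simpa [count_replicate] using hG

theorem S_sink (m j X k G f : ℕ) (N : Multiset ℕ) (hm : 2 ≤ m) (hj : 1 ≤ j) (hG : G ≤ j)
    (hX : X + j ≤ m * j) (hf : 2 * G + f + X = (m + 1) * j) (hN : ∀ e ∈ N, e ≤ X ∨ X = 0)
    (hk : k ≤ N.card) (hD : k * (j + X) ≤ j * N.card + N.sum) :
    S (m + 2) j k (N.map BP + replicate G (CP 2) + replicate f (CP 1)) := by
  have hg := grOK2 m j X G f hm hj hG hX hf
  have e1 : ∀ N' : Multiset ℕ, N'.map BP + (replicate G 2 + replicate f 1).map CP =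
      N'.map BP + (replicate G (CP 2) + replicate f (CP 1)) := fun N' => by simp
  rw [add_assoc]
  rcases Nat.eq_zero_or_pos X with rfl | h
  · have H := (S_gpl hg k (N.map fun _ => 0) (by simp [mem_replicate]) (by
      rw [card_map, add_zero, mul_comm]
      exact (Nat.mul_le_mul_left j hk).trans (Nat.le_add_right _ _))).of_eq (e1 _)
    refine H.rel (Rel.add ?_ (rel_refl_of_refl_on fun _ _ => Red.refl _))
    rw [map_map, rel_map]
    exact rel_refl_of_refl_on fun e _ => red_BP (Nat.zero_le e)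
  · exact (S_gpl hg k N (fun e he => (hN e he).resolve_right h.ne') hD).of_eq (e1 _)

theorem V_pure (m j X k Tt e G : ℕ) (hm : 2 ≤ m) (hj : 1 ≤ j) (hG : G ≤ j) (hX : X + j ≤ m * j)
    (he : e ≤ k + Tt) (hD : k * X ≤ j * Tt + e) : V m j X k Tt 0 0 e G := by
  have e1 : (m + 1) * j = m * j + j := by ring
  refine ⟨le_rfl, by omega, by omega, ?_⟩
  have H := S_sink m j X k G ((m + 1) * j - X - 0 - 0 - 2 * G)
    (replicate (k + Tt - 0 - e) 0 + replicate e 1) hm hj hG hX (by omega) (fun z hz => by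
      simp only [mem_add, mem_replicate] at hz
      omega) (by simp; omega) (by
      have : k + Tt - e + e = k + Tt := by omega
      simp [this]
      linarith)
  simpa [BS] using H

end Pool.Agent.Work.MP_f4b644_ag.Thin
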