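import Pool.Agent.Work.MP_f4b644_ag.Thin.Gen
import Pool.Agent.Work.MP_f4b644_ag.Thin.Blocks

/-!
First dimension 6 (m = 4, w = 1, y = 2), X = ω + 4 = 2 J - L.
`tau4M`: Four strips (j_a, X_a), D_a = k X_a - j_a Tt ≥ 0, k = J + m, Tt = ω. For a = 2, 3, 4 put s_a = D_a / m, h_a = D_a % m; these
strips receive h_a tokens (`V_CGe`), the first strip has s1 = k + Tt - s2 - s3 - s4 tangents, u = h2 + h3 + h4 ≤ 3 (m - 1) of them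
with a mate (`V_CGq`), and D1 + u = m s1 (the D_a add up to m (k + Tt)). Glue by `tok4`. With c_a = (m + 1) j_a - X_a put
Φ_a = m c_a - D_a. The same construction with three strips is proved in S5M2.lean (m = 3), copy its structure.
L1 = (L + 3) / 4, L2 = (L + 2) / 4, L3 = (L + 1) / 4, L4 = L / 4 (sum L), X_a = 2 j_a - L_a, c_a = 3 j_a + L_a,
D_a = (12 + L) j_a - (J + 4) L_a (`Dw` with w = 2, x = - L_a, t = 12 + L), Φ_a = (J + 8) L_a - L j_a, the sum is 8 L.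
j1 = ((J + 4) L1 - 45) / L (so 4 L1 + 45 ≤ Φ1 < 4 L1 + 45 + L, 2 j1 + u ≤ s1 ≤ 3 j1, q = 2), j2 = (J + 8) L2 / L,
j3 = (J + 8) L3 / L (0 ≤ Φ < L), j4 the rest (0 ≤ Φ4 ≤ 8 L); q = 3 for a = 2, 3, 4 (hY is 3 L_a + 3 ≤ L). Bounds: 4 L_a ≥ L - 3,
4 L_a ≤ L + 3, 24 j_a ≤ 7 (J + 8), 5 j_a + 40 ≥ J.
`fin4`: B = 2 L, k ≥ 10, 2 k < J, s = k + Tt ≤ B ≤ J / 2; 4 ω ≥ 7 (J + 4) - 44 gives 3 k ≤ 2 Tt, ω < 2 (J + 4) gives Tt ≤ 2 k.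
`V_tallG` with g = 6 and w = 1, y = 2 if Tt + 2 ≤ 2 k, otherwise w = 2, y = 1.
-/

set_option autoImplicit false

namespace Pool.Agent.Work.MP_f4b644_ag.Thin

open Big Multiset Big.Gad

theorem S6M_lo (J L La j P : ℕ) (hL : 18 ≤ L) (h : L * j + P = (J + 8) * La)
    (h3 : L ≤ 4 * La + 3) (hP : P ≤ 8 * L) : J ≤ 5 * j + 40 := by
  by_contra hc
  have h1 : L * (5 * j + 41) ≤ L * J := Nat.mul_le_mul_left L (by omega)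
  have h2 : (J + 8) * L ≤ (J + 8) * (4 * La + 3) := Nat.mul_le_mul_left _ h3
  have h4 : 18 * J ≤ L * J := Nat.mul_le_mul_right J hL
  nlinarith

theorem S6M_up (J L La j P : ℕ) (hL : 18 ≤ L) (h : L * j + P = (J + 8) * La)
    (h3 : 4 * La ≤ L + 3) : 24 * j ≤ 7 * (J + 8) := by
  by_contra hc
  have h1 : L * (7 * (J + 8) + 1) ≤ L * (24 * j) := Nat.mul_le_mul_left L (by omega)
  have h2 : (J + 8) * (4 * La) ≤ (J + 8) * (L + 3) := Nat.mul_le_mul_left _ h3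
  have h4 : 18 * J ≤ L * J := Nat.mul_le_mul_right J hL
  nlinarith [Nat.zero_le P]

theorem S6M_D (J L ω La j P X : ℕ) (hω : ω + 4 + L = 2 * J) (h : L * j + P = (J + 8) * La)
    (hX : X + La = 2 * j) : (J + 4) * X + P = j * ω + 12 * j + 4 * La := by
  zify at hω h hX ⊢
  linear_combination h + ((J : ℤ) + 4) * hX - (j : ℤ) * hω

theorem S6M_data (J L : ℕ) (hJ : 320 ≤ J) (hL : 18 ≤ L) :
    ∃ L1 L2 L3 L4 j1 j2 j3 j4 P1 P2 P3 P4 : ℕ,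
    L1 + L2 + L3 + L4 = L ∧ j1 + j2 + j3 + j4 = J ∧ P1 + P2 + P3 + P4 = 8 * L ∧
    L * j1 + P1 = (J + 8) * L1 ∧ L * j2 + P2 = (J + 8) * L2 ∧ L * j3 + P3 = (J + 8) * L3 ∧
    L * j4 + P4 = (J + 8) * L4 ∧ 4 * L1 + 45 ≤ P1 ∧ P1 < 4 * L1 + 45 + L ∧
    L ≤ 4 * L1 ∧ 4 * L1 ≤ L + 3 ∧ L ≤ 4 * L2 + 3 ∧ 4 * L2 ≤ L + 2 ∧
    L ≤ 4 * L3 + 3 ∧ 4 * L3 ≤ L + 2 ∧ L ≤ 4 * L4 + 3 ∧ 4 * L4 ≤ L + 2 := by
  obtain ⟨L1, L2, L3, L4, hs, a1, a2, a3, a4, a5, a6, a7, a8⟩ : ∃ L1 L2 L3 L4 : ℕ,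
      L1 + L2 + L3 + L4 = L ∧ L ≤ 4 * L1 ∧ 4 * L1 ≤ L + 3 ∧ L ≤ 4 * L2 + 3 ∧ 4 * L2 ≤ L + 2 ∧
      L ≤ 4 * L3 + 3 ∧ 4 * L3 ≤ L + 2 ∧ L ≤ 4 * L4 + 3 ∧ 4 * L4 ≤ L + 2 :=
    ⟨(L + 3) / 4, (L + 2) / 4, (L + 1) / 4, L / 4, by omega, by omega, by omega, by omega,
      by omega, by omega, by omega, by omega, by omega⟩
  have h328 : 328 * L1 ≤ (J + 8) * L1 := Nat.mul_le_mul_right L1 (by omega)
  have hL0 : 0 < L := by omega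
  obtain ⟨j1, P1, e1, b1, b2⟩ : ∃ j1 P1 : ℕ, L * j1 + P1 = (J + 8) * L1 ∧ 4 * L1 + 45 ≤ P1 ∧
      P1 < 4 * L1 + 45 + L := by
    have d1 := Nat.div_add_mod ((J + 8) * L1 - (4 * L1 + 45)) L
    have d2 := Nat.mod_lt ((J + 8) * L1 - (4 * L1 + 45)) hL0
    exact ⟨((J + 8) * L1 - (4 * L1 + 45)) / L, ((J + 8) * L1 - (4 * L1 + 45)) % L + (4 * L1 + 45),
      by omega, by omega, by omega⟩
  obtain ⟨j2, P2, e2, b3⟩ : ∃ j2 P2 : ℕ, L * j2 + P2 = (J + 8) * L2 ∧ P2 < L :=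
    ⟨((J + 8) * L2) / L, ((J + 8) * L2) % L, Nat.div_add_mod _ _, Nat.mod_lt _ hL0⟩
  obtain ⟨j3, P3, e3, b4⟩ : ∃ j3 P3 : ℕ, L * j3 + P3 = (J + 8) * L3 ∧ P3 < L :=
    ⟨((J + 8) * L3) / L, ((J + 8) * L3) % L, Nat.div_add_mod _ _, Nat.mod_lt _ hL0⟩
  have u1 := S6M_up J L L1 j1 P1 hL e1 a2
  have u2 := S6M_up J L L2 j2 P2 hL e2 (by omega)
  have u3 := S6M_up J L L3 j3 P3 hL e3 (by omega)
  obtain ⟨j4, hj4⟩ : ∃ j4, j1 + j2 + j3 + j4 = J := ⟨J - j1 - j2 - j3, by omega⟩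
  obtain ⟨P4, hP4⟩ : ∃ P4, P1 + P2 + P3 + P4 = 8 * L := ⟨8 * L - P1 - P2 - P3, by omega⟩
  refine ⟨L1, L2, L3, L4, j1, j2, j3, j4, P1, P2, P3, P4, hs, hj4, hP4, e1, e2, e3, ?_, b1, b2,
    a1, a2, a3, a4, a5, a6, a7, a8⟩
  zify at hs hj4 hP4 e1 e2 e3 ⊢
  linear_combination (L : ℤ) * hj4 + hP4 - e1 - e2 - e3 - ((J : ℤ) + 8) * hs

theorem S6M_strip (J L ω La j P : ℕ) (hJ : 320 ≤ J) (h1 : 18 ≤ L) (h2 : 4 * L ≤ J)
    (hω : ω + 4 + L = 2 * J) (e : L * j + P = (J + 8) * La) (a1 : L ≤ 4 * La + 3)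
    (a2 : 4 * La ≤ L + 2) (hP : P ≤ 8 * L) : ∃ X s t : ℕ, X + La = 2 * j ∧
      4 * s + t + P = 12 * j + 4 * La ∧ t ≤ 3 ∧ V 4 j X (J + 4) ω s 0 t 0 := by
  have l := S6M_lo J L La j P h1 e a1 hP
  have u := S6M_up J L La j P h1 e (by omega)
  obtain ⟨X, hX⟩ : ∃ X, X + La = 2 * j := ⟨2 * j - La, by omega⟩
  have d := S6M_D J L ω La j P X hω e hX
  clear e
  obtain ⟨s, t, c, ht⟩ : ∃ s t : ℕ, 4 * s + t + P = 12 * j + 4 * La ∧ t ≤ 3 :=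
    ⟨(12 * j + 4 * La - P) / 4, (12 * j + 4 * La - P) % 4, by omega, by omega⟩
  exact ⟨X, s, t, hX, c, ht, V_CGe 4 j X (J + 4) ω s t 1 2 3 rfl (by omega) (by omega) (by omega)
    (by omega) (by omega) (by omega) (by omega) (by omega) (by omega)⟩

theorem S6M_first (J L ω La j P X s v : ℕ) (hJ : 320 ≤ J) (h1 : 18 ≤ L) (h2 : 4 * L ≤ J)
    (hω : ω + 4 + L = 2 * J) (e : L * j + P = (J + 8) * La) (a1 : L ≤ 4 * La)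
    (a2 : 4 * La ≤ L + 3) (b1 : 4 * La + 45 ≤ P) (b2 : P < 4 * La + 45 + L) (hX : X + La = 2 * j)
    (c : 4 * s + P = 12 * j + 4 * La + v) (hv : v ≤ 9) : V 4 j X (J + 4) ω s v 0 0 := by
  have l := S6M_lo J L La j P h1 e (by omega) (by omega)
  have u := S6M_up J L La j P h1 e a2
  have d := S6M_D J L ω La j P X hω e hX
  have hD : (J + 4) * X + v ≤ j * ω + 4 * s + 0 := by omega
  clear e d
  exact V_CGq 4 j X (J + 4) ω s v 0 1 2 2 rfl (by omega) (by omega) (by omega) (by omega)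
    (by omega) (by omega) (by omega) (by omega) hD (by omega) (Or.inr ⟨le_rfl, by omega⟩)

theorem tau4M (J L ω : ℕ) (hJ : 320 ≤ J) (h1 : 18 ≤ L) (h2 : 4 * L ≤ J) (hω : ω + 4 + L = 2 * J) :
    V 4 J (ω + 4) (J + 4) ω (J + 4 + ω) 0 0 0 := by
  obtain ⟨L1, L2, L3, L4, j1, j2, j3, j4, P1, P2, P3, P4, hs, hj, hP, e1, e2, e3, e4, b1, b2,
    a1, a2, a3, a4, a5, a6, a7, a8⟩ := S6M_data J L hJ h1
  obtain ⟨X2, s2, t2, x2, c2, ht2, H2⟩ := S6M_strip J L ω L2 j2 P2 hJ h1 h2 hω e2 a3 a4 (by omega)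
  obtain ⟨X3, s3, t3, x3, c3, ht3, H3⟩ := S6M_strip J L ω L3 j3 P3 hJ h1 h2 hω e3 a5 a6 (by omega)
  obtain ⟨X4, s4, t4, x4, c4, ht4, H4⟩ := S6M_strip J L ω L4 j4 P4 hJ h1 h2 hω e4 a7 a8 (by omega)
  have l := S6M_lo J L L1 j1 P1 h1 e1 (by omega) (by omega)
  clear e2 e3 e4 a3 a4 a5 a6 a7 a8
  obtain ⟨X1, x1⟩ : ∃ X, L1 + X = 2 * j1 := ⟨_, Nat.add_sub_cancel' (by linarith)⟩
  obtain ⟨s1, c1⟩ : ∃ s1, J + 4 + ω = s2 + s3 + s4 + s1 :=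
    Nat.exists_eq_add_of_le (by linarith [Nat.zero_le t2, Nat.zero_le t3, Nat.zero_le t4])
  exact tok4 j1 X1 s1 j2 X2 s2 t2 j3 X3 s3 t3 j4 X4 s4 t4 (by linarith) (by linarith)
    (by linarith) le_rfl (S6M_first J L ω L1 j1 P1 X1 s1 _ hJ h1 h2 hω e1 a1 a2 b1 b2
      (by linarith) (by linarith) (by linarith)) H2 H3 H4

theorem fin4 (J L ω k Tt : ℕ) (hJ : 320 ≤ J) (h1 : 18 ≤ L) (h2 : 4 * L ≤ J) (hω : ω + 4 + L = 2 * J)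
    (h : FinD 4 J ω (2 * L) k Tt) : V 4 J (ω + 4) k Tt (k + Tt) 0 0 0 := by
  obtain ⟨-, f2, f3, f4, f5⟩ := h
  have hk : 3 ≤ k := by
    by_contra hc
    have a1 : (k + 1) * (J + 4 + ω) ≤ 3 * (J + 4 + ω) := Nat.mul_le_mul_right _ (by omega)
    have a2 : 36 * (J + 4) ≤ 2 * L * (J + 4) := Nat.mul_le_mul_right _ (by omega)
    omega
  have hlo : k ≤ Tt := by
    have a1 : (J + 4) * k ≤ ω * k := Nat.mul_le_mul_right _ (by omega)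
    exact Nat.le_of_mul_le_mul_left (a1.trans f3) (by omega)
  have hup : Tt ≤ 2 * k := by
    have a1 : ω * k ≤ 2 * (J + 4) * k := Nat.mul_le_mul_right _ (by omega)
    have a2 : (J + 4) * Tt < (J + 4) * (2 * k + 1) := by nlinarith
    have := Nat.lt_of_mul_lt_mul_left a2
    omega
  have hD : k * (ω + 4) ≤ J * Tt + 4 * (k + Tt) := by nlinarith
  clear f2 f3 f4
  by_cases hc : Tt + 2 ≤ 2 * k
  · exact V_tallG 4 J (ω + 4) k Tt (k + Tt) 1 2 6 rfl (by omega) (by omega) (by omega) (by omega)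
      (by omega) le_rfl (by omega) (by omega) (by omega) (by omega) hD
  · exact V_tallG 4 J (ω + 4) k Tt (k + Tt) 2 1 6 rfl (by omega) (by omega) (by omega) (by omega)
      (by omega) le_rfl (by omega) (by omega) (by omega) (by omega) hD

end Pool.Agent.Work.MP_f4b644_ag.Thin
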