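import Pool.Agent.Work.MP_f4b644_ag.Thin.Gen
import Pool.Agent.Work.MP_f4b644_ag.Thin.Blocks

/-!
First dimension 7 (m = 5, w = 2, y = 2), 2 X + Z = 5 J, X = ω + 5.
`tau5M`: Four strips (j_a, X_a), D_a = k X_a - j_a Tt ≥ 0, k = J + m, Tt = ω. For a = 2, 3, 4 put s_a = D_a / m, h_a = D_a % m; these
strips receive h_a tokens (`V_CGe`), the first strip has s1 = k + Tt - s2 - s3 - s4 tangents, u = h2 + h3 + h4 ≤ 3 (m - 1) of them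
with a mate (`V_CGq`), and D1 + u = m s1 (the D_a add up to m (k + Tt)). Glue by `tok4`. With c_a = (m + 1) j_a - X_a put
Φ_a = m c_a - D_a. The same construction with three strips is proved in S5M2.lean (m = 3), copy its structure.
Z1 = (Z + 3) / 4, Z2 = (Z + 2) / 4, Z3 = (Z + 1) / 4, Z4 = Z / 4 (sum Z), j_a = Z_a + 2 i_a, X_a = 2 Z_a + 5 i_a, c_a = 4 Z_a + 7 i_a,
2 D_a = (35 + Z) j_a - (J + 5) Z_a (`Dm` with ρ = 35 + Z), 2 Φ_a = (J + 10 - Z) Z_a - 2 Z i_a, the Φ_a add up to 5 Z.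
i1 = ((J + 10 - Z) Z1 - 144) / (2 Z) (72 ≤ Φ1 < 72 + Z), i_a = (J + 10 - Z) Z_a / (2 Z) for a = 2, 3 (0 ≤ Φ < Z),
i4 = (J - Z) / 2 - i1 - i2 - i3 (Φ4 ≥ 2 Z - 69 ≥ 0). q = 3 everywhere; 3 j1 + u ≤ s1 = c1 - (Φ1 - u) / 5.
Bounds: Z - 3 ≤ 4 Z_a ≤ Z + 3, Z j_a ≤ (J + 10) Z_a, so 140 j_a ≤ 38 (J + 10), i_a ≥ 25, c_a + 4 ≤ J + 5
(from (Z + 3) (7 J + 70 + Z) ≤ 8 Z (J + 1)).
`fin5`: B = Z, k ≥ 9, s = k + Tt ≤ Z ≤ J / 2, 2 k ≤ Tt (ω ≥ 2 (J + 5)), 2 Tt ≤ 5 k + 1; `V_tallG` with w = 2, y = 2, g = 6.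
-/

set_option autoImplicit false

namespace Pool.Agent.Work.MP_f4b644_ag.Thin

open Big Multiset Big.Gad

theorem S7M_lo (Z I Za i P : ℕ) (hZ : 35 ≤ Z) (hI : 150 ≤ I) (h : Z * i + P = (I + 5) * Za)
    (h3 : Z ≤ 4 * Za + 3) (hP : P ≤ 5 * Z) : 25 ≤ i := by
  by_contra hc
  have h1 : Z * i ≤ Z * 24 := Nat.mul_le_mul_left Z (by omega)
  have h2 : 155 * Za ≤ (I + 5) * Za := Nat.mul_le_mul_right Za (by omega)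
  omega

theorem S7M_up (Z I Za i P : ℕ) (hZ : 35 ≤ Z) (hI : 150 ≤ I) (h : Z * i + P = (I + 5) * Za)
    (h3 : 4 * Za ≤ Z + 3) : 7 * i + 2 ≤ 2 * I := by
  by_contra hc
  have h1 : Z * (2 * I) ≤ Z * (7 * i + 1) := Nat.mul_le_mul_left Z (by omega)
  have h2 : (I + 5) * (4 * Za) ≤ (I + 5) * (Z + 3) := Nat.mul_le_mul_left _ h3
  obtain ⟨a, rfl⟩ := Nat.exists_eq_add_of_le hZ
  obtain ⟨b, rfl⟩ := Nat.exists_eq_add_of_le hI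
  nlinarith [Nat.zero_le (a * b), Nat.zero_le P]

theorem S7M_D (Z I ω Za i P : ℕ) (hω : ω + 5 = 2 * Z + 5 * I) (h : Z * i + P = (I + 5) * Za) :
    (Z + 2 * I + 5) * (2 * Za + 5 * i) + P = (Za + 2 * i) * ω + 20 * Za + 35 * i := by
  zify at hω h ⊢
  linear_combination h - ((Za : ℤ) + 2 * i) * hω

theorem S7M_data (Z I : ℕ) (hZ : 35 ≤ Z) (hI : 150 ≤ I) :
    ∃ Z1 Z2 Z3 Z4 i1 i2 i3 i4 P1 P2 P3 P4 : ℕ,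
    Z1 + Z2 + Z3 + Z4 = Z ∧ i1 + i2 + i3 + i4 = I ∧ P1 + P2 + P3 + P4 = 5 * Z ∧
    Z * i1 + P1 = (I + 5) * Z1 ∧ Z * i2 + P2 = (I + 5) * Z2 ∧ Z * i3 + P3 = (I + 5) * Z3 ∧
    Z * i4 + P4 = (I + 5) * Z4 ∧ 72 ≤ P1 ∧ P1 < Z + 72 ∧ Z ≤ 4 * Z1 ∧ 4 * Z1 ≤ Z + 3 ∧
    Z ≤ 4 * Z2 + 3 ∧ 4 * Z2 ≤ Z + 3 ∧ Z ≤ 4 * Z3 + 3 ∧ 4 * Z3 ≤ Z + 3 ∧ Z ≤ 4 * Z4 + 3 ∧
    4 * Z4 ≤ Z + 3 := by
  obtain ⟨Z1, Z2, Z3, Z4, hs, a1, a2, a3, a4, a5, a6, a7, a8⟩ : ∃ Z1 Z2 Z3 Z4 : ℕ,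
      Z1 + Z2 + Z3 + Z4 = Z ∧ Z ≤ 4 * Z1 ∧ 4 * Z1 ≤ Z + 3 ∧ Z ≤ 4 * Z2 + 3 ∧ 4 * Z2 ≤ Z + 3 ∧
      Z ≤ 4 * Z3 + 3 ∧ 4 * Z3 ≤ Z + 3 ∧ Z ≤ 4 * Z4 + 3 ∧ 4 * Z4 ≤ Z + 3 :=
    ⟨(Z + 3) / 4, (Z + 2) / 4, (Z + 1) / 4, Z / 4, by omega, by omega, by omega, by omega,
      by omega, by omega, by omega, by omega, by omega⟩
  have h53 : 155 * Z1 ≤ (I + 5) * Z1 := Nat.mul_le_mul_right Z1 (by omega)
  have hZ0 : 0 < Z := by omega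
  obtain ⟨i1, P1, e1, b1, b2⟩ : ∃ i1 P1 : ℕ, Z * i1 + P1 = (I + 5) * Z1 ∧ 72 ≤ P1 ∧ P1 < Z + 72 := by
    have d1 := Nat.div_add_mod ((I + 5) * Z1 - 72) Z
    have d2 := Nat.mod_lt ((I + 5) * Z1 - 72) hZ0
    exact ⟨((I + 5) * Z1 - 72) / Z, ((I + 5) * Z1 - 72) % Z + 72, by omega, by omega, by omega⟩
  obtain ⟨i2, P2, e2, b3⟩ : ∃ i2 P2 : ℕ, Z * i2 + P2 = (I + 5) * Z2 ∧ P2 < Z :=
    ⟨((I + 5) * Z2) / Z, ((I + 5) * Z2) % Z, Nat.div_add_mod _ _, Nat.mod_lt _ hZ0⟩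
  obtain ⟨i3, P3, e3, b4⟩ : ∃ i3 P3 : ℕ, Z * i3 + P3 = (I + 5) * Z3 ∧ P3 < Z :=
    ⟨((I + 5) * Z3) / Z, ((I + 5) * Z3) % Z, Nat.div_add_mod _ _, Nat.mod_lt _ hZ0⟩
  have u1 := S7M_up Z I Z1 i1 P1 hZ hI e1 a2
  have u2 := S7M_up Z I Z2 i2 P2 hZ hI e2 a4
  have u3 := S7M_up Z I Z3 i3 P3 hZ hI e3 a6
  obtain ⟨i4, hi4⟩ : ∃ i4, i1 + i2 + i3 + i4 = I := ⟨I - i1 - i2 - i3, by omega⟩
  obtain ⟨P4, hP4⟩ : ∃ P4, P1 + P2 + P3 + P4 = 5 * Z := ⟨5 * Z - P1 - P2 - P3, by omega⟩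
  refine ⟨Z1, Z2, Z3, Z4, i1, i2, i3, i4, P1, P2, P3, P4, hs, hi4, hP4, e1, e2, e3, ?_, b1, b2, a1,
    a2, a3, a4, a5, a6, a7, a8⟩
  zify at hs hi4 hP4 e1 e2 e3 ⊢
  linear_combination (Z : ℤ) * hi4 + hP4 - e1 - e2 - e3 - ((I : ℤ) + 5) * hs

theorem S7M_e (Z I ω Za i P s t : ℕ) (hZ : 35 ≤ Z) (hI : 150 ≤ I) (hω : ω + 5 = 2 * Z + 5 * I)
    (h : Z * i + P = (I + 5) * Za) (a1 : Z ≤ 4 * Za + 3) (a2 : 4 * Za ≤ Z + 3) (hP : P ≤ 5 * Z)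
    (c : 5 * s + t + P = 20 * Za + 35 * i) (ht : t ≤ 4) :
    V 5 (Za + 2 * i) (2 * Za + 5 * i) (Z + 2 * I + 5) ω s 0 t 0 := by
  have l := S7M_lo Z I Za i P hZ hI h a1 hP
  have u := S7M_up Z I Za i P hZ hI h a2
  have d := S7M_D Z I ω Za i P hω h
  clear h
  exact V_CGe 5 _ _ _ _ _ _ 2 2 3 rfl (by omega) (by omega) (by omega) (by omega) (by omega)
    (by omega) (by omega) (by omega) (by omega)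

theorem S7M_q (Z I ω Za i P s t : ℕ) (hZ : 35 ≤ Z) (hI : 150 ≤ I) (hω : ω + 5 = 2 * Z + 5 * I)
    (h : Z * i + P = (I + 5) * Za) (a1 : Z ≤ 4 * Za) (a2 : 4 * Za ≤ Z + 3) (b1 : 72 ≤ P)
    (b2 : P < Z + 72) (c : 5 * s + P = 20 * Za + 35 * i + t) (ht : t ≤ 12) :
    V 5 (Za + 2 * i) (2 * Za + 5 * i) (Z + 2 * I + 5) ω s t 0 0 := by
  have l := S7M_lo Z I Za i P hZ hI h (by omega) (by omega)
  have u := S7M_up Z I Za i P hZ hI h a2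
  have d := S7M_D Z I ω Za i P hω h
  clear h
  exact V_CGq 5 _ _ _ _ _ _ _ 2 2 3 rfl (by omega) (by omega) (by omega) (by omega) (by omega)
    (by omega) (by omega) (by omega) (by omega) (by omega) (Or.inr ⟨le_rfl, by omega⟩)

theorem tau5M (J Z ω : ℕ) (hJ : 600 ≤ J) (h1 : 35 ≤ Z) (h2 : 2 * Z ≤ J) (hω : 2 * (ω + 5) + Z = 5 * J) :
    V 5 J (ω + 5) (J + 5) ω (J + 5 + ω) 0 0 0 := by
  obtain ⟨I, rfl⟩ : ∃ I, J = Z + 2 * I := ⟨(J - Z) / 2, by omega⟩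
  have hI : 150 ≤ I := by omega
  have hw : ω + 5 = 2 * Z + 5 * I := by omega
  obtain ⟨Z1, Z2, Z3, Z4, i1, i2, i3, i4, P1, P2, P3, P4, hs, hi, hP, e1, e2, e3, e4, b1, b2, a1, a2,
    a3, a4, a5, a6, a7, a8⟩ := S7M_data Z I h1 hI
  have l1 := S7M_lo Z I Z1 i1 P1 h1 hI e1 (by omega) (by omega)
  have l2 := S7M_lo Z I Z2 i2 P2 h1 hI e2 a3 (by omega)
  have l3 := S7M_lo Z I Z3 i3 P3 h1 hI e3 a5 (by omega)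
  have l4 := S7M_lo Z I Z4 i4 P4 h1 hI e4 a7 (by omega)
  have H1 := fun s t => S7M_q Z I ω Z1 i1 P1 s t h1 hI hw e1 a1 a2 b1 b2
  have H2 := fun s t => S7M_e Z I ω Z2 i2 P2 s t h1 hI hw e2 a3 a4 (by omega)
  have H3 := fun s t => S7M_e Z I ω Z3 i3 P3 s t h1 hI hw e3 a5 a6 (by omega)
  have H4 := fun s t => S7M_e Z I ω Z4 i4 P4 s t h1 hI hw e4 a7 a8 (by omega)
  clear e1 e2 e3 e4
  obtain ⟨s2, t2, c2, ht2⟩ : ∃ s t : ℕ, 5 * s + t + P2 = 20 * Z2 + 35 * i2 ∧ t ≤ 4 :=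
    ⟨(20 * Z2 + 35 * i2 - P2) / 5, (20 * Z2 + 35 * i2 - P2) % 5, by omega, by omega⟩
  obtain ⟨s3, t3, c3, ht3⟩ : ∃ s t : ℕ, 5 * s + t + P3 = 20 * Z3 + 35 * i3 ∧ t ≤ 4 :=
    ⟨(20 * Z3 + 35 * i3 - P3) / 5, (20 * Z3 + 35 * i3 - P3) % 5, by omega, by omega⟩
  obtain ⟨s4, t4, c4, ht4⟩ : ∃ s t : ℕ, 5 * s + t + P4 = 20 * Z4 + 35 * i4 ∧ t ≤ 4 :=
    ⟨(20 * Z4 + 35 * i4 - P4) / 5, (20 * Z4 + 35 * i4 - P4) % 5, by omega, by omega⟩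
  obtain ⟨s1, c1⟩ : ∃ s1, Z + 2 * I + 5 + ω = s2 + (s3 + (s4 + s1)) :=
    ⟨Z + 2 * I + 5 + ω - s2 - s3 - s4, by omega⟩
  exact tok4 (Z1 + 2 * i1) (2 * Z1 + 5 * i1) s1 (Z2 + 2 * i2) (2 * Z2 + 5 * i2) s2 t2 (Z3 + 2 * i3)
    (2 * Z3 + 5 * i3) s3 t3 (Z4 + 2 * i4) (2 * Z4 + 5 * i4) s4 t4 (by omega) (by omega) c1 le_rfl
    (H1 s1 _ (by omega) (by omega)) (H2 s2 t2 c2 ht2) (H3 s3 t3 c3 ht3) (H4 s4 t4 c4 ht4)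

theorem fin5 (J Z ω k Tt : ℕ) (hJ : 600 ≤ J) (h1 : 35 ≤ Z) (h2 : 2 * Z ≤ J)
    (hω : 2 * (ω + 5) + Z = 5 * J) (h : FinD 5 J ω Z k Tt) : V 5 J (ω + 5) k Tt (k + Tt) 0 0 0 := by
  obtain ⟨-, f2, f3, f4, f5⟩ := h
  have c1 : 9 < k + 1 := lt_of_mul_lt_mul_right (a := J + 5 + ω) (by
    have := Nat.mul_le_mul_right (J + 5) h1
    omega) (Nat.zero_le _)
  have c2 : 2 * k ≤ Tt := Nat.le_of_mul_le_mul_left (c := J + 5) (by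
    have := Nat.mul_le_mul_right k (show (J + 5) * 2 ≤ ω by omega)
    linarith) (by omega)
  have c3 : 2 * Tt < 5 * k + 2 := lt_of_mul_lt_mul_left (a := J + 5) (by
    have := Nat.mul_le_mul_right k (show 2 * ω ≤ (J + 5) * 5 by omega)
    linarith) (Nat.zero_le _)
  exact V_tallG 5 J (ω + 5) k Tt (k + Tt) 2 2 6 rfl (by omega) (by omega) (by omega) (by omega)
    (by omega) le_rfl (by omega) (by omega) (by omega) (by omega) (by linarith)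

end Pool.Agent.Work.MP_f4b644_ag.Thin
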