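import Pool.Agent.Work.MP_f4b644_ag.Thin.Gen
import Pool.Agent.Work.MP_f4b644_ag.Thin.S5Zd

/-!
First dimension 7, the nearly square formats: with Z = 5 J - 2 X between -17 and 34 the root is cut into four or five strips.
-/

set_option autoImplicit false

namespace Pool.Agent.Work.MP_f4b644_ag.Thin

open Big Multiset Big.Gad

theorem S7_strip (j X K Tt s : ℕ) (z ρ : ℤ) (h1 : 2 * (X : ℤ) + z = 5 * j)
    (h2 : 2 * (Tt : ℤ) + ρ = 5 * K) (h3 : (j : ℤ) * ρ ≤ K * z + 10 * s) (h4 : 2 * j + 5 ≤ X)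
    (h5 : X ≤ 3 * j) (h6 : s ≤ K) (h7 : s + X = 6 * j) (h8 : Tt + 20 + 9 * j ≤ 3 * K + 3 * X) :
    V 5 j X K Tt s 0 0 0 :=
  V_CGe 5 j X K Tt s 0 2 2 3 rfl (by omega) h4 h4 h5 (by omega) h6 h7.le
    (Dm 5 j X K Tt s z ρ h1 h2 (by push_cast; linarith)) (by omega)

theorem S7_n17 (i K : ℕ) (hi : 280 ≤ i)
    (hK : K * (2 * i + 41 + (5 * i + 111)) ≤ (7 * i + 135) * (2 * i + 41 + 5)) :
    S (5 + 2) (2 * i + 41) K (replicate (7 * i + 135) (T 0 0)) := by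
  obtain ⟨a, ha1, ha2⟩ : ∃ a, 17 * a ≤ 2 * (2 * i + 41) + 0 ∧ 2 * (2 * i + 41) + 0 < 17 * a + 17 :=
    ⟨(2 * (2 * i + 41) + 0) / 17, by omega, by omega⟩
  obtain ⟨b, hb1, hb2⟩ : ∃ b, 34 * b ≤ 3 * (2 * i + 41) + 0 ∧ 3 * (2 * i + 41) + 0 < 34 * b + 34 :=
    ⟨(3 * (2 * i + 41) + 0) / 34, by omega, by omega⟩
  obtain ⟨c, hc⟩ : ∃ c, 2 * i + 41 = 2 * (2 * a + 0) + (2 * (2 * b + 1) + (2 * c + 1)) := ⟨(2 * i + 41 - 2 * (2 * a + 0) - 2 * (2 * b + 1)) / 2, by omega⟩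
  refine S_of_V (X := 5 * i + 111) (K0 := 2 * i + 41) (T0 := 5 * i + 94) (by omega) (K_le hK (by nlinarith)) ?_
  exact V_cutBn 2 _ (5 * a + 2) (7 * a - 2) _ (2 * (5 * b + 4) + (5 * c + 4)) (2 * (7 * b + 2) + (7 * c + 2)) hc (by omega) (by omega) le_rfl
    (S7_strip _ _ _ _ _ (-4) 17 (by omega) (by omega) (by omega) (by omega) (by omega) (by omega) (by omega) (by omega))
    (V_cutBn 2 _ _ _ _ _ _ rfl rfl rfl (by omega)
      (S7_strip _ _ _ _ _ (-3) 17 (by omega) (by omega) (by omega) (by omega) (by omega) (by omega) (by omega) (by omega))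
      (S7_strip _ _ _ _ _ (-3) 17 (by omega) (by omega) (by omega) (by omega) (by omega) (by omega) (by omega) (by omega)))

theorem S7_n16 (i K : ℕ) (hi : 280 ≤ i)
    (hK : K * (2 * i + 40 + (5 * i + 108)) ≤ (7 * i + 132) * (2 * i + 40 + 5)) :
    S (5 + 2) (2 * i + 40) K (replicate (7 * i + 132) (T 0 0)) := by
  obtain ⟨a, ha1, ha2⟩ : ∃ a, 8 * a ≤ 1 * (2 * i + 40) + 0 ∧ 1 * (2 * i + 40) + 0 < 8 * a + 8 :=
    ⟨(1 * (2 * i + 40) + 0) / 8, by omega, by omega⟩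
  obtain ⟨c, hc⟩ : ∃ c, 2 * i + 40 = 3 * (2 * a + 0) + (2 * c + 0) := ⟨(2 * i + 40 - 3 * (2 * a + 0)) / 2, by omega⟩
  refine S_of_V (X := 5 * i + 108) (K0 := 2 * i + 40) (T0 := 5 * i + 92) (by omega) (K_le hK (by nlinarith)) ?_
  exact V_cutBn 3 _ (5 * a + 2) (7 * a - 2) _ (5 * c + 2) (7 * c - 2) hc (by omega) (by omega) le_rfl
    (S7_strip _ _ _ _ _ (-4) 16 (by omega) (by omega) (by omega) (by omega) (by omega) (by omega) (by omega) (by omega))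
    (S7_strip _ _ _ _ _ (-4) 16 (by omega) (by omega) (by omega) (by omega) (by omega) (by omega) (by omega) (by omega))

theorem S7_n15 (i K : ℕ) (hi : 280 ≤ i)
    (hK : K * (2 * i + 41 + (5 * i + 110)) ≤ (7 * i + 136) * (2 * i + 41 + 5)) :
    S (5 + 2) (2 * i + 41) K (replicate (7 * i + 136) (T 0 0)) := by
  obtain ⟨a, ha1, ha2⟩ : ∃ a, 8 * a ≤ 1 * (2 * i + 41) + 0 ∧ 1 * (2 * i + 41) + 0 < 8 * a + 8 :=
    ⟨(1 * (2 * i + 41) + 0) / 8, by omega, by omega⟩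
  obtain ⟨c, hc⟩ : ∃ c, 2 * i + 41 = 3 * (2 * a + 0) + (2 * c + 1) := ⟨(2 * i + 41 - 3 * (2 * a + 0)) / 2, by omega⟩
  refine S_of_V (X := 5 * i + 110) (K0 := 2 * i + 41) (T0 := 5 * i + 95) (by omega) (K_le hK (by nlinarith)) ?_
  exact V_cutBn 3 _ (5 * a + 2) (7 * a - 2) _ (5 * c + 4) (7 * c + 2) hc (by omega) (by omega) le_rfl
    (S7_strip _ _ _ _ _ (-4) 15 (by omega) (by omega) (by omega) (by omega) (by omega) (by omega) (by omega) (by omega))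
    (S7_strip _ _ _ _ _ (-3) 15 (by omega) (by omega) (by omega) (by omega) (by omega) (by omega) (by omega) (by omega))

theorem S7_n14 (i K : ℕ) (hi : 280 ≤ i)
    (hK : K * (2 * i + 40 + (5 * i + 107)) ≤ (7 * i + 133) * (2 * i + 40 + 5)) :
    S (5 + 2) (2 * i + 40) K (replicate (7 * i + 133) (T 0 0)) := by
  obtain ⟨a, ha1, ha2⟩ : ∃ a, 8 * a ≤ 1 * (2 * i + 40) + 0 ∧ 1 * (2 * i + 40) + 0 < 8 * a + 8 :=
    ⟨(1 * (2 * i + 40) + 0) / 8, by omega, by omega⟩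
  obtain ⟨b, hb1, hb2⟩ : ∃ b, 8 * b ≤ 1 * (2 * i + 40) + 0 ∧ 1 * (2 * i + 40) + 0 < 8 * b + 8 :=
    ⟨(1 * (2 * i + 40) + 0) / 8, by omega, by omega⟩
  obtain ⟨c, hc⟩ : ∃ c, 2 * i + 40 = 1 * (2 * a + 0) + (2 * (2 * b + 1) + (2 * c + 0)) := ⟨(2 * i + 40 - 1 * (2 * a + 0) - 2 * (2 * b + 1)) / 2, by omega⟩
  refine S_of_V (X := 5 * i + 107) (K0 := 2 * i + 40) (T0 := 5 * i + 93) (by omega) (K_le hK (by nlinarith)) ?_
  exact V_cutBn 1 _ (5 * a + 2) (7 * a - 2) _ (2 * (5 * b + 4) + (5 * c + 2)) (2 * (7 * b + 2) + (7 * c - 2)) hc (by omega) (by omega) le_rfl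
    (S7_strip _ _ _ _ _ (-4) 14 (by omega) (by omega) (by omega) (by omega) (by omega) (by omega) (by omega) (by omega))
    (V_cutBn 2 _ _ _ _ _ _ rfl rfl rfl (by omega)
      (S7_strip _ _ _ _ _ (-3) 14 (by omega) (by omega) (by omega) (by omega) (by omega) (by omega) (by omega) (by omega))
      (S7_strip _ _ _ _ _ (-4) 14 (by omega) (by omega) (by omega) (by omega) (by omega) (by omega) (by omega) (by omega)))

theorem S7_n13 (i K : ℕ) (hi : 280 ≤ i)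
    (hK : K * (2 * i + 41 + (5 * i + 109)) ≤ (7 * i + 137) * (2 * i + 41 + 5)) :
    S (5 + 2) (2 * i + 41) K (replicate (7 * i + 137) (T 0 0)) := by
  obtain ⟨a, ha1, ha2⟩ : ∃ a, 25 * a ≤ 3 * (2 * i + 41) + 0 ∧ 3 * (2 * i + 41) + 0 < 25 * a + 25 :=
    ⟨(3 * (2 * i + 41) + 0) / 25, by omega, by omega⟩
  obtain ⟨c, hc⟩ : ∃ c, 2 * i + 41 = 3 * (2 * a + 1) + (2 * c + 0) := ⟨(2 * i + 41 - 3 * (2 * a + 1)) / 2, by omega⟩
  refine S_of_V (X := 5 * i + 109) (K0 := 2 * i + 42) (T0 := 5 * i + 95) (by omega) (K_le hK (by nlinarith)) ?_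
  exact V_cutBn 3 _ (5 * a + 4) (7 * a + 2) _ (5 * c + 2) (7 * c - 2) hc (by omega) (by omega) le_rfl
    (S7_strip _ _ _ _ _ (-3) 20 (by omega) (by omega) (by omega) (by omega) (by omega) (by omega) (by omega) (by omega))
    (S7_strip _ _ _ _ _ (-4) 20 (by omega) (by omega) (by omega) (by omega) (by omega) (by omega) (by omega) (by omega))

theorem S7_n12 (i K : ℕ) (hi : 280 ≤ i)
    (hK : K * (2 * i + 40 + (5 * i + 106)) ≤ (7 * i + 134) * (2 * i + 40 + 5)) :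
    S (5 + 2) (2 * i + 40) K (replicate (7 * i + 134) (T 0 0)) := by
  obtain ⟨a, ha1, ha2⟩ : ∃ a, 8 * a ≤ 1 * (2 * i + 40) + 0 ∧ 1 * (2 * i + 40) + 0 < 8 * a + 8 :=
    ⟨(1 * (2 * i + 40) + 0) / 8, by omega, by omega⟩
  obtain ⟨c, hc⟩ : ∃ c, 2 * i + 40 = 3 * (2 * a + 1) + (2 * c + 1) := ⟨(2 * i + 40 - 3 * (2 * a + 1)) / 2, by omega⟩
  refine S_of_V (X := 5 * i + 106) (K0 := 2 * i + 41) (T0 := 5 * i + 93) (by omega) (K_le hK (by nlinarith)) ?_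
  exact V_cutBn 3 _ (5 * a + 4) (7 * a + 2) _ (5 * c + 4) (7 * c + 2) hc (by omega) (by omega) le_rfl
    (S7_strip _ _ _ _ _ (-3) 19 (by omega) (by omega) (by omega) (by omega) (by omega) (by omega) (by omega) (by omega))
    (S7_strip _ _ _ _ _ (-3) 19 (by omega) (by omega) (by omega) (by omega) (by omega) (by omega) (by omega) (by omega))

theorem S7_n11 (i K : ℕ) (hi : 280 ≤ i)
    (hK : K * (2 * i + 41 + (5 * i + 108)) ≤ (7 * i + 138) * (2 * i + 41 + 5)) :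
    S (5 + 2) (2 * i + 41) K (replicate (7 * i + 138) (T 0 0)) := by
  obtain ⟨a, ha1, ha2⟩ : ∃ a, 8 * a ≤ 1 * (2 * i + 41) + 0 ∧ 1 * (2 * i + 41) + 0 < 8 * a + 8 :=
    ⟨(1 * (2 * i + 41) + 0) / 8, by omega, by omega⟩
  obtain ⟨c, hc⟩ : ∃ c, 2 * i + 41 = 3 * (2 * a + 1) + (2 * c + 0) := ⟨(2 * i + 41 - 3 * (2 * a + 1)) / 2, by omega⟩
  refine S_of_V (X := 5 * i + 108) (K0 := 2 * i + 42) (T0 := 5 * i + 96) (by omega) (K_le hK (by nlinarith)) ?_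
  exact V_cutBn 3 _ (5 * a + 4) (7 * a + 2) _ (5 * c + 1) (7 * c - 1) hc (by omega) (by omega) le_rfl
    (S7_strip _ _ _ _ _ (-3) 18 (by omega) (by omega) (by omega) (by omega) (by omega) (by omega) (by omega) (by omega))
    (S7_strip _ _ _ _ _ (-2) 18 (by omega) (by omega) (by omega) (by omega) (by omega) (by omega) (by omega) (by omega))

theorem S7_n10 (i K : ℕ) (hi : 280 ≤ i)
    (hK : K * (2 * i + 40 + (5 * i + 105)) ≤ (7 * i + 135) * (2 * i + 40 + 5)) :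
    S (5 + 2) (2 * i + 40) K (replicate (7 * i + 135) (T 0 0)) := by
  obtain ⟨a, ha1, ha2⟩ : ∃ a, 10 * a ≤ 1 * (2 * i + 40) + 0 ∧ 1 * (2 * i + 40) + 0 < 10 * a + 10 :=
    ⟨(1 * (2 * i + 40) + 0) / 10, by omega, by omega⟩
  obtain ⟨c, hc⟩ : ∃ c, 2 * i + 40 = 4 * (2 * a + 0) + (2 * c + 0) := ⟨(2 * i + 40 - 4 * (2 * a + 0)) / 2, by omega⟩
  refine S_of_V (X := 5 * i + 105) (K0 := 2 * i + 42) (T0 := 5 * i + 93) (by omega) (K_le hK (by nlinarith)) ?_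
  exact V_cutBn 4 _ (5 * a + 1) (7 * a - 1) _ (5 * c + 1) (7 * c - 1) hc (by omega) (by omega) le_rfl
    (S7_strip _ _ _ _ _ (-2) 24 (by omega) (by omega) (by omega) (by omega) (by omega) (by omega) (by omega) (by omega))
    (S7_strip _ _ _ _ _ (-2) 24 (by omega) (by omega) (by omega) (by omega) (by omega) (by omega) (by omega) (by omega))

theorem S7_n9 (i K : ℕ) (hi : 280 ≤ i)
    (hK : K * (2 * i + 41 + (5 * i + 107)) ≤ (7 * i + 139) * (2 * i + 41 + 5)) :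
    S (5 + 2) (2 * i + 41) K (replicate (7 * i + 139) (T 0 0)) := by
  obtain ⟨a, ha1, ha2⟩ : ∃ a, 8 * a ≤ 1 * (2 * i + 41) + 0 ∧ 1 * (2 * i + 41) + 0 < 8 * a + 8 :=
    ⟨(1 * (2 * i + 41) + 0) / 8, by omega, by omega⟩
  obtain ⟨b, hb1, hb2⟩ : ∃ b, 25 * b ≤ 3 * (2 * i + 41) + 0 ∧ 3 * (2 * i + 41) + 0 < 25 * b + 25 :=
    ⟨(3 * (2 * i + 41) + 0) / 25, by omega, by omega⟩
  obtain ⟨c, hc⟩ : ∃ c, 2 * i + 41 = 1 * (2 * a + 0) + (2 * (2 * b + 0) + (2 * c + 1)) := ⟨(2 * i + 41 - 1 * (2 * a + 0) - 2 * (2 * b + 0)) / 2, by omega⟩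
  refine S_of_V (X := 5 * i + 107) (K0 := 2 * i + 43) (T0 := 5 * i + 96) (by omega) (K_le hK (by nlinarith)) ?_
  exact V_cutBn 1 _ (5 * a + 1) (7 * a - 1) _ (2 * (5 * b + 1) + (5 * c + 4)) (2 * (7 * b - 1) + (7 * c + 2)) hc (by omega) (by omega) le_rfl
    (S7_strip _ _ _ _ _ (-2) 23 (by omega) (by omega) (by omega) (by omega) (by omega) (by omega) (by omega) (by omega))
    (V_cutBn 2 _ _ _ _ _ _ rfl rfl rfl (by omega)
      (S7_strip _ _ _ _ _ (-2) 23 (by omega) (by omega) (by omega) (by omega) (by omega) (by omega) (by omega) (by omega))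
      (S7_strip _ _ _ _ _ (-3) 23 (by omega) (by omega) (by omega) (by omega) (by omega) (by omega) (by omega) (by omega)))

theorem S7_n8 (i K : ℕ) (hi : 280 ≤ i)
    (hK : K * (2 * i + 40 + (5 * i + 104)) ≤ (7 * i + 136) * (2 * i + 40 + 5)) :
    S (5 + 2) (2 * i + 40) K (replicate (7 * i + 136) (T 0 0)) := by
  obtain ⟨a, ha1, ha2⟩ : ∃ a, 8 * a ≤ 1 * (2 * i + 40) + 0 ∧ 1 * (2 * i + 40) + 0 < 8 * a + 8 :=
    ⟨(1 * (2 * i + 40) + 0) / 8, by omega, by omega⟩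
  obtain ⟨c, hc⟩ : ∃ c, 2 * i + 40 = 3 * (2 * a + 0) + (2 * c + 0) := ⟨(2 * i + 40 - 3 * (2 * a + 0)) / 2, by omega⟩
  refine S_of_V (X := 5 * i + 104) (K0 := 2 * i + 42) (T0 := 5 * i + 94) (by omega) (K_le hK (by nlinarith)) ?_
  exact V_cutBn 3 _ (5 * a + 1) (7 * a - 1) _ (5 * c + 1) (7 * c - 1) hc (by omega) (by omega) le_rfl
    (S7_strip _ _ _ _ _ (-2) 22 (by omega) (by omega) (by omega) (by omega) (by omega) (by omega) (by omega) (by omega))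
    (S7_strip _ _ _ _ _ (-2) 22 (by omega) (by omega) (by omega) (by omega) (by omega) (by omega) (by omega) (by omega))

theorem S7_n7 (i K : ℕ) (hi : 280 ≤ i)
    (hK : K * (2 * i + 41 + (5 * i + 106)) ≤ (7 * i + 140) * (2 * i + 41 + 5)) :
    S (5 + 2) (2 * i + 41) K (replicate (7 * i + 140) (T 0 0)) := by
  obtain ⟨a, ha1, ha2⟩ : ∃ a, 8 * a ≤ 1 * (2 * i + 41) + 0 ∧ 1 * (2 * i + 41) + 0 < 8 * a + 8 :=
    ⟨(1 * (2 * i + 41) + 0) / 8, by omega, by omega⟩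
  obtain ⟨c, hc⟩ : ∃ c, 2 * i + 41 = 3 * (2 * a + 0) + (2 * c + 1) := ⟨(2 * i + 41 - 3 * (2 * a + 0)) / 2, by omega⟩
  refine S_of_V (X := 5 * i + 106) (K0 := 2 * i + 43) (T0 := 5 * i + 97) (by omega) (K_le hK (by nlinarith)) ?_
  exact V_cutBn 3 _ (5 * a + 1) (7 * a - 1) _ (5 * c + 3) (7 * c + 3) hc (by omega) (by omega) le_rfl
    (S7_strip _ _ _ _ _ (-2) 21 (by omega) (by omega) (by omega) (by omega) (by omega) (by omega) (by omega) (by omega))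
    (S7_strip _ _ _ _ _ (-1) 21 (by omega) (by omega) (by omega) (by omega) (by omega) (by omega) (by omega) (by omega))

theorem S7_n6 (i K : ℕ) (hi : 280 ≤ i)
    (hK : K * (2 * i + 40 + (5 * i + 103)) ≤ (7 * i + 137) * (2 * i + 40 + 5)) :
    S (5 + 2) (2 * i + 40) K (replicate (7 * i + 137) (T 0 0)) := by
  obtain ⟨a, ha1, ha2⟩ : ∃ a, 7 * a ≤ 1 * (2 * i + 40) + 0 ∧ 1 * (2 * i + 40) + 0 < 7 * a + 7 :=
    ⟨(1 * (2 * i + 40) + 0) / 7, by omega, by omega⟩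
  obtain ⟨b, hb1, hb2⟩ : ∃ b, 9 * b ≤ 1 * (2 * i + 40) + 0 ∧ 1 * (2 * i + 40) + 0 < 9 * b + 9 :=
    ⟨(1 * (2 * i + 40) + 0) / 9, by omega, by omega⟩
  obtain ⟨c, hc⟩ : ∃ c, 2 * i + 40 = 1 * (2 * a + 0) + (2 * (2 * b + 1) + (2 * c + 0)) := ⟨(2 * i + 40 - 1 * (2 * a + 0) - 2 * (2 * b + 1)) / 2, by omega⟩
  refine S_of_V (X := 5 * i + 103) (K0 := 2 * i + 43) (T0 := 5 * i + 94) (by omega) (K_le hK (by nlinarith)) ?_
  exact V_cutBn 1 _ (5 * a + 1) (7 * a - 1) _ (2 * (5 * b + 3) + (5 * c + 1)) (2 * (7 * b + 3) + (7 * c - 1)) hc (by omega) (by omega) le_rfl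
    (S7_strip _ _ _ _ _ (-2) 27 (by omega) (by omega) (by omega) (by omega) (by omega) (by omega) (by omega) (by omega))
    (V_cutBn 2 _ _ _ _ _ _ rfl rfl rfl (by omega)
      (S7_strip _ _ _ _ _ (-1) 27 (by omega) (by omega) (by omega) (by omega) (by omega) (by omega) (by omega) (by omega))
      (S7_strip _ _ _ _ _ (-2) 27 (by omega) (by omega) (by omega) (by omega) (by omega) (by omega) (by omega) (by omega)))

theorem S7_n5 (i K : ℕ) (hi : 280 ≤ i)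
    (hK : K * (2 * i + 41 + (5 * i + 105)) ≤ (7 * i + 141) * (2 * i + 41 + 5)) :
    S (5 + 2) (2 * i + 41) K (replicate (7 * i + 141) (T 0 0)) := by
  obtain ⟨a, ha1, ha2⟩ : ∃ a, 8 * a ≤ 1 * (2 * i + 41) + 0 ∧ 1 * (2 * i + 41) + 0 < 8 * a + 8 :=
    ⟨(1 * (2 * i + 41) + 0) / 8, by omega, by omega⟩
  obtain ⟨c, hc⟩ : ∃ c, 2 * i + 41 = 3 * (2 * a + 1) + (2 * c + 0) := ⟨(2 * i + 41 - 3 * (2 * a + 1)) / 2, by omega⟩
  refine S_of_V (X := 5 * i + 105) (K0 := 2 * i + 44) (T0 := 5 * i + 97) (by omega) (K_le hK (by nlinarith)) ?_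
  exact V_cutBn 3 _ (5 * a + 3) (7 * a + 3) _ (5 * c + 1) (7 * c - 1) hc (by omega) (by omega) le_rfl
    (S7_strip _ _ _ _ _ (-1) 26 (by omega) (by omega) (by omega) (by omega) (by omega) (by omega) (by omega) (by omega))
    (S7_strip _ _ _ _ _ (-2) 26 (by omega) (by omega) (by omega) (by omega) (by omega) (by omega) (by omega) (by omega))

theorem S7_n4 (i K : ℕ) (hi : 280 ≤ i)
    (hK : K * (2 * i + 40 + (5 * i + 102)) ≤ (7 * i + 138) * (2 * i + 40 + 5)) :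
    S (5 + 2) (2 * i + 40) K (replicate (7 * i + 138) (T 0 0)) := by
  obtain ⟨a, ha1, ha2⟩ : ∃ a, 8 * a ≤ 1 * (2 * i + 40) + 0 ∧ 1 * (2 * i + 40) + 0 < 8 * a + 8 :=
    ⟨(1 * (2 * i + 40) + 0) / 8, by omega, by omega⟩
  obtain ⟨c, hc⟩ : ∃ c, 2 * i + 40 = 3 * (2 * a + 1) + (2 * c + 1) := ⟨(2 * i + 40 - 3 * (2 * a + 1)) / 2, by omega⟩
  refine S_of_V (X := 5 * i + 102) (K0 := 2 * i + 43) (T0 := 5 * i + 95) (by omega) (K_le hK (by nlinarith)) ?_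
  exact V_cutBn 3 _ (5 * a + 3) (7 * a + 3) _ (5 * c + 3) (7 * c + 3) hc (by omega) (by omega) le_rfl
    (S7_strip _ _ _ _ _ (-1) 25 (by omega) (by omega) (by omega) (by omega) (by omega) (by omega) (by omega) (by omega))
    (S7_strip _ _ _ _ _ (-1) 25 (by omega) (by omega) (by omega) (by omega) (by omega) (by omega) (by omega) (by omega))

theorem S7_n3 (i K : ℕ) (hi : 280 ≤ i)
    (hK : K * (2 * i + 41 + (5 * i + 104)) ≤ (7 * i + 142) * (2 * i + 41 + 5)) :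
    S (5 + 2) (2 * i + 41) K (replicate (7 * i + 142) (T 0 0)) := by
  obtain ⟨a, ha1, ha2⟩ : ∃ a, 7 * a ≤ 1 * (2 * i + 41) + 0 ∧ 1 * (2 * i + 41) + 0 < 7 * a + 7 :=
    ⟨(1 * (2 * i + 41) + 0) / 7, by omega, by omega⟩
  obtain ⟨c, hc⟩ : ∃ c, 2 * i + 41 = 3 * (2 * a + 1) + (2 * c + 0) := ⟨(2 * i + 41 - 3 * (2 * a + 1)) / 2, by omega⟩
  refine S_of_V (X := 5 * i + 104) (K0 := 2 * i + 45) (T0 := 5 * i + 97) (by omega) (K_le hK (by nlinarith)) ?_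
  exact V_cutBn 3 _ (5 * a + 3) (7 * a + 3) _ (5 * c + 0) (7 * c + 0) hc (by omega) (by omega) le_rfl
    (S7_strip _ _ _ _ _ (-1) 31 (by omega) (by omega) (by omega) (by omega) (by omega) (by omega) (by omega) (by omega))
    (S7_strip _ _ _ _ _ 0 31 (by omega) (by omega) (by omega) (by omega) (by omega) (by omega) (by omega) (by omega))

theorem S7_n2 (i K : ℕ) (hi : 280 ≤ i)
    (hK : K * (2 * i + 40 + (5 * i + 101)) ≤ (7 * i + 139) * (2 * i + 40 + 5)) :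
    S (5 + 2) (2 * i + 40) K (replicate (7 * i + 139) (T 0 0)) := by
  obtain ⟨a, ha1, ha2⟩ : ∃ a, 8 * a ≤ 1 * (2 * i + 40) + 0 ∧ 1 * (2 * i + 40) + 0 < 8 * a + 8 :=
    ⟨(1 * (2 * i + 40) + 0) / 8, by omega, by omega⟩
  obtain ⟨b, hb1, hb2⟩ : ∃ b, 8 * b ≤ 1 * (2 * i + 40) + 0 ∧ 1 * (2 * i + 40) + 0 < 8 * b + 8 :=
    ⟨(1 * (2 * i + 40) + 0) / 8, by omega, by omega⟩
  obtain ⟨c, hc⟩ : ∃ c, 2 * i + 40 = 1 * (2 * a + 1) + (2 * (2 * b + 0) + (2 * c + 1)) := ⟨(2 * i + 40 - 1 * (2 * a + 1) - 2 * (2 * b + 0)) / 2, by omega⟩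
  refine S_of_V (X := 5 * i + 101) (K0 := 2 * i + 44) (T0 := 5 * i + 95) (by omega) (K_le hK (by nlinarith)) ?_
  exact V_cutBn 1 _ (5 * a + 3) (7 * a + 3) _ (2 * (5 * b + 0) + (5 * c + 3)) (2 * (7 * b + 0) + (7 * c + 3)) hc (by omega) (by omega) le_rfl
    (S7_strip _ _ _ _ _ (-1) 30 (by omega) (by omega) (by omega) (by omega) (by omega) (by omega) (by omega) (by omega))
    (V_cutBn 2 _ _ _ _ _ _ rfl rfl rfl (by omega)
      (S7_strip _ _ _ _ _ 0 30 (by omega) (by omega) (by omega) (by omega) (by omega) (by omega) (by omega) (by omega))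
      (S7_strip _ _ _ _ _ (-1) 30 (by omega) (by omega) (by omega) (by omega) (by omega) (by omega) (by omega) (by omega)))

theorem S7_n1 (i K : ℕ) (hi : 280 ≤ i)
    (hK : K * (2 * i + 41 + (5 * i + 103)) ≤ (7 * i + 143) * (2 * i + 41 + 5)) :
    S (5 + 2) (2 * i + 41) K (replicate (7 * i + 143) (T 0 0)) := by
  obtain ⟨a, ha1, ha2⟩ : ∃ a, 8 * a ≤ 1 * (2 * i + 41) + 0 ∧ 1 * (2 * i + 41) + 0 < 8 * a + 8 :=
    ⟨(1 * (2 * i + 41) + 0) / 8, by omega, by omega⟩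
  obtain ⟨c, hc⟩ : ∃ c, 2 * i + 41 = 3 * (2 * a + 0) + (2 * c + 1) := ⟨(2 * i + 41 - 3 * (2 * a + 0)) / 2, by omega⟩
  refine S_of_V (X := 5 * i + 103) (K0 := 2 * i + 45) (T0 := 5 * i + 98) (by omega) (K_le hK (by nlinarith)) ?_
  exact V_cutBn 3 _ (5 * a + 0) (7 * a + 0) _ (5 * c + 3) (7 * c + 3) hc (by omega) (by omega) le_rfl
    (S7_strip _ _ _ _ _ 0 29 (by omega) (by omega) (by omega) (by omega) (by omega) (by omega) (by omega) (by omega))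
    (S7_strip _ _ _ _ _ (-1) 29 (by omega) (by omega) (by omega) (by omega) (by omega) (by omega) (by omega) (by omega))

theorem S7_p0 (i K : ℕ) (hi : 280 ≤ i)
    (hK : K * (2 * i + 40 + (5 * i + 100)) ≤ (7 * i + 140) * (2 * i + 40 + 5)) :
    S (5 + 2) (2 * i + 40) K (replicate (7 * i + 140) (T 0 0)) := by
  obtain ⟨a, ha1, ha2⟩ : ∃ a, 8 * a ≤ 1 * (2 * i + 40) + 0 ∧ 1 * (2 * i + 40) + 0 < 8 * a + 8 :=
    ⟨(1 * (2 * i + 40) + 0) / 8, by omega, by omega⟩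
  obtain ⟨c, hc⟩ : ∃ c, 2 * i + 40 = 3 * (2 * a + 0) + (2 * c + 0) := ⟨(2 * i + 40 - 3 * (2 * a + 0)) / 2, by omega⟩
  refine S_of_V (X := 5 * i + 100) (K0 := 2 * i + 45) (T0 := 5 * i + 95) (by omega) (K_le hK (by nlinarith)) ?_
  exact V_cutBn 3 _ (5 * a + 0) (7 * a + 0) _ (5 * c + 0) (7 * c + 0) hc (by omega) (by omega) le_rfl
    (S7_strip _ _ _ _ _ 0 35 (by omega) (by omega) (by omega) (by omega) (by omega) (by omega) (by omega) (by omega))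
    (S7_strip _ _ _ _ _ 0 35 (by omega) (by omega) (by omega) (by omega) (by omega) (by omega) (by omega) (by omega))

theorem S7_p1 (i K : ℕ) (hi : 280 ≤ i)
    (hK : K * (2 * i + 41 + (5 * i + 102)) ≤ (7 * i + 144) * (2 * i + 41 + 5)) :
    S (5 + 2) (2 * i + 41) K (replicate (7 * i + 144) (T 0 0)) := by
  obtain ⟨a, ha1, ha2⟩ : ∃ a, 8 * a ≤ 1 * (2 * i + 41) + 0 ∧ 1 * (2 * i + 41) + 0 < 8 * a + 8 :=
    ⟨(1 * (2 * i + 41) + 0) / 8, by omega, by omega⟩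
  obtain ⟨c, hc⟩ : ∃ c, 2 * i + 41 = 3 * (2 * a + 0) + (2 * c + 1) := ⟨(2 * i + 41 - 3 * (2 * a + 0)) / 2, by omega⟩
  refine S_of_V (X := 5 * i + 102) (K0 := 2 * i + 46) (T0 := 5 * i + 98) (by omega) (K_le hK (by nlinarith)) ?_
  exact V_cutBn 3 _ (5 * a + 0) (7 * a + 0) _ (5 * c + 2) (7 * c + 4) hc (by omega) (by omega) le_rfl
    (S7_strip _ _ _ _ _ 0 34 (by omega) (by omega) (by omega) (by omega) (by omega) (by omega) (by omega) (by omega))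
    (S7_strip _ _ _ _ _ 1 34 (by omega) (by omega) (by omega) (by omega) (by omega) (by omega) (by omega) (by omega))

theorem S7_p2 (i K : ℕ) (hi : 280 ≤ i)
    (hK : K * (2 * i + 40 + (5 * i + 99)) ≤ (7 * i + 141) * (2 * i + 40 + 5)) :
    S (5 + 2) (2 * i + 40) K (replicate (7 * i + 141) (T 0 0)) := by
  obtain ⟨a, ha1, ha2⟩ : ∃ a, 8 * a ≤ 1 * (2 * i + 40) + 0 ∧ 1 * (2 * i + 40) + 0 < 8 * a + 8 :=
    ⟨(1 * (2 * i + 40) + 0) / 8, by omega, by omega⟩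
  obtain ⟨b, hb1, hb2⟩ : ∃ b, 8 * b ≤ 1 * (2 * i + 40) + 0 ∧ 1 * (2 * i + 40) + 0 < 8 * b + 8 :=
    ⟨(1 * (2 * i + 40) + 0) / 8, by omega, by omega⟩
  obtain ⟨c, hc⟩ : ∃ c, 2 * i + 40 = 1 * (2 * a + 0) + (2 * (2 * b + 1) + (2 * c + 0)) := ⟨(2 * i + 40 - 1 * (2 * a + 0) - 2 * (2 * b + 1)) / 2, by omega⟩
  refine S_of_V (X := 5 * i + 99) (K0 := 2 * i + 45) (T0 := 5 * i + 96) (by omega) (K_le hK (by nlinarith)) ?_
  exact V_cutBn 1 _ (5 * a + 0) (7 * a + 0) _ (2 * (5 * b + 2) + (5 * c + 0)) (2 * (7 * b + 4) + (7 * c + 0)) hc (by omega) (by omega) le_rfl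
    (S7_strip _ _ _ _ _ 0 33 (by omega) (by omega) (by omega) (by omega) (by omega) (by omega) (by omega) (by omega))
    (V_cutBn 2 _ _ _ _ _ _ rfl rfl rfl (by omega)
      (S7_strip _ _ _ _ _ 1 33 (by omega) (by omega) (by omega) (by omega) (by omega) (by omega) (by omega) (by omega))
      (S7_strip _ _ _ _ _ 0 33 (by omega) (by omega) (by omega) (by omega) (by omega) (by omega) (by omega) (by omega)))

theorem S7_p3 (i K : ℕ) (hi : 280 ≤ i)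
    (hK : K * (2 * i + 41 + (5 * i + 101)) ≤ (7 * i + 145) * (2 * i + 41 + 5)) :
    S (5 + 2) (2 * i + 41) K (replicate (7 * i + 145) (T 0 0)) := by
  obtain ⟨a, ha1, ha2⟩ : ∃ a, 8 * a ≤ 1 * (2 * i + 41) + 0 ∧ 1 * (2 * i + 41) + 0 < 8 * a + 8 :=
    ⟨(1 * (2 * i + 41) + 0) / 8, by omega, by omega⟩
  obtain ⟨c, hc⟩ : ∃ c, 2 * i + 41 = 3 * (2 * a + 1) + (2 * c + 0) := ⟨(2 * i + 41 - 3 * (2 * a + 1)) / 2, by omega⟩
  refine S_of_V (X := 5 * i + 101) (K0 := 2 * i + 46) (T0 := 5 * i + 99) (by omega) (K_le hK (by nlinarith)) ?_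
  exact V_cutBn 3 _ (5 * a + 2) (7 * a + 4) _ (5 * c + 0) (7 * c + 0) hc (by omega) (by omega) le_rfl
    (S7_strip _ _ _ _ _ 1 32 (by omega) (by omega) (by omega) (by omega) (by omega) (by omega) (by omega) (by omega))
    (S7_strip _ _ _ _ _ 0 32 (by omega) (by omega) (by omega) (by omega) (by omega) (by omega) (by omega) (by omega))

theorem S7_p4 (i K : ℕ) (hi : 280 ≤ i)
    (hK : K * (2 * i + 40 + (5 * i + 98)) ≤ (7 * i + 142) * (2 * i + 40 + 5)) :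
    S (5 + 2) (2 * i + 40) K (replicate (7 * i + 142) (T 0 0)) := by
  obtain ⟨a, ha1, ha2⟩ : ∃ a, 8 * a ≤ 1 * (2 * i + 40) + 0 ∧ 1 * (2 * i + 40) + 0 < 8 * a + 8 :=
    ⟨(1 * (2 * i + 40) + 0) / 8, by omega, by omega⟩
  obtain ⟨c, hc⟩ : ∃ c, 2 * i + 40 = 3 * (2 * a + 1) + (2 * c + 1) := ⟨(2 * i + 40 - 3 * (2 * a + 1)) / 2, by omega⟩
  refine S_of_V (X := 5 * i + 98) (K0 := 2 * i + 46) (T0 := 5 * i + 96) (by omega) (K_le hK (by nlinarith)) ?_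
  exact V_cutBn 3 _ (5 * a + 2) (7 * a + 4) _ (5 * c + 2) (7 * c + 4) hc (by omega) (by omega) le_rfl
    (S7_strip _ _ _ _ _ 1 38 (by omega) (by omega) (by omega) (by omega) (by omega) (by omega) (by omega) (by omega))
    (S7_strip _ _ _ _ _ 1 38 (by omega) (by omega) (by omega) (by omega) (by omega) (by omega) (by omega) (by omega))

theorem S7_p5 (i K : ℕ) (hi : 280 ≤ i)
    (hK : K * (2 * i + 41 + (5 * i + 100)) ≤ (7 * i + 146) * (2 * i + 41 + 5)) :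
    S (5 + 2) (2 * i + 41) K (replicate (7 * i + 146) (T 0 0)) := by
  obtain ⟨a, ha1, ha2⟩ : ∃ a, 8 * a ≤ 1 * (2 * i + 41) + 0 ∧ 1 * (2 * i + 41) + 0 < 8 * a + 8 :=
    ⟨(1 * (2 * i + 41) + 0) / 8, by omega, by omega⟩
  obtain ⟨c, hc⟩ : ∃ c, 2 * i + 41 = 3 * (2 * a + 1) + (2 * c + 0) := ⟨(2 * i + 41 - 3 * (2 * a + 1)) / 2, by omega⟩
  refine S_of_V (X := 5 * i + 100) (K0 := 2 * i + 47) (T0 := 5 * i + 99) (by omega) (K_le hK (by nlinarith)) ?_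
  exact V_cutBn 3 _ (5 * a + 2) (7 * a + 4) _ (5 * c - 1) (7 * c + 1) hc (by omega) (by omega) le_rfl
    (S7_strip _ _ _ _ _ 1 37 (by omega) (by omega) (by omega) (by omega) (by omega) (by omega) (by omega) (by omega))
    (S7_strip _ _ _ _ _ 2 37 (by omega) (by omega) (by omega) (by omega) (by omega) (by omega) (by omega) (by omega))

theorem S7_p6 (i K : ℕ) (hi : 280 ≤ i)
    (hK : K * (2 * i + 40 + (5 * i + 97)) ≤ (7 * i + 143) * (2 * i + 40 + 5)) :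
    S (5 + 2) (2 * i + 40) K (replicate (7 * i + 143) (T 0 0)) := by
  obtain ⟨a, ha1, ha2⟩ : ∃ a, 8 * a ≤ 1 * (2 * i + 40) + 0 ∧ 1 * (2 * i + 40) + 0 < 8 * a + 8 :=
    ⟨(1 * (2 * i + 40) + 0) / 8, by omega, by omega⟩
  obtain ⟨b, hb1, hb2⟩ : ∃ b, 8 * b ≤ 1 * (2 * i + 40) + 0 ∧ 1 * (2 * i + 40) + 0 < 8 * b + 8 :=
    ⟨(1 * (2 * i + 40) + 0) / 8, by omega, by omega⟩
  obtain ⟨c, hc⟩ : ∃ c, 2 * i + 40 = 1 * (2 * a + 1) + (2 * (2 * b + 0) + (2 * c + 1)) := ⟨(2 * i + 40 - 1 * (2 * a + 1) - 2 * (2 * b + 0)) / 2, by omega⟩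
  refine S_of_V (X := 5 * i + 97) (K0 := 2 * i + 46) (T0 := 5 * i + 97) (by omega) (K_le hK (by nlinarith)) ?_
  exact V_cutBn 1 _ (5 * a + 2) (7 * a + 4) _ (2 * (5 * b - 1) + (5 * c + 2)) (2 * (7 * b + 1) + (7 * c + 4)) hc (by omega) (by omega) le_rfl
    (S7_strip _ _ _ _ _ 1 36 (by omega) (by omega) (by omega) (by omega) (by omega) (by omega) (by omega) (by omega))
    (V_cutBn 2 _ _ _ _ _ _ rfl rfl rfl (by omega)
      (S7_strip _ _ _ _ _ 2 36 (by omega) (by omega) (by omega) (by omega) (by omega) (by omega) (by omega) (by omega))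
      (S7_strip _ _ _ _ _ 1 36 (by omega) (by omega) (by omega) (by omega) (by omega) (by omega) (by omega) (by omega)))

theorem S7_p7 (i K : ℕ) (hi : 280 ≤ i)
    (hK : K * (2 * i + 41 + (5 * i + 99)) ≤ (7 * i + 147) * (2 * i + 41 + 5)) :
    S (5 + 2) (2 * i + 41) K (replicate (7 * i + 147) (T 0 0)) := by
  obtain ⟨a, ha1, ha2⟩ : ∃ a, 7 * a ≤ 1 * (2 * i + 41) + 4 ∧ 1 * (2 * i + 41) + 4 < 7 * a + 7 :=
    ⟨(1 * (2 * i + 41) + 4) / 7, by omega, by omega⟩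
  obtain ⟨c, hc⟩ : ∃ c, 2 * i + 41 = 3 * (2 * a + 0) + (2 * c + 1) := ⟨(2 * i + 41 - 3 * (2 * a + 0)) / 2, by omega⟩
  refine S_of_V (X := 5 * i + 99) (K0 := 2 * i + 48) (T0 := 5 * i + 99) (by omega) (K_le hK (by nlinarith)) ?_
  exact V_cutBn 3 _ (5 * a - 1) (7 * a + 1) _ (5 * c + 2) (7 * c + 4) hc (by omega) (by omega) le_rfl
    (S7_strip _ _ _ _ _ 2 42 (by omega) (by omega) (by omega) (by omega) (by omega) (by omega) (by omega) (by omega))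
    (S7_strip _ _ _ _ _ 1 42 (by omega) (by omega) (by omega) (by omega) (by omega) (by omega) (by omega) (by omega))

theorem S7_p8 (i K : ℕ) (hi : 280 ≤ i)
    (hK : K * (2 * i + 40 + (5 * i + 96)) ≤ (7 * i + 144) * (2 * i + 40 + 5)) :
    S (5 + 2) (2 * i + 40) K (replicate (7 * i + 144) (T 0 0)) := by
  obtain ⟨a, ha1, ha2⟩ : ∃ a, 8 * a ≤ 1 * (2 * i + 40) + 0 ∧ 1 * (2 * i + 40) + 0 < 8 * a + 8 :=
    ⟨(1 * (2 * i + 40) + 0) / 8, by omega, by omega⟩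
  obtain ⟨c, hc⟩ : ∃ c, 2 * i + 40 = 3 * (2 * a + 0) + (2 * c + 0) := ⟨(2 * i + 40 - 3 * (2 * a + 0)) / 2, by omega⟩
  refine S_of_V (X := 5 * i + 96) (K0 := 2 * i + 47) (T0 := 5 * i + 97) (by omega) (K_le hK (by nlinarith)) ?_
  exact V_cutBn 3 _ (5 * a - 1) (7 * a + 1) _ (5 * c - 1) (7 * c + 1) hc (by omega) (by omega) le_rfl
    (S7_strip _ _ _ _ _ 2 41 (by omega) (by omega) (by omega) (by omega) (by omega) (by omega) (by omega) (by omega))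
    (S7_strip _ _ _ _ _ 2 41 (by omega) (by omega) (by omega) (by omega) (by omega) (by omega) (by omega) (by omega))

theorem S7_p9 (i K : ℕ) (hi : 280 ≤ i)
    (hK : K * (2 * i + 41 + (5 * i + 98)) ≤ (7 * i + 148) * (2 * i + 41 + 5)) :
    S (5 + 2) (2 * i + 41) K (replicate (7 * i + 148) (T 0 0)) := by
  obtain ⟨a, ha1, ha2⟩ : ∃ a, 8 * a ≤ 1 * (2 * i + 41) + 0 ∧ 1 * (2 * i + 41) + 0 < 8 * a + 8 :=
    ⟨(1 * (2 * i + 41) + 0) / 8, by omega, by omega⟩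
  obtain ⟨c, hc⟩ : ∃ c, 2 * i + 41 = 3 * (2 * a + 0) + (2 * c + 1) := ⟨(2 * i + 41 - 3 * (2 * a + 0)) / 2, by omega⟩
  refine S_of_V (X := 5 * i + 98) (K0 := 2 * i + 48) (T0 := 5 * i + 100) (by omega) (K_le hK (by nlinarith)) ?_
  exact V_cutBn 3 _ (5 * a - 1) (7 * a + 1) _ (5 * c + 1) (7 * c + 5) hc (by omega) (by omega) le_rfl
    (S7_strip _ _ _ _ _ 2 40 (by omega) (by omega) (by omega) (by omega) (by omega) (by omega) (by omega) (by omega))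
    (S7_strip _ _ _ _ _ 3 40 (by omega) (by omega) (by omega) (by omega) (by omega) (by omega) (by omega) (by omega))

theorem S7_p10 (i K : ℕ) (hi : 280 ≤ i)
    (hK : K * (2 * i + 40 + (5 * i + 95)) ≤ (7 * i + 145) * (2 * i + 40 + 5)) :
    S (5 + 2) (2 * i + 40) K (replicate (7 * i + 145) (T 0 0)) := by
  obtain ⟨a, ha1, ha2⟩ : ∃ a, 10 * a ≤ 1 * (2 * i + 40) + 0 ∧ 1 * (2 * i + 40) + 0 < 10 * a + 10 :=
    ⟨(1 * (2 * i + 40) + 0) / 10, by omega, by omega⟩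
  obtain ⟨c, hc⟩ : ∃ c, 2 * i + 40 = 4 * (2 * a + 0) + (2 * c + 0) := ⟨(2 * i + 40 - 4 * (2 * a + 0)) / 2, by omega⟩
  refine S_of_V (X := 5 * i + 95) (K0 := 2 * i + 47) (T0 := 5 * i + 98) (by omega) (K_le hK (by nlinarith)) ?_
  exact V_cutBn 4 _ (5 * a - 1) (7 * a + 1) _ (5 * c - 1) (7 * c + 1) hc (by omega) (by omega) le_rfl
    (S7_strip _ _ _ _ _ 2 39 (by omega) (by omega) (by omega) (by omega) (by omega) (by omega) (by omega) (by omega))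
    (S7_strip _ _ _ _ _ 2 39 (by omega) (by omega) (by omega) (by omega) (by omega) (by omega) (by omega) (by omega))

theorem S7_p11 (i K : ℕ) (hi : 280 ≤ i)
    (hK : K * (2 * i + 41 + (5 * i + 97)) ≤ (7 * i + 149) * (2 * i + 41 + 5)) :
    S (5 + 2) (2 * i + 41) K (replicate (7 * i + 149) (T 0 0)) := by
  obtain ⟨a, ha1, ha2⟩ : ∃ a, 7 * a ≤ 1 * (2 * i + 41) + 0 ∧ 1 * (2 * i + 41) + 0 < 7 * a + 7 :=
    ⟨(1 * (2 * i + 41) + 0) / 7, by omega, by omega⟩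
  obtain ⟨c, hc⟩ : ∃ c, 2 * i + 41 = 3 * (2 * a + 1) + (2 * c + 0) := ⟨(2 * i + 41 - 3 * (2 * a + 1)) / 2, by omega⟩
  refine S_of_V (X := 5 * i + 97) (K0 := 2 * i + 49) (T0 := 5 * i + 100) (by omega) (K_le hK (by nlinarith)) ?_
  exact V_cutBn 3 _ (5 * a + 1) (7 * a + 5) _ (5 * c - 1) (7 * c + 1) hc (by omega) (by omega) le_rfl
    (S7_strip _ _ _ _ _ 3 45 (by omega) (by omega) (by omega) (by omega) (by omega) (by omega) (by omega) (by omega))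
    (S7_strip _ _ _ _ _ 2 45 (by omega) (by omega) (by omega) (by omega) (by omega) (by omega) (by omega) (by omega))

theorem S7_p12 (i K : ℕ) (hi : 280 ≤ i)
    (hK : K * (2 * i + 40 + (5 * i + 94)) ≤ (7 * i + 146) * (2 * i + 40 + 5)) :
    S (5 + 2) (2 * i + 40) K (replicate (7 * i + 146) (T 0 0)) := by
  obtain ⟨a, ha1, ha2⟩ : ∃ a, 8 * a ≤ 1 * (2 * i + 40) + 0 ∧ 1 * (2 * i + 40) + 0 < 8 * a + 8 :=
    ⟨(1 * (2 * i + 40) + 0) / 8, by omega, by omega⟩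
  obtain ⟨c, hc⟩ : ∃ c, 2 * i + 40 = 3 * (2 * a + 1) + (2 * c + 1) := ⟨(2 * i + 40 - 3 * (2 * a + 1)) / 2, by omega⟩
  refine S_of_V (X := 5 * i + 94) (K0 := 2 * i + 48) (T0 := 5 * i + 98) (by omega) (K_le hK (by nlinarith)) ?_
  exact V_cutBn 3 _ (5 * a + 1) (7 * a + 5) _ (5 * c + 1) (7 * c + 5) hc (by omega) (by omega) le_rfl
    (S7_strip _ _ _ _ _ 3 44 (by omega) (by omega) (by omega) (by omega) (by omega) (by omega) (by omega) (by omega))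
    (S7_strip _ _ _ _ _ 3 44 (by omega) (by omega) (by omega) (by omega) (by omega) (by omega) (by omega) (by omega))

theorem S7_p13 (i K : ℕ) (hi : 280 ≤ i)
    (hK : K * (2 * i + 41 + (5 * i + 96)) ≤ (7 * i + 150) * (2 * i + 41 + 5)) :
    S (5 + 2) (2 * i + 41) K (replicate (7 * i + 150) (T 0 0)) := by
  obtain ⟨a, ha1, ha2⟩ : ∃ a, 8 * a ≤ 1 * (2 * i + 41) + 0 ∧ 1 * (2 * i + 41) + 0 < 8 * a + 8 :=
    ⟨(1 * (2 * i + 41) + 0) / 8, by omega, by omega⟩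
  obtain ⟨c, hc⟩ : ∃ c, 2 * i + 41 = 3 * (2 * a + 1) + (2 * c + 0) := ⟨(2 * i + 41 - 3 * (2 * a + 1)) / 2, by omega⟩
  refine S_of_V (X := 5 * i + 96) (K0 := 2 * i + 49) (T0 := 5 * i + 101) (by omega) (K_le hK (by nlinarith)) ?_
  exact V_cutBn 3 _ (5 * a + 1) (7 * a + 5) _ (5 * c - 2) (7 * c + 2) hc (by omega) (by omega) le_rfl
    (S7_strip _ _ _ _ _ 3 43 (by omega) (by omega) (by omega) (by omega) (by omega) (by omega) (by omega) (by omega))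
    (S7_strip _ _ _ _ _ 4 43 (by omega) (by omega) (by omega) (by omega) (by omega) (by omega) (by omega) (by omega))

theorem S7_p14 (i K : ℕ) (hi : 280 ≤ i)
    (hK : K * (2 * i + 40 + (5 * i + 93)) ≤ (7 * i + 147) * (2 * i + 40 + 5)) :
    S (5 + 2) (2 * i + 40) K (replicate (7 * i + 147) (T 0 0)) := by
  obtain ⟨a, ha1, ha2⟩ : ∃ a, 7 * a ≤ 1 * (2 * i + 40) + 4 ∧ 1 * (2 * i + 40) + 4 < 7 * a + 7 :=
    ⟨(1 * (2 * i + 40) + 4) / 7, by omega, by omega⟩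
  obtain ⟨c, hc⟩ : ∃ c, 2 * i + 40 = 3 * (2 * a + 0) + (2 * c + 0) := ⟨(2 * i + 40 - 3 * (2 * a + 0)) / 2, by omega⟩
  refine S_of_V (X := 5 * i + 93) (K0 := 2 * i + 49) (T0 := 5 * i + 98) (by omega) (K_le hK (by nlinarith)) ?_
  exact V_cutBn 3 _ (5 * a - 2) (7 * a + 2) _ (5 * c - 1) (7 * c + 1) hc (by omega) (by omega) le_rfl
    (S7_strip _ _ _ _ _ 4 49 (by omega) (by omega) (by omega) (by omega) (by omega) (by omega) (by omega) (by omega))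
    (S7_strip _ _ _ _ _ 2 49 (by omega) (by omega) (by omega) (by omega) (by omega) (by omega) (by omega) (by omega))

theorem S7_p15 (i K : ℕ) (hi : 280 ≤ i)
    (hK : K * (2 * i + 41 + (5 * i + 95)) ≤ (7 * i + 151) * (2 * i + 41 + 5)) :
    S (5 + 2) (2 * i + 41) K (replicate (7 * i + 151) (T 0 0)) := by
  obtain ⟨a, ha1, ha2⟩ : ∃ a, 7 * a ≤ 1 * (2 * i + 41) + 0 ∧ 1 * (2 * i + 41) + 0 < 7 * a + 7 :=
    ⟨(1 * (2 * i + 41) + 0) / 7, by omega, by omega⟩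
  obtain ⟨c, hc⟩ : ∃ c, 2 * i + 41 = 3 * (2 * a + 0) + (2 * c + 1) := ⟨(2 * i + 41 - 3 * (2 * a + 0)) / 2, by omega⟩
  refine S_of_V (X := 5 * i + 95) (K0 := 2 * i + 50) (T0 := 5 * i + 101) (by omega) (K_le hK (by nlinarith)) ?_
  exact V_cutBn 3 _ (5 * a - 2) (7 * a + 2) _ (5 * c + 1) (7 * c + 5) hc (by omega) (by omega) le_rfl
    (S7_strip _ _ _ _ _ 4 48 (by omega) (by omega) (by omega) (by omega) (by omega) (by omega) (by omega) (by omega))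
    (S7_strip _ _ _ _ _ 3 48 (by omega) (by omega) (by omega) (by omega) (by omega) (by omega) (by omega) (by omega))

theorem S7_p16 (i K : ℕ) (hi : 280 ≤ i)
    (hK : K * (2 * i + 40 + (5 * i + 92)) ≤ (7 * i + 148) * (2 * i + 40 + 5)) :
    S (5 + 2) (2 * i + 40) K (replicate (7 * i + 148) (T 0 0)) := by
  obtain ⟨a, ha1, ha2⟩ : ∃ a, 8 * a ≤ 1 * (2 * i + 40) + 0 ∧ 1 * (2 * i + 40) + 0 < 8 * a + 8 :=
    ⟨(1 * (2 * i + 40) + 0) / 8, by omega, by omega⟩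
  obtain ⟨c, hc⟩ : ∃ c, 2 * i + 40 = 3 * (2 * a + 0) + (2 * c + 0) := ⟨(2 * i + 40 - 3 * (2 * a + 0)) / 2, by omega⟩
  refine S_of_V (X := 5 * i + 92) (K0 := 2 * i + 49) (T0 := 5 * i + 99) (by omega) (K_le hK (by nlinarith)) ?_
  exact V_cutBn 3 _ (5 * a - 2) (7 * a + 2) _ (5 * c - 2) (7 * c + 2) hc (by omega) (by omega) le_rfl
    (S7_strip _ _ _ _ _ 4 47 (by omega) (by omega) (by omega) (by omega) (by omega) (by omega) (by omega) (by omega))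
    (S7_strip _ _ _ _ _ 4 47 (by omega) (by omega) (by omega) (by omega) (by omega) (by omega) (by omega) (by omega))

theorem S7_p17 (i K : ℕ) (hi : 280 ≤ i)
    (hK : K * (2 * i + 41 + (5 * i + 94)) ≤ (7 * i + 152) * (2 * i + 41 + 5)) :
    S (5 + 2) (2 * i + 41) K (replicate (7 * i + 152) (T 0 0)) := by
  obtain ⟨a, ha1, ha2⟩ : ∃ a, 8 * a ≤ 1 * (2 * i + 41) + 0 ∧ 1 * (2 * i + 41) + 0 < 8 * a + 8 :=
    ⟨(1 * (2 * i + 41) + 0) / 8, by omega, by omega⟩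
  obtain ⟨c, hc⟩ : ∃ c, 2 * i + 41 = 3 * (2 * a + 0) + (2 * c + 1) := ⟨(2 * i + 41 - 3 * (2 * a + 0)) / 2, by omega⟩
  refine S_of_V (X := 5 * i + 94) (K0 := 2 * i + 50) (T0 := 5 * i + 102) (by omega) (K_le hK (by nlinarith)) ?_
  exact V_cutBn 3 _ (5 * a - 2) (7 * a + 2) _ (5 * c + 0) (7 * c + 6) hc (by omega) (by omega) le_rfl
    (S7_strip _ _ _ _ _ 4 46 (by omega) (by omega) (by omega) (by omega) (by omega) (by omega) (by omega) (by omega))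
    (S7_strip _ _ _ _ _ 5 46 (by omega) (by omega) (by omega) (by omega) (by omega) (by omega) (by omega) (by omega))

theorem S7_p18 (i K : ℕ) (hi : 280 ≤ i)
    (hK : K * (2 * i + 40 + (5 * i + 91)) ≤ (7 * i + 149) * (2 * i + 40 + 5)) :
    S (5 + 2) (2 * i + 40) K (replicate (7 * i + 149) (T 0 0)) := by
  obtain ⟨a, ha1, ha2⟩ : ∃ a, 10 * a ≤ 1 * (2 * i + 40) + 0 ∧ 1 * (2 * i + 40) + 0 < 10 * a + 10 :=
    ⟨(1 * (2 * i + 40) + 0) / 10, by omega, by omega⟩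
  obtain ⟨b, hb1, hb2⟩ : ∃ b, 7 * b ≤ 1 * (2 * i + 40) + 0 ∧ 1 * (2 * i + 40) + 0 < 7 * b + 7 :=
    ⟨(1 * (2 * i + 40) + 0) / 7, by omega, by omega⟩
  obtain ⟨c, hc⟩ : ∃ c, 2 * i + 40 = 1 * (2 * a + 0) + (2 * (2 * b + 1) + (2 * c + 0)) := ⟨(2 * i + 40 - 1 * (2 * a + 0) - 2 * (2 * b + 1)) / 2, by omega⟩
  refine S_of_V (X := 5 * i + 91) (K0 := 2 * i + 50) (T0 := 5 * i + 99) (by omega) (K_le hK (by nlinarith)) ?_
  exact V_cutBn 1 _ (5 * a - 2) (7 * a + 2) _ (2 * (5 * b + 0) + (5 * c - 2)) (2 * (7 * b + 6) + (7 * c + 2)) hc (by omega) (by omega) le_rfl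
    (S7_strip _ _ _ _ _ 4 52 (by omega) (by omega) (by omega) (by omega) (by omega) (by omega) (by omega) (by omega))
    (V_cutBn 2 _ _ _ _ _ _ rfl rfl rfl (by omega)
      (S7_strip _ _ _ _ _ 5 52 (by omega) (by omega) (by omega) (by omega) (by omega) (by omega) (by omega) (by omega))
      (S7_strip _ _ _ _ _ 4 52 (by omega) (by omega) (by omega) (by omega) (by omega) (by omega) (by omega) (by omega)))

theorem S7_p19 (i K : ℕ) (hi : 280 ≤ i)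
    (hK : K * (2 * i + 41 + (5 * i + 93)) ≤ (7 * i + 153) * (2 * i + 41 + 5)) :
    S (5 + 2) (2 * i + 41) K (replicate (7 * i + 153) (T 0 0)) := by
  obtain ⟨a, ha1, ha2⟩ : ∃ a, 8 * a ≤ 1 * (2 * i + 41) + 0 ∧ 1 * (2 * i + 41) + 0 < 8 * a + 8 :=
    ⟨(1 * (2 * i + 41) + 0) / 8, by omega, by omega⟩
  obtain ⟨c, hc⟩ : ∃ c, 2 * i + 41 = 3 * (2 * a + 1) + (2 * c + 0) := ⟨(2 * i + 41 - 3 * (2 * a + 1)) / 2, by omega⟩
  refine S_of_V (X := 5 * i + 93) (K0 := 2 * i + 51) (T0 := 5 * i + 102) (by omega) (K_le hK (by nlinarith)) ?_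
  exact V_cutBn 3 _ (5 * a + 0) (7 * a + 6) _ (5 * c - 2) (7 * c + 2) hc (by omega) (by omega) le_rfl
    (S7_strip _ _ _ _ _ 5 51 (by omega) (by omega) (by omega) (by omega) (by omega) (by omega) (by omega) (by omega))
    (S7_strip _ _ _ _ _ 4 51 (by omega) (by omega) (by omega) (by omega) (by omega) (by omega) (by omega) (by omega))

theorem S7_p20 (i K : ℕ) (hi : 280 ≤ i)
    (hK : K * (2 * i + 40 + (5 * i + 90)) ≤ (7 * i + 150) * (2 * i + 40 + 5)) :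
    S (5 + 2) (2 * i + 40) K (replicate (7 * i + 150) (T 0 0)) := by
  obtain ⟨a, ha1, ha2⟩ : ∃ a, 8 * a ≤ 1 * (2 * i + 40) + 0 ∧ 1 * (2 * i + 40) + 0 < 8 * a + 8 :=
    ⟨(1 * (2 * i + 40) + 0) / 8, by omega, by omega⟩
  obtain ⟨c, hc⟩ : ∃ c, 2 * i + 40 = 3 * (2 * a + 1) + (2 * c + 1) := ⟨(2 * i + 40 - 3 * (2 * a + 1)) / 2, by omega⟩
  refine S_of_V (X := 5 * i + 90) (K0 := 2 * i + 50) (T0 := 5 * i + 100) (by omega) (K_le hK (by nlinarith)) ?_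
  exact V_cutBn 3 _ (5 * a + 0) (7 * a + 6) _ (5 * c + 0) (7 * c + 6) hc (by omega) (by omega) le_rfl
    (S7_strip _ _ _ _ _ 5 50 (by omega) (by omega) (by omega) (by omega) (by omega) (by omega) (by omega) (by omega))
    (S7_strip _ _ _ _ _ 5 50 (by omega) (by omega) (by omega) (by omega) (by omega) (by omega) (by omega) (by omega))

theorem S7_p21 (i K : ℕ) (hi : 280 ≤ i)
    (hK : K * (2 * i + 41 + (5 * i + 92)) ≤ (7 * i + 154) * (2 * i + 41 + 5)) :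
    S (5 + 2) (2 * i + 41) K (replicate (7 * i + 154) (T 0 0)) := by
  obtain ⟨a, ha1, ha2⟩ : ∃ a, 7 * a ≤ 1 * (2 * i + 41) + 4 ∧ 1 * (2 * i + 41) + 4 < 7 * a + 7 :=
    ⟨(1 * (2 * i + 41) + 4) / 7, by omega, by omega⟩
  obtain ⟨c, hc⟩ : ∃ c, 2 * i + 41 = 3 * (2 * a + 0) + (2 * c + 1) := ⟨(2 * i + 41 - 3 * (2 * a + 0)) / 2, by omega⟩
  refine S_of_V (X := 5 * i + 92) (K0 := 2 * i + 52) (T0 := 5 * i + 102) (by omega) (K_le hK (by nlinarith)) ?_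
  exact V_cutBn 3 _ (5 * a - 3) (7 * a + 3) _ (5 * c + 1) (7 * c + 5) hc (by omega) (by omega) le_rfl
    (S7_strip _ _ _ _ _ 6 56 (by omega) (by omega) (by omega) (by omega) (by omega) (by omega) (by omega) (by omega))
    (S7_strip _ _ _ _ _ 3 56 (by omega) (by omega) (by omega) (by omega) (by omega) (by omega) (by omega) (by omega))

theorem S7_p22 (i K : ℕ) (hi : 280 ≤ i)
    (hK : K * (2 * i + 40 + (5 * i + 89)) ≤ (7 * i + 151) * (2 * i + 40 + 5)) :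
    S (5 + 2) (2 * i + 40) K (replicate (7 * i + 151) (T 0 0)) := by
  obtain ⟨a, ha1, ha2⟩ : ∃ a, 8 * a ≤ 1 * (2 * i + 40) + 0 ∧ 1 * (2 * i + 40) + 0 < 8 * a + 8 :=
    ⟨(1 * (2 * i + 40) + 0) / 8, by omega, by omega⟩
  obtain ⟨b, hb1, hb2⟩ : ∃ b, 8 * b ≤ 1 * (2 * i + 40) + 0 ∧ 1 * (2 * i + 40) + 0 < 8 * b + 8 :=
    ⟨(1 * (2 * i + 40) + 0) / 8, by omega, by omega⟩
  obtain ⟨c, hc⟩ : ∃ c, 2 * i + 40 = 1 * (2 * a + 1) + (2 * (2 * b + 0) + (2 * c + 1)) := ⟨(2 * i + 40 - 1 * (2 * a + 1) - 2 * (2 * b + 0)) / 2, by omega⟩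
  refine S_of_V (X := 5 * i + 89) (K0 := 2 * i + 51) (T0 := 5 * i + 100) (by omega) (K_le hK (by nlinarith)) ?_
  exact V_cutBn 1 _ (5 * a + 0) (7 * a + 6) _ (2 * (5 * b - 3) + (5 * c + 0)) (2 * (7 * b + 3) + (7 * c + 6)) hc (by omega) (by omega) le_rfl
    (S7_strip _ _ _ _ _ 5 55 (by omega) (by omega) (by omega) (by omega) (by omega) (by omega) (by omega) (by omega))
    (V_cutBn 2 _ _ _ _ _ _ rfl rfl rfl (by omega)
      (S7_strip _ _ _ _ _ 6 55 (by omega) (by omega) (by omega) (by omega) (by omega) (by omega) (by omega) (by omega))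
      (S7_strip _ _ _ _ _ 5 55 (by omega) (by omega) (by omega) (by omega) (by omega) (by omega) (by omega) (by omega)))

theorem S7_p23 (i K : ℕ) (hi : 280 ≤ i)
    (hK : K * (2 * i + 41 + (5 * i + 91)) ≤ (7 * i + 155) * (2 * i + 41 + 5)) :
    S (5 + 2) (2 * i + 41) K (replicate (7 * i + 155) (T 0 0)) := by
  obtain ⟨a, ha1, ha2⟩ : ∃ a, 8 * a ≤ 1 * (2 * i + 41) + 0 ∧ 1 * (2 * i + 41) + 0 < 8 * a + 8 :=
    ⟨(1 * (2 * i + 41) + 0) / 8, by omega, by omega⟩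
  obtain ⟨c, hc⟩ : ∃ c, 2 * i + 41 = 3 * (2 * a + 0) + (2 * c + 1) := ⟨(2 * i + 41 - 3 * (2 * a + 0)) / 2, by omega⟩
  refine S_of_V (X := 5 * i + 91) (K0 := 2 * i + 52) (T0 := 5 * i + 103) (by omega) (K_le hK (by nlinarith)) ?_
  exact V_cutBn 3 _ (5 * a - 3) (7 * a + 3) _ (5 * c + 0) (7 * c + 6) hc (by omega) (by omega) le_rfl
    (S7_strip _ _ _ _ _ 6 54 (by omega) (by omega) (by omega) (by omega) (by omega) (by omega) (by omega) (by omega))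
    (S7_strip _ _ _ _ _ 5 54 (by omega) (by omega) (by omega) (by omega) (by omega) (by omega) (by omega) (by omega))

theorem S7_p24 (i K : ℕ) (hi : 280 ≤ i)
    (hK : K * (2 * i + 40 + (5 * i + 88)) ≤ (7 * i + 152) * (2 * i + 40 + 5)) :
    S (5 + 2) (2 * i + 40) K (replicate (7 * i + 152) (T 0 0)) := by
  obtain ⟨a, ha1, ha2⟩ : ∃ a, 8 * a ≤ 1 * (2 * i + 40) + 0 ∧ 1 * (2 * i + 40) + 0 < 8 * a + 8 :=
    ⟨(1 * (2 * i + 40) + 0) / 8, by omega, by omega⟩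
  obtain ⟨c, hc⟩ : ∃ c, 2 * i + 40 = 3 * (2 * a + 0) + (2 * c + 0) := ⟨(2 * i + 40 - 3 * (2 * a + 0)) / 2, by omega⟩
  refine S_of_V (X := 5 * i + 88) (K0 := 2 * i + 51) (T0 := 5 * i + 101) (by omega) (K_le hK (by nlinarith)) ?_
  exact V_cutBn 3 _ (5 * a - 3) (7 * a + 3) _ (5 * c - 3) (7 * c + 3) hc (by omega) (by omega) le_rfl
    (S7_strip _ _ _ _ _ 6 53 (by omega) (by omega) (by omega) (by omega) (by omega) (by omega) (by omega) (by omega))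
    (S7_strip _ _ _ _ _ 6 53 (by omega) (by omega) (by omega) (by omega) (by omega) (by omega) (by omega) (by omega))

theorem S7_p25 (i K : ℕ) (hi : 280 ≤ i)
    (hK : K * (2 * i + 41 + (5 * i + 90)) ≤ (7 * i + 156) * (2 * i + 41 + 5)) :
    S (5 + 2) (2 * i + 41) K (replicate (7 * i + 156) (T 0 0)) := by
  obtain ⟨a, ha1, ha2⟩ : ∃ a, 8 * a ≤ 1 * (2 * i + 41) + 0 ∧ 1 * (2 * i + 41) + 0 < 8 * a + 8 :=
    ⟨(1 * (2 * i + 41) + 0) / 8, by omega, by omega⟩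
  obtain ⟨c, hc⟩ : ∃ c, 2 * i + 41 = 3 * (2 * a + 0) + (2 * c + 1) := ⟨(2 * i + 41 - 3 * (2 * a + 0)) / 2, by omega⟩
  refine S_of_V (X := 5 * i + 90) (K0 := 2 * i + 53) (T0 := 5 * i + 103) (by omega) (K_le hK (by nlinarith)) ?_
  exact V_cutBn 3 _ (5 * a - 3) (7 * a + 3) _ (5 * c - 1) (7 * c + 7) hc (by omega) (by omega) le_rfl
    (S7_strip _ _ _ _ _ 6 59 (by omega) (by omega) (by omega) (by omega) (by omega) (by omega) (by omega) (by omega))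
    (S7_strip _ _ _ _ _ 7 59 (by omega) (by omega) (by omega) (by omega) (by omega) (by omega) (by omega) (by omega))

theorem S7_p26 (i K : ℕ) (hi : 280 ≤ i)
    (hK : K * (2 * i + 40 + (5 * i + 87)) ≤ (7 * i + 153) * (2 * i + 40 + 5)) :
    S (5 + 2) (2 * i + 40) K (replicate (7 * i + 153) (T 0 0)) := by
  obtain ⟨a, ha1, ha2⟩ : ∃ a, 8 * a ≤ 1 * (2 * i + 40) + 0 ∧ 1 * (2 * i + 40) + 0 < 8 * a + 8 :=
    ⟨(1 * (2 * i + 40) + 0) / 8, by omega, by omega⟩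
  obtain ⟨b, hb1, hb2⟩ : ∃ b, 8 * b ≤ 1 * (2 * i + 40) + 0 ∧ 1 * (2 * i + 40) + 0 < 8 * b + 8 :=
    ⟨(1 * (2 * i + 40) + 0) / 8, by omega, by omega⟩
  obtain ⟨c, hc⟩ : ∃ c, 2 * i + 40 = 1 * (2 * a + 0) + (2 * (2 * b + 1) + (2 * c + 0)) := ⟨(2 * i + 40 - 1 * (2 * a + 0) - 2 * (2 * b + 1)) / 2, by omega⟩
  refine S_of_V (X := 5 * i + 87) (K0 := 2 * i + 52) (T0 := 5 * i + 101) (by omega) (K_le hK (by nlinarith)) ?_
  exact V_cutBn 1 _ (5 * a - 3) (7 * a + 3) _ (2 * (5 * b - 1) + (5 * c - 3)) (2 * (7 * b + 7) + (7 * c + 3)) hc (by omega) (by omega) le_rfl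
    (S7_strip _ _ _ _ _ 6 58 (by omega) (by omega) (by omega) (by omega) (by omega) (by omega) (by omega) (by omega))
    (V_cutBn 2 _ _ _ _ _ _ rfl rfl rfl (by omega)
      (S7_strip _ _ _ _ _ 7 58 (by omega) (by omega) (by omega) (by omega) (by omega) (by omega) (by omega) (by omega))
      (S7_strip _ _ _ _ _ 6 58 (by omega) (by omega) (by omega) (by omega) (by omega) (by omega) (by omega) (by omega)))

theorem S7_p27 (i K : ℕ) (hi : 280 ≤ i)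
    (hK : K * (2 * i + 41 + (5 * i + 89)) ≤ (7 * i + 157) * (2 * i + 41 + 5)) :
    S (5 + 2) (2 * i + 41) K (replicate (7 * i + 157) (T 0 0)) := by
  obtain ⟨a, ha1, ha2⟩ : ∃ a, 8 * a ≤ 1 * (2 * i + 41) + 0 ∧ 1 * (2 * i + 41) + 0 < 8 * a + 8 :=
    ⟨(1 * (2 * i + 41) + 0) / 8, by omega, by omega⟩
  obtain ⟨c, hc⟩ : ∃ c, 2 * i + 41 = 3 * (2 * a + 1) + (2 * c + 0) := ⟨(2 * i + 41 - 3 * (2 * a + 1)) / 2, by omega⟩
  refine S_of_V (X := 5 * i + 89) (K0 := 2 * i + 53) (T0 := 5 * i + 104) (by omega) (K_le hK (by nlinarith)) ?_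
  exact V_cutBn 3 _ (5 * a - 1) (7 * a + 7) _ (5 * c - 3) (7 * c + 3) hc (by omega) (by omega) le_rfl
    (S7_strip _ _ _ _ _ 7 57 (by omega) (by omega) (by omega) (by omega) (by omega) (by omega) (by omega) (by omega))
    (S7_strip _ _ _ _ _ 6 57 (by omega) (by omega) (by omega) (by omega) (by omega) (by omega) (by omega) (by omega))

theorem S7_p28 (i K : ℕ) (hi : 280 ≤ i)
    (hK : K * (2 * i + 40 + (5 * i + 86)) ≤ (7 * i + 154) * (2 * i + 40 + 5)) :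
    S (5 + 2) (2 * i + 40) K (replicate (7 * i + 154) (T 0 0)) := by
  obtain ⟨a, ha1, ha2⟩ : ∃ a, 8 * a ≤ 1 * (2 * i + 40) + 0 ∧ 1 * (2 * i + 40) + 0 < 8 * a + 8 :=
    ⟨(1 * (2 * i + 40) + 0) / 8, by omega, by omega⟩
  obtain ⟨c, hc⟩ : ∃ c, 2 * i + 40 = 3 * (2 * a + 1) + (2 * c + 1) := ⟨(2 * i + 40 - 3 * (2 * a + 1)) / 2, by omega⟩
  refine S_of_V (X := 5 * i + 86) (K0 := 2 * i + 53) (T0 := 5 * i + 101) (by omega) (K_le hK (by nlinarith)) ?_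
  exact V_cutBn 3 _ (5 * a - 1) (7 * a + 7) _ (5 * c - 1) (7 * c + 7) hc (by omega) (by omega) le_rfl
    (S7_strip _ _ _ _ _ 7 63 (by omega) (by omega) (by omega) (by omega) (by omega) (by omega) (by omega) (by omega))
    (S7_strip _ _ _ _ _ 7 63 (by omega) (by omega) (by omega) (by omega) (by omega) (by omega) (by omega) (by omega))

theorem S7_p29 (i K : ℕ) (hi : 280 ≤ i)
    (hK : K * (2 * i + 41 + (5 * i + 88)) ≤ (7 * i + 158) * (2 * i + 41 + 5)) :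
    S (5 + 2) (2 * i + 41) K (replicate (7 * i + 158) (T 0 0)) := by
  obtain ⟨a, ha1, ha2⟩ : ∃ a, 8 * a ≤ 1 * (2 * i + 41) + 0 ∧ 1 * (2 * i + 41) + 0 < 8 * a + 8 :=
    ⟨(1 * (2 * i + 41) + 0) / 8, by omega, by omega⟩
  obtain ⟨c, hc⟩ : ∃ c, 2 * i + 41 = 3 * (2 * a + 1) + (2 * c + 0) := ⟨(2 * i + 41 - 3 * (2 * a + 1)) / 2, by omega⟩
  refine S_of_V (X := 5 * i + 88) (K0 := 2 * i + 54) (T0 := 5 * i + 104) (by omega) (K_le hK (by nlinarith)) ?_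
  exact V_cutBn 3 _ (5 * a - 1) (7 * a + 7) _ (5 * c - 4) (7 * c + 4) hc (by omega) (by omega) le_rfl
    (S7_strip _ _ _ _ _ 7 62 (by omega) (by omega) (by omega) (by omega) (by omega) (by omega) (by omega) (by omega))
    (S7_strip _ _ _ _ _ 8 62 (by omega) (by omega) (by omega) (by omega) (by omega) (by omega) (by omega) (by omega))

theorem S7_p30 (i K : ℕ) (hi : 280 ≤ i)
    (hK : K * (2 * i + 40 + (5 * i + 85)) ≤ (7 * i + 155) * (2 * i + 40 + 5)) :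
    S (5 + 2) (2 * i + 40) K (replicate (7 * i + 155) (T 0 0)) := by
  obtain ⟨a, ha1, ha2⟩ : ∃ a, 10 * a ≤ 1 * (2 * i + 40) + 0 ∧ 1 * (2 * i + 40) + 0 < 10 * a + 10 :=
    ⟨(1 * (2 * i + 40) + 0) / 10, by omega, by omega⟩
  obtain ⟨c, hc⟩ : ∃ c, 2 * i + 40 = 4 * (2 * a + 0) + (2 * c + 0) := ⟨(2 * i + 40 - 4 * (2 * a + 0)) / 2, by omega⟩
  refine S_of_V (X := 5 * i + 85) (K0 := 2 * i + 53) (T0 := 5 * i + 102) (by omega) (K_le hK (by nlinarith)) ?_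
  exact V_cutBn 4 _ (5 * a - 3) (7 * a + 3) _ (5 * c - 3) (7 * c + 3) hc (by omega) (by omega) le_rfl
    (S7_strip _ _ _ _ _ 6 61 (by omega) (by omega) (by omega) (by omega) (by omega) (by omega) (by omega) (by omega))
    (S7_strip _ _ _ _ _ 6 61 (by omega) (by omega) (by omega) (by omega) (by omega) (by omega) (by omega) (by omega))

theorem S7_p31 (i K : ℕ) (hi : 280 ≤ i)
    (hK : K * (2 * i + 41 + (5 * i + 87)) ≤ (7 * i + 159) * (2 * i + 41 + 5)) :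
    S (5 + 2) (2 * i + 41) K (replicate (7 * i + 159) (T 0 0)) := by
  obtain ⟨a, ha1, ha2⟩ : ∃ a, 8 * a ≤ 1 * (2 * i + 41) + 0 ∧ 1 * (2 * i + 41) + 0 < 8 * a + 8 :=
    ⟨(1 * (2 * i + 41) + 0) / 8, by omega, by omega⟩
  obtain ⟨c, hc⟩ : ∃ c, 2 * i + 41 = 3 * (2 * a + 0) + (2 * c + 1) := ⟨(2 * i + 41 - 3 * (2 * a + 0)) / 2, by omega⟩
  refine S_of_V (X := 5 * i + 87) (K0 := 2 * i + 54) (T0 := 5 * i + 105) (by omega) (K_le hK (by nlinarith)) ?_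
  exact V_cutBn 3 _ (5 * a - 4) (7 * a + 4) _ (5 * c - 1) (7 * c + 7) hc (by omega) (by omega) le_rfl
    (S7_strip _ _ _ _ _ 8 60 (by omega) (by omega) (by omega) (by omega) (by omega) (by omega) (by omega) (by omega))
    (S7_strip _ _ _ _ _ 7 60 (by omega) (by omega) (by omega) (by omega) (by omega) (by omega) (by omega) (by omega))

theorem S7_p32 (i K : ℕ) (hi : 280 ≤ i)
    (hK : K * (2 * i + 40 + (5 * i + 84)) ≤ (7 * i + 156) * (2 * i + 40 + 5)) :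
    S (5 + 2) (2 * i + 40) K (replicate (7 * i + 156) (T 0 0)) := by
  obtain ⟨a, ha1, ha2⟩ : ∃ a, 8 * a ≤ 1 * (2 * i + 40) + 0 ∧ 1 * (2 * i + 40) + 0 < 8 * a + 8 :=
    ⟨(1 * (2 * i + 40) + 0) / 8, by omega, by omega⟩
  obtain ⟨c, hc⟩ : ∃ c, 2 * i + 40 = 3 * (2 * a + 0) + (2 * c + 0) := ⟨(2 * i + 40 - 3 * (2 * a + 0)) / 2, by omega⟩
  refine S_of_V (X := 5 * i + 84) (K0 := 2 * i + 54) (T0 := 5 * i + 102) (by omega) (K_le hK (by nlinarith)) ?_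
  exact V_cutBn 3 _ (5 * a - 4) (7 * a + 4) _ (5 * c - 4) (7 * c + 4) hc (by omega) (by omega) le_rfl
    (S7_strip _ _ _ _ _ 8 66 (by omega) (by omega) (by omega) (by omega) (by omega) (by omega) (by omega) (by omega))
    (S7_strip _ _ _ _ _ 8 66 (by omega) (by omega) (by omega) (by omega) (by omega) (by omega) (by omega) (by omega))

theorem S7_p33 (i K : ℕ) (hi : 280 ≤ i)
    (hK : K * (2 * i + 41 + (5 * i + 86)) ≤ (7 * i + 160) * (2 * i + 41 + 5)) :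
    S (5 + 2) (2 * i + 41) K (replicate (7 * i + 160) (T 0 0)) := by
  obtain ⟨a, ha1, ha2⟩ : ∃ a, 8 * a ≤ 1 * (2 * i + 41) + 0 ∧ 1 * (2 * i + 41) + 0 < 8 * a + 8 :=
    ⟨(1 * (2 * i + 41) + 0) / 8, by omega, by omega⟩
  obtain ⟨c, hc⟩ : ∃ c, 2 * i + 41 = 3 * (2 * a + 0) + (2 * c + 1) := ⟨(2 * i + 41 - 3 * (2 * a + 0)) / 2, by omega⟩
  refine S_of_V (X := 5 * i + 86) (K0 := 2 * i + 55) (T0 := 5 * i + 105) (by omega) (K_le hK (by nlinarith)) ?_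
  exact V_cutBn 3 _ (5 * a - 4) (7 * a + 4) _ (5 * c - 2) (7 * c + 8) hc (by omega) (by omega) le_rfl
    (S7_strip _ _ _ _ _ 8 65 (by omega) (by omega) (by omega) (by omega) (by omega) (by omega) (by omega) (by omega))
    (S7_strip _ _ _ _ _ 9 65 (by omega) (by omega) (by omega) (by omega) (by omega) (by omega) (by omega) (by omega))

theorem S7_p34 (i K : ℕ) (hi : 280 ≤ i)
    (hK : K * (2 * i + 40 + (5 * i + 83)) ≤ (7 * i + 157) * (2 * i + 40 + 5)) :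
    S (5 + 2) (2 * i + 40) K (replicate (7 * i + 157) (T 0 0)) := by
  obtain ⟨a, ha1, ha2⟩ : ∃ a, 8 * a ≤ 1 * (2 * i + 40) + 0 ∧ 1 * (2 * i + 40) + 0 < 8 * a + 8 :=
    ⟨(1 * (2 * i + 40) + 0) / 8, by omega, by omega⟩
  obtain ⟨b, hb1, hb2⟩ : ∃ b, 8 * b ≤ 1 * (2 * i + 40) + 0 ∧ 1 * (2 * i + 40) + 0 < 8 * b + 8 :=
    ⟨(1 * (2 * i + 40) + 0) / 8, by omega, by omega⟩
  obtain ⟨c, hc⟩ : ∃ c, 2 * i + 40 = 1 * (2 * a + 0) + (2 * (2 * b + 1) + (2 * c + 0)) := ⟨(2 * i + 40 - 1 * (2 * a + 0) - 2 * (2 * b + 1)) / 2, by omega⟩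
  refine S_of_V (X := 5 * i + 83) (K0 := 2 * i + 54) (T0 := 5 * i + 103) (by omega) (K_le hK (by nlinarith)) ?_
  exact V_cutBn 1 _ (5 * a - 4) (7 * a + 4) _ (2 * (5 * b - 2) + (5 * c - 4)) (2 * (7 * b + 8) + (7 * c + 4)) hc (by omega) (by omega) le_rfl
    (S7_strip _ _ _ _ _ 8 64 (by omega) (by omega) (by omega) (by omega) (by omega) (by omega) (by omega) (by omega))
    (V_cutBn 2 _ _ _ _ _ _ rfl rfl rfl (by omega)
      (S7_strip _ _ _ _ _ 9 64 (by omega) (by omega) (by omega) (by omega) (by omega) (by omega) (by omega) (by omega))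
      (S7_strip _ _ _ _ _ 8 64 (by omega) (by omega) (by omega) (by omega) (by omega) (by omega) (by omega) (by omega)))

theorem S7_Zd (J X r K : ℕ) (hJ : 600 ≤ J) (h1 : 5 * J ≤ 2 * X + 34) (h2 : 2 * X ≤ 5 * J + 17)
    (hr : r + X = 6 * J) (hK : K * (J + X) ≤ r * (J + 5)) : S 7 J K (replicate r (T 0 0)) := by
  obtain ⟨i, hi⟩ : ∃ i, J = 2 * i + 40 ∨ J = 2 * i + 41 := ⟨J / 2 - 20, by omega⟩
  rcases hi with rfl | rfl
  · have h : X = 5 * i + 108 ∨ X = 5 * i + 107 ∨ X = 5 * i + 106 ∨ X = 5 * i + 105 ∨ X = 5 * i + 104 ∨ X = 5 * i + 103 ∨ X = 5 * i + 102 ∨ X = 5 * i + 101 ∨ X = 5 * i + 100 ∨ X = 5 * i + 99 ∨ X = 5 * i + 98 ∨ X = 5 * i + 97 ∨ X = 5 * i + 96 ∨ X = 5 * i + 95 ∨ X = 5 * i + 94 ∨ X = 5 * i + 93 ∨ X = 5 * i + 92 ∨ X = 5 * i + 91 ∨ X = 5 * i + 90 ∨ X = 5 * i + 89 ∨ X = 5 * i + 88 ∨ X = 5 * i + 87 ∨ X = 5 * i + 86 ∨ X = 5 * i + 85 ∨ X = 5 * i + 84 ∨ X = 5 * i + 83 :=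 by omega
    rcases h with rfl | rfl | rfl | rfl | rfl | rfl | rfl | rfl | rfl | rfl | rfl | rfl | rfl | rfl | rfl | rfl | rfl | rfl | rfl | rfl | rfl | rfl | rfl | rfl | rfl | rfl
    · obtain rfl : r = 7 * i + 132 := by omega
      exact S7_n16 i K (by omega) hK
    · obtain rfl : r = 7 * i + 133 := by omega
      exact S7_n14 i K (by omega) hK
    · obtain rfl : r = 7 * i + 134 := by omega
      exact S7_n12 i K (by omega) hK
    · obtain rfl : r = 7 * i + 135 := by omega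
      exact S7_n10 i K (by omega) hK
    · obtain rfl : r = 7 * i + 136 := by omega
      exact S7_n8 i K (by omega) hK
    · obtain rfl : r = 7 * i + 137 := by omega
      exact S7_n6 i K (by omega) hK
    · obtain rfl : r = 7 * i + 138 := by omega
      exact S7_n4 i K (by omega) hK
    · obtain rfl : r = 7 * i + 139 := by omega
      exact S7_n2 i K (by omega) hK
    · obtain rfl : r = 7 * i + 140 := by omega
      exact S7_p0 i K (by omega) hK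
    · obtain rfl : r = 7 * i + 141 := by omega
      exact S7_p2 i K (by omega) hK
    · obtain rfl : r = 7 * i + 142 := by omega
      exact S7_p4 i K (by omega) hK
    · obtain rfl : r = 7 * i + 143 := by omega
      exact S7_p6 i K (by omega) hK
    · obtain rfl : r = 7 * i + 144 := by omega
      exact S7_p8 i K (by omega) hK
    · obtain rfl : r = 7 * i + 145 := by omega
      exact S7_p10 i K (by omega) hK
    · obtain rfl : r = 7 * i + 146 := by omega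
      exact S7_p12 i K (by omega) hK
    · obtain rfl : r = 7 * i + 147 := by omega
      exact S7_p14 i K (by omega) hK
    · obtain rfl : r = 7 * i + 148 := by omega
      exact S7_p16 i K (by omega) hK
    · obtain rfl : r = 7 * i + 149 := by omega
      exact S7_p18 i K (by omega) hK
    · obtain rfl : r = 7 * i + 150 := by omega
      exact S7_p20 i K (by omega) hK
    · obtain rfl : r = 7 * i + 151 := by omega
      exact S7_p22 i K (by omega) hK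
    · obtain rfl : r = 7 * i + 152 := by omega
      exact S7_p24 i K (by omega) hK
    · obtain rfl : r = 7 * i + 153 := by omega
      exact S7_p26 i K (by omega) hK
    · obtain rfl : r = 7 * i + 154 := by omega
      exact S7_p28 i K (by omega) hK
    · obtain rfl : r = 7 * i + 155 := by omega
      exact S7_p30 i K (by omega) hK
    · obtain rfl : r = 7 * i + 156 := by omega
      exact S7_p32 i K (by omega) hK
    · obtain rfl : r = 7 * i + 157 := by omega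
      exact S7_p34 i K (by omega) hK
  · have h : X = 5 * i + 111 ∨ X = 5 * i + 110 ∨ X = 5 * i + 109 ∨ X = 5 * i + 108 ∨ X = 5 * i + 107 ∨ X = 5 * i + 106 ∨ X = 5 * i + 105 ∨ X = 5 * i + 104 ∨ X = 5 * i + 103 ∨ X = 5 * i + 102 ∨ X = 5 * i + 101 ∨ X = 5 * i + 100 ∨ X = 5 * i + 99 ∨ X = 5 * i + 98 ∨ X = 5 * i + 97 ∨ X = 5 * i + 96 ∨ X = 5 * i + 95 ∨ X = 5 * i + 94 ∨ X = 5 * i + 93 ∨ X = 5 * i + 92 ∨ X = 5 * i + 91 ∨ X = 5 * i + 90 ∨ X = 5 * i + 89 ∨ X = 5 * i + 88 ∨ X = 5 * i + 87 ∨ X = 5 * i + 86 := by omega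
    rcases h with rfl | rfl | rfl | rfl | rfl | rfl | rfl | rfl | rfl | rfl | rfl | rfl | rfl | rfl | rfl | rfl | rfl | rfl | rfl | rfl | rfl | rfl | rfl | rfl | rfl | rfl
    · obtain rfl : r = 7 * i + 135 := by omega
      exact S7_n17 i K (by omega) hK
    · obtain rfl : r = 7 * i + 136 := by omega
      exact S7_n15 i K (by omega) hK
    · obtain rfl : r = 7 * i + 137 := by omega
      exact S7_n13 i K (by omega) hK
    · obtain rfl : r = 7 * i + 138 := by omega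
      exact S7_n11 i K (by omega) hK
    · obtain rfl : r = 7 * i + 139 := by omega
      exact S7_n9 i K (by omega) hK
    · obtain rfl : r = 7 * i + 140 := by omega
      exact S7_n7 i K (by omega) hK
    · obtain rfl : r = 7 * i + 141 := by omega
      exact S7_n5 i K (by omega) hK
    · obtain rfl : r = 7 * i + 142 := by omega
      exact S7_n3 i K (by omega) hK
    · obtain rfl : r = 7 * i + 143 := by omega
      exact S7_n1 i K (by omega) hK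
    · obtain rfl : r = 7 * i + 144 := by omega
      exact S7_p1 i K (by omega) hK
    · obtain rfl : r = 7 * i + 145 := by omega
      exact S7_p3 i K (by omega) hK
    · obtain rfl : r = 7 * i + 146 := by omega
      exact S7_p5 i K (by omega) hK
    · obtain rfl : r = 7 * i + 147 := by omega
      exact S7_p7 i K (by omega) hK
    · obtain rfl : r = 7 * i + 148 := by omega
      exact S7_p9 i K (by omega) hK
    · obtain rfl : r = 7 * i + 149 := by omega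
      exact S7_p11 i K (by omega) hK
    · obtain rfl : r = 7 * i + 150 := by omega
      exact S7_p13 i K (by omega) hK
    · obtain rfl : r = 7 * i + 151 := by omega
      exact S7_p15 i K (by omega) hK
    · obtain rfl : r = 7 * i + 152 := by omega
      exact S7_p17 i K (by omega) hK
    · obtain rfl : r = 7 * i + 153 := by omega
      exact S7_p19 i K (by omega) hK
    · obtain rfl : r = 7 * i + 154 := by omega
      exact S7_p21 i K (by omega) hK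
    · obtain rfl : r = 7 * i + 155 := by omega
      exact S7_p23 i K (by omega) hK
    · obtain rfl : r = 7 * i + 156 := by omega
      exact S7_p25 i K (by omega) hK
    · obtain rfl : r = 7 * i + 157 := by omega
      exact S7_p27 i K (by omega) hK
    · obtain rfl : r = 7 * i + 158 := by omega
      exact S7_p29 i K (by omega) hK
    · obtain rfl : r = 7 * i + 159 := by omega
      exact S7_p31 i K (by omega) hK
    · obtain rfl : r = 7 * i + 160 := by omega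
      exact S7_p33 i K (by omega) hK

end Pool.Agent.Work.MP_f4b644_ag.Thin
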