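import Pool.Agent.Work.MP_f4b644_ag.Thin.S6Zd
import Pool.Agent.Work.MP_f4b644_ag.Thin.S7Zd
import Pool.Agent.Work.MP_f4b644_ag.Thin.S6M
import Pool.Agent.Work.MP_f4b644_ag.Thin.S7M
import Pool.Agent.Work.MP_f4b644_ag.Dag.Lem2

/-!
First dimension 6 and 7, the formats near the diagonal.
-/

set_option autoImplicit false

namespace Pool.Agent.Work.MP_f4b644_ag.Thin

open Big Multiset Big.Gad

theorem root6_diag (J r : ℕ) (hJ : 320 ≤ J) (h1 : 4 * r ≤ 13 * J) (h2 : 3 * J ≤ r + 5) :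
    Dag.Root 6 J r := by
  intro K hK _
  obtain ⟨X, hX⟩ : ∃ X, r + X = 5 * J := ⟨5 * J - r, by omega⟩
  rw [show 6 * J - r = J + X by omega, show J + 6 - 2 = J + 4 by omega] at hK
  by_cases c : 2 * J ≤ X + 17
  · exact S6_Zd J X r K hJ c (by omega) hX hK
  obtain ⟨ω, rfl⟩ : ∃ ω, X = ω + 4 := ⟨X - 4, by omega⟩
  obtain ⟨L, hL⟩ : ∃ L, ω + 4 + L = 2 * J := ⟨2 * J - (ω + 4), by omega⟩
  exact S_tau 4 J ω r K 1 (2 * L) (by omega) hX (by omega)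
    (by rwa [show J + 4 + ω = J + (ω + 4) by omega]) (tau4M J L ω hJ (by omega) (by omega) hL)
    (fun k Tt h _ => fin4 J L ω k Tt hJ (by omega) (by omega) hL h)

theorem root7_diag (J r : ℕ) (hJ : 600 ≤ J) (h1 : 4 * r ≤ 15 * J) (h2 : 7 * J ≤ 2 * r + 17) :
    Dag.Root 7 J r := by
  intro K hK _
  obtain ⟨X, hX⟩ : ∃ X, r + X = 6 * J := ⟨6 * J - r, by omega⟩
  rw [show 7 * J - r = J + X by omega, show J + 7 - 2 = J + 5 by omega] at hK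
  by_cases c : 5 * J ≤ 2 * X + 34
  · exact S7_Zd J X r K hJ c (by omega) hX hK
  obtain ⟨ω, rfl⟩ : ∃ ω, X = ω + 5 := ⟨X - 5, by omega⟩
  obtain ⟨Z, hZ⟩ : ∃ Z, 2 * (ω + 5) + Z = 5 * J := ⟨5 * J - 2 * (ω + 5), by omega⟩
  exact S_tau 5 J ω r K 1 Z (by omega) hX (by omega)
    (by rwa [show J + 5 + ω = J + (ω + 5) by omega]) (tau5M J Z ω hJ (by omega) (by omega) hZ)
    (fun k Tt h _ => fin5 J Z ω k Tt hJ (by omega) (by omega) hZ h)

end Pool.Agent.Work.MP_f4b644_ag.Thin
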