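import Pool.Agent.Work.MP_f4b644_ag.Thin.Blocks

/-!
General m, the blocks with X = ω + m ≤ J. τ = J + m, d = J - X, δ = d + 2 m = τ - ω, t = k - Tt. From h3, h4: Tt ≤ k, 1 ≤ Tt,
τ t ≤ δ k < τ (t + 1), δ Tt < ω t + τ; the dimension count hD is h3.

`blkW0c` (2 k ≥ τ, ω ≥ 2 m + 8): `V_B2` with a = d / (2 m), so 2 m a ≤ d < 2 m (a + 1). 2 (t + 1) ≥ δ (so t ≥ m - 1), t ≤ δ.
F1: t ≤ m m (a + 1) (a = 0: δ < 4 m; a ≥ 1: δ ≤ 2 d ≤ 4 m (a + 1)). F2a, F2b follow from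
m m k (a + 1) + t (m a + k) ≤ t (m J + d): 2 m (a + 1) ≤ δ gives 2 m m k (a + 1) ≤ m δ k ≤ m τ (t + 1), and
m τ (t + 1) ≤ 2 t ((m - 1) J - m) because (m - 1) (t + 1) ≤ m t and m m τ ≤ 2 (m - 1) ((m - 1) J - m).
hX2 is m Tt a + m k ≤ t ω. Multiply by 2 δ: 2 m a δ Tt ≤ d (ω t + τ), 2 m δ k ≤ 2 m τ (t + 1); it remains
τ (δ + 2 m t) ≤ ω t (δ + 2 m), which for ω = τ - δ is δ times τ ≤ t (ω - 2 m); this follows from
2 t ≥ δ - 2 and (δ - 4) (ω - 2 m - 2) ≥ 4 m + 8.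
-/

set_option autoImplicit false

namespace Pool.Agent.Work.MP_f4b644_ag.Thin

open Big Multiset Big.Gad

theorem W0c_F2 (m J d k a t : ℕ) (hm : 4 ≤ m) (hJ : 3 * m + 50 ≤ J) (hk : k ≤ J + m) (ht : m ≤ t)
    (ha : 2 * m * a ≤ d) (h : (d + 2 * m) * k ≤ (J + m) * (t + 1)) :
    m * m * (k * (a + 1)) + t * (m * a + k) ≤ t * (m * J + d) := by
  obtain ⟨n, rfl⟩ : ∃ n, m = n + 4 := ⟨m - 4, by omega⟩
  have h1 : (n + 4) * k * (2 * (n + 4) * a) ≤ (n + 4) * k * d := Nat.mul_le_mul_left _ ha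
  have h2 := Nat.mul_le_mul_left (n + 4) h
  have h3 : (J + (n + 4)) * (n + 4) ≤ (J + (n + 4)) * t := Nat.mul_le_mul_left _ ht
  have h4 : (3 * (n + 4) + 50) * (n + 1) ≤ J * (n + 1) := Nat.mul_le_mul_right _ hJ
  have h5 : (J + (n + 4)) * (n + 5) + 2 * (J + (n + 4)) ≤ 2 * ((n + 4) * J) := by nlinarith
  have h6 := Nat.mul_le_mul_left t h5
  have h7 := Nat.mul_le_mul_left t hk
  have h8 := Nat.mul_le_mul_left t ha
  have h9 := Nat.zero_le (t * d)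
  nlinarith

theorem W0c_X2 (m ω d k T a t : ℕ) (hm : 4 ≤ m) (h1 : 2 * m + 8 ≤ ω) (ht : m ≤ t)
    (ht2 : d + 2 * m ≤ 2 * t + 1) (ha : 2 * m * a ≤ d)
    (h : (d + 2 * m) * k ≤ (ω + m + d + m) * (t + 1))
    (h' : (d + 2 * m) * T ≤ ω * t + (ω + m + d + m)) : m * (T * a + k + t) ≤ t * (ω + m) := by
  have h2 : ω + m + d + m + 2 * m * t ≤ ω * t := by
    obtain ⟨e, rfl⟩ : ∃ e, ω = 2 * m + 8 + e := ⟨ω - (2 * m + 8), by omega⟩
    have : e * 1 ≤ e * t := Nat.mul_le_mul_left _ (by omega)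
    nlinarith
  refine Nat.le_of_mul_le_mul_left (c := 2 * (d + 2 * m)) ?_ (by omega)
  have h3 := Nat.mul_le_mul ha h'
  have h4 := Nat.mul_le_mul_left (2 * m) h
  have h5 := Nat.mul_le_mul_left (d + 2 * m) h2
  nlinarith

theorem blkW0c (m J ω k Tt : ℕ) (hm : 4 ≤ m) (hJ : 3 * m + 50 ≤ J) (h1 : 2 * m + 8 ≤ ω) (h2 : ω + m ≤ J)
    (hk1 : J + m ≤ 2 * k) (hk : k ≤ J + m) (h3 : ω * k ≤ (J + m) * Tt)
    (h4 : (J + m) * Tt < ω * k + (J + m)) : V m J (ω + m) k Tt (k + Tt) 0 0 0 := by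
  have hT : Tt ≤ k := by
    have h5 : ω * k ≤ (J + m) * k := Nat.mul_le_mul_right _ (by omega)
    have h6 : (J + m) * Tt < (J + m) * (k + 1) := by linarith
    exact Nat.lt_succ_iff.1 (lt_of_mul_lt_mul_left h6 (Nat.zero_le _))
  have hT1 : 1 ≤ Tt := by
    rcases Nat.eq_zero_or_pos Tt with h | h
    · have h5 : 0 < ω * k := Nat.mul_pos (by omega) (by omega)
      rw [h] at h3
      omega
    · exact h
  obtain ⟨t, rfl⟩ : ∃ t, k = Tt + t := ⟨k - Tt, by omega⟩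
  obtain ⟨d, rfl⟩ : ∃ d, J = ω + m + d := ⟨J - (ω + m), by omega⟩
  have e1 : (ω + m + d + m) * t ≤ (d + 2 * m) * (Tt + t) := by linarith
  have e2 : (d + 2 * m) * (Tt + t) < (ω + m + d + m) * (t + 1) := by linarith
  have e3 : (d + 2 * m) * Tt ≤ ω * t + (ω + m + d + m) := by linarith
  have e4 : d + 2 * m < 2 * (t + 1) := by
    have h5 := Nat.mul_le_mul_left (d + 2 * m) hk1
    refine lt_of_mul_lt_mul_left (a := ω + m + d + m) ?_ (Nat.zero_le _)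
    linarith
  have e5 : t ≤ d + 2 * m := by
    have h5 := Nat.mul_le_mul_left (d + 2 * m) hk
    refine Nat.le_of_mul_le_mul_left (c := ω + m + d + m) ?_ (by omega)
    linarith
  have ht : m ≤ t := by omega
  have a1 : 2 * m * (d / (2 * m)) ≤ d := Nat.mul_div_le _ _
  have a2 : d < 2 * m * (d / (2 * m) + 1) := Nat.lt_mul_div_succ _ (by omega)
  generalize d / (2 * m) = a at a1 a2
  have f2 := W0c_F2 m _ d _ a t hm hJ hk ht a1 e2.le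
  refine V_B2 m _ _ _ Tt a d t (by omega) rfl rfl hT1 (by omega) (by linarith [Nat.zero_le (m * a)])
    ?_ ?_ ?_ (W0c_X2 m ω d _ Tt a t hm h1 ht (by omega) a1 e2.le e3) (by linarith)
  · have h5 : 4 * (m * (a + 1)) ≤ m * (m * (a + 1)) := Nat.mul_le_mul_right _ hm
    have h6 : t ≤ m * (m * (a + 1)) := by linarith [Nat.zero_le (m * a)]
    have h7 := Nat.mul_le_mul_left (Tt + t) h6
    linarith [Nat.zero_le (m * (a * t))]
  · linarith [Nat.zero_le (m * m * t)]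
  · linarith [Nat.zero_le (t * t)]

end Pool.Agent.Work.MP_f4b644_ag.Thin
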