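import Pool.Agent.Work.MP_f4b644_ag.Thin.W0a
import Pool.Agent.Work.MP_f4b644_ag.Thin.W0c
import Pool.Agent.Work.MP_f4b644_ag.Dag.Lem2

/-!
All roots with X = ω + m ≤ J, ω > m, for J ≥ 3 m + 50.
-/

set_option autoImplicit false

namespace Pool.Agent.Work.MP_f4b644_ag.Thin

open Big Multiset Big.Gad

theorem blkW0 (m J ω k Tt : ℕ) (hm : 4 ≤ m) (hJ : 3 * m + 50 ≤ J) (h1 : m + 1 ≤ ω) (h2 : ω + m ≤ J)
    (hk1 : 1 ≤ k) (hk : k ≤ J + m) (h3 : ω * k ≤ (J + m) * Tt) (h4 : (J + m) * Tt < ω * k + (J + m)) :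
    V m J (ω + m) k Tt (k + Tt) 0 0 0 := by
  by_cases c1 : 2 * k < J + m
  · exact blkW0a m J ω k Tt hm hJ h1 h2 hk1 c1 h3 h4
  by_cases c2 : ω ≤ 2 * m + 7
  · exact blkW0b m J ω k Tt hm hJ h1 c2 (by omega) hk h3 h4
  · exact blkW0c m J ω k Tt hm hJ (by omega) h2 (by omega) hk h3 h4

/-- a root follows from the blocks with at most J + m columns -/
theorem root_of_blk (m J ω r : ℕ) (hm : 1 ≤ m) (hr : r + (J + m + ω) = (m + 2) * J)
    (H : ∀ k Tt, 1 ≤ k → k ≤ J + m → k + Tt ≤ r % (J + m + ω) ∨ k = J + m → ω * k ≤ (J + m) * Tt →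
      (J + m) * Tt < ω * k + (J + m) → V m J (ω + m) k Tt (k + Tt) 0 0 0) :
    Dag.Root (m + 2) J r := by
  intro K hK _
  rw [show (m + 2) * J - r = J + m + ω by omega, show J + (m + 2) - 2 = J + m by omega] at hK
  have hv : 0 < J + m + ω := by omega
  have hB := Nat.mod_lt r hv
  refine S_tau m J ω r K (r / (J + m + ω)) (r % (J + m + ω)) hm (by nlinarith)
    (by rw [mul_comm]; exact (Nat.div_add_mod r _).symm) hK
    (H _ _ (by omega) le_rfl (Or.inr rfl) (mul_comm _ _).le (by rw [mul_comm]; omega))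
    (fun k Tt h hk => H k Tt hk ?_ (Or.inl h.2.2.2.2) h.2.2.1 h.2.2.2.1)
  have h1 : k * (J + m + ω) ≤ (J + m) * (J + m + ω) :=
    h.1.trans (by rw [mul_comm]; exact Nat.mul_le_mul_left _ hB.le)
  exact Nat.le_of_mul_le_mul_right h1 hv

theorem root_w0 (m J ω r : ℕ) (hm : 4 ≤ m) (hJ : 3 * m + 50 ≤ J) (h1 : m + 1 ≤ ω) (h2 : ω + m ≤ J)
    (hr : r + (J + m + ω) = (m + 2) * J) : Dag.Root (m + 2) J r :=
  root_of_blk m J ω r (by omega) hr (fun k Tt hk1 hk _ h3 h4 => blkW0 m J ω k Tt hm hJ h1 h2 hk1 hk h3 h4)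

end Pool.Agent.Work.MP_f4b644_ag.Thin
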