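import Pool.Agent.Work.MP_f4b644_ag.Thin.VDefs
import Pool.Agent.Work.MP_f4b644_ag.Thin.Swap
import Pool.Agent.Work.MP_f4b644_ag.Big.Levels

/-!
The cut of a part into n blocks.

`PV_cut`: generalise to states with G further groups CP 2 (block b then sees G + p + h - u b groups) and use
induction on n, cutting off one block (`Finset.sum_range_succ'` or `sum_range_succ`) by `S.splitC`. A block with
a = u b takes a1 = min a p tangents from the pairs (`ruleC_TT 0`: the other tangent becomes a single T 1 0 of the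
rest) and a - a1 from the singles (`ruleC_T 1`: the rest sees CP 2); the other pairs and singles are CP 2 for the
block (`ruleC_TT'`, `ruleC_T`). For the rest p + h is unchanged if a ≤ p, and otherwise p = 0 and h is the sum of the
remaining u, so the bound u b ≤ p + h persists. For n = 1 the hypotheses force p = 0. The same for the tokens
(`ruleC_PBt 0`, `ruleC_PB'`, `ruleC_BP`).
`PV_blocks`: for b < n define e b as the number in [g, g + m) with e b + j * T b ≡ k b * X + u b mod m, s b as the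
quotient, and the values at n as the remainders; apply `PV_cut` with n + 1 blocks.
-/

set_option autoImplicit false

namespace Pool.Agent.Work.MP_f4b644_ag.Thin

open Big Multiset Big.Gad

theorem L2_take (a p h : ℕ) (ha : a ≤ p + h) :
    ∃ a1 a2 p1 h1 : ℕ, a = a1 + a2 ∧ p = a1 + p1 ∧ h = a2 + h1 ∧ (a2 = 0 ∨ p1 = 0) := by
  by_cases hp : a ≤ p
  · exact ⟨a, 0, p - a, h, by omega, by omega, by omega, Or.inl rfl⟩
  · exact ⟨p, a - p, 0, h - (a - p), by omega, by omega, by omega, Or.inr rfl⟩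

theorem L2_le (u : ℕ → ℕ) {n b : ℕ} (hb : b < n) : u b ≤ ∑ i ∈ Finset.range n, u i :=
  Finset.single_le_sum (f := u) (fun _ _ => Nat.zero_le _) (Finset.mem_range.2 hb)

theorem L2_ind {I j : ℕ} (k t u c e g f : ℕ → ℕ) (n : ℕ) : ∀ p h p' h' G F : ℕ,
    (∀ b < n, u b ≤ p + h) → ∑ b ∈ Finset.range n, u b = 2 * p + h →
    (∀ b < n, e b ≤ p' + h') → ∑ b ∈ Finset.range n, e b = 2 * p' + h' →
    (∀ b < n, g b + u b = G + p + h) → (∀ b < n, f b + t b = F + ∑ b ∈ Finset.range n, t b) →
    (∀ b < n, BS I j (k b) (t b) (u b) (c b) (e b) (g b) (f b)) →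
    S I j (∑ b ∈ Finset.range n, k b) (replicate (∑ b ∈ Finset.range n, t b) (T 0 0) +
      replicate h (T 1 0) + replicate p (TT 0) + replicate (∑ b ∈ Finset.range n, c b) (BP 0) +
      replicate h' (BP 1) + replicate p' (PB 0 true) + replicate G (CP 2) + replicate F (CP 1)) := by
  induction n with
  | zero =>
    intro p h p' h' G F _ _ _ _ _ _ _
    exact S_zeroC _ _ _
  | succ n ih =>
    intro p h p' h' G F h1 h2 h3 h4 h5 h6 h7
    simp only [Finset.sum_range_succ] at h2 h4 h6 ⊢
    obtain ⟨u1, u2, p1, w1, a1, a2, a3, a4⟩ := L2_take _ _ _ (h1 n n.lt_succ_self)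
    obtain ⟨e1, e2, q1, v1, b1, b2, b3, b4⟩ := L2_take _ _ _ (h3 n n.lt_succ_self)
    have hrec := ih p1 (u1 + w1) q1 (e1 + v1) (G + u2) (F + t n)
      (fun b hb => by
        have := h1 b (by omega)
        have := L2_le u hb
        omega) (by omega)
      (fun b hb => by
        have := h3 b (by omega)
        have := L2_le e hb
        omega) (by omega)
      (fun b hb => by
        have := h5 b (by omega)
        omega)
      (fun b hb => by
        have := h6 b (by omega)
        omega)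
      fun b hb => h7 b (by omega)
    have hb := h7 n n.lt_succ_self
    have f1 : g n = G + p1 + w1 := by
      have := h5 n n.lt_succ_self
      omega
    have f2 : f n = F + ∑ b ∈ Finset.range n, t b := by
      have := h6 n n.lt_succ_self
      omega
    rw [BS, f1, f2, a1, b1] at hb
    have r0 : Rule Dir.C (T 0 0) (T 0 0) (CP 1) := ruleC_T 0
    have r1 : Rule Dir.C (T 1 0) (T 1 0) (CP 2) := ruleC_T 1
    have r2 : Rule Dir.C (TT 0) (T 1 0) (T 1 0) := ruleC_TT 0
    have r3 : Rule Dir.C (TT 0) (TT 0) (CP 2) := ruleC_TT' 0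
    have r4 : Rule Dir.C (PB 0 true) (BP 1) (BP 1) := ruleC_PBt 0
    have hs := (((((((((((((Spl.rep r0 (∑ b ∈ Finset.range n, t b)).add (Spl.rep r0.symm (t n))).add
      (Spl.rep r2 u1)).add (Spl.rep r3 p1)).add (Spl.rep r1.symm u2)).add (Spl.rep r1 w1)).add
      (Spl.repL (ruleC_BP 0) (∑ b ∈ Finset.range n, c b))).add
      (Spl.repR (ruleC_BP 0).symm (c n))).add (Spl.rep r4 e1)).add
      (Spl.repL (ruleC_PB' 0 true) q1)).add (Spl.repR (ruleC_BP 1).symm e2)).add
      (Spl.repL (ruleC_BP 1) v1)).add (Spl.rep (ruleC_CP 2) G)).add (Spl.rep (ruleC_CP 1) F)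
    refine S.splitC (hs.of_eq ?_ ?_ ?_) hrec hb
    · rw [a2, a3, b2, b3]
      simp only [replicate_add]
      abel
    · simp only [replicate_add]
      abel
    · simp only [replicate_add]
      abel

theorem PV_cut {m j X p h p' h' : ℕ} (n : ℕ) (hn : 1 ≤ n) (k Tt s u e : ℕ → ℕ)
    (hu : ∀ b < n, u b ≤ p + h) (hu' : ∑ b ∈ Finset.range n, u b = 2 * p + h)
    (he : ∀ b < n, e b ≤ p' + h') (he' : ∑ b ∈ Finset.range n, e b = 2 * p' + h')
    (H : ∀ b < n, V m j X (k b) (Tt b) (s b) (u b) (e b) (p + h - u b))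
    (hC : ∑ b ∈ Finset.range n, s b + h + X ≤ (m + 1) * j) :
    PV m j X (∑ b ∈ Finset.range n, k b) (∑ b ∈ Finset.range n, Tt b) (∑ b ∈ Finset.range n, s b)
      h h' p p' := by
  have _ := hn
  have e1 : ∑ b ∈ Finset.range n, (s b - u b) + ∑ b ∈ Finset.range n, u b =
      ∑ b ∈ Finset.range n, s b := by
    rw [← Finset.sum_add_distrib]
    exact Finset.sum_congr rfl fun b hb => Nat.sub_add_cancel (H b (Finset.mem_range.1 hb)).1
  have e2 : ∑ b ∈ Finset.range n, (k b + Tt b - s b - e b) + ∑ b ∈ Finset.range n, s b +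
      ∑ b ∈ Finset.range n, e b = ∑ b ∈ Finset.range n, k b + ∑ b ∈ Finset.range n, Tt b := by
    simp only [← Finset.sum_add_distrib]
    refine Finset.sum_congr rfl fun b hb => ?_
    have := (H b (Finset.mem_range.1 hb)).2.1
    omega
  have h1 := L2_ind (I := m + 2) (j := j) k (fun b => s b - u b) u (fun b => k b + Tt b - s b - e b) e
    (fun b => p + h - u b) (fun b => (m + 1) * j - X - s b - u b - 2 * (p + h - u b)) n p h p' h' 0
    ((m + 1) * j - X - ∑ b ∈ Finset.range n, s b - h) hu hu' he he'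
    (fun b hb => by
      have := hu b hb
      omega)
    (fun b hb => by
      have := hu b hb
      have := (H b hb).1
      have := (H b hb).2.2.1
      omega)
    fun b hb => (H b hb).2.2.2
  refine ⟨by omega, by omega, hC, h1.of_eq ?_⟩
  rw [show ∑ b ∈ Finset.range n, s b - 2 * p - h = ∑ b ∈ Finset.range n, (s b - u b) by omega,
    show ∑ b ∈ Finset.range n, k b + ∑ b ∈ Finset.range n, Tt b - ∑ b ∈ Finset.range n, s b - h' -
      2 * p' = ∑ b ∈ Finset.range n, (k b + Tt b - s b - e b) by omega, replicate_zero, add_zero]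

theorem PV_blocks {m j X s p h p' h' g : ℕ} (hm : 1 ≤ m) (n : ℕ) (k Tt u : ℕ → ℕ)
    (hu : ∀ b ≤ n, u b ≤ p + h) (hu' : ∑ b ∈ Finset.range (n + 1), u b = 2 * p + h)
    (hg : n = 0 ∨ g + m ≤ p' + h' + 1) (hg' : p' ≤ n * g)
    (hW : ∀ b < n, j * Tt b + g + m ≤ k b * X + u b + 1)
    (H : ∀ b < n, ∀ sb eb : ℕ, g ≤ eb → eb < g + m → m * sb + eb + j * Tt b = k b * X + u b →
      V m j X (k b) (Tt b) sb (u b) eb (p + h - u b))
    (Hl : ∀ S E : ℕ, n * g ≤ E → E + n ≤ n * (g + m) →
      m * S + E + j * ∑ b ∈ Finset.range n, Tt b =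
        (∑ b ∈ Finset.range n, k b) * X + ∑ b ∈ Finset.range n, u b →
      S ≤ s ∧ E ≤ 2 * p' + h' ∧ V m j X (k n) (Tt n) (s - S) (u n) (2 * p' + h' - E) (p + h - u n))
    (hC : s + h + X ≤ (m + 1) * j) :
    PV m j X (∑ b ∈ Finset.range (n + 1), k b) (∑ b ∈ Finset.range (n + 1), Tt b) s h h' p p' := by
  have h0 : ∀ b, ∃ sb eb : ℕ, b < n →
      g ≤ eb ∧ eb < g + m ∧ m * sb + eb + j * Tt b = k b * X + u b := fun b => by
    refine ⟨(k b * X + u b - j * Tt b - g) / m, g + (k b * X + u b - j * Tt b - g) % m, fun hb => ?_⟩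
    have := hW b hb
    have := Nat.mod_lt (k b * X + u b - j * Tt b - g) hm
    have := Nat.div_add_mod (k b * X + u b - j * Tt b - g) m
    omega
  choose s' e' h0 using h0
  have h1 : n * g ≤ ∑ b ∈ Finset.range n, e' b := by
    simpa using Finset.card_nsmul_le_sum (Finset.range n) e' g
      fun b hb => (h0 b (Finset.mem_range.1 hb)).1
  have h2 : ∑ b ∈ Finset.range n, e' b + n ≤ n * (g + m) := by
    simpa [Finset.sum_add_distrib] using Finset.sum_le_card_nsmul (Finset.range n)
      (fun b => e' b + 1) (g + m) fun b hb => (h0 b (Finset.mem_range.1 hb)).2.1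
  obtain ⟨h3, h4, h5⟩ := Hl (∑ b ∈ Finset.range n, s' b) _ h1 h2 (by
    rw [Finset.mul_sum, Finset.mul_sum, Finset.sum_mul]
    simp only [← Finset.sum_add_distrib]
    exact Finset.sum_congr rfl fun b hb => (h0 b (Finset.mem_range.1 hb)).2.2)
  have hsum : ∀ (x : ℕ → ℕ) (y : ℕ), ∑ b ∈ Finset.range n, x b ≤ y →
      ∑ b ∈ Finset.range (n + 1), (if b < n then x b else y - ∑ b ∈ Finset.range n, x b) = y :=
    fun x y hy => by
      rw [Finset.sum_range_succ, if_neg (lt_irrefl n),
        Finset.sum_congr rfl fun b hb => if_pos (Finset.mem_range.1 hb)]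
      exact Nat.add_sub_cancel' hy
  have h6 := PV_cut (m := m) (j := j) (X := X) (p := p) (h := h) (p' := p') (h' := h') (n + 1)
    (by omega) k Tt (fun b => if b < n then s' b else s - ∑ b ∈ Finset.range n, s' b) u
    (fun b => if b < n then e' b else 2 * p' + h' - ∑ b ∈ Finset.range n, e' b)
    (fun b hb => hu b (by omega)) hu'
    (fun b _ => by
      split_ifs with h7
      · have := (h0 b h7).2.1
        omega
      · omega) (hsum _ _ h4)
    (fun b hb => by
      by_cases h7 : b < n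
      · rw [if_pos h7, if_pos h7]
        exact H b h7 _ _ (h0 b h7).1 (h0 b h7).2.1 (h0 b h7).2.2
      · obtain rfl : b = n := by omega
        rwa [if_neg h7, if_neg h7])
    (by rwa [hsum _ _ h3])
  rwa [hsum _ _ h3] at h6

/-- `PV_blocks` with a slack `sg b` in each block. -/
theorem PV_blocks2 {m j X s p h p' h' g : ℕ} (hm : 1 ≤ m) (n : ℕ) (k Tt u sg : ℕ → ℕ)
    (hu : ∀ b ≤ n, u b ≤ p + h) (hu' : ∑ b ∈ Finset.range (n + 1), u b = 2 * p + h)
    (hg : n = 0 ∨ g + m ≤ p' + h' + 1) (hg' : p' ≤ n * g)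
    (hW : ∀ b < n, j * Tt b + g + m ≤ k b * X + u b + sg b + 1)
    (H : ∀ b < n, ∀ sb eb : ℕ, g ≤ eb → eb < g + m →
      m * sb + eb + j * Tt b = k b * X + u b + sg b →
      V m j X (k b) (Tt b) sb (u b) eb (p + h - u b))
    (Hl : ∀ S E : ℕ, n * g ≤ E → E + n ≤ n * (g + m) →
      m * S + E + j * ∑ b ∈ Finset.range n, Tt b =
        (∑ b ∈ Finset.range n, k b) * X + ∑ b ∈ Finset.range n, u b +
          ∑ b ∈ Finset.range n, sg b →
      S ≤ s ∧ E ≤ 2 * p' + h' ∧ V m j X (k n) (Tt n) (s - S) (u n) (2 * p' + h' - E) (p + h - u n))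
    (hC : s + h + X ≤ (m + 1) * j) :
    PV m j X (∑ b ∈ Finset.range (n + 1), k b) (∑ b ∈ Finset.range (n + 1), Tt b) s h h' p p' := by
  have h0 : ∀ b, ∃ sb eb : ℕ, b < n →
      g ≤ eb ∧ eb < g + m ∧ m * sb + eb + j * Tt b = k b * X + u b + sg b := fun b => by
    refine ⟨(k b * X + u b + sg b - j * Tt b - g) / m,
      g + (k b * X + u b + sg b - j * Tt b - g) % m, fun hb => ?_⟩
    have := hW b hb
    have := Nat.mod_lt (k b * X + u b + sg b - j * Tt b - g) hm
    have := Nat.div_add_mod (k b * X + u b + sg b - j * Tt b - g) m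
    omega
  choose s' e' h0 using h0
  have h1 : n * g ≤ ∑ b ∈ Finset.range n, e' b := by
    simpa using Finset.card_nsmul_le_sum (Finset.range n) e' g
      fun b hb => (h0 b (Finset.mem_range.1 hb)).1
  have h2 : ∑ b ∈ Finset.range n, e' b + n ≤ n * (g + m) := by
    simpa [Finset.sum_add_distrib] using Finset.sum_le_card_nsmul (Finset.range n)
      (fun b => e' b + 1) (g + m) fun b hb => (h0 b (Finset.mem_range.1 hb)).2.1
  obtain ⟨h3, h4, h5⟩ := Hl (∑ b ∈ Finset.range n, s' b) _ h1 h2 (by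
    rw [Finset.mul_sum, Finset.mul_sum, Finset.sum_mul]
    simp only [← Finset.sum_add_distrib]
    exact Finset.sum_congr rfl fun b hb => (h0 b (Finset.mem_range.1 hb)).2.2)
  have hsum : ∀ (x : ℕ → ℕ) (y : ℕ), ∑ b ∈ Finset.range n, x b ≤ y →
      ∑ b ∈ Finset.range (n + 1), (if b < n then x b else y - ∑ b ∈ Finset.range n, x b) = y :=
    fun x y hy => by
      rw [Finset.sum_range_succ, if_neg (lt_irrefl n),
        Finset.sum_congr rfl fun b hb => if_pos (Finset.mem_range.1 hb)]
      exact Nat.add_sub_cancel' hy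
  have h6 := PV_cut (m := m) (j := j) (X := X) (p := p) (h := h) (p' := p') (h' := h') (n + 1)
    (by omega) k Tt (fun b => if b < n then s' b else s - ∑ b ∈ Finset.range n, s' b) u
    (fun b => if b < n then e' b else 2 * p' + h' - ∑ b ∈ Finset.range n, e' b)
    (fun b hb => hu b (by omega)) hu'
    (fun b _ => by
      split_ifs with h7
      · have := (h0 b h7).2.1
        omega
      · omega) (hsum _ _ h4)
    (fun b hb => by
      by_cases h7 : b < n
      · rw [if_pos h7, if_pos h7]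
        exact H b h7 _ _ (h0 b h7).1 (h0 b h7).2.1 (h0 b h7).2.2
      · obtain rfl : b = n := by omega
        rwa [if_neg h7, if_neg h7])
    (by rwa [hsum _ _ h3])
  rwa [hsum _ _ h3] at h6

end Pool.Agent.Work.MP_f4b644_ag.Thin
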