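import Pool.Agent.Work.MP_f4b644_ag.Thin.CG1

/-!
Gluing of three strips with tokens.
-/

set_option autoImplicit false

namespace Pool.Agent.Work.MP_f4b644_ag.Thin

open Big Multiset Big.Gad

theorem tok3 {m J X k Tt s : ℕ} (j1 X1 s1 j2 X2 s2 h2 j3 X3 s3 h3 : ℕ) (hJ : J = j2 + (j3 + j1))
    (hX : X = X2 + (X3 + X1)) (hs : s = s2 + (s3 + s1)) (hB : s ≤ k + Tt)
    (H1 : V m j1 X1 k Tt s1 (h2 + h3) 0 0) (H2 : V m j2 X2 k Tt s2 0 h2 0)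
    (H3 : V m j3 X3 k Tt s3 0 h3 0) : V m J X k Tt s 0 0 0 := by
  subst hJ hX hs
  exact V_peelB H2 (by rw [Nat.zero_add]; exact V_peelB H3 H1 (by omega)) (by omega)

end Pool.Agent.Work.MP_f4b644_ag.Thin
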