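import Pool.Agent.Work.MP_f4b644_ag.Thin.Tall
import Pool.Agent.Work.MP_f4b644_ag.Thin.S5tok

/-!
Leaves for general m.
`V_CGq`: as `V_CG1` (file CG1) without the minimal T0: `V_peelSQ` with the squares `V_sq m j X (X - m) u w y (X - m - w j + w)`,
the rest is `V_G` with k' = k - q j, s' = s - q j, T' = Tt - q (X - m); j T' ≥ k' X - m s' - e ≥ w j k' because
X ≥ w j + m and k' ≥ s' + e (show q (X - m) ≤ Tt in this way first).
`V_CGe`: `V_CGq` with min q (s / j) instead of q (hY for a smaller q follows from X ≤ (w + 1) j).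
`V_tallG`: as `V_tall` (file Tall): `V_mono` to X + σ / k, `V_QQ` (second case) with T' = Tt + w - w k; hlow follows from
(j - s) Tt ≥ g Tt ≥ 3 k - 1 and (y - 1) s ≥ (y - 1) k, hup from y s ≤ g ((m - 1) k - Tt) ≤ (j - s) ((m - 1) k - Tt).
`V_addT`: `S.rep` with `red_BP_T`. `V_cutBn`: induction on n with `V_cutB0`.
-/

set_option autoImplicit false

namespace Pool.Agent.Work.MP_f4b644_ag.Thin

open Big Multiset Big.Gad

theorem V_CGq (m j X k Tt s u e w y q : ℕ) (hm : m = y + w + 1) (hy : 1 ≤ y) (h1 : w * j + m ≤ X)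
    (h2 : w * j + 2 * y + 1 ≤ X) (h3 : X ≤ (w + 1) * j) (hq1 : q * j + u ≤ s) (hq2 : s ≤ q * j + j)
    (hs : s + e ≤ k) (hC : s + u + X ≤ (m + 1) * j) (hD : k * X + u ≤ j * Tt + m * s + e)
    (hY : Tt + 2 * w + 1 + q * ((w + 1) * j + m) ≤ (w + 1) * k + q * X)
    (hu : u = 0 ∨ (2 ≤ y ∧ 2 * u + 3 ≤ j)) : V m j X k Tt s u e 0 := by
  have e0 : (w + 1) * j = w * j + j := by ring
  have hj : 0 < j := by omega
  obtain ⟨s', rfl⟩ : ∃ s', s = q * j + s' := ⟨s - q * j, by omega⟩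
  obtain ⟨k', rfl⟩ : ∃ k', k = q * j + k' := ⟨k - q * j, by omega⟩
  obtain ⟨x, rfl⟩ : ∃ x, X = x + m := ⟨X - m, by omega⟩
  have e1 : (q * j + k') * (x + m) = j * (q * x) + m * (q * j) + k' * x + k' * m := by ring
  have e2 : m * (q * j + s') = m * (q * j) + m * s' := by ring
  have e3 : (s' + e) * m ≤ k' * m := Nat.mul_le_mul_right m (by omega)
  have e4 : (s' + e) * m = m * s' + e * m := by ring
  have e5 : e ≤ e * m := Nat.le_mul_of_pos_right e (by omega)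
  have e6 : q * x ≤ Tt := Nat.le_of_mul_le_mul_left (by omega) hj
  obtain ⟨T', rfl⟩ := Nat.exists_eq_add_of_le e6
  have e7 : j * (q * x + T') = j * (q * x) + j * T' := by ring
  have e8 : k' * (w * j) ≤ k' * x := Nat.mul_le_mul_left k' (by omega)
  have e9 : k' * (w * j) = j * (w * k') := by ring
  have e10 : w * k' ≤ T' := Nat.le_of_mul_le_mul_left (by omega) hj
  have e11 : k' * (x + m) = k' * x + k' * m := by ring
  have e12 : q * ((w + 1) * j + m) = (w + 1) * (q * j) + q * m := by ring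
  have e13 : (w + 1) * (q * j + k') = (w + 1) * (q * j) + (w + 1) * k' := by ring
  have e14 : q * (x + m) = q * x + q * m := by ring
  exact V_peelSQ q (fun _ => V_sq m j _ x u w y (x + w - w * j) hm hy (by omega) (by omega)
      (by omega) le_rfl (hu.imp_right Or.inl))
    (V_G m j _ k' T' s' u e 0 w y hm hy (by omega) (by omega) (by omega) e10 h3 (by omega)
      (Or.inr ⟨h2, by omega⟩)) (by omega)

theorem V_CGe (m j X k Tt s e w y q : ℕ) (hm : m = y + w + 1) (hy : 1 ≤ y) (h1 : w * j + m ≤ X)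
    (h2 : w * j + 2 * y + 1 ≤ X) (h3 : X ≤ (w + 1) * j) (hq2 : s ≤ q * j + j)
    (hs : s + e ≤ k) (hC : s + X ≤ (m + 1) * j) (hD : k * X ≤ j * Tt + m * s + e)
    (hY : Tt + 2 * w + 1 + q * ((w + 1) * j + m) ≤ (w + 1) * k + q * X) : V m j X k Tt s 0 e 0 := by
  have e0 : (w + 1) * j = w * j + j := by ring
  have hj : 0 < j := by omega
  by_cases hq : q * j ≤ s
  · exact V_CGq m j X k Tt s 0 e w y q hm hy h1 h2 h3 hq hq2 hs hC hD hY (Or.inl rfl)
  have a1 := Nat.div_add_mod' s j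
  have a2 := Nat.mod_lt s hj
  generalize s / j = q' at a1
  have a3 : q' < q := Nat.lt_of_mul_lt_mul_right (a := j) (by omega)
  obtain ⟨d, rfl⟩ := Nat.exists_eq_add_of_le a3.le
  have a4 : d * X ≤ d * ((w + 1) * j + m) := Nat.mul_le_mul_left d (by omega)
  rw [Nat.add_mul, Nat.add_mul q' d X] at hY
  exact V_CGq m j X k Tt s 0 e w y q' hm hy h1 h2 h3 (by omega) (by omega) hs hC hD (by omega)
    (Or.inl rfl)

theorem V_tallG (m j X k Tt s w y g : ℕ) (hm : m = y + w + 1) (hy : 1 ≤ y) (h1 : w * k ≤ Tt + w)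
    (h2 : Tt + w + 1 ≤ (w + 1) * k) (h3 : w ≤ k) (h4 : k ≤ s) (h5 : s ≤ k + Tt) (h6 : s + g ≤ j)
    (hg : 1 ≤ g) (h7 : 3 * k ≤ g * Tt + 1) (h8 : y * s + g * Tt + g * k ≤ g * (m * k))
    (hD : k * X ≤ j * Tt + m * s) : V m j X k Tt s 0 0 0 := by
  have e0 : (w + 1) * k = w * k + k := by ring
  have hk : 0 < k := by omega
  obtain ⟨X', hX, hl, hu⟩ := Tall_floor _ k X hk hD
  obtain ⟨js, rfl⟩ : ∃ js, j = s + js := ⟨j - s, by omega⟩
  have hjs : g ≤ js := by omega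
  obtain ⟨T', hT'⟩ : ∃ T', Tt + w = w * k + T' := ⟨Tt + w - w * k, by omega⟩
  refine V_mono hX (V_QQ m (s + js) X' k Tt s w y T' hm hy hT' (by omega) h3 (by omega) h5 hl ?_ ?_
    (Or.inr (Or.inl h4)))
  · obtain ⟨y', rfl⟩ : ∃ y', y = y' + 1 := ⟨y - 1, by omega⟩
    have a1 : g * Tt ≤ js * Tt := Nat.mul_le_mul_right Tt hjs
    have a2 : y' * k ≤ y' * s := Nat.mul_le_mul_left y' h4
    have a3 : (s + js) * Tt + m * s = s * (Tt + w + 2) + js * Tt + y' * s := by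
      rw [hm]
      ring
    have a4 : (y' + 1 + 1) * k = y' * k + 2 * k := by ring
    omega
  · rw [Nat.add_sub_cancel_left]
    have a0 : g * (Tt + k) = g * Tt + g * k := by ring
    have a5 : g * (Tt + k) ≤ g * (m * k) := by omega
    have a1 : Tt + k ≤ m * k := Nat.le_of_mul_le_mul_left a5 hg
    obtain ⟨d, hd⟩ := Nat.exists_eq_add_of_le a1
    have a2 : g * (m * k) = g * Tt + g * k + g * d := by
      rw [hd]
      ring
    have a3 : m * js * k = js * Tt + js * k + js * d := by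
      rw [Nat.mul_comm m js, Nat.mul_assoc, hd]
      ring
    have a4 : g * d ≤ js * d := Nat.mul_le_mul_right d hjs
    omega

theorem V_addT {m j X k Tt s : ℕ} (hs : s ≤ k + Tt) (h : V m j (X + s) k Tt 0 0 0 0) :
    V m j X k Tt s 0 0 0 := by
  obtain ⟨-, -, a3, a4⟩ := h
  refine ⟨Nat.zero_le _, hs, by omega, ?_⟩
  obtain ⟨b, hb⟩ := Nat.exists_eq_add_of_le hs
  have e1 : (m + 1) * j - (X + s) - 0 - 0 - 2 * 0 = (m + 1) * j - X - s - 0 - 2 * 0 := by
    clear a4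
    omega
  have e2 : k + Tt - s - 0 = b := by
    clear a4
    omega
  rw [e1, hb] at a4
  rw [e2]
  generalize (m + 1) * j - X - s - 0 - 2 * 0 = f at a4 ⊢
  refine (S.rep red_BP_T s (replicate b (BP 0) + replicate f (CP 1)) (a4.of_eq ?_)).of_eq ?_
  · simp only [Nat.sub_zero, replicate_add, replicate_zero]
    abel
  · simp only [Nat.sub_zero, replicate_zero]
    abel

theorem V_cutBn {m J X k Tt s : ℕ} (n j1 X1 s1 j2 X2 s2 : ℕ) (hJ : J = n * j1 + j2)
    (hX : X = n * X1 + X2) (hs : s = n * s1 + s2) (hB : s ≤ k + Tt) (h1 : V m j1 X1 k Tt s1 0 0 0)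
    (h2 : V m j2 X2 k Tt s2 0 0 0) : V m J X k Tt s 0 0 0 := by
  induction n generalizing J X s with
  | zero =>
    rw [Nat.zero_mul, Nat.zero_add] at hJ hX hs
    subst hJ hX hs
    exact h2
  | succ n ih =>
    rw [Nat.add_mul, Nat.one_mul] at hJ hX hs
    exact V_cutB0 j1 X1 s1 (n * j1 + j2) (n * X1 + X2) (n * s1 + s2) (by omega) (by omega)
      (by omega) hB h1 (ih rfl rfl rfl (by omega))

theorem tok4 {m J X k Tt s : ℕ} (j1 X1 s1 j2 X2 s2 h2 j3 X3 s3 h3 j4 X4 s4 h4 : ℕ)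
    (hJ : J = j2 + (j3 + (j4 + j1))) (hX : X = X2 + (X3 + (X4 + X1))) (hs : s = s2 + (s3 + (s4 + s1)))
    (hB : s ≤ k + Tt) (H1 : V m j1 X1 k Tt s1 (h2 + h3 + h4) 0 0) (H2 : V m j2 X2 k Tt s2 0 h2 0)
    (H3 : V m j3 X3 k Tt s3 0 h3 0) (H4 : V m j4 X4 k Tt s4 0 h4 0) : V m J X k Tt s 0 0 0 := by
  subst hJ hX hs
  exact V_peelB H2 (by
    rw [Nat.zero_add]
    exact V_peelB H3 (V_peelB H4 H1 (by omega)) (by omega)) (by omega)

theorem Dw (m w j X k Tt s : ℕ) (x t : ℤ) (h1 : (X : ℤ) = w * j + x) (h2 : (Tt : ℤ) + t = w * k)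
    (h3 : (k : ℤ) * x + j * t ≤ m * s) : k * X ≤ j * Tt + m * s := by
  zify
  have h4 : (Tt : ℤ) = w * k - t := by linarith
  rw [h1, h4]
  linarith

theorem Dm (m j X k Tt s : ℕ) (z ρ : ℤ) (h1 : 2 * (X : ℤ) + z = m * j) (h2 : 2 * (Tt : ℤ) + ρ = m * k)
    (h3 : (j : ℤ) * ρ ≤ k * z + 2 * m * s) : k * X ≤ j * Tt + m * s := by
  zify
  have h4 : z = m * j - 2 * X := by linarith
  have h5 : ρ = m * k - 2 * Tt := by linarith
  rw [h4, h5] at h3
  linarith

end Pool.Agent.Work.MP_f4b644_ag.Thin
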