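import Pool.Agent.Work.MP_f4b644_ag.Thin.Leaf
import Pool.Agent.Work.MP_f4b644_ag.Thin.M1
import Pool.Agent.Work.MP_f4b644_ag.Big.SqLeaf

/-!
`V_G`: `S_G` with nB = Tt - w k, nC = (w + 1) j - X, `cornerW` (n1 = 1, n2 = y) or `cornerG`.
`V_sq`: by `S.mono` (dropping CP 1) it suffices to treat X = Tt + m. Split the first factor (`S.splitA`, as in the
proof of `S_sql`): w levels `S_afB w h h` with w (h - 1) copies of BP 0, R levels `S_afC R h 0 Gr` and a core with
all tangents and b copies of BP 0. If h ≠ 2 b + 1 the core is `thmA h (b + 1) h b h` (dimension 3, h - 1 - b copies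
of CP 1; `Exc1` fails) and R = y. If h = 2 b + 1 the core is `S_sq4 h b` with `S.hingeT` (dimension 4,
h + (h - 2 - b) copies of CP 1 after undoing the hinge) and R = y - 1. The pairs CP 2: in the case h ≠ 2 b + 1,
2 ≤ y they all go to Gr; otherwise each pair is split (`ruleA_CP 1 1`) into one of the free CP 1 of the core
(not one of the h hinged ones; in the family after `S.hingeT` all CP 1 are alike) and a group 1 in Gr.
`S_sq22`: levels 4 = 2 + 1 + 1: `S_afB 1 h h`, `S_afC 1 h 0`, and the core S 2 h h (replicate h (T 0 0)), which is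
`S_sq2`: take b i = c i = the basis vector i and a i = (1, i); a tensor annihilating the configuration has at the cell
(i, l), i ≠ l, a vector orthogonal to a i and a l, and vanishes at (i, i) (`top_of_ann`, or directly `top_of_single`).
-/

set_option autoImplicit false

namespace Pool.Agent.Work.MP_f4b644_ag.Thin

open Big Multiset Big.Gad

theorem V_G (m j X k Tt s u e G w y : ℕ) (hm : m = y + w + 1) (hy : 1 ≤ y) (hu : u ≤ s)
    (h1 : s + G ≤ j) (h2 : s + e ≤ k) (hT : w * k ≤ Tt) (hX : X ≤ (w + 1) * j)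
    (hD : k * X + u ≤ j * Tt + m * s + e)
    (hc : (w = 0 ∧ m ≤ X) ∨ (w * j + 2 * y + 1 ≤ X ∧ Tt + 2 * w + 1 ≤ (w + 1) * k)) :
    V m j X k Tt s u e G := by
  obtain ⟨nB, rfl⟩ := Nat.exists_eq_add_of_le hT
  obtain ⟨nC, hnC⟩ := Nat.exists_eq_add_of_le hX
  obtain ⟨s0, rfl⟩ := Nat.exists_eq_add_of_le' hu
  have e1 : (m + 1) * j = (w + 1) * j + (y + 1) * j := by rw [hm]; ring
  have e2 : 2 * j ≤ (y + 1) * j := Nat.mul_le_mul_right _ (by omega)
  have e3 : (w + 1) * k = w * k + k := by ring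
  have e4 : (w + 1) * j = w * j + j := by ring
  refine ⟨hu, by omega, by omega, ?_⟩
  rw [show m + 2 = y + w + 3 by omega, Nat.add_sub_cancel]
  refine S_G j k s0 u _ e G _ y w nB nC hy h1 h2 (by omega) (by omega) ?_ ?_
  · have e5 : k * ((w + 1) * j) = k * (X + nC) := by rw [hnC]
    rw [← hm]
    nlinarith
  · rcases hc with ⟨rfl, h3⟩ | ⟨h3, h4⟩
    · exact cornerW _ _ _ _ _ _ _ (Or.inl (by omega)) (Or.inl (by omega))
    · exact cornerG _ _ _ _ _ _ _ hy (by omega) (by omega)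

theorem Sq_join {I h b c1 g1 : ℕ} (w R g2 n2 : ℕ) (hh : 1 ≤ h)
    (H : S I h h (replicate h (T 0 0) + replicate b (BP 0) + replicate (g1 + c1) (CP 1)))
    (hs : 2 * g2 + (g1 + n2) = R * (h - 1)) (hg : g2 = 0 ∨ 2 ≤ R) :
    S (I + (w + R)) h h (replicate h (T 0 0) + replicate (b + w * (h - 1)) (BP 0) +
      replicate (g1 + g2) (CP 2) + replicate (c1 + n2) (CP 1)) := by
  have r1 : Rule Dir.A (T 0 0) (T 0 0) (AF 0) := ruleA_T 0 0
  have r2 : Rule Dir.A (AF 0) (AF 0) (AF 0) := ruleA_AF 0 0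
  have r3 : Rule Dir.A (CP 2) (CP 0) (CP 2) := ruleA_CP 0 2
  have r4 : Rule Dir.A (CP 1) (CP 0) (CP 1) := ruleA_CP 0 1
  have r5 : Rule Dir.A (CP 2) (CP 1) (CP 1) := ruleA_CP 1 1
  have s3 := S_afC R h 0 (Nat.zero_le _) (replicate g2 2 + replicate (g1 + n2) 1) (fun z hz => by
    rcases mem_add.1 hz with hz | hz
    · obtain ⟨h1, rfl⟩ := mem_replicate.1 hz
      omega
    · obtain ⟨h1, rfl⟩ := mem_replicate.1 hz
      refine Nat.pos_of_ne_zero fun h0 => ?_
      rw [h0, zero_mul] at hs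
      omega) (by
    rw [sum_add, sum_replicate, sum_replicate, smul_eq_mul, smul_eq_mul, ← hs]
    ring)
  rw [Multiset.map_add, map_replicate, map_replicate] at s3
  have s4 := S.splitA ((((Spl.rep r2 h).add (Spl.repL (ruleA_BP 0) (w * (h - 1)))).add
    ((Spl.repR r3 g2).add (Spl.repR r4 (g1 + n2)))).of_eq rfl (by simp) (by simp))
    (S_afB w h h hh) s3
  refine S.splitA (((((Spl.rep r1 h).add ((Spl.repL (ruleA_BP 0) b).add
    (Spl.repR (ruleA_BP 0).symm (w * (h - 1))))).add ((Spl.rep r5 g1).add (Spl.repR r3 g2))).add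
    ((Spl.repL r4.symm c1).add (Spl.repR r4 n2))).of_eq ?_ ?_ ?_) H s4
  · simp only [replicate_add]
  · simp only [replicate_add]
    abel
  · simp only [replicate_add]
    abel

theorem V_sq (m h X Tt G w y b : ℕ) (hm : m = y + w + 1) (hy : 1 ≤ y) (hh : 2 ≤ h)
    (hT : Tt + w = w * h + b) (hb : b + 1 ≤ h) (hX : X ≤ Tt + m)
    (hG : G = 0 ∨ (2 ≤ y ∧ 2 * G + 3 ≤ h) ∨ (h ≠ 2 * b + 1 ∧ G + b + 1 ≤ h)) :
    V m h X h Tt h 0 0 G := by
  obtain ⟨k, rfl⟩ : ∃ k, h = k + 1 := ⟨h - 1, by omega⟩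
  obtain ⟨y', rfl⟩ : ∃ y', y = y' + 1 := ⟨y - 1, by omega⟩
  have e1 : w * (k + 1) = w * k + w := by ring
  have e2 : (m + 1) * (k + 1) = w * k + y' * k + 3 * k + w + y' + 3 := by rw [hm]; ring
  have e3 : (y' + 1) * k = y' * k + k := by ring
  have e4 : 1 ≤ y' → k ≤ y' * k := fun h => Nat.le_mul_of_pos_left k h
  have key : 2 * G + b ≤ y' * k + 2 * k ∧ S (m + 2) (k + 1) (k + 1) (replicate (k + 1) (T 0 0) +
      replicate Tt (BP 0) + replicate G (CP 2) + replicate (y' * k + 2 * k - b - 2 * G) (CP 1)) := by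
    refine ⟨by omega, ?_⟩
    by_cases hc : k + 1 = 2 * b + 1
    · have s1 := S.hingeT (k + 1) 0 1 (replicate b (BP 0) + replicate (k + 1 - 2 - b) (CP 1))
        ((S_sq4 (k + 1) b (by omega)).of_eq (add_assoc _ _ _))
      have s2 := Sq_join (b := b) (g1 := G) (c1 := 2 * k - b - G) w y' 0 (y' * k - G) (by omega)
        (s1.of_eq (by
          rw [show G + (2 * k - b - G) = (k + 1) * 1 + (k + 1 - 2 - b) by omega,
            replicate_add ((k + 1) * 1)]
          abel)) (by rw [Nat.add_sub_cancel]; omega) (Or.inl rfl)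
      rw [show 4 + (w + y') = m + 2 by omega, Nat.add_sub_cancel, show b + w * k = Tt by omega,
        show 2 * k - b - G + (y' * k - G) = y' * k + 2 * k - b - 2 * G by omega] at s2
      exact s2
    have s1 := thmA (k + 1) (b + 1) (k + 1) b (k + 1)
      ⟨by omega, by omega, hb, by omega, (mul_add_one _ _).le, by omega, by omega⟩ (by
        rintro (h | h | h) <;> omega)
    rw [show k + 1 + b - (k + 1) = b by omega,
      show 2 * (k + 1) - (b + 1) - (k + 1) = k - b by omega] at s1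
    by_cases hg : G + b ≤ k
    · have s2 := Sq_join (b := b) (g1 := G) (c1 := k - b - G) w (y' + 1) 0 (y' * k + k - G)
        (by omega) (s1.of_eq (by rw [show G + (k - b - G) = k - b by omega]))
        (by rw [Nat.add_sub_cancel]; omega) (Or.inl rfl)
      rw [show 3 + (w + (y' + 1)) = m + 2 by omega, Nat.add_sub_cancel,
        show b + w * k = Tt by omega,
        show k - b - G + (y' * k + k - G) = y' * k + 2 * k - b - 2 * G by omega] at s2
      exact s2
    · have s2 := Sq_join (b := b) (g1 := 0) (c1 := k - b) w (y' + 1) G (y' * k + k - 2 * G)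
        (by omega) (s1.of_eq (by rw [Nat.zero_add])) (by rw [Nat.add_sub_cancel]; omega)
        (Or.inr (by omega))
      rw [show 3 + (w + (y' + 1)) = m + 2 by omega, Nat.add_sub_cancel,
        show b + w * k = Tt by omega, Nat.zero_add,
        show k - b + (y' * k + k - 2 * G) = y' * k + 2 * k - b - 2 * G by omega] at s2
      exact s2
  obtain ⟨k1, k2⟩ := key
  refine ⟨Nat.zero_le _, by omega, by omega, k2.mono ?_⟩
  rw [Nat.sub_zero, show k + 1 + Tt - (k + 1) - 0 = Tt by omega, replicate_zero, replicate_zero,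
    add_zero, add_zero]
  exact add_le_add le_rfl ((replicate_le_replicate _).2 (by omega))

theorem S_sq2 (h : ℕ) : S 2 h h (replicate h (T 0 0)) := by
  refine S_of_fam (fun _ : Fin h => T 0 0) (by rw [map_univ_const, Fintype.card_fin])
    ⟨fun p => ![1, ((p.1 : ℕ) : ℂ)], fun p => Pi.single p.1 1, fun p => Pi.single p.1 1,
      top_of_single _ fun i l m => ?_⟩
  by_cases hlm : l = m
  · subst hlm
    exact Small_A l 0 0 (by rfl) _
  have h0 : ((m : ℕ) : ℂ) - (l : ℕ) ≠ 0 :=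
    sub_ne_zero.2 fun h => hlm (Fin.ext (Nat.cast_injective h)).symm
  have h1 : ∀ u : Fin 2 → ℂ, tp u (Pi.single l 1) (Pi.single m 1) =
      ((u 0 * (m : ℕ) - u 1) / ((m : ℕ) - (l : ℕ))) •
        tp ![1, ((l : ℕ) : ℂ)] (Pi.single l (1 : ℂ)) (Pi.single m (1 : ℂ)) +
      ((u 1 - u 0 * (l : ℕ)) / ((m : ℕ) - (l : ℕ))) •
        tp ![1, ((m : ℕ) : ℂ)] (Pi.single l (1 : ℂ)) (Pi.single m (1 : ℂ)) := fun u => by
    funext ⟨x, y, z⟩
    fin_cases x
    · simp only [tp, Pi.add_apply, Pi.smul_apply, smul_eq_mul, Fin.zero_eta, Matrix.cons_val_zero]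
      field_simp
      ring
    · simp only [tp, Pi.add_apply, Pi.smul_apply, smul_eq_mul, Fin.mk_one, Matrix.cons_val_one,
        Matrix.cons_val_fin_one]
      field_simp
      ring
  rw [h1]
  exact add_mem (Submodule.smul_mem _ _ (Small_C l 0 0 (by exact ⟨le_rfl, rfl⟩) _))
    (Submodule.smul_mem _ _ (Small_B m 0 0 (by rfl) _))

theorem S_sq22 (h : ℕ) (hh : 1 ≤ h) :
    S 4 h h (replicate h (T 0 0) + replicate (h - 1) (BP 0) + replicate (h - 1) (CP 1)) := by
  have h1 := Sq_join (b := 0) (g1 := 0) (c1 := 0) 1 1 0 (h - 1) hh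
    ((S_sq2 h).of_eq (by simp)) (by omega) (Or.inl rfl)
  exact h1.of_eq (by simp)

end Pool.Agent.Work.MP_f4b644_ag.Thin
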