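import Pool.Agent.Work.MP_f4b644_ag.Thin.Defs
import Pool.Agent.Work.MP_f4b644_ag.Big.Trop

/-!
Existence of patterns on Fin j × Fin k. In both lemmas pos i = i, n = j, and a cyclic window with start P < j and
length L ≤ j is encoded by wr = (j ≤ P + L), p = P, e = P + L - j if wr, e = P + L otherwise; then
PosW wr p e x ↔ InW j P L x for x < j (`InW`, `ncard_InW`, `ncard_not_InW` in Big/Trop.lean). If L < j, the
positions e ≤ x < e + g are in the gap whenever g divides j, P and L (g ≥ 1).

`pat_beatty` (long windows): X = j - nC, nB < k, j nB ≤ k (X - 1). For l < k let E l = ((l + nB) j) / k and A l = (l j) / k, the window of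
the column l starts at P l = A l % j = A l (A l < j) and has length L l = E l - A l ≤ X - 1 ≤ j - 1.
(floor((a + b) / k) - floor(a / k) ≤ ceil(b / k) ≤ X - 1.) The row i is covered by l iff A l ≤ i < E l or i + j < E l; put
F m = (m j) / k (monotone, F (m + k) = F m + j); with m0 the least m with i < F m the first case means m0 - nB ≤ l < m0, the
second m0 + k - nB ≤ l (< k): together at most nB columns (the map l ↦ l + nB - m0 in the first case,
l + nB - m0 - k + (something) in the second; simply: l + nB ∈ [m0, m0 + nB) or l + nB - k ∈ [m0, nB), both maps into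
[m0, m0 + nB) are injective with disjoint images because l + nB ≥ nB).
∑ L l = j nB (∑ l < k, F (l + nB) - F l telescopes: = ∑ m < nB, (F (m + k) - F m)).
Tangent columns: choose s columns with distinct ends E l % j: if k ≤ j all ends are distinct (F (m + 1) > F m and the
range of k consecutive m stays inside one period); if j < k the value F m takes every value, so l ↦ E l % j is onto Fin j.
In both cases the image of l ↦ E l % j has min j k ≥ s elements; pick γ by choice, ρ p = E (γ p) % j.
Killed cells: in the column l choose a set of X - L l - (1 if tangent column else 0) rows outside the window and different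
from the tangent row (`Finset.exists_subset_card_eq`; available: j - L l - (1 or 0)). The total is k X - j nB - s ≤ N.
-/

set_option autoImplicit false

namespace Pool.Agent.Work.MP_f4b644_ag.Thin

open Big

theorem Beatty_sum {F : ℕ → ℕ} {j k : ℕ} (hF : ∀ m, F (m + k) = F m + j) (n : ℕ) :
    ∑ l ∈ Finset.range k, F (l + n) = ∑ l ∈ Finset.range k, F l + j * n := by
  induction n with
  | zero => rfl
  | succ n ih =>
    have h1 := Finset.sum_range_succ (fun l => F (l + n)) k
    have h2 : ∑ l ∈ Finset.range k, F (l + (n + 1)) = ∑ l ∈ Finset.range k, F (l + 1 + n) :=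
      Finset.sum_congr rfl fun l _ => congrArg F (by omega)
    rw [Finset.sum_range_succ', add_comm k, hF, zero_add, ih] at h1
    rw [h2, mul_add]
    omega

theorem Beatty_least {F : ℕ → ℕ} {j k i : ℕ} (hm : Monotone F) (h0 : F 0 = 0)
    (hF : ∀ m, F (m + k) = F m + j) (hi : i < j) : ∃ a ≤ k, ∀ m, i < F m ↔ a ≤ m := by
  have hk : i < F k := by
    have := hF 0
    rw [zero_add, h0] at this
    omega
  have h : ∃ m, i < F m := ⟨k, hk⟩
  exact ⟨Nat.find h, Nat.find_min' h hk, fun m =>
    ⟨Nat.find_min' h, fun a => (Nat.find_spec h).trans_le (hm a)⟩⟩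

theorem Beatty_cover {F : ℕ → ℕ} {j k n i : ℕ} (hm : Monotone F) (h0 : F 0 = 0)
    (hF : ∀ m, F (m + k) = F m + j) (hn : n < k) (hi : i < j) :
    {l : Fin k | InW j (F l) (F (l + n) - F l) i}.ncard ≤ n := by
  obtain ⟨a, -, ha⟩ := Beatty_least hm h0 hF hi
  have key : ∀ l : Fin k, InW j (F l) (F (l + n) - F l) i →
      (l < a ∧ a ≤ l + n) ∨ a + k ≤ l + n := fun l h => by
    have h1 : F l ≤ F (l + n) := hm (Nat.le_add_right _ _)
    have h2 := ha l
    have h3 := ha (l + n)
    rcases h with h | h
    · omega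
    · rcases lt_or_ge (l + n) k with h4 | h4
      · have h5 : F (l + n) ≤ F (0 + k) := hm (by omega)
        rw [hF, h0] at h5
        omega
      · have h5 := hF (l + n - k)
        have h6 := ha (l + n - k)
        rw [Nat.sub_add_cancel h4] at h5
        omega
  refine (Set.ncard_le_ncard_of_injOn (t := ↑(Finset.Ico a (a + n)))
    (fun l : Fin k => if (l : ℕ) < a then l + n else l + n - k) (fun l hl => ?_)
    fun l hl l' hl' e => Fin.ext ?_).trans_eq (by simp)
  · have := key l hl
    have := l.2
    simp only [Finset.coe_Ico, Set.mem_Ico]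
    split_ifs <;> omega
  · have := key l hl
    have := key l' hl'
    have := l.2
    have := l'.2
    dsimp only at e
    split_ifs at e <;> omega

theorem Beatty_per (j : ℕ) {k : ℕ} (hk : 0 < k) (m : ℕ) : (m + k) * j / k = m * j / k + j := by
  rw [add_mul, Nat.add_mul_div_left _ _ hk]

theorem Beatty_mono (j k : ℕ) : Monotone fun m => m * j / k := fun _ _ h =>
  Nat.div_le_div_right (Nat.mul_le_mul_right j h)

theorem Beatty_ends {j k s n : ℕ} (hsj : s ≤ j) (hsk : s ≤ k) (hn : n < k) :
    ∃ γ : Fin s → Fin k, Function.Injective fun p => (γ p + n) * j / k % j := by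
  have hk : 0 < k := by omega
  rcases le_or_gt k j with h | h
  · have h1 : StrictMono fun m => m * j / k := strictMono_nat_of_lt_succ fun m => by
      refine (Nat.lt_succ_self _).trans_le ?_
      rw [Nat.succ_eq_add_one, ← Nat.add_div_right _ hk, add_mul, one_mul]
      exact Nat.div_le_div_right (Nat.add_le_add_left h _)
    have h2 : ∀ a b, a < b → b < k → (a + n) * j / k % j ≠ (b + n) * j / k % j :=
      fun a b hab hb e => by
        have h3 : (a + n) * j / k < (b + n) * j / k := h1 (by omega)
        have h4 : (b + n) * j / k < (a + n + k) * j / k := h1 (by omega)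
        rw [Beatty_per j hk] at h4
        have := Nat.le_of_dvd (by omega) ((Nat.modEq_iff_dvd' h3.le).1 e)
        omega
    refine ⟨Fin.castLE hsk, fun p q e => Fin.ext ?_⟩
    have := p.2
    have := q.2
    rcases lt_trichotomy (p : ℕ) q with h3 | h3 | h3
    · exact absurd e (h2 p q h3 (by omega))
    · exact h3
    · exact absurd e.symm (h2 q p h3 (by omega))
  · have h1 : ∀ i < j, ∃ l < k, (l + n) * j / k % j = i := fun i hi => by
      obtain ⟨a, hak, ha⟩ := Beatty_least (Beatty_mono j k) (by simp) (Beatty_per j hk) hi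
      obtain ⟨a, rfl⟩ : ∃ b, a = b + 1 :=
        Nat.exists_eq_succ_of_ne_zero fun e => by simpa [e] using ha 0
      have h2 : (a + 1) * j / k ≤ a * j / k + 1 := by
        rw [← Nat.add_div_right _ hk, add_mul, one_mul]
        exact Nat.div_le_div_right (Nat.add_le_add_left h.le _)
      have h3 : a * j / k = i := by
        have := ha a
        have := ha (a + 1)
        omega
      rcases le_or_gt n a with h4 | h4
      · exact ⟨a - n, by omega, by rw [Nat.sub_add_cancel h4, h3, Nat.mod_eq_of_lt hi]⟩
      · exact ⟨a + k - n, by omega, by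
          rw [Nat.sub_add_cancel (by omega), Beatty_per j hk, h3, Nat.add_mod_right,
            Nat.mod_eq_of_lt hi]⟩
    choose g hg hg' using h1
    refine ⟨fun p => ⟨g p (p.2.trans_le hsj), hg _ _⟩, fun p q e => Fin.ext ?_⟩
    exact (hg' _ _).symm.trans (e.trans (hg' _ _))

theorem Beatty_kill {R L : Type} [Fintype L] (K : L → Set R) :
    {q : R × L | q.1 ∈ K q.2}.ncard ≤ ∑ l, (K l).ncard := by
  have e : {q : R × L | q.1 ∈ K q.2} = ⋃ l, (fun i => (i, l)) '' K l := by
    ext ⟨i, l⟩
    simp
  rw [e]
  exact (Set.ncard_iUnion_le_of_fintype _).trans (Finset.sum_le_sum fun l _ =>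
    (Set.ncard_image_of_injective _ (Prod.mk_left_injective l)).le)

theorem pat_beatty (j k s nB nC N : ℕ) (hsj : s ≤ j) (hsk : s ≤ k) (hC : nC < j) (hB : nB < k)
    (h1 : j * nB ≤ k * (j - nC - 1)) (h2 : j * k ≤ s + N + j * nB + k * nC) :
    ∃ (ρ : Fin s → Fin j) (γ : Fin s → Fin k), Function.Injective ρ ∧ Function.Injective γ ∧
      Nonempty (Pat (Fin j) (Fin k) (fun i l => ∃ p, ρ p = i ∧ γ p = l) nB nC N) := by
  classical
  have hk : 0 < k := by omega
  have hj : 0 < j := by omega
  obtain ⟨γ, hγ⟩ := Beatty_ends hsj hsk hB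
  have hm := Beatty_mono j k
  have hF := Beatty_per j hk
  have hL : ∀ l, (l + nB) * j / k ≤ l * j / k + (j - nC - 1) := fun l => by
    rw [← Nat.add_mul_div_left _ _ hk, add_mul, mul_comm nB]
    exact Nat.div_le_div_right (Nat.add_le_add_left h1 _)
  have hA : ∀ l : Fin k, l * j / k < j := fun l =>
    Nat.div_lt_of_lt_mul (Nat.mul_lt_mul_of_pos_right l.2 hj)
  have h0 : 0 * j / k = 0 := by simp
  obtain ⟨F, hFe⟩ : ∃ F : ℕ → ℕ, ∀ m, m * j / k = F m := ⟨_, fun _ => rfl⟩
  simp only [hFe] at hγ hm hF hL hA
  rw [hFe] at h0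
  have hle : ∀ l, F l ≤ F (l + nB) := fun l => hm (Nat.le_add_right _ _)
  have hmod : ∀ l : Fin k, (j ≤ F (l + nB) → F (l + nB) % j + j = F (l + nB)) ∧
      (¬ j ≤ F (l + nB) → F (l + nB) % j = F (l + nB)) := fun l => by
    have := hL l
    have := hA l
    refine ⟨fun h => ?_, fun h => Nat.mod_eq_of_lt (not_le.1 h)⟩
    rw [Nat.mod_eq_sub_mod h, Nat.mod_eq_of_lt (by omega), Nat.sub_add_cancel h]
  have hW : ∀ (i : Fin j) (l : Fin k), PosW (j ≤ F (l + nB)) (F l) (F (l + nB) % j) i ↔
      InW j (F l) (F (l + nB) - F l) i := fun i l => by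
    have := hmod l
    have := hle l
    have := i.2
    unfold PosW InW
    omega
  let ρ : Fin s → Fin j := fun p => ⟨F (γ p + nB) % j, Nat.mod_lt _ hj⟩
  have hγ' : Function.Injective γ := fun p q e => hγ (by simp only [e])
  let V : Fin k → Set (Fin j) := fun l =>
    {i | ¬ (∃ p, ρ p = i ∧ γ p = l) ∧ ¬ InW j (F l) (F (l + nB) - F l) i}
  choose K hK hK' using fun l => Set.exists_subset_card_eq (Nat.sub_le (V l).ncard nC)
  have hV : ∀ l, (K l).ncard + F (l + nB) + nC + (if l ∈ Finset.univ.image γ then 1 else 0) ≤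
      F l + j := fun l => by
    have h3 := hL l
    have h4 := hle l
    have h5 := ncard_not_InW j (F l) (F (l + nB) - F l) (hA l) (by omega)
    have h6 : V l ⊆ {i | ¬ InW j (F l) (F (l + nB) - F l) i} := fun i hi => hi.2
    rw [hK']
    split_ifs with h
    · obtain ⟨p, -, rfl⟩ := Finset.mem_image.1 h
      have h7 : ¬ InW j (F (γ p)) (F (γ p + nB) - F (γ p)) (F (γ p + nB) % j) := by
        have := hmod (γ p)
        have := hA (γ p)
        unfold InW
        omega
      have := Set.ncard_lt_ncard ((Set.ssubset_iff_of_subset h6).2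
        ⟨ρ p, h7, fun h => h.1 ⟨p, rfl, rfl⟩⟩)
      omega
    · have := Set.ncard_le_ncard h6
      omega
  refine ⟨ρ, γ, fun p q e => hγ (congrArg Fin.val e), hγ', ⟨{
    n := j
    pos := Fin.val
    wr := fun l => j ≤ F (l + nB)
    p := fun l => F l
    e := fun l => F (l + nB) % j
    kill := fun i l => i ∈ K l
    inj := Fin.val_injective
    pos_lt := fun i => i.2
    e_le := fun l => (Nat.mod_lt _ hj).le
    gap := ?_
    rowc := fun i => ?_
    colc := fun l => ?_
    killc := (Beatty_kill K).trans ?_ }⟩⟩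
  · rintro _ _ ⟨p, rfl, rfl⟩
    have := hmod (γ p)
    have := hL (γ p)
    have := hle (γ p)
    exact ⟨le_rfl, fun h => (by omega : F (γ p + nB) % j < F (γ p)), fun h => by omega⟩
  · exact (Set.ncard_le_ncard fun l hl => (hW i l).1 hl.2.2).trans (Beatty_cover hm h0 hF hB i.2)
  · have e : {i | ¬ i ∈ K l ∧ ¬ (∃ p, ρ p = i ∧ γ p = l) ∧
        ¬ PosW (j ≤ F (l + nB)) (F l) (F (l + nB) % j) i} = V l \ K l :=
      Set.ext fun i => by rw [Set.mem_ofPred_eq, hW, and_comm]; rfl
    rw [e, Set.ncard_sdiff (hK l), hK']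
    omega
  · have h3 := Finset.sum_le_sum fun l (_ : l ∈ Finset.univ) => hV l
    have h4 := Beatty_sum hF nB
    rw [Finset.sum_range, Finset.sum_range] at h4
    simp only [Finset.sum_add_distrib, h4, Finset.sum_const, Finset.card_univ, Fintype.card_fin,
      smul_eq_mul, Finset.sum_ite_mem, Finset.univ_inter, Finset.card_image_of_injective _ hγ',
      mul_one, mul_comm k j] at h3
    omega

end Pool.Agent.Work.MP_f4b644_ag.Thin
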