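import Pool.Agent.Work.MP_f4b644_ag.Thin.Base

/-!
Wide strips for m = 3 with X > j. Put q = min 2 (s / j) (q = 2 if u > 0), s' = s - q j ≤ j (s ≤ 3 j - 3), u ≤ s',
k' = k - q j ≥ 9. `V_peelSQ` with the squares `V_sq 3 j X (X - 3) u 1 1 (X - 2 - j)` (j ≥ 6 by h1, h2). The rest has
T' = Tt - q (X - 3) and k' X + u ≤ j T' + 3 s' + e (show q (X - 3) ≤ Tt first, as in `V_CG0`: k' X ≥ 3 s' + e because
k' ≥ s' + e). Let T0 be minimal with k' X + u ≤ j T0 + 3 s' + e (`Top_ceil` or `Nat.find`), T0 ≤ T'. Then k' ≤ T0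
(j T0 ≥ k' j + 3 k' - 3 s' - e) and j T0 < k' X + j, so j (2 k' - T0) > k' (2 j - X) - j ≥ 3 j (9 (2 j - X) ≥ 4 j).
`V_G 3 j X k' T0 s' u e 0 1 1`, then `V_monoT`.
-/

set_option autoImplicit false

namespace Pool.Agent.Work.MP_f4b644_ag.Thin

open Big Multiset Big.Gad

theorem CG1_rest (j X k T s u e : ℕ) (h1 : j + 3 ≤ X) (h2 : 9 * X ≤ 14 * j) (h3 : s + e ≤ k)
    (hu : u ≤ s) (hs : s ≤ j) (hk : 9 ≤ k) (hD : k * X + u ≤ j * T + 3 * s + e) :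
    V 3 j X k T s u e 0 := by
  by_cases hT : T + 3 ≤ 2 * k
  · refine V_G 3 j X k T s u e 0 1 1 rfl le_rfl hu (by omega) h3 ?_ (by omega) hD
      (Or.inr ⟨by omega, by omega⟩)
    have h4 : k * (j + 3) ≤ k * X := Nat.mul_le_mul_left k h1
    have h5 : j * k ≤ j * T := by nlinarith
    have h6 := Nat.le_of_mul_le_mul_left h5 (by omega : 0 < j)
    omega
  · obtain ⟨T0, hT0⟩ : ∃ T0, T0 + 3 = 2 * k := ⟨2 * k - 3, by omega⟩
    refine V_monoT (by omega : T0 ≤ T) (V_G 3 j X k T0 s u e 0 1 1 rfl le_rfl hu (by omega) h3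
      (by omega) (by omega) ?_ (Or.inr ⟨by omega, by omega⟩))
    obtain ⟨d, hd⟩ : ∃ d, X + d = 2 * j := ⟨2 * j - X, by omega⟩
    have h4 : 9 * d ≤ k * d := Nat.mul_le_mul_right d hk
    have h5 : k * (X + d) = k * (2 * j) := by rw [hd]
    have h6 : j * (T0 + 3) = j * (2 * k) := by rw [hT0]
    nlinarith

theorem CG1_q (q j Y k Tt s u e : ℕ) (h1 : j ≤ Y) (h2 : 9 * (Y + 3) ≤ 14 * j) (h3 : s + e ≤ k)
    (hu : u ≤ s) (hs : s ≤ j) (hk : 9 ≤ k) (h4 : q * j + s + u + (Y + 3) ≤ 4 * j)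
    (hD : (q * j + k) * (Y + 3) + u ≤ j * Tt + 3 * (q * j + s) + e)
    (hG : u = 0 ∨ (2 * (Y + 3) ≠ 3 * j + 3 ∧ u + (Y + 3) ≤ 2 * j + 1)) :
    V 3 j (Y + 3) (q * j + k) Tt (q * j + s) u e 0 := by
  have e1 : (q * j + k) * (Y + 3) = j * (q * Y) + 3 * (q * j) + k * Y + 3 * k := by ring
  have e2 : k * (Y + 3) = k * Y + 3 * k := by ring
  have h5 : j * (q * Y) ≤ j * Tt := by omega
  obtain ⟨T, rfl⟩ := Nat.exists_eq_add_of_le (Nat.le_of_mul_le_mul_left h5 (by omega : 0 < j))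
  have e3 : j * (q * Y + T) = j * (q * Y) + j * T := by ring
  refine V_peelSQ q (fun _ => ?_)
    (CG1_rest j (Y + 3) k T s u e (by omega) h2 h3 hu hs hk (by omega)) (by omega)
  exact V_sq 3 j (Y + 3) Y u 1 1 (Y + 1 - j) rfl le_rfl (by omega) (by omega) (by omega) le_rfl
    (by omega)

theorem V_CG1 (j X k Tt s u e : ℕ) (h1 : j + 3 ≤ X) (h2 : 9 * X ≤ 14 * j) (h3 : s + e ≤ k)
    (h4 : s + u + X ≤ 4 * j) (hD : k * X + u ≤ j * Tt + 3 * s + e) (h5 : 2 * j + 9 ≤ k ∨ s + 9 ≤ k)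
    (hu : u = 0 ∨ (2 * j + u ≤ s ∧ 2 * X ≠ 3 * j + 3 ∧ u + X ≤ 2 * j + 1)) :
    V 3 j X k Tt s u e 0 := by
  obtain ⟨Y, rfl⟩ : ∃ Y, X = Y + 3 := ⟨X - 3, by omega⟩
  obtain ⟨q, s', k', rfl, rfl, k1, k2, k3⟩ : ∃ q s' k', s = q * j + s' ∧ k = q * j + k' ∧
      u ≤ s' ∧ s' ≤ j ∧ 9 ≤ k' := by
    by_cases c2 : 2 * j ≤ s
    · exact ⟨2, s - 2 * j, k - 2 * j, by omega, by omega, by omega, by omega, by omega⟩
    · by_cases c1 : j ≤ s
      · exact ⟨1, s - j, k - j, by omega, by omega, by omega, by omega, by omega⟩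
      · exact ⟨0, s, k, by omega, by omega, by omega, by omega, by omega⟩
  exact CG1_q q j Y k' Tt s' u e (by omega) h2 (by omega) k1 k2 k3 h4 hD (by omega)

end Pool.Agent.Work.MP_f4b644_ag.Thin
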