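import Pool.Agent.Work.MP_f4b644_ag.Big.Basic

/-!
Definitions for the grid leaf (see PROOF.md in this folder).
-/

set_option autoImplicit false

namespace Pool.Agent.Work.MP_f4b644_ag.Thin

open Big

/-- exchange of the second and the third factor -/
def swapC {P : Type} (X : Cfg P) : Cfg P :=
  ⟨{q | (q.2, q.1) ∈ X.fA}, X.fC, X.fB, {q | (q.1, q.2.2, q.2.1) ∈ X.pt}⟩

/-- the limit configuration when `c p = c (κ p) + t * (new vector called c p)` for all `p` with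
`κ p ≠ p` and `t → 0` -/
def hingeC {P : Type} (X : Cfg P) (κ : P → P) : Cfg P where
  fA := {q | ∃ q' ∈ X.fA, q = (q'.1, κ q'.2)}
  fB := {q | ∃ q' ∈ X.fB, q = (q'.1, κ q'.2)}
  fC := X.fC
  pt := {q | (∃ q' ∈ X.pt, q = (q'.1, q'.2.1, κ q'.2.2)) ∨
    (κ q.2.2 ≠ q.2.2 ∧ (q.1, q.2.2) ∈ X.fB ∧ (q.2.1, κ q.2.2) ∈ X.fA)}

/-- `X` together with tokens. The token `t` has first vector `ta t`; if `col t` it has third vector
`tn t` and a private second vector, otherwise second vector `tn t` and a private third vector. -/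
def tok {P τ : Type} (X : Cfg P) (ta tn : τ → P) (col : τ → Prop) : Cfg (P ⊕ τ) where
  fA := {q | ∃ q' ∈ X.fA, q = (Sum.inl q'.1, Sum.inl q'.2)}
  fB := {q | ∃ q' ∈ X.fB, q = (Sum.inl q'.1, Sum.inl q'.2)}
  fC := {q | ∃ q' ∈ X.fC, q = (Sum.inl q'.1, Sum.inl q'.2)}
  pt := {q | (∃ q' ∈ X.pt, q = (Sum.inl q'.1, Sum.inl q'.2.1, Sum.inl q'.2.2)) ∨
    ∃ t, (col t ∧ q = (Sum.inl (ta t), Sum.inr t, Sum.inl (tn t))) ∨
      (¬ col t ∧ q = (Sum.inl (ta t), Sum.inl (tn t), Sum.inr t))}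

/-- the tokens in `s` are replaced by fibres, the other tokens by free points -/
def con {P τ : Type} (X : Cfg P) (ta tn : τ → P) (col : τ → Prop) (s : Set τ) : Cfg (P ⊕ τ) where
  fA := {q | ∃ q' ∈ X.fA, q = (Sum.inl q'.1, Sum.inl q'.2)}
  fB := {q | (∃ q' ∈ X.fB, q = (Sum.inl q'.1, Sum.inl q'.2)) ∨
    ∃ t ∈ s, col t ∧ q = (Sum.inl (ta t), Sum.inl (tn t))}
  fC := {q | (∃ q' ∈ X.fC, q = (Sum.inl q'.1, Sum.inl q'.2)) ∨
    ∃ t ∈ s, ¬ col t ∧ q = (Sum.inl (ta t), Sum.inl (tn t))}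
  pt := {q | (∃ q' ∈ X.pt, q = (Sum.inl q'.1, Sum.inl q'.2.1, Sum.inl q'.2.2)) ∨
    ∃ t, t ∉ s ∧ q = (Sum.inr t, Sum.inr t, Sum.inr t)}

/-- labels of the grid -/
inductive Lb : Type
  | row (i μ : ℕ)
  | col (l ν : ℕ)
  | aB
  | aC
  | vB (g : ℕ)
  | vC (g : ℕ)
  deriving DecidableEq

/-- the first vector of the standard B-fibre of level `ν` in column `l` -/
def cv (s l ν : ℕ) : Lb := if ν = 0 ∧ l < s then Lb.row l 0 else Lb.col l ν

/-- The grid with `j` rows, `k` columns, tangents on the cells `(p, p)`, `p < s`. Every row has `y + 1`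
C-fibres, every column `w + 1` B-fibres, except that the column `d < t` misses the level `d + 1`, which
is replaced by one point in every row. There are `nB` further B-fibres and `nC` further C-fibres. -/
def grid (j k s y w t nB nC : ℕ) : Cfg Lb where
  fA := {q | ∃ p < s, q = (Lb.row p 0, Lb.col p 0)}
  fB := {q | (∃ l < k, ∃ ν ≤ w, ¬ (l < t ∧ ν = l + 1) ∧ q = (cv s l ν, Lb.col l 0)) ∨
    ∃ g < nB, q = (Lb.aB, Lb.vB g)}
  fC := {q | (∃ i < j, ∃ μ ≤ y, q = (Lb.row i μ, Lb.row i 0)) ∨ ∃ g < nC, q = (Lb.aC, Lb.vC g)}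
  pt := {q | ∃ d < t, ∃ i < j, i ≠ d ∧ q = (Lb.col i (d + 1), Lb.row i 0, Lb.col d 0)}

/-- the first vectors which kill the cell `(i, l)` -/
def Killer (s y w t i l : ℕ) (g : Lb) : Prop :=
  g = Lb.aB ∨ (l < s ∧ i ≠ l ∧ ∃ μ, 1 ≤ μ ∧ μ ≤ y ∧ g = Lb.row l μ) ∨
    (i < s ∧ i ≠ l ∧ ∃ ν, t < ν ∧ ν ≤ w ∧ g = Lb.col i ν)

/-- the position `x` lies in the window with data `wr, p, e` -/
def PosW (wr : Prop) (p e x : ℕ) : Prop := (wr ∧ (x < e ∨ p ≤ x)) ∨ (¬ wr ∧ p ≤ x ∧ x < e)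

/-- the position `x` is allowed for the tangent of a column with window data `wr, p, e` -/
def Gap (wr : Prop) (p e x : ℕ) : Prop := e ≤ x ∧ (wr → x < p) ∧ (¬ wr → p ≤ e)

/-- A pattern on rows `R` and columns `L` with tangent cells `tg`: positions of the rows, windows of
the columns, killed cells. -/
structure Pat (R L : Type) (tg : R → L → Prop) (nB nC N : ℕ) where
  n : ℕ
  pos : R → ℕ
  wr : L → Prop
  p : L → ℕ
  e : L → ℕ
  kill : R → L → Prop
  inj : Function.Injective pos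
  pos_lt : ∀ i, pos i < n
  e_le : ∀ l, e l ≤ n
  gap : ∀ i l, tg i l → Gap (wr l) (p l) (e l) (pos i)
  rowc : ∀ i, {l | ¬ kill i l ∧ ¬ tg i l ∧ PosW (wr l) (p l) (e l) (pos i)}.ncard ≤ nB
  colc : ∀ l, {i | ¬ kill i l ∧ ¬ tg i l ∧ ¬ PosW (wr l) (p l) (e l) (pos i)}.ncard ≤ nC
  killc : {q : R × L | kill q.1 q.2}.ncard ≤ N

/-- the tokens of the grid leaf: own column tokens, foreign column tokens, row tokens -/
abbrev Tk (k s w t : ℕ) (z e : ℕ → ℕ) : Type :=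
  (Σ p : Fin s, Fin (z p)) ⊕ (Σ l : Fin (k - s), Fin (e l)) ⊕ (Fin s × Fin (w - t))

/-- first vector of a token -/
def tkA (k s y w t : ℕ) (z e : ℕ → ℕ) : Tk k s w t z e → Lb
  | Sum.inl q => Lb.row q.1 (y - q.2)
  | Sum.inr (Sum.inl _) => Lb.aB
  | Sum.inr (Sum.inr q) => Lb.col q.1 (t + 1 + q.2)

/-- column, resp. row of a token -/
def tkN (k s w t : ℕ) (z e : ℕ → ℕ) : Tk k s w t z e → Lb
  | Sum.inl q => Lb.col q.1 0
  | Sum.inr (Sum.inl q) => Lb.col (s + q.1) 0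
  | Sum.inr (Sum.inr q) => Lb.row q.1 0

/-- the column tokens -/
def tkC (k s w t : ℕ) (z e : ℕ → ℕ) : Tk k s w t z e → Prop
  | Sum.inl _ => True
  | Sum.inr (Sum.inl _) => True
  | Sum.inr (Sum.inr _) => False

/-- The numerical condition of the grid leaf. `X` = rows minus extra C-fibres, `Y` = columns minus extra
B-fibres, `w` row tokens per tangent, at most `F1` free columns with at most `n1` tokens, at most `F2`
tangent columns with at most `n2` tokens. -/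
def Corner (s X Y w F1 F2 n1 n2 : ℕ) : Prop :=
  ∀ a b1 b2 : ℕ, a ≤ s → a < X → b1 ≤ F1 → b2 ≤ F2 → b1 + b2 < Y → (w = 0 → a = 0) →
    a * (b1 + b2) + min s (a + b2) + w * a + b1 * n1 + b2 * n2 ≤ (b1 + b2) * X + a * Y

end Pool.Agent.Work.MP_f4b644_ag.Thin
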