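import Pool.Agent.Work.MP_f4b644_ag.Thin.S4
import Pool.Agent.Work.MP_f4b644_ag.Thin.S5
import Pool.Agent.Work.MP_f4b644_ag.Dag.SoundV

/-!
The assembly of the final statement from the roots.
-/

set_option autoImplicit false

namespace Pool.Agent.Work.MP_f4b644_ag.Thin

open Big Multiset Big.Gad

theorem loA_le {I J r : ℕ} (hI : 2 ≤ I) (hJ : 1 ≤ J) :
    Dag.loA I J ≤ r ↔ I * J * J ≤ r * (2 * J + I - 2) := by
  change (I * J * J + (2 * J + I - 3)) / (2 * J + I - 2) ≤ r ↔ _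
  rw [Nat.div_le_iff_le_mul_add_pred (by omega), mul_comm (2 * J + I - 2) r]
  omega

theorem lt_hiA {I J r : ℕ} : r < Dag.hiA I J ↔ r + J + I ≤ I * J + 2 := by
  change r < I * J + 3 - (J + I) ↔ _
  omega

theorem dense_of_root {I J K : ℕ} (hI : 2 ≤ I) (hIJ : I ≤ J) (hJK : J ≤ K)
    (hK : K ≤ (I - 1) * (J - 1))
    (H : ∀ r, Dag.loA I J ≤ r → r < Dag.hiA I J → Dag.Root I J r) (s : ℕ)
    (h1 : I * J * K + 2 * s ≤ s * (I + J + K))
    (h2 : s * (I + J + K) + 2 < I * J * K + 2 * s + (I + J + K)) : Dense (RankSet I J K s) := by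
  obtain ⟨m, rfl⟩ : ∃ m, I = m + 2 := ⟨I - 2, by omega⟩
  obtain ⟨j, rfl⟩ : ∃ j, J = j + 1 := ⟨J - 1, by omega⟩
  rw [show m + 2 - 1 = m + 1 by omega, Nat.add_sub_cancel] at hK
  have h3 := Top_le ((m + 2) * (j + 1)) (j + 1 + m) K s (by nlinarith) (by nlinarith)
  obtain ⟨v, hv⟩ : ∃ v, (m + 2) * (j + 1) = s + v := ⟨(m + 2) * (j + 1) - s, by omega⟩
  have h4 : K * v ≤ s * (j + 1 + m) := by
    rw [hv] at h1
    nlinarith
  refine dense_of_S (H s ((loA_le hI (by omega)).2 ?_) (lt_hiA.2 (by omega)) K ?_ (by omega))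
  · rw [show 2 * (j + 1) + (m + 2) - 2 = j + 1 + m + (j + 1) by omega, hv]
    have h5 : (j + 1) * v ≤ K * v := Nat.mul_le_mul_right _ hJK
    nlinarith
  · rw [show j + 1 + (m + 2) - 2 = j + 1 + m by omega, hv, Nat.add_sub_cancel_left]
    exact h4

theorem final_of_root (H4 : Dag.Cov Dag.loA Dag.hiA 4 4 200) (H5 : Dag.Cov Dag.loA Dag.hiA 5 5 200)
    (H : ∀ I J r, 6 ≤ I → I < 10 ^ 18 → I ≤ J → Dag.loA I J ≤ r → r < Dag.hiA I J → Dag.Root I J r) :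
    ∀ I J K : ℕ, 1 ≤ I → I ≤ J → J ≤ K → K ≤ (I - 1) * (J - 1) →
      (¬ ∃ p : ℕ, I = 3 ∧ J = 2 * p + 1 ∧ K = 2 * p + 1) →
      ∀ r : ℕ,
        (Dense {T : Fin I → Fin J → Fin K → ℂ |
            ∃ a : Fin r → Fin I → ℂ, ∃ b : Fin r → Fin J → ℂ, ∃ c : Fin r → Fin K → ℂ,
              T = fun i j k => ∑ l : Fin r, a l i * b l j * c l k}
          ↔ ⌈((I : ℝ) * J * K) / ((I : ℝ) + J + K - 2)⌉₊ ≤ r) := by
  intro I J K hI hIJ hJK hK hex r
  refine dense_iff_of_span hI (by omega) (by omega) ?_ r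
  by_cases c1 : I ≤ 2
  · interval_cases I <;> omega
  by_cases c3 : I = 3
  · subst c3
    exact dense3 hIJ hJK hK (fun ⟨p, hp⟩ => hex ⟨p, rfl, hp⟩)
  by_cases c4 : I = 4
  · subst c4
    by_cases c : 200 ≤ J
    · exact dense4 c hJK hK
    · exact dense_of_root (by omega) hIJ hJK hK (fun s => H4 J s hIJ (by omega))
  by_cases c5 : I = 5
  · subst c5
    by_cases c : 200 ≤ J
    · exact dense5 c hJK hK
    · exact dense_of_root (by omega) hIJ hJK hK (fun s => H5 J s hIJ (by omega))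
  by_cases c6 : 10 ^ 18 ≤ I
  · exact dense_big c6 hIJ hJK hK
  · exact dense_of_root (by omega) hIJ hJK hK (fun s => H I J s (by omega) (by omega) hIJ)

end Pool.Agent.Work.MP_f4b644_ag.Thin
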