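import Pool.Agent.Work.MP_f4b644_ag.Thin.M1Par

/-!
The cases `good_t1`, `good_np` and the assembly `good`; the plan is in the header of M1Par.lean.
`good`: if D > 0, k = 2 T + 1, j ≥ 3 use `good_t1`; if D > 0, 2 X = j + 1, k ≥ 3 use `good_t1` for the transposed state
(j = 2 (j - X) + 1, `Val1.tr`, `Exc1.tr`; j T < k X ↔ k (j - X) < j (k - T)); if gcd j X > 1 use `good_np`; if gcd k T > 1 use
`good_np` for the transposed state (gcd k (k - T) = gcd k T); otherwise `good_par`.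
-/

set_option autoImplicit false

namespace Pool.Agent.Work.MP_f4b644_ag.Thin

theorem M1Arith_a_cut {j1 X1 j2 X2 k T s : ℕ} (a1 : 1 ≤ j1) (a2 : 1 ≤ j2) (b1 : X1 ≤ j1) (b2 : X2 ≤ j2)
    (h : Val1 (j1 + j2) (X1 + X2) k T s) (hm : (k * X1 - j1 * T) + (k * X2 - j2 * T) ≤ s)
    (c1 : k * X1 + X1 ≤ j1 * T + 2 * j1) (c2 : k * X2 + X2 ≤ j2 * T + 2 * j2)
    (e1 : ¬ Exc1 j1 X1 k T) (e2 : ¬ Exc1 j2 X2 k T) : GoodB (j1 + j2) (X1 + X2) k T s := by
  obtain ⟨-, h2, -, h4, -, h6, h7⟩ := h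
  obtain ⟨s1, s2, f0, f1, f2, f3, f4⟩ : ∃ s1 s2, s1 + s2 = s ∧ k * X1 ≤ j1 * T + s1 ∧
      s1 + X1 ≤ 2 * j1 ∧ k * X2 ≤ j2 * T + s2 ∧ s2 + X2 ≤ 2 * j2 := by
    generalize k * X1 = P1 at *
    generalize k * X2 = P2 at *
    generalize j1 * T = Q1 at *
    generalize j2 * T = Q2 at *
    refine ⟨max (P1 - Q1) (s - (2 * j2 - X2)), s - max (P1 - Q1) (s - (2 * j2 - X2)), ?_, ?_, ?_, ?_,
      ?_⟩ <;> omega
  exact ⟨j1, X1, s1, j2, X2, s2, rfl, rfl, f0, ⟨a1, h2, b1, h4, f1, f2, by omega⟩, e1,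
    ⟨a2, h2, b2, h4, f3, f4, by omega⟩, e2⟩

theorem M1Arith_a_ne {m m' a b k T s : ℕ} (hm : 1 ≤ m) (hm' : 1 ≤ m') (ha : 1 ≤ a)
    (h : Val1 ((m + m') * a) ((m + m') * b) k T s)
    (h1 : ¬ ((m + m') * a * T < k * ((m + m') * b) ∧ k = 2 * T + 1 ∧ 3 ≤ (m + m') * a)) :
    ¬ Exc1 (m * a) (m * b) k T := by
  obtain ⟨-, -, -, -, h5, -, h7⟩ := h
  have pos : m * a * T < k * (m * b) → ∃ d, 1 ≤ d ∧ k * b = a * T + d := by
    intro q
    have q' : a * T < k * b := by
      refine Nat.lt_of_mul_lt_mul_left (a := m) ?_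
      calc m * (a * T) = m * a * T := by ring
        _ < k * (m * b) := q
        _ = m * (k * b) := by ring
    exact ⟨k * b - a * T, by omega, by omega⟩
  have key : ∀ d, k * b = a * T + d → k * (m * b) = m * a * T + m * d ∧
      k * ((m + m') * b) = (m + m') * a * T + (m * d + m' * d) := by
    intro d hd
    constructor
    · calc k * (m * b) = m * (k * b) := by ring
        _ = _ := by rw [hd]; ring
    · calc k * ((m + m') * b) = (m + m') * (k * b) := by ring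
        _ = _ := by rw [hd]; ring
  have hma : m ≤ m * a := Nat.le_mul_of_pos_right _ ha
  have hj : (m + m') * a = m * a + m' * a := by ring
  generalize hJ : m * a = J at *
  generalize hY : m * b = Y at *
  rintro (⟨e1, e2, e3, e4⟩ | ⟨e1, e2, e3, e4, e5⟩ | ⟨e1, e2, e3, e4, e5⟩)
  · have q : 2 * (k * Y) = 2 * (J * T) + (k + J) := by
      calc 2 * (k * Y) = k * (2 * Y) := by ring
        _ = _ := by rw [e1, e2]; ring
    obtain ⟨d, d1, d2⟩ := pos (by omega)
    obtain ⟨k1, k2⟩ := key d d2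
    exact h1 ⟨by omega, e2, by omega⟩
  · have q : k * Y = J * T + (J + Y) := by
      rw [e4, ← e5]
      ring
    obtain ⟨d, d1, d2⟩ := pos (by omega)
    obtain ⟨k1, k2⟩ := key d d2
    have : 1 ≤ m' * d := Nat.mul_pos hm' d1
    omega
  · have q : k * Y + 2 = J * T + 3 * T := by
      have e6 : J = 2 * T := by omega
      have e7 : (k + 1) * Y = 2 * T * Y := by rw [e3]
      rw [e5] at e7 ⊢
      rw [e6]
      nlinarith
    obtain ⟨d, d1, d2⟩ := pos (by omega)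
    obtain ⟨k1, k2⟩ := key d d2
    have q1 : d ≤ m' * d := Nat.le_mul_of_pos_left _ hm'
    have q2 : d = 1 := by omega
    rw [q2, mul_one] at k1
    omega

theorem M1Arith_a_tr {j X k T : ℕ} (hX : X ≤ j) (hT : T ≤ k) :
    k * (j - X) < j * (k - T) ↔ j * T < k * X := by
  obtain ⟨X', rfl⟩ := Nat.exists_eq_add_of_le hX
  obtain ⟨T', rfl⟩ := Nat.exists_eq_add_of_le hT
  simp only [Nat.add_sub_cancel_left, add_mul, mul_add]
  rw [mul_comm T' X', mul_comm X T', mul_comm T X', mul_comm X T]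
  omega

theorem good_t1 {j X k T s : ℕ} (h : Val1 j X k T s) (he : ¬ Exc1 j X k T) (hD : j * T < k * X)
    (ht : k = 2 * T + 1) (hj : 3 ≤ j) (hk : 2 ≤ k) : GoodB j X k T s := by
  obtain ⟨h1, h2, h3, h4, h5, h6, h7⟩ := id h
  have q0 : j * k = j + 2 * (j * T) := by
    rw [ht]
    ring
  have hx : 2 * X ≤ j := by
    by_contra c
    have c1 : 2 * X ≠ j + 1 := fun e => he (Or.inl ⟨e, ht, hj, by omega⟩)
    have c2 : k * (j + 2) ≤ k * (2 * X) := Nat.mul_le_mul_left _ (by omega)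
    have c3 : k * (j + 2) = j * k + 2 * k := by ring
    have c4 : k * (2 * X) = 2 * (k * X) := by ring
    omega
  have hX : 1 ≤ X := by
    rcases Nat.eq_zero_or_pos X with c | c
    · rw [c] at hD
      omega
    · exact c
  have c2 : k * (2 * X) ≤ k * j := Nat.mul_le_mul_left _ hx
  have c4 : k * (2 * X) = 2 * (k * X) := by ring
  have c5 : k * j = j * k := mul_comm _ _
  obtain ⟨j2, rfl⟩ : ∃ j2, j = 2 + j2 := ⟨j - 2, by omega⟩
  obtain ⟨X2, rfl⟩ : ∃ X2, X = 1 + X2 := ⟨X - 1, by omega⟩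
  have d1 : k * (1 + X2) = k + k * X2 := by ring
  have d2 : (2 + j2) * T = 2 * T + j2 * T := by ring
  refine M1Arith_a_cut (by omega) (by omega) (by omega) (by omega) h (by omega) (by omega) (by omega)
    ?_ ?_
  · unfold Exc1
    omega
  · unfold Exc1
    omega

theorem good_np {j X k T s : ℕ} (h : Val1 j X k T s) (hg : 1 < Nat.gcd j X)
    (h1 : ¬ (j * T < k * X ∧ k = 2 * T + 1 ∧ 3 ≤ j)) : GoodB j X k T s := by
  obtain ⟨a, ha⟩ := Nat.gcd_dvd_left j X
  obtain ⟨b, hb⟩ := Nat.gcd_dvd_right j X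
  generalize Nat.gcd j X = g at *
  obtain ⟨m, rfl⟩ : ∃ m, g = 1 + m := ⟨g - 1, by omega⟩
  have hm : 1 ≤ m := by omega
  obtain ⟨g1, g2, g3, g4, g5, g6, g7⟩ := id h
  have a0 : 1 ≤ a := by
    rcases Nat.eq_zero_or_pos a with c | c
    · rw [c] at ha
      omega
    · exact c
  have ba : b ≤ a := by
    refine Nat.le_of_mul_le_mul_left ?_ (by omega : 0 < 1 + m)
    rw [← ha, ← hb]
    exact g3
  have c0 : k * b + b ≤ a * T + 2 * a := by
    refine Nat.le_of_mul_le_mul_left ?_ (by omega : 0 < 1 + m)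
    have e1 : (1 + m) * (k * b + b) = k * X + X := by
      rw [hb]
      ring
    have e2 : (1 + m) * (a * T + 2 * a) = j * T + 2 * j := by
      rw [ha]
      ring
    omega
  have n1 := M1Arith_a_ne (m := 1) (m' := m) (a := a) (b := b) (k := k) (T := T) (s := s) le_rfl hm a0
    (by rw [← ha, ← hb]; exact h) (by rw [← ha, ← hb]; exact h1)
  have n2 := M1Arith_a_ne (m := m) (m' := 1) (a := a) (b := b) (k := k) (T := T) (s := s) hm le_rfl a0
    (by rw [add_comm m 1, ← ha, ← hb]; exact h) (by rw [add_comm m 1, ← ha, ← hb]; exact h1)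
  rw [one_mul, one_mul] at n1
  have ej : j = a + m * a := by
    rw [ha]
    ring
  have eX : X = b + m * b := by
    rw [hb]
    ring
  have f1 : k * (m * b) = m * (k * b) := by ring
  have f2 : m * a * T = m * (a * T) := by ring
  have f3 : k * X = k * b + m * (k * b) := by
    rw [eX]
    ring
  have f4 : j * T = a * T + m * (a * T) := by
    rw [ej]
    ring
  have f5 : m * (k * b + b) ≤ m * (a * T + 2 * a) := Nat.mul_le_mul_left _ c0
  have f6 : m * (k * b + b) = m * (k * b) + m * b := by ring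
  have f7 : m * (a * T + 2 * a) = m * (a * T) + 2 * (m * a) := by ring
  rw [ej, eX] at h ⊢
  refine M1Arith_a_cut a0 (Nat.mul_pos hm a0) ba (Nat.mul_le_mul_left _ ba) h ?_ c0 (by omega) n1 n2
  rcases le_total (k * b) (a * T) with c | c
  · have := Nat.mul_le_mul_left m c
    omega
  · have := Nat.mul_le_mul_left m c
    omega

theorem good {j X k T s : ℕ} (h : Val1 j X k T s) (he : ¬ Exc1 j X k T) (hj : 2 ≤ j) (hk : 2 ≤ k)
    (hs : 1 ≤ s) : GoodB j X k T s ∨ GoodB k (k - T) j (j - X) s := by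
  obtain ⟨g1, g2, hX, hT, -⟩ := id h
  have tr := M1Arith_a_tr hX hT
  have he' : ¬ Exc1 k (k - T) j (j - X) := fun e => he (Exc1.tr hX hT e)
  by_cases h1 : j * T < k * X ∧ k = 2 * T + 1 ∧ 3 ≤ j
  · exact Or.inl (good_t1 h he h1.1 h1.2.1 h1.2.2 hk)
  by_cases h2 : j * T < k * X ∧ 2 * X = j + 1 ∧ 3 ≤ k
  · exact Or.inr (good_t1 h.tr he' (tr.2 h2.1) (by omega) h2.2.2 hj)
  by_cases c1 : 1 < Nat.gcd j X
  · exact Or.inl (good_np h c1 h1)
  by_cases c2 : 1 < Nat.gcd k T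
  · refine Or.inr (good_np h.tr ?_ fun e => h2 ⟨tr.1 e.1, by omega, e.2.2⟩)
    rwa [Nat.gcd_self_sub_right hT]
  have p1 : 0 < Nat.gcd j X := Nat.gcd_pos_of_pos_left _ g1
  have p2 : 0 < Nat.gcd k T := Nat.gcd_pos_of_pos_left _ g2
  exact good_par h he hj hk hs (by omega) (by omega) h1 h2

end Pool.Agent.Work.MP_f4b644_ag.Thin
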