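import Mathlib

/-!
Arithmetic of the descent for first dimension 3. A state is (j, X, k, T, s); D = k X - j T (an integer), c = 2 j - X,
B = k + T. The transposed state is (k, k - T, j, j - X, s): it has the same D, and c, B are exchanged.
All statements were checked by brute force for j, k < 45.

A cut (j1, X1) + (j2, X2) with integers D1 + D2 = D, c1 + c2 = c admits a valid distribution s1 + s2 = s as soon as
max D1 0 + max D2 0 ≤ s, D1 ≤ c1, D2 ≤ c2 (`M1Arith_cut`: take s1 = max (max D1 0) (s - c2); omega after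
generalizing the products). Every exceptional state has D ≥ 3; in the second family D = B, in the third D = c, B = c + 1.

`good_t1` (D > 0, k = 2 T + 1, j ≥ 3): with x = 2 X - j we have 2 D = k x + j. x = 1 is exceptional; x ≥ 2 contradicts D ≤ B and
D ≤ c (2 k + j ≤ 3 k - 1 and 2 k + j ≤ 3 j - 2). So x ≤ 0; cut (2, 1) + (j - 2, X - 1): D1 = 1, c1 = 3, D ≤ j / 2 ≤ c - 2.
`good_np` (g = gcd j X > 1, not the case above): cut u0 + (g - 1) u0, everything is proportional. A child of the first family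
needs k = 2 T + 1, D > 0, j ≥ 3; a child of the second family has D_i = B < D; a child of the third family has coprime (j_i, X_i)
(gcd (4 a + 2) (2 a + 3) = 1), so it is u0 and the other child has D ≥ D_i > 1, contradicting D ≤ B = D_i + 1.
`good_par` (both vectors primitive): 1 ≤ X < j, 1 ≤ T < k. Bezout: a X = j X' + 1 with 1 ≤ a < j (u- = (a, X'), u+ = (j - a, X - X') = (a', X'')),
b T = k T' + 1 with 1 ≤ b < k (w- = (b, T'), w+ = (b', T - T')). Then j D- = a D - k, j D+ = a' D + k, j c+ = a' c - 1, j c- = a c + 1;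
for the cut of the transposed state along w: k D(w-) = b D + j, k D(w+) = b' D - j, k B- = b B - 1, k B+ = b' B + 1.
* D < 0: D+ ≤ 0 or D(w-) ≤ 0 (otherwise a' (-D) < k and b (-D) < j; since j ∣ a' D + k > 0 we get k ≥ j + 1, and likewise j ≥ k + 1).
* D = 0: (j, X) = (k, T) by coprimality or directly j D+ = k, k D(w-) = j, so j = k and D+ = 1 ≤ s, D- = -1.
* D > 0: the row cut works if k ≤ a D and k < a' (c - D); the column cut works if j ≤ b' D and j < b (B - D).
  If a D < k: D- < 0, so k ≥ a D + j > j. Then j ≤ b' D (otherwise j > k in the same way), and w = D u- + β u with β = - D- ≥ 1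
  (check: k = D a + β j, T = D X' + β X), so B - D ≥ j + X > j. Symmetric if b' D < j. Otherwise, if both second conditions fail:
  a' (c - D) = k + 1 - j n with n = D+ - c+ ≥ 1 and b (B - D) = j + 1 - k n' with n' ≥ 1, so |j - k| ≤ 1.
  k = j: a' = b = 1, c - D = 1, X = j - 1, T = 1, j = 3: first family. k = j + 1: B = D gives T = X - 1, c - D = j - 2 X,
  a' (j - 2 X) = 2 (j = 2 gives T = 0), a' = 1 forces X = j - 1 and j = 0, so j = 2 X + 1, and X is even because k, T are coprime: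
  second family. j = k + 1: third family.
  Children of the row cut: first family excluded by hypothesis; second family: D_i = B forces the other D = 0, so it is u-, k = a D,
  D = D+ = B = k + T, contradiction with T ≥ 1; third family (k = 4 a0 + 1, D_i = 6 a0 + 1, other D ≤ 1): if it is u+, D- = 0 gives
  k = a D > k, D- = 1 gives a (6 a0 + 1) = 8 a0 + 3; if it is u-, D+ = 1 gives a' (6 a0 + 1) = 1.
  The children of the column cut are handled by the same lemma applied to the transposed state (state a lemma `M1Arith_row` with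
  hypotheses a X = j X' + 1, k ≤ a D, k < a' (c - D), and use it twice; for the transposed state u = (k, k - T), its u- is
  (b', b' - (T - T')): b' (k - T) = k (b' - (T - T')) + 1).
(`good_t1`, `good_np`, `good` are in M1Arith.lean.)
-/

set_option autoImplicit false

namespace Pool.Agent.Work.MP_f4b644_ag.Thin

/-- valid states -/
def Val1 (j X k T s : ℕ) : Prop :=
  1 ≤ j ∧ 1 ≤ k ∧ X ≤ j ∧ T ≤ k ∧ k * X ≤ j * T + s ∧ s + X ≤ 2 * j ∧ s ≤ k + T

/-- exceptional states -/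
def Exc1 (j X k T : ℕ) : Prop :=
  (2 * X = j + 1 ∧ k = 2 * T + 1 ∧ 3 ≤ j ∧ 3 ≤ k) ∨
  (j % 4 = 1 ∧ 5 ≤ j ∧ 2 * X + 1 = j ∧ k = j + 1 ∧ T + 1 = X) ∨
  (k % 4 = 1 ∧ 5 ≤ k ∧ k + 1 = 2 * T ∧ j = k + 1 ∧ X = T + 2)

/-- there is a row cut into two valid, non exceptional states -/
def GoodB (j X k T s : ℕ) : Prop :=
  ∃ j1 X1 s1 j2 X2 s2, j1 + j2 = j ∧ X1 + X2 = X ∧ s1 + s2 = s ∧ Val1 j1 X1 k T s1 ∧ ¬ Exc1 j1 X1 k T ∧
    Val1 j2 X2 k T s2 ∧ ¬ Exc1 j2 X2 k T

theorem Val1.tr {j X k T s : ℕ} (h : Val1 j X k T s) : Val1 k (k - T) j (j - X) s := by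
  obtain ⟨h1, h2, h3, h4, h5, h6, h7⟩ := h
  obtain ⟨Y, rfl⟩ := Nat.exists_eq_add_of_le h4
  obtain ⟨S, rfl⟩ := Nat.exists_eq_add_of_le h3
  rw [Nat.add_sub_cancel_left, Nat.add_sub_cancel_left]
  refine ⟨h2, h1, by omega, by omega, by nlinarith, by omega, by omega⟩

theorem Exc1.tr {j X k T : ℕ} (hX : X ≤ j) (hT : T ≤ k) (h : Exc1 k (k - T) j (j - X)) :
    Exc1 j X k T := by
  unfold Exc1 at h ⊢
  omega

lemma M1Par_cut {j1 X1 j2 X2 k T s : ℕ} (h : Val1 (j1 + j2) (X1 + X2) k T s) (a1 : 1 ≤ j1)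
    (a2 : 1 ≤ j2) (b1 : X1 ≤ j1) (b2 : X2 ≤ j2)
    (hs : (k * X1 - j1 * T) + (k * X2 - j2 * T) ≤ s) (c1 : k * X1 + X1 ≤ j1 * T + 2 * j1)
    (c2 : k * X2 + X2 ≤ j2 * T + 2 * j2) :
    ∃ s1 s2, s1 + s2 = s ∧ Val1 j1 X1 k T s1 ∧ Val1 j2 X2 k T s2 := by
  obtain ⟨h1, h2, h3, h4, -, h6, h7⟩ := h
  unfold Val1
  generalize k * X1 = p1 at *
  generalize k * X2 = p2 at *
  generalize j1 * T = q1 at *
  generalize j2 * T = q2 at *
  exact ⟨max (p1 - q1) (s - (2 * j2 - X2)), s - max (p1 - q1) (s - (2 * j2 - X2)), by omega,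
    by omega, by omega⟩

lemma M1Par_exc {j X k T : ℕ} (h : Exc1 j X k T) : j * T + 3 ≤ k * X ∧
    ((k = 2 * T + 1 ∧ 3 ≤ j) ∨ k * X = j * T + k + T ∨
      (k + 1 = 2 * T ∧ 3 ≤ T ∧ j = 2 * T ∧ k * X + 2 = j * T + 3 * T)) := by
  rcases h with ⟨h1, rfl, h3, h4⟩ | ⟨-, h1, rfl, rfl, rfl⟩ | ⟨-, h1, h2, rfl, rfl⟩
  · refine ⟨?_, Or.inl ⟨rfl, h3⟩⟩
    have e1 : (2 * T + 1) * X = T * (2 * X) + X := by ring
    have e2 : T * (j + 1) = j * T + T := by ring
    rw [h1] at e1
    omega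
  · have e : (2 * (T + 1) + 1 + 1) * (T + 1) =
        (2 * (T + 1) + 1) * T + (2 * (T + 1) + 1 + 1) + T := by ring
    exact ⟨by omega, Or.inr (Or.inl e)⟩
  · have e1 : k * (T + 2) = k * T + 2 * k := by ring
    have e2 : (k + 1) * T = k * T + T := by ring
    exact ⟨by omega, Or.inr (Or.inr ⟨h2, by omega, h2, by omega⟩)⟩

lemma M1Par_bez {j X : ℕ} (hj : 2 ≤ j) (hX : X ≤ j) (hg : Nat.gcd j X = 1) :
    1 ≤ X ∧ X < j ∧ ∃ a a' X' X'', j = a + a' ∧ X = X' + X'' ∧ 1 ≤ a ∧ 1 ≤ a' ∧ X' ≤ a ∧ X'' ≤ a' ∧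
      a * X'' = a' * X' + 1 := by
  have h1 : 1 ≤ X := Nat.pos_of_ne_zero fun e => by
    rw [e, Nat.gcd_zero_right] at hg
    omega
  have h2 : X < j := lt_of_le_of_ne hX fun e => by
    rw [e, Nat.gcd_self] at hg
    omega
  refine ⟨h1, h2, ?_⟩
  obtain ⟨a, ha, hm⟩ := Nat.exists_mul_mod_eq_one_of_coprime (k := j) (n := X)
    (Nat.Coprime.symm hg) (by omega)
  obtain ⟨X', e⟩ : ∃ X', X * a = j * X' + 1 := ⟨X * a / j, by
    have := Nat.div_add_mod (X * a) j
    omega⟩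
  have a1 : 1 ≤ a := Nat.pos_of_ne_zero fun c => by
    rw [c] at e
    omega
  have l1 : X' < a := by
    by_contra c
    have := Nat.mul_le_mul h2.le (not_lt.1 c)
    omega
  have l2 : X' < X := by
    by_contra c
    have := Nat.mul_le_mul (not_lt.1 c) ha.le
    rw [mul_comm X' j] at this
    omega
  obtain ⟨a', rfl⟩ := Nat.exists_eq_add_of_le ha.le
  obtain ⟨X'', rfl⟩ := Nat.exists_eq_add_of_le l2.le
  have e' : a * X'' = a' * X' + 1 := by nlinarith
  refine ⟨a, a', X', X'', rfl, rfl, a1, by omega, l1.le, ?_, e'⟩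
  by_contra c
  have t1 := Nat.mul_le_mul_left a (Nat.succ_le_of_lt (not_le.1 c))
  have t2 := Nat.mul_le_mul_left a' (Nat.succ_le_of_lt l1)
  simp only [Nat.mul_succ] at t1 t2
  rw [mul_comm a' a] at t2
  omega

/-- the cut when the determinants are small -/
lemma M1Par_row0 {a a' X' X'' k T s : ℕ} (h : Val1 (a + a') (X' + X'') k T s) (hs : 1 ≤ s)
    (a1 : 1 ≤ a) (a2 : 1 ≤ a') (b1 : X' ≤ a) (b2 : X'' ≤ a') (c1 : k * X' ≤ a * T)
    (c2 : k * X'' ≤ a' * T + 1) : GoodB (a + a') (X' + X'') k T s := by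
  obtain ⟨s1, s2, e, v1, v2⟩ := M1Par_cut h a1 a2 b1 b2 (by omega) (by omega) (by omega)
  refine ⟨a, X', s1, a', X'', s2, rfl, rfl, e, v1, fun c => ?_, v2, fun c => ?_⟩
  · have := (M1Par_exc c).1
    omega
  · have := (M1Par_exc c).1
    omega

/-- the case of a nonpositive determinant -/
lemma M1Par_neg {a a' X' X'' k T : ℕ} (e : a * X'' = a' * X' + 1)
    (hD : k * (X' + X'') ≤ (a + a') * T) :
    k * X' ≤ a * T ∧ (a' * T + 1 < k * X'' → 2 * (a + a') ≤ k) := by
  zify at e hD ⊢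
  obtain ⟨D, hD'⟩ : ∃ D : ℤ, D = (a + a') * T - k * (X' + X'') := ⟨_, rfl⟩
  have d0 : 0 ≤ D := by linarith
  have a0 : (0 : ℤ) ≤ a := Int.natCast_nonneg _
  have a0' : (0 : ℤ) ≤ a' := Int.natCast_nonneg _
  have k0 : (0 : ℤ) ≤ k := Int.natCast_nonneg _
  have i1 : ((a : ℤ) + a') * (a * T - k * X') = a * D + k := by
    rw [hD']; linear_combination (k : ℤ) * e
  have i2 : ((a : ℤ) + a') * (k * X'' - a' * T) = k - a' * D := by
    rw [hD']; linear_combination (k : ℤ) * e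
  have p1 := mul_nonneg a0 d0
  have p2 := mul_nonneg a0' d0
  have a1 : (0 : ℤ) < a := by
    rcases a0.lt_or_eq with c | c
    · exact c
    · rw [← c] at e
      have := mul_nonneg a0' (Int.natCast_nonneg X')
      linarith
  refine ⟨?_, fun c => ?_⟩
  · by_contra c
    have := mul_pos (show (0 : ℤ) < a + a' by linarith) (show (0 : ℤ) < k * X' - a * T by linarith)
    linarith
  · have := mul_le_mul_of_nonneg_left (show (2 : ℤ) ≤ k * X'' - a' * T by linarith)
      (show (0 : ℤ) ≤ a + a' by linarith)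
    linarith

lemma M1Par_int {a a' k T D Dm Dp : ℤ} (a1 : 1 ≤ a) (a2 : 1 ≤ a') (hT : 1 ≤ T) (hk : 1 ≤ k)
    (hD : 0 < D) (hB : D ≤ k + T) (hs : D = Dm + Dp) (m0 : 0 ≤ Dm)
    (i1 : (a + a') * Dm = a * D - k) (i2 : (a + a') * Dp = a' * D + k) :
    1 ≤ Dp ∧ Dm ≠ k + T ∧ Dp ≠ k + T ∧ ¬ (k + 1 = 2 * T ∧ 3 ≤ T ∧ a = 2 * T ∧ Dm + 2 = 3 * T) ∧
      ¬ (k + 1 = 2 * T ∧ 3 ≤ T ∧ a' = 2 * T ∧ Dp + 2 = 3 * T) := by
  have p1 : D ≤ a * D := le_mul_of_one_le_left hD.le a1
  have p2 : D ≤ a' * D := le_mul_of_one_le_left hD.le a2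
  have d1 : 1 ≤ Dp := by
    by_contra c
    have := mul_nonneg (show 0 ≤ a + a' by linarith) (show 0 ≤ -Dp by linarith)
    linarith
  have z : Dm = 0 → D ≤ k := fun c => by
    rw [c] at i1
    linarith
  refine ⟨d1, by omega, fun c => ?_, fun ⟨c1, c2, c3, c4⟩ => ?_, fun ⟨c1, c2, c3, c4⟩ => ?_⟩
  · have := z (by omega)
    omega
  · obtain rfl : Dp = 1 := by omega
    have := mul_le_mul_of_nonneg_left (show 8 ≤ D by omega) (show 0 ≤ a' by omega)
    omega
  · by_cases c : Dm = 0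
    · have := z c
      omega
    · obtain rfl : Dm = 1 := by omega
      by_cases c' : a = 1
      · subst c'
        omega
      · have := mul_le_mul_of_nonneg_right (show 2 ≤ a by omega) (show 0 ≤ D - 1 by omega)
        have e : a * (D - 1) = a * D - a := by ring
        omega

/-- the cut when the determinant is positive -/
lemma M1Par_row {a a' X' X'' k T s : ℕ} (h : Val1 (a + a') (X' + X'') k T s) (hT : 1 ≤ T)
    (a1 : 1 ≤ a) (a2 : 1 ≤ a') (b1 : X' ≤ a) (b2 : X'' ≤ a') (e : a * X'' = a' * X' + 1)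
    (hD : (a + a') * T < k * (X' + X''))
    (h1 : ¬ ((a + a') * T < k * (X' + X'') ∧ k = 2 * T + 1 ∧ 3 ≤ a + a')) (c1 : a * T ≤ k * X')
    (c2 : k * X'' + X'' ≤ a' * T + 2 * a') : GoodB (a + a') (X' + X'') k T s := by
  have hv := h
  obtain ⟨-, v2, -, -, v5, v6, v7⟩ := hv
  have e0 : (a : ℤ) * X'' = a' * X' + 1 := by exact_mod_cast e
  have i1 : ((a : ℤ) + a') * (k * X' - a * T) = a * (k * (X' + X'') - (a + a') * T) - k := by
    linear_combination (-k : ℤ) * e0
  have i2 : ((a : ℤ) + a') * (k * X'' - a' * T) = a' * (k * (X' + X'') - (a + a') * T) + k := by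
    linear_combination (k : ℤ) * e0
  have hD' : (0 : ℤ) < k * (X' + X'') - (a + a') * T := by
    zify at hD
    linarith
  have hs' : (k : ℤ) * (X' + X'') - (a + a') * T ≤ s := by
    zify at v5
    linarith
  obtain ⟨n1, n2, n3, n4, n5⟩ := M1Par_int (a := a) (a' := a') (k := k) (T := T)
    (by exact_mod_cast a1) (by exact_mod_cast a2) (by exact_mod_cast hT) (by exact_mod_cast v2) hD'
    (by omega) (by ring) (by zify at c1; linarith) i1 i2
  have c0 : k * X' + X' ≤ a * T + 2 * a := by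
    by_contra c
    rw [not_le] at c
    zify at c v6
    have i3 : ((a : ℤ) + a') * (k * X' - a * T - (2 * a - X')) =
        -(a * (2 * (a + a') - (X' + X'') - (k * (X' + X'') - (a + a') * T))) - k - 1 := by
      linear_combination (-k - 1 : ℤ) * e0
    have t1 := mul_nonneg (show (0 : ℤ) ≤ a + a' by positivity)
      (show (0 : ℤ) ≤ k * X' - a * T - (2 * a - X') by linarith)
    have t2 := mul_nonneg (Int.natCast_nonneg a)
      (show (0 : ℤ) ≤ 2 * (a + a') - (X' + X'') - (k * (X' + X'') - (a + a') * T) by linarith)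
    have := Int.natCast_nonneg k
    linarith
  have r1 : (a + a') * T = a * T + a' * T := add_mul _ _ _
  have r2 : k * (X' + X'') = k * X' + k * X'' := mul_add _ _ _
  rw [← Nat.cast_mul, ← Nat.cast_mul] at n1 n2 n3 n4 n5
  obtain ⟨s1, s2, es, w1, w2⟩ := M1Par_cut h a1 a2 b1 b2 (by omega) c0 c2
  refine ⟨a, X', s1, a', X'', s2, rfl, rfl, es, w1, fun c => ?_, w2, fun c => ?_⟩
  · have := (M1Par_exc c).2
    omega
  · have := (M1Par_exc c).2
    omega

/-- what the failure of the two conditions of the cut gives; `D` is the determinant and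
`ε = c - D` -/
lemma M1Par_fail {a a' X' X'' k T D ε : ℕ} (a1 : 1 ≤ a) (a2 : 1 ≤ a') (e : a * X'' = a' * X' + 1)
    (hD : k * (X' + X'') = (a + a') * T + D) (hε : D + ε + (X' + X'') = 2 * (a + a')) :
    (k * X' < a * T → D + (a + a') ≤ k) ∧
    (a' * T + 2 * a' < k * X'' + X'' → a + a' + ε ≤ k + 1 ∧ (ε = 0 → k ≠ a + a') ∧
      (k = a + a' + 1 → ε = 0 → a + a' = 2) ∧ (k = a + a' + 1 → ε = 2 → a + a' ≤ X' + X'' + 1)) := by
  refine ⟨fun c => ?_, fun c => ?_⟩
  · obtain ⟨n, hn⟩ := Nat.exists_eq_add_of_lt c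
    have i1 : (a + a') * (n + 1) + a * D = k := by
      zify at e hD hn ⊢
      linear_combination (k : ℤ) * e - (a : ℤ) * hD - ((a : ℤ) + a') * hn
    have t1 := Nat.mul_le_mul_right D a1
    rw [Nat.mul_succ] at i1
    omega
  · obtain ⟨n, hn⟩ := Nat.exists_eq_add_of_lt c
    have i1 : (a + a') * (n + 1) + a' * ε = k + 1 := by
      zify at e hD hn hε ⊢
      linear_combination ((k : ℤ) + 1) * e + (a' : ℤ) * hD + (a' : ℤ) * hε - ((a : ℤ) + a') * hn
    have t1 := Nat.mul_le_mul_right ε a2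
    rw [Nat.mul_succ] at i1
    have t2 : n = 0 ∨ a + a' ≤ (a + a') * n :=
      (Nat.eq_zero_or_pos n).imp id fun c => Nat.le_mul_of_pos_right _ c
    refine ⟨by omega, ?_, ?_, ?_⟩
    · rintro rfl c'
      rcases t2 with rfl | t2 <;> omega
    · rintro c' rfl
      rcases t2 with rfl | t2 <;> omega
    · rintro c' rfl
      obtain rfl : a' = 1 := by omega
      have x1 : 1 ≤ X'' := Nat.pos_of_ne_zero fun z => by
        rw [z] at e
        omega
      have := Nat.mul_le_mul_left a x1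
      omega

lemma M1Par_near {j X T ε : ℕ} (hT : 1 ≤ T) (hg : Nat.gcd (j + 1) T = 1)
    (hD : (j + 1) * X = j * T + (j + 1 + T)) (hε : j + 1 + T + ε + X = 2 * j) (h0 : ε ≤ 2)
    (h1 : ε = 0 → j = 2) (h2 : ε = 2 → j ≤ X + 1) : Exc1 j X (j + 1) T := by
  obtain rfl : X = T + 1 := Nat.eq_of_mul_eq_mul_left (Nat.succ_pos j) (by
    rw [Nat.succ_eq_add_one, hD]; ring)
  have hodd : T % 2 = 1 := by
    by_contra c
    have := Nat.dvd_gcd (k := 2) (m := j + 1) (n := T) (by omega) (by omega)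
    rw [hg] at this
    omega
  exact Or.inr (Or.inl (by omega))

lemma M1Par_eq {j X T : ℕ} (hT' : T < j) (hD : j * X + 1 = j * T + j + T)
    (hX : X + T = j) : Exc1 j X j T := by
  have : X = T + 1 := by
    rcases lt_trichotomy X (T + 1) with c | c | c
    · have := Nat.mul_le_mul_left j (Nat.le_of_lt_succ c)
      omega
    · exact c
    · have := Nat.mul_le_mul_left j (Nat.succ_le_of_lt c)
      simp only [Nat.succ_eq_add_one, mul_add, mul_one] at this
      omega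
  rw [this, mul_add, mul_one] at hD
  exact Or.inl (by omega)

theorem good_par {j X k T s : ℕ} (h : Val1 j X k T s) (he : ¬ Exc1 j X k T) (hj : 2 ≤ j) (hk : 2 ≤ k)
    (hs : 1 ≤ s) (hg : Nat.gcd j X = 1) (hg' : Nat.gcd k T = 1)
    (h1 : ¬ (j * T < k * X ∧ k = 2 * T + 1 ∧ 3 ≤ j)) (h2 : ¬ (j * T < k * X ∧ 2 * X = j + 1 ∧ 3 ≤ k)) :
    GoodB j X k T s ∨ GoodB k (k - T) j (j - X) s := by
  have ht := h.tr
  have etr := fun c => he (Exc1.tr h.2.2.1 h.2.2.2.1 c)
  obtain ⟨-, -, v3, v4, v5, v6, v7⟩ := id h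
  have g1 : Nat.gcd k (k - T) = 1 := (Nat.coprime_self_sub_right v4).2 hg'
  have g2 : Nat.gcd j (j - X) = 1 := (Nat.coprime_self_sub_right v3).2 hg
  obtain ⟨x1, x2, a, a', X', X'', ea, eX, a1, a2, a3, a4, a5⟩ := M1Par_bez hj v3 hg
  obtain ⟨y1, y2, b, b', Y', Y'', eb, eY, b1, b2, b3, b4, b5⟩ := M1Par_bez hk (Nat.sub_le k T) g1
  have hY : k - T + T = k := by omega
  have hS : j - X + X = j := by omega
  generalize k - T = Y at *
  generalize j - X = S at *
  have hsym : j * Y + j * T = k * S + k * X := by rw [← mul_add, ← mul_add, hY, hS, mul_comm]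
  by_cases hD : j * T < k * X
  · by_cases c1 : a * T ≤ k * X' ∧ k * X'' + X'' ≤ a' * T + 2 * a'
    · left
      rw [ea, eX] at h hD h1 ⊢
      exact M1Par_row h (by omega) a1 a2 a3 a4 a5 hD h1 c1.1 c1.2
    by_cases c2 : b * S ≤ j * Y' ∧ j * Y'' + Y'' ≤ b' * S + 2 * b'
    · right
      have hD' : k * S < j * Y := by omega
      have h2' : ¬ (k * S < j * Y ∧ j = 2 * S + 1 ∧ 3 ≤ k) := by omega
      rw [eb, eY] at ht hD' h2' ⊢
      exact M1Par_row ht (by omega) b1 b2 b3 b4 b5 hD' h2' c2.1 c2.2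
    exfalso
    have c3 : k * X' < a * T ∨ a' * T + 2 * a' < k * X'' + X'' :=
      (not_and_or.1 c1).imp not_le.1 not_le.1
    have c4 : j * Y' < b * S ∨ b' * S + 2 * b' < j * Y'' + Y'' :=
      (not_and_or.1 c2).imp not_le.1 not_le.1
    clear c1 c2 h1 h2
    obtain ⟨D, eD⟩ := Nat.exists_eq_add_of_le hD.le
    obtain ⟨ε, eε⟩ := Nat.exists_eq_add_of_le (show D + X ≤ 2 * j by omega)
    obtain ⟨η, eη⟩ := Nat.exists_eq_add_of_le (show D + Y ≤ 2 * k by omega)
    have f1 := M1Par_fail (k := k) (T := T) (D := D) (ε := ε) a1 a2 a5 (by rw [← ea, ← eX]; exact eD)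
      (by omega)
    have e2 : j * Y = k * S + D := by omega
    have f2 := M1Par_fail (k := j) (T := S) (D := D) (ε := η) b1 b2 b5
      (by rw [← eb, ← eY]; exact e2) (by rw [← eb, ← eY, eη]; ring)
    rw [← ea, ← eX] at f1
    rw [← eb, ← eY] at f2
    have u1 : D + j ≤ k ∨ _ := c3.imp f1.1 f1.2
    have u2 : D + k ≤ j ∨ _ := c4.imp f2.1 f2.2
    clear f1 f2 c3 c4 ea eX eb eY a1 a2 a3 a4 a5 b1 b2 b3 b4 b5
    rcases u1 with u1 | ⟨p1, p2, p3, p4⟩
    · rcases u2 with u2 | ⟨q1, -⟩ <;> omega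
    rcases u2 with u2 | ⟨q1, q2, q3, q4⟩
    · clear p2 p3 p4
      omega
    rcases lt_trichotomy k j with c | c | c
    · clear p2 p3 p4 q2
      obtain rfl : j = k + 1 := by clear q3 q4; omega
      have r1 := q3 rfl
      have r2 := q4 rfl
      clear q3 q4
      exact etr (M1Par_near (ε := η) (by omega) g2 (by omega) (by omega) (by omega) r1 r2)
    · subst c
      clear p3 p4 q3 q4
      have r1 : ε ≠ 0 := fun z => p2 z rfl
      have r2 : η ≠ 0 := fun z => q2 z rfl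
      clear p2 q2
      exact he (M1Par_eq (by omega) (by omega) (by omega))
    · clear q2 q3 q4 p2
      obtain rfl : k = j + 1 := by clear p3 p4; omega
      have r1 := p3 rfl
      have r2 := p4 rfl
      clear p3 p4
      exact he (M1Par_near (ε := ε) (by omega) hg' (by omega) (by omega) (by omega) r1 r2)
  · obtain ⟨n1, n2⟩ := M1Par_neg (k := k) (T := T) a5 (by rw [← ea, ← eX]; omega)
    obtain ⟨m1, m2⟩ := M1Par_neg (k := j) (T := S) b5 (by rw [← eb, ← eY]; omega)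
    by_cases c1 : k * X'' ≤ a' * T + 1
    · left
      rw [ea, eX] at h ⊢
      exact M1Par_row0 h hs a1 a2 a3 a4 n1 c1
    · right
      have c2 : j * Y'' ≤ b' * S + 1 := by omega
      rw [eb, eY] at ht ⊢
      exact M1Par_row0 ht hs b1 b2 b3 b4 m1 c2

end Pool.Agent.Work.MP_f4b644_ag.Thin
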