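import Pool.Agent.Work.MP_f4b644_ag.Thin.Pattern
import Pool.Agent.Work.MP_f4b644_ag.Thin.Beatty

/-!
Patterns for arbitrary finite index types, and the extension of a pattern to dead rows and columns.

`pat_all`: j = card R, k = card L, s = number of tangent cells; s ≤ j and s ≤ k (the projections of the set of
tangent cells are injective). Enumerate the tangent cells by Fin s: injective ρ0 : Fin s → R, γ0 : Fin s → L with
tg i l ↔ ∃ p, ρ0 p = i ∧ γ0 p = l. If j ≤ nC take pos = an enumeration of R, n = j, wr = False, p = e = 0, kill = False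
(PosW is never true). If k = 0 everything is vacuous. Otherwise nC < j, k ≥ 1 and `pat_gcd` or `pat_beatty` applies
(if k ≤ nB then k (j - nC - 1) < j nB). It gives ρ, γ and a pattern on Fin j × Fin k. Choose equivalences eR : R ≃ Fin j,
eL : L ≃ Fin k with eR (ρ0 p) = ρ p, eL (γ0 p) = γ p (`Equiv.Perm.exists_extending_pair` after a first
`Fintype.equivFin`) and pull the pattern back (`Set.ncard_preimage_of_injective_subset_range`, or
`Set.ncard_image_of_injective`).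

`pat_ext`: Q is a pattern on the living rows and columns. M = j + 2. New positions: living row i:
M * Q.pos i + M - 1; dead row i: M * e' + i, where e' = Q.e l if there is a living column l with tg i l (it is unique), and
e' = 0 otherwise (i < j ≤ M - 2, so all positions are distinct; n = M * (Q.n + 1)). Columns: dead column: wr = False,
p = e = 0. Living column l whose tangent row i is dead: wr = Q.wr l, e = M * Q.e l + i,
p = max (M * Q.p l) (M * Q.e l + i + 1) if wr, and if ¬ wr: p = min (M * Q.p l) e. For a living row with Q.pos = x these data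
give PosW of the new data → PosW of the old data and conversely except when wr and Q.p l < Q.e l (then both are always
true) and when ¬ wr and Q.e l < Q.p l (then both are false); check by omega after generalizing the products with
x < x' → M x + M ≤ M x'. Other living columns: (wr, M * p, M * e). kill i l = dead i ∨ dead l ∨ Q.kill.
-/

set_option autoImplicit false

namespace Pool.Agent.Work.MP_f4b644_ag.Thin

open Big

theorem PatAll_nc {α β : Type} (e : α ≃ β) (S : Set β) : (e ⁻¹' S).ncard = S.ncard := by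
  rw [← Set.ncard_image_of_injective _ e.injective, e.image_preimage]

theorem PatAll_pull {R L R' L' : Type} (eR : R ≃ R') (eL : L ≃ L') {tg : R → L → Prop}
    {tg' : R' → L' → Prop} (h : ∀ i l, tg i l ↔ tg' (eR i) (eL l)) {nB nC N : ℕ}
    (Q : Pat R' L' tg' nB nC N) : Nonempty (Pat R L tg nB nC N) := by
  refine ⟨⟨Q.n, fun i => Q.pos (eR i), fun l => Q.wr (eL l), fun l => Q.p (eL l),
    fun l => Q.e (eL l), fun i l => Q.kill (eR i) (eL l), Q.inj.comp eR.injective,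
    fun i => Q.pos_lt _, fun l => Q.e_le _, fun i l k => Q.gap _ _ ((h i l).1 k), fun i => ?_,
    fun l => ?_, ?_⟩⟩
  · simp only [h]
    exact (PatAll_nc eL _).trans_le (Q.rowc (eR i))
  · simp only [h]
    exact (PatAll_nc eR _).trans_le (Q.colc (eL l))
  · exact (PatAll_nc (eR.prodCongr eL) _).trans_le Q.killc

theorem PatAll_ext {R : Type} [Fintype R] {s j : ℕ} (h : Fintype.card R = j) {f : Fin s → R}
    {g : Fin s → Fin j} (hf : Function.Injective f) (hg : Function.Injective g) :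
    ∃ e : R ≃ Fin j, ∀ p, e (f p) = g p := by
  obtain ⟨σ, hσ⟩ := Equiv.Perm.exists_extending_pair _ _
    ((Fintype.equivFinOfCardEq h).injective.comp hf) hg
  exact ⟨(Fintype.equivFinOfCardEq h).trans σ, hσ⟩

theorem pat_all {R L : Type} [Fintype R] [Fintype L] (tg : R → L → Prop)
    (h1 : ∀ i l l', tg i l → tg i l' → l = l') (h2 : ∀ i i' l, tg i l → tg i' l → i = i')
    (nB nC N : ℕ) (h : Fintype.card R * Fintype.card L ≤ {q : R × L | tg q.1 q.2}.ncard + N +
      Fintype.card R * nB + Fintype.card L * nC) : Nonempty (Pat R L tg nB nC N) := by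
  by_cases h0 : Fintype.card R ≤ nC ∨ IsEmpty L
  · refine ⟨⟨Fintype.card R, fun i => Fintype.equivFin R i, fun _ => False, fun _ => 0, fun _ => 0,
      fun _ _ => False, Fin.val_injective.comp (Fintype.equivFin R).injective,
      fun i => (Fintype.equivFin R i).2, fun _ => Nat.zero_le _, fun i l _ => by simp [Gap],
      fun i => by simp [PosW], fun l => ?_, by simp⟩⟩
    rcases h0 with h0 | h0
    · exact (Set.ncard_le_card _).trans (Nat.card_eq_fintype_card.trans_le h0)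
    · exact h0.elim l
  rw [not_or, not_le, not_isEmpty_iff, ← Fintype.card_pos_iff] at h0
  obtain ⟨hC, hk⟩ := h0
  obtain ⟨f⟩ : Nonempty (Fin {q : R × L | tg q.1 q.2}.ncard ≃ {q : R × L | tg q.1 q.2}) :=
    ⟨(Finite.equivFinOfCardEq (Nat.card_coe_set_eq _)).symm⟩
  generalize {q : R × L | tg q.1 q.2}.ncard = s at h f
  have f1 : Function.Injective fun p => (f p).1.1 := fun p p' k => f.injective (Subtype.ext
    (Prod.ext k (h1 (f p).1.1 _ _ (f p).2 ((show (f p).1.1 = (f p').1.1 from k) ▸ (f p').2))))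
  have f2 : Function.Injective fun p => (f p).1.2 := fun p p' k => f.injective (Subtype.ext
    (Prod.ext (h2 _ _ (f p).1.2 (f p).2 ((show (f p).1.2 = (f p').1.2 from k) ▸ (f p').2)) k))
  have hsj := Fintype.card_le_of_injective _ f1
  have hsk := Fintype.card_le_of_injective _ f2
  rw [Fintype.card_fin] at hsj hsk
  obtain ⟨ρ, γ, r1, r2, ⟨Q⟩⟩ : ∃ (ρ : Fin s → Fin (Fintype.card R)) (γ : Fin s → Fin (Fintype.card L)),
      Function.Injective ρ ∧ Function.Injective γ ∧ Nonempty (Pat (Fin (Fintype.card R))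
        (Fin (Fintype.card L)) (fun i l => ∃ p, ρ p = i ∧ γ p = l) nB nC N) := by
    generalize Fintype.card R = j at *
    generalize Fintype.card L = k at *
    rcases lt_or_ge (k * (j - nC - 1)) (j * nB) with h3 | h3
    · exact pat_gcd j k s nB nC N hsj hsk hC h3 h
    refine pat_beatty j k s nB nC N hsj hsk hC (not_le.1 fun h4 => ?_) h3 h
    have h5 := Nat.mul_le_mul_left j h4
    have h6 := Nat.mul_lt_mul_of_pos_left (show j - nC - 1 < j by omega) hk
    rw [mul_comm k j] at h6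
    omega
  obtain ⟨eR, hR⟩ := PatAll_ext rfl f1 r1
  obtain ⟨eL, hL⟩ := PatAll_ext rfl f2 r2
  refine PatAll_pull eR eL (fun i l => ⟨fun k => ⟨f.symm ⟨(i, l), k⟩, ?_, ?_⟩, ?_⟩) Q
  · rintro ⟨p, k1, k2⟩
    rw [← hR, eR.apply_eq_iff_eq] at k1
    rw [← hL, eL.apply_eq_iff_eq] at k2
    exact k1 ▸ k2 ▸ (f p).2
  · rw [← hR, f.apply_symm_apply]
  · rw [← hL, f.apply_symm_apply]

theorem PatAll_mul (M a b : ℕ) : (a < b ∧ M * a + M ≤ M * b) ∨ (b ≤ a ∧ M * b ≤ M * a) := by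
  rcases lt_or_ge a b with h | h
  exacts [.inl ⟨h, Nat.mul_le_mul_left M h⟩, .inr ⟨h, Nat.mul_le_mul_left M h⟩]

theorem PatAll_pos {j x p e d p' : ℕ} {wr wr' : Prop} (hd : d ≤ j) (h : wr' ↔ wr)
    (h1 : wr → p' = max ((j + 2) * p) ((j + 2) * e + d + 1))
    (h2 : ¬ wr → p' = min ((j + 2) * p) ((j + 2) * e + d)) :
    (PosW wr' p' ((j + 2) * e + d) ((j + 2) * x + (j + 1)) ↔ PosW wr p e x) ∧
      (Gap wr p e x → Gap wr' p' ((j + 2) * e + d) ((j + 2) * x + (j + 1))) ∧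
      Gap wr' p' ((j + 2) * e + d) ((j + 2) * e + d) := by
  have k1 := PatAll_mul (j + 2) x p
  have k2 := PatAll_mul (j + 2) x e
  by_cases k : wr
  · have := h1 k
    simp only [PosW, Gap, h, k, true_and, not_true, false_and, or_false, true_imp_iff,
      false_imp_iff, and_true]
    omega
  · have := h2 k
    simp only [PosW, Gap, h, k, true_and, not_false_iff, false_and, false_or, true_imp_iff,
      false_imp_iff]
    omega

theorem PatAll_sub {α : Type} [Finite α] {d : α → Prop} {S : Set α} {T : Set {a // ¬ d a}}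
    (h : ∀ a ∈ S, ∃ ha : ¬ d a, ⟨a, ha⟩ ∈ T) : S.ncard ≤ T.ncard := by
  rw [← Set.ncard_image_of_injective T Subtype.val_injective]
  exact Set.ncard_le_ncard fun a ha => (h a ha).elim fun k k' => ⟨_, k', rfl⟩

theorem pat_ext (j k : ℕ) (tg : Fin j → Fin k → Prop)
    (h1 : ∀ i l l', tg i l → tg i l' → l = l') (h2 : ∀ i i' l, tg i l → tg i' l → i = i')
    (dR : Fin j → Prop) (dL : Fin k → Prop) (nB nC N : ℕ)
    (Q : Pat {i // ¬ dR i} {l // ¬ dL l} (fun i l => tg i.1 l.1) nB nC N) :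
    ∃ Q' : Pat (Fin j) (Fin k) tg nB nC (j * k), ∀ i l, Q'.kill i l →
      dR i ∨ dL l ∨ ∃ (hi : ¬ dR i) (hl : ¬ dL l), Q.kill ⟨i, hi⟩ ⟨l, hl⟩ := by
  have hp : ∀ i : Fin j, ∃ a r : ℕ, a ≤ Q.n ∧ (∀ hi, a = Q.pos ⟨i, hi⟩ ∧ r = j + 1) ∧
      (dR i → r = i ∧ ∀ l hl, tg i l → a = Q.e ⟨l, hl⟩) := fun i => by
    by_cases hi : dR i
    · by_cases k : ∃ l : {l // ¬ dL l}, tg i l.1
      · obtain ⟨l, k⟩ := k
        refine ⟨Q.e l, i, Q.e_le l, fun k => absurd hi k, fun _ => ⟨rfl, fun l' hl k' => ?_⟩⟩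
        rw [show l = ⟨l', hl⟩ from Subtype.ext (h1 i _ _ k k')]
      · exact ⟨0, i, Nat.zero_le _, fun k => absurd hi k,
          fun _ => ⟨rfl, fun l hl k' => absurd ⟨⟨l, hl⟩, k'⟩ k⟩⟩
    · exact ⟨_, _, (Q.pos_lt ⟨i, hi⟩).le, fun _ => ⟨rfl, rfl⟩, fun k => absurd k hi⟩
  choose a r a1 a2 a3 using hp
  have a4 : ∀ i, r i < j + 2 := fun i => by
    by_cases hi : dR i
    · have := (a3 i hi).1
      omega
    · have := (a2 i hi).2
      omega
  have hc : ∀ l : Fin k, ∃ (w : Prop) (p e : ℕ), (dL l → ¬ w ∧ p = 0 ∧ e = 0) ∧ ∀ hl, ∃ d ≤ j,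
      (∀ i, tg i l → d = i) ∧ (w ↔ Q.wr ⟨l, hl⟩) ∧ e = (j + 2) * Q.e ⟨l, hl⟩ + d ∧
      (Q.wr ⟨l, hl⟩ → p = max ((j + 2) * Q.p ⟨l, hl⟩) ((j + 2) * Q.e ⟨l, hl⟩ + d + 1)) ∧
      (¬ Q.wr ⟨l, hl⟩ → p = min ((j + 2) * Q.p ⟨l, hl⟩) ((j + 2) * Q.e ⟨l, hl⟩ + d)) := fun l => by
    by_cases hl : dL l
    · exact ⟨False, 0, 0, fun _ => ⟨id, rfl, rfl⟩, fun k => absurd hl k⟩
    obtain ⟨d, d1, d2⟩ : ∃ d ≤ j, ∀ i, tg i l → d = i := by
      by_cases k : ∃ i, tg i l
      · obtain ⟨i, k⟩ := k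
        exact ⟨i, i.2.le, fun i' k' => congrArg Fin.val (h2 _ _ l k k')⟩
      · exact ⟨0, Nat.zero_le _, fun i k' => absurd ⟨i, k'⟩ k⟩
    by_cases k : Q.wr ⟨l, hl⟩
    · exact ⟨Q.wr ⟨l, hl⟩, max ((j + 2) * Q.p ⟨l, hl⟩) ((j + 2) * Q.e ⟨l, hl⟩ + d + 1),
        (j + 2) * Q.e ⟨l, hl⟩ + d, fun k => absurd k hl,
        fun _ => ⟨d, d1, d2, Iff.rfl, rfl, fun _ => rfl, fun k' => absurd k k'⟩⟩
    · exact ⟨Q.wr ⟨l, hl⟩, min ((j + 2) * Q.p ⟨l, hl⟩) ((j + 2) * Q.e ⟨l, hl⟩ + d),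
        (j + 2) * Q.e ⟨l, hl⟩ + d, fun k => absurd k hl,
        fun _ => ⟨d, d1, d2, Iff.rfl, rfl, fun k' => absurd k' k, fun _ => rfl⟩⟩
  choose w p e c1 c2 using hc
  have key : ∀ i l hi hl, PosW (w l) (p l) (e l) ((j + 2) * a i + r i) ↔
      PosW (Q.wr ⟨l, hl⟩) (Q.p ⟨l, hl⟩) (Q.e ⟨l, hl⟩) (Q.pos ⟨i, hi⟩) := fun i l hi hl => by
    obtain ⟨d, d1, -, d3, d4, d5, d6⟩ := c2 l hl
    rw [(a2 i hi).1, (a2 i hi).2, d4]
    exact (PatAll_pos d1 d3 d5 d6).1
  refine ⟨⟨(j + 2) * Q.n + (j + 2), fun i => (j + 2) * a i + r i, w, p, e, fun i l =>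
    dR i ∨ dL l ∨ ∃ (hi : ¬ dR i) (hl : ¬ dL l), Q.kill ⟨i, hi⟩ ⟨l, hl⟩, fun i i' hh => ?_,
    fun i => ?_, fun l => ?_, fun i l hh => ?_, fun i => ?_, fun l => ?_, ?_⟩, fun _ _ => id⟩
  · have k1 := PatAll_mul (j + 2) (a i) (a i')
    have k2 := PatAll_mul (j + 2) (a i') (a i)
    have k3 := a4 i
    have k4 := a4 i'
    dsimp only at hh
    have k5 : a i = a i' := by omega
    have k6 : r i = r i' := by
      rw [k5] at hh
      omega
    by_cases hi : dR i <;> by_cases hi' : dR i'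
    · exact Fin.ext (by rw [← (a3 i hi).1, k6, (a3 i' hi').1])
    · have := (a3 i hi).1
      have := (a2 i' hi').2
      omega
    · have := (a3 i' hi').1
      have := (a2 i hi).2
      omega
    · exact congrArg Subtype.val (Q.inj ((a2 i hi).1.symm.trans (k5.trans (a2 i' hi').1)))
  · have := Nat.mul_le_mul_left (j + 2) (a1 i)
    have := a4 i
    omega
  · by_cases hl : dL l
    · rw [(c1 l hl).2.2]
      exact Nat.zero_le _
    · obtain ⟨d, d1, -, -, d4, -⟩ := c2 l hl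
      have := Nat.mul_le_mul_left (j + 2) (Q.e_le ⟨l, hl⟩)
      omega
  · by_cases hl : dL l
    · obtain ⟨k1, k2, k3⟩ := c1 l hl
      simp [Gap, k1, k2, k3]
    obtain ⟨d, d1, d2, d3, d4, d5, d6⟩ := c2 l hl
    by_cases hi : dR i
    · rw [(a3 i hi).2 l hl hh, (a3 i hi).1, ← d2 i hh, d4]
      exact (PatAll_pos (x := 0) d1 d3 d5 d6).2.2
    · rw [(a2 i hi).1, (a2 i hi).2, d4]
      exact (PatAll_pos d1 d3 d5 d6).2.1 (Q.gap ⟨i, hi⟩ ⟨l, hl⟩ hh)
  · by_cases hi : dR i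
    · simp [hi]
    refine (PatAll_sub fun l hl => ?_).trans (Q.rowc ⟨i, hi⟩)
    obtain ⟨k1, k2, k3⟩ := hl
    have k4 : ¬ dL l := fun k => k1 (.inr (.inl k))
    exact ⟨k4, fun k => k1 (.inr (.inr ⟨hi, k4, k⟩)), k2, (key i l hi k4).1 k3⟩
  · by_cases hl : dL l
    · simp [hl]
    refine (PatAll_sub fun i hi => ?_).trans (Q.colc ⟨l, hl⟩)
    obtain ⟨k1, k2, k3⟩ := hi
    have k4 : ¬ dR i := fun k => k1 (.inl k)
    exact ⟨k4, fun k => k1 (.inr (.inr ⟨k4, hl, k⟩)), k2, fun k => k3 ((key i l k4 hl).2 k)⟩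
  · exact (Set.ncard_le_card _).trans (by simp)

end Pool.Agent.Work.MP_f4b644_ag.Thin
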