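import Pool.Agent.Work.MP_f4b644_ag.Thin.Defs
import Pool.Agent.Work.MP_f4b644_ag.Big.Trop

/-!
Existence of patterns on Fin j × Fin k. In both lemmas pos i = i, n = j, and a cyclic window with start P < j and
length L ≤ j is encoded by wr = (j ≤ P + L), p = P, e = P + L - j if wr, e = P + L otherwise; then
PosW wr p e x ↔ InW j P L x for x < j (`InW`, `ncard_InW`, `ncard_not_InW` in Big/Trop.lean). If L < j, the
positions e ≤ x < e + g are in the gap whenever g divides j, P and L (g ≥ 1).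

`pat_gcd` (short windows): X = j - nC ≥ 1, L = X - 1, D = k X - j nB < k (truncated), u = max s D ≤ k. The columns
l < u have length L, the others X. Starts are consecutive: P l = (l L + (l - u)) % j (l - u truncated). Total
length k X - u ≤ j nB, so every row is covered at most nB times (`Pattern_cover`: for lengths L l ≤ j with initial
sums A l = ∑ l' < l, L l' and P l = A l % j, the map sending a column l covering the row i to the unique
number U l ∈ [A l, A (l + 1)) with U l % j = i, and then to U l / j < nB, is injective).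
g = gcd L j (g = j if L = 0), tangent row of the column l < s: r l = (((l + 1) L) % j) + l / (j / g); note
l / (j / g) < g because l < s ≤ j. r is injective: r l % g = l / (j / g), and inside one round
(l + 1) L ≡ (l' + 1) L mod j forces l ≡ l' mod j / g (coprimality of L / g and j / g). γ l = l.
Killed cells: in the columns s ≤ l < u the cell of the row e l (one cell each, u - s ≤ N).
Column counts: l < s: j - L - 1 = nC; s ≤ l < u: the same; l ≥ u: j - X = nC.
-/

set_option autoImplicit false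

namespace Pool.Agent.Work.MP_f4b644_ag.Thin

open Big

theorem Pattern_mod {j P L : ℕ} (hP : P < j) (hL : L ≤ j) :
    (j ≤ P + L ∧ (P + L) % j + j = P + L) ∨ (P + L < j ∧ (P + L) % j = P + L) := by
  rcases le_or_gt j (P + L) with h | h
  · exact .inl ⟨h, by rw [Nat.mod_eq_sub_mod h, Nat.mod_eq_of_lt (by omega)]; omega⟩
  · exact .inr ⟨h, Nat.mod_eq_of_lt h⟩

theorem Pattern_win {j P L x : ℕ} (hP : P < j) (hL : L ≤ j) (hx : x < j) :
    PosW (j ≤ P + L) P ((P + L) % j) x ↔ InW j P L x := by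
  have := Pattern_mod hP hL
  unfold PosW InW
  omega

theorem Pattern_gap {j P L d : ℕ} (hP : P < j) (hL : L + d < j) :
    Gap (j ≤ P + L) P ((P + L) % j) ((P + L) % j + d) := by
  have := Pattern_mod hP (show L ≤ j by omega)
  unfold Gap
  omega

theorem Pattern_out {wr : Prop} {p e x : ℕ} (h : Gap wr p e x) : ¬ PosW wr p e x := by
  rintro (⟨h1, h2⟩ | ⟨-, -, h2⟩)
  · have := h.1
    have := h.2.1 h1
    omega
  · exact h2.not_ge h.1

theorem Pattern_cover {j k nB i : ℕ} {A : ℕ → ℕ} (hA : Monotone A) (hk : A k ≤ j * nB)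
    {S : Set (Fin k)} (hS : ∀ l ∈ S, ∃ q, A l ≤ j * q + i ∧ j * q + i < A (l + 1)) :
    S.ncard ≤ nB := by
  choose! q h1 h2 using hS
  refine (Set.ncard_le_ncard_of_injOn q (t := ↑(Finset.range nB)) (fun l hl => ?_)
    fun l hl l' hl' e => ?_).trans_eq (by rw [Set.ncard_coe_finset, Finset.card_range])
  · have h3 := (h2 l hl).trans_le ((hA (show (l : ℕ) + 1 ≤ k from l.2)).trans hk)
    exact Finset.mem_coe.2 (Finset.mem_range.2 (Nat.lt_of_mul_lt_mul_left (a := j) (by omega)))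
  · have key : ∀ a ∈ S, ∀ b ∈ S, q a = q b → ¬ a < b := fun a ha b hb e h =>
      ((h2 a ha).trans_le (hA (show (a : ℕ) + 1 ≤ b from h))).not_ge (e ▸ h1 b hb)
    exact le_antisymm (not_lt.1 (key l' hl' l hl e.symm)) (not_lt.1 (key l hl l' hl' e))

theorem Pattern_hit {j a L i : ℕ} (hj : 0 < j) (h : InW j (a % j) L i) :
    ∃ q, a ≤ j * q + i ∧ j * q + i < a + L := by
  have h1 := Nat.div_add_mod a j
  have h2 := Nat.mod_lt a hj
  unfold InW at h
  rcases le_or_gt (a % j) i with h3 | h3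
  · exact ⟨a / j, by omega, by omega⟩
  · exact ⟨a / j + 1, by rw [mul_add_one]; omega, by rw [mul_add_one]; omega⟩

theorem Pattern_row {j L l : ℕ} (hL : L < j) (hl : l < j) : l / (j / j.gcd L) < j.gcd L ∧
    L + l / (j / j.gcd L) < j ∧ (l + 1) * L % j + l / (j / j.gcd L) < j := by
  have h1 : l / (j / j.gcd L) < j.gcd L :=
    Nat.div_lt_of_lt_mul (by rwa [Nat.div_mul_cancel (Nat.gcd_dvd_left j L)])
  have h2 : ∀ x < j, j.gcd L ∣ x → x + l / (j / j.gcd L) < j := fun x hx h => by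
    have := Nat.le_of_dvd (by omega) (Nat.dvd_sub (Nat.gcd_dvd_left j L) h)
    omega
  exact ⟨h1, h2 L hL (Nat.gcd_dvd_right j L), h2 _ (Nat.mod_lt _ (by omega))
    ((Nat.dvd_mod_iff (Nat.gcd_dvd_left j L)).2 ((Nat.gcd_dvd_right j L).mul_left _))⟩

theorem Pattern_inj {j L l l' : ℕ} (hL : L < j) (hl : l < j) (hl' : l' < j)
    (h : (l + 1) * L % j + l / (j / j.gcd L) = (l' + 1) * L % j + l' / (j / j.gcd L)) : l = l' := by
  have h1 : ∀ a < j, ((a + 1) * L % j + a / (j / j.gcd L)) % j.gcd L = a / (j / j.gcd L) :=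
    fun a ha => by
      rw [Nat.add_mod, Nat.mod_eq_zero_of_dvd ((Nat.dvd_mod_iff (Nat.gcd_dvd_left j L)).2
        ((Nat.gcd_dvd_right j L).mul_left _)), zero_add, Nat.mod_mod,
        Nat.mod_eq_of_lt (Pattern_row hL ha).1]
  have h2 : l / (j / j.gcd L) = l' / (j / j.gcd L) := by rw [← h1 l hl, h, h1 l' hl']
  rw [h2] at h
  have h3 := Nat.ModEq.add_right_cancel' 1
    (Nat.ModEq.cancel_right_div_gcd (by omega) (Nat.add_right_cancel h))
  rw [← Nat.div_add_mod l (j / j.gcd L), h2, h3, Nat.div_add_mod]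

theorem pat_gcd (j k s nB nC N : ℕ) (hsj : s ≤ j) (hsk : s ≤ k) (hC : nC < j)
    (h1 : k * (j - nC - 1) < j * nB) (h2 : j * k ≤ s + N + j * nB + k * nC) :
    ∃ (ρ : Fin s → Fin j) (γ : Fin s → Fin k), Function.Injective ρ ∧ Function.Injective γ ∧
      Nonempty (Pat (Fin j) (Fin k) (fun i l => ∃ p, ρ p = i ∧ γ p = l) nB nC N) := by
  obtain ⟨L, rfl⟩ : ∃ L, j = nC + L + 1 := ⟨j - nC - 1, by omega⟩
  rw [show nC + L + 1 - nC - 1 = L by omega] at h1
  obtain ⟨u, u1, u2, u3, u4⟩ : ∃ u, s ≤ u ∧ u ≤ k ∧ u ≤ s + N ∧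
      k * L + (k - u) ≤ (nC + L + 1) * nB := by
    have : (nC + L + 1) * k = k * nC + k * L + k := by ring
    exact ⟨max s (k * L + k - (nC + L + 1) * nB), by omega, by omega, by omega, by omega⟩
  clear h1 h2
  generalize hj : nC + L + 1 = j at *
  have j0 : 0 < j := by omega
  have hL : L < j := by omega
  obtain ⟨len, l1, l2⟩ : ∃ len : ℕ → ℕ, (∀ l < u, len l = L) ∧ ∀ l, u ≤ l → len l = L + 1 :=
    ⟨fun l => if l < u then L else L + 1, fun l h => if_pos h, fun l h => if_neg h.not_gt⟩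
  have l3 : ∀ l, len l ≤ j := fun l => by
    rcases lt_or_ge l u with h | h
    exacts [(l1 l h).trans_le hL.le, (l2 l h).trans_le hL]
  obtain ⟨A, a0⟩ : ∃ A : ℕ → ℕ, ∀ l, A l = l * L + (l - u) := ⟨_, fun _ => rfl⟩
  have a1 : ∀ l, A (l + 1) = A l + len l := fun l => by
    rw [a0, a0, add_one_mul]
    rcases lt_or_ge l u with h | h
    · rw [l1 l h]
      omega
    · rw [l2 l h]
      omega
  have a2 : ∀ l < s, (A l % j + len l) % j = (l + 1) * L % j := fun l h => by
    rw [Nat.mod_add_mod, ← a1, a0, show l + 1 - u = 0 by omega, add_zero]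
  have hP : ∀ l, A l % j < j := fun l => Nat.mod_lt _ j0
  have g1 : ∀ l < s, Gap (j ≤ A l % j + len l) (A l % j) ((A l % j + len l) % j)
      ((l + 1) * L % j + l / (j / j.gcd L)) := fun l h => by
    rw [← a2 l h]
    refine Pattern_gap (hP l) ?_
    rw [l1 l (h.trans_le u1)]
    exact (Pattern_row hL (h.trans_le hsj)).2.1
  refine ⟨fun p => ⟨(p + 1) * L % j + p / (j / j.gcd L), (Pattern_row hL (p.2.trans_le hsj)).2.2⟩,
    Fin.castLE hsk, fun p p' h => Fin.ext (Pattern_inj hL (p.2.trans_le hsj) (p'.2.trans_le hsj)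
      (congrArg Fin.val h)), Fin.castLE_injective hsk, ⟨⟨j, Fin.val, fun l => j ≤ A l % j + len l,
    fun l => A l % j, fun l => (A l % j + len l) % j,
    fun i l => s ≤ l ∧ l < u ∧ (i : ℕ) = (A l % j + len l) % j, Fin.val_injective, Fin.is_lt,
    fun l => (Nat.mod_lt _ j0).le, ?_, fun i => ?_, fun l => ?_, ?_⟩⟩⟩
  · rintro _ _ ⟨p, rfl, rfl⟩
    exact g1 p p.2
  · refine Pattern_cover (monotone_nat_of_le_succ fun l => (a1 l).ge.trans' (Nat.le_add_right _ _))
      ((a0 k).trans_le u4) (i := i) fun l hl => ?_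
    rw [a1]
    exact Pattern_hit j0 ((Pattern_win (hP l) (l3 l) i.2).1 hl.2.2)
  · have h3 := ncard_not_InW j _ _ (hP l) (l3 l)
    rcases lt_or_ge (l : ℕ) u with h | h
    · obtain ⟨x, x1, x2⟩ : ∃ x : Fin j, Gap (j ≤ A l % j + len l) (A l % j)
          ((A l % j + len l) % j) x ∧ ((s ≤ l ∧ l < u ∧ (x : ℕ) = (A l % j + len l) % j) ∨
          ∃ hl : (l : ℕ) < s, (x : ℕ) = (l + 1) * L % j + l / (j / j.gcd L)) := by
        rcases lt_or_ge (l : ℕ) s with h4 | h4
        · exact ⟨⟨_, (Pattern_row hL (h4.trans_le hsj)).2.2⟩, g1 l h4, .inr ⟨h4, rfl⟩⟩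
        · exact ⟨⟨_, Nat.mod_lt _ j0⟩, Pattern_gap (d := 0) (hP l) ((l1 l h).trans_lt hL),
            .inl ⟨h4, h, rfl⟩⟩
      have h4 := Set.ncard_sdiff_singleton_of_mem (s := {i : Fin j | ¬ InW j (A l % j) (len l) i})
        (a := x) fun k => Pattern_out x1 ((Pattern_win (hP l) (l3 l) x.2).2 k)
      rw [h3, l1 l h] at h4
      refine le_of_le_of_eq (Set.ncard_le_ncard fun i hi => ?_) (h4.trans (by omega))
      refine ⟨fun k => hi.2.2 ?_, ?_⟩
      · exact (Pattern_win (hP l) (l3 l) i.2).2 (by rwa [l1 l h])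
      · rintro rfl
        exact x2.elim hi.1 fun ⟨k1, k2⟩ => hi.2.1 ⟨⟨l, k1⟩, Fin.ext k2.symm, rfl⟩
    · refine le_of_le_of_eq (Set.ncard_le_ncard fun i hi => ?_) (h3.trans (by rw [l2 l h]; omega))
      exact fun k => hi.2.2 ((Pattern_win (hP l) (l3 l) i.2).2 k)
  · refine (Set.ncard_le_ncard_of_injOn (fun q => (q.2 : ℕ)) (t := ↑(Finset.Ico s u))
      (fun q hq => Finset.mem_coe.2 (Finset.mem_Ico.2 ⟨hq.1, hq.2.1⟩)) fun q hq q' hq' e => ?_).trans
      (by rw [Set.ncard_coe_finset, Nat.card_Ico]; omega)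
    have e' : q.2 = q'.2 := Fin.ext e
    exact Prod.ext (Fin.ext (by rw [hq.2.2, hq'.2.2, e'])) e'

end Pool.Agent.Work.MP_f4b644_ag.Thin
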