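import Pool.Agent.Work.MP_f4b644_ag.Thin.QTop

/-!
The block with a sink. Hinge every T 0 0 with y and every T 1 0 with y - 1 copies of CP 1 (`S.hingeT`), obtaining
T 0 y and T 1 (y - 1). `S.splitB` into the top part `QTop` (height s) and the sink `S_sink` (height js): a tangent
T u0 (z + d) which keeps z tokens gives (T (u0 + d) z, BP d) by `ruleB_T`; e1 of the BP 1 give (BP 1, BP 0), the others
(BP 0, BP 1); all CP 2 go to the sink. If q = 0 the strip contains the u tangents T 1 0 (they keep no token) and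
s' - u tangents T 0 0 keeping z ≤ z0 tokens, in total E2 (`tok_take` applied to replicate (s' - u) z0, or the multiset
with E2 / z0 entries z0, one entry E2 % z0 and zeros). If 1 ≤ q the tangents T 1 0 lie in the full part; e2 = e2a + e2b
tangents of the full part keep one token, e2a = min e2 (q k - u) of type T 0 y and e2b of type T 1 (y - 1) (e2b = 0
unless 2 ≤ y). The tokens of the sink are at most y each and sum to y s + e - u - e1 - e2 - E2.
-/

set_option autoImplicit false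

namespace Pool.Agent.Work.MP_f4b644_ag.Thin

open Big Multiset Big.Gad

theorem Q_Z (n z0 E : ℕ) (h : E ≤ z0 * n) :
    ∃ Z : Multiset ℕ, Z.card = n ∧ (∀ z ∈ Z, z ≤ z0) ∧ Z.sum = E := by
  obtain ⟨Q, hQ, hE⟩ := tok_take (replicate n z0) E (by simpa [mul_comm] using h)
  refine ⟨Q.map (fun q => q.1), ?_, ?_, hE⟩
  · have := congrArg Multiset.card hQ
    simpa using this
  · intro z hz
    obtain ⟨q, hq, rfl⟩ := Multiset.mem_map.1 hz
    have h1 : q.1 + q.2 ∈ replicate n z0 := hQ ▸ Multiset.mem_map_of_mem _ hq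
    have := Multiset.eq_of_mem_replicate h1
    omega

theorem Q_sum (y : ℕ) (Z : Multiset ℕ) (h : ∀ z ∈ Z, z ≤ y) :
    (Z.map (fun z => y - z)).sum + Z.sum = Z.card * y := by
  induction Z using Multiset.induction_on with
  | empty => simp
  | cons a Z ih =>
    have h1 := ih (fun z hz => h z (Multiset.mem_cons_of_mem hz))
    have h2 := h a (Multiset.mem_cons_self a Z)
    simp only [Multiset.map_cons, Multiset.sum_cons, Multiset.card_cons, add_mul, one_mul]
    omega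

theorem Q_rule (u0 z d y0 y1 : ℕ) (h0 : y0 = z + d) (h1 : y1 = u0 + d) :
    Rule Dir.B (T u0 y0) (T y1 z) (BP d) := by
  subst h0 h1
  exact ruleB_T u0 z d

theorem Q_splT1 (y n : ℕ) (h : 2 ≤ y ∨ n = 0) :
    Spl Dir.B (replicate n (T 1 (y - 1))) (replicate n (T (y - 1) 1)) (replicate n (BP (y - 2))) := by
  rcases h with h | h
  · exact Spl.rep (Q_rule 1 1 (y - 2) _ _ (by omega) (by omega)) n
  · subst h
    exact Spl.zero

theorem Q_spl (y a0 e2a a1 e2b u' b0 e1 e' G f1 f2 : ℕ) (Z1 : Multiset ℕ) (hy : 1 ≤ y)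
    (hZ : ∀ z ∈ Z1, z ≤ y) (h2 : 2 ≤ y ∨ e2b = 0) :
    Spl Dir.B (replicate (a0 + e2a + Z1.card) (T 0 y) + (replicate (a1 + e2b + u') (T 1 (y - 1)) +
        (replicate b0 (BP 0) + replicate (e1 + e') (BP 1) + replicate G (CP 2) +
          replicate (f1 + f2) (CP 1))))
      (replicate (a0 + a1) (T y 0) + replicate (e2a + e2b) (T (y - 1) 1) +
        (replicate u' 0 + Z1).map (fun z => T (y - z) z) + replicate (b0 + e') (BP 0) +
        replicate e1 (BP 1) + replicate f1 (CP 1))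
      ((replicate a0 y + replicate e2a (y - 1) + Z1.map (fun z => y - z) + replicate a1 (y - 1) +
        replicate e2b (y - 2) + replicate u' (y - 1) + replicate b0 0 + replicate e1 0 +
        replicate e' 1).map BP + replicate G (CP 2) + replicate f2 (CP 1)) := by
  have s1 := Spl.rep (Q_rule 0 0 y y y (by omega) (by omega)) a0
  have s2 := Spl.rep (Q_rule 0 1 (y - 1) y (y - 1) (by omega) (by omega)) e2a
  have s3 := Spl.map (d := Dir.B) Z1 (fun _ => T 0 y) (fun z => T (y - z) z) (fun z => BP (y - z))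
    (fun z hz => Q_rule 0 z (y - z) y (y - z) (by have := hZ z hz; omega) (by omega))
  have s4 := Spl.rep (Q_rule 1 0 (y - 1) (y - 1) y (by omega) (by omega)) a1
  have s5 := Q_splT1 y e2b h2
  have s6 := Spl.rep (Q_rule 1 0 (y - 1) (y - 1) y (by omega) (by omega)) u'
  have s7 := Spl.rep (ruleB_BP 0 0) b0
  have s8 := Spl.rep (ruleB_BP 1 0) e1
  have s9 := Spl.rep (ruleB_BP 0 1) e'
  have s10 := Spl.repR (ruleB_CP 2).symm G
  have s11 := Spl.repL (ruleB_CP 1) f1
  have s12 := Spl.repR (ruleB_CP 1).symm f2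
  refine Spl.of_eq (((((((((((s1.add s2).add s3).add s4).add s5).add s6).add s7).add s8).add s9).add
    s10).add s11).add s12) ?_ ?_ ?_
  · simp only [replicate_add, Multiset.map_const', Nat.add_zero, Nat.zero_add]
    abel
  · simp only [replicate_add, Multiset.map_add, Multiset.map_replicate, Nat.sub_zero]
    abel
  · simp only [Multiset.map_add, Multiset.map_replicate, Multiset.map_map, Function.comp_def]
    abel

theorem Q_hinge {I J K : ℕ} (y s0 u b e G F f : ℕ) (hF : F = s0 * y + u * (y - 1) + f)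
    (H : S I J K (replicate s0 (T 0 y) + (replicate u (T 1 (y - 1)) +
      (replicate b (BP 0) + replicate e (BP 1) + replicate G (CP 2) + replicate f (CP 1))))) :
    BS I J K s0 u b e G F := by
  have H1 := S.hingeT s0 0 y _ H
  have H2 : S I J K (replicate u (T 1 (y - 1)) + (replicate s0 (T 0 0) + replicate (s0 * y) (CP 1) +
      (replicate b (BP 0) + replicate e (BP 1) + replicate G (CP 2) + replicate f (CP 1)))) :=
    S.of_eq (by abel) H1
  have H3 := S.hingeT u 1 (y - 1) _ H2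
  subst hF
  refine S.of_eq ?_ H3
  simp only [replicate_add]
  abel

theorem Q_core (m k Tt w y T' c q s' X' c' z0 e1 E2 js Xs G f a0 e2a a1 e2b u' b0 e' : ℕ)
    (Z1 : Multiset ℕ) (hm : m = y + w + 1) (hy : 1 ≤ y) (hT : Tt + w = w * k + T')
    (hc : c + T' + 1 = k) (hw : w ≤ k) (ha : a0 + a1 + (e2a + e2b) = q * k) (hZc : u' + Z1.card = s')
    (hZ : ∀ z ∈ Z1, z ≤ z0) (hZs : Z1.sum = E2) (hz0 : z0 ≤ y) (hk : s' + e1 + (e2a + e2b) ≤ k)
    (hX' : X' + c' = s') (hE : k * X' ≤ s' * (T' + 1) + (e1 + (e2a + e2b) + E2))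
    (h1 : 1 ≤ X' ∨ e1 + (e2a + e2b) = 0) (h2 : z0 + 1 ≤ X' ∨ E2 = 0) (hy2 : 2 ≤ y ∨ e2b = 0)
    (hb : b0 + e' + e1 + q * k + s' = k + Tt) (hjs : 1 ≤ js) (hG : G ≤ js)
    (hXs : Xs + js ≤ m * js) (hf : 2 * G + f + Xs = (m + 1) * js) (hyX : y ≤ Xs)
    (hD : k * Xs + (a1 + e2b + u') + (e1 + (e2a + e2b) + E2) ≤
      js * Tt + y * (q * k + s') + (e1 + e')) :
    S (m + 2) (q * k + s' + js) k (replicate (a0 + e2a + Z1.card) (T 0 y) +
      (replicate (a1 + e2b + u') (T 1 (y - 1)) + (replicate b0 (BP 0) + replicate (e1 + e') (BP 1) +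
        replicate G (CP 2) + replicate (q * c + c' + f) (CP 1)))) := by
  have hZy : ∀ z ∈ Z1, z ≤ y := fun z hz => (hZ z hz).trans hz0
  have hsum : (replicate u' 0 + Z1).sum = E2 := by simp [hZs]
  have htop := QTop k Tt w y T' c q s' X' c' z0 e1 (e2a + e2b) (a0 + a1) (b0 + e')
    (replicate u' 0 + Z1) hy hT hc hw ha (by simp [hZc]) (by
      intro z hz
      rcases Multiset.mem_add.1 hz with hz | hz
      · have := Multiset.eq_of_mem_replicate hz
        omega
      · exact hZ z hz) hz0 hk hX' (by rw [hsum]; exact hE) h1 (by rw [hsum]; exact h2) hb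
  have hI : y + w + 3 = m + 2 := by omega
  rw [hI] at htop
  refine S.splitB (Q_spl y a0 e2a a1 e2b u' b0 e1 e' G (q * c + c') f Z1 hy hZy hy2) htop ?_
  have hS := Q_sum y Z1 hZy
  refine S_sink m js Xs k G f _ (by omega) hjs hG hXs hf ?_ ?_ ?_
  · intro x hx
    left
    simp only [Multiset.mem_add, Multiset.mem_replicate, Multiset.mem_map] at hx
    rcases hx with (((((((hx | hx) | ⟨z, _, hx⟩) | hx) | hx) | hx) | hx) | hx) | hx <;> omega
  · simp only [Multiset.card_add, Multiset.card_replicate, Multiset.card_map]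
    omega
  · simp only [Multiset.card_add, Multiset.card_replicate, Multiset.card_map, Multiset.sum_add,
      Multiset.sum_replicate, smul_eq_mul]
    have hc' : a0 + e2a + Z1.card + a1 + e2b + u' + b0 + e1 + e' = k + Tt := by omega
    rw [hc']
    obtain ⟨y1, rfl⟩ : ∃ y1, y = y1 + 1 := ⟨y - 1, by omega⟩
    have h3 : e2b * (y1 + 1 - 2) + e2b = e2b * y1 := by
      rcases hy2 with h | h
      · obtain ⟨y2, rfl⟩ : ∃ y2, y1 = y2 + 1 := ⟨y1 - 1, by omega⟩
        have : y2 + 1 + 1 - 2 = y2 := by omega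
        rw [this]
        ring
      · subst h
        simp
    rw [← ha, ← hZc] at hD
    rw [hZs] at hS
    simp only [Nat.add_sub_cancel] at hS ⊢
    nlinarith [hS, hD, h3]
theorem V_Q (m j X k Tt s u e G w y T' q s' X' z0 e1 e2 E2 js Xs : ℕ) (hm : m = y + w + 1)
    (hy : 1 ≤ y) (hT : Tt + w = w * k + T') (hT' : T' + 1 ≤ k) (hw : w ≤ k)
    (hs : s = q * k + s') (hj : j = s + js) (hjs : 1 ≤ js) (hX' : X' ≤ s')
    (hX : X = q * (Tt + w + 1) + w * s' + X' + Xs)
    (hE : k * X' ≤ s' * (T' + 1) + (e1 + e2 + E2)) (he1 : e1 ≤ e) (hk : s' + e1 + e2 ≤ k)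
    (hq : (q = 0 ∧ e2 = 0 ∧ u ≤ s' ∧ E2 ≤ z0 * (s' - u)) ∨
      (1 ≤ q ∧ u ≤ q * k ∧ (e2 + u ≤ q * k ∨ 2 ≤ y) ∧ E2 ≤ z0 * s'))
    (hz0 : z0 ≤ y) (h1 : 1 ≤ X' ∨ e1 + e2 = 0) (h2 : z0 + 1 ≤ X' ∨ E2 = 0)
    (hB : s + e ≤ k + Tt) (hG : G ≤ js) (hXs : Xs + js ≤ m * js) (hyX : y ≤ Xs)
    (hD : k * Xs + u + (e1 + e2 + E2) ≤ js * Tt + y * s + e) :
    V m j X k Tt s u e G := by
  obtain ⟨c, hc⟩ : ∃ c, c + T' + 1 = k := ⟨k - T' - 1, by omega⟩
  obtain ⟨c', hc'⟩ : ∃ c', X' + c' = s' := ⟨s' - X', by omega⟩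
  obtain ⟨e', rfl⟩ : ∃ e', e = e1 + e' := ⟨e - e1, by omega⟩
  obtain ⟨b0, hb0⟩ : ∃ b0, b0 + e' + e1 + q * k + s' = k + Tt := ⟨k + Tt - s - (e1 + e'), by omega⟩
  have hmj : (m + 1) * js = m * js + js := by ring
  obtain ⟨f, hf⟩ : ∃ f, 2 * G + f + Xs = (m + 1) * js := ⟨(m + 1) * js - Xs - 2 * G, by omega⟩
  obtain ⟨a0, e2a, a1, e2b, u', Z1, ha, hu, he2, hy2, hZc, hZ, hZs⟩ :
      ∃ (a0 e2a a1 e2b u' : ℕ) (Z1 : Multiset ℕ), a0 + a1 + (e2a + e2b) = q * k ∧ u = a1 + e2b + u' ∧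
        e2 = e2a + e2b ∧ (2 ≤ y ∨ e2b = 0) ∧ u' + Z1.card = s' ∧ (∀ z ∈ Z1, z ≤ z0) ∧ Z1.sum = E2 := by
    rcases hq with ⟨hq0, he0, hus, hE2⟩ | ⟨hq1, huq, he, hE2⟩
    · obtain ⟨Z1, hZc, hZ, hZs⟩ := Q_Z (s' - u) z0 E2 hE2
      refine ⟨0, 0, 0, 0, u, Z1, by simp [hq0], by omega, by omega, Or.inr rfl, by omega, hZ, hZs⟩
    · obtain ⟨Z1, hZc, hZ, hZs⟩ := Q_Z s' z0 E2 hE2
      have hkq : k ≤ q * k := Nat.le_mul_of_pos_left k hq1
      by_cases hh : e2 + u ≤ q * k
      · exact ⟨q * k - u - e2, e2, u, 0, 0, Z1, by omega, by omega, by omega, Or.inr rfl, by omega,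
          hZ, hZs⟩
      · exact ⟨0, q * k - u, q * k - e2, e2 + u - q * k, 0, Z1, by omega, by omega, by omega,
          Or.inl (by omega), by omega, hZ, hZs⟩
  subst hu he2
  have hcore := Q_core m k Tt w y T' c q s' X' c' z0 e1 E2 js Xs G f a0 e2a a1 e2b u' b0 e' Z1 hm hy hT
    hc hw ha hZc hZ hZs hz0 hk hc' hE h1 h2 hy2 hb0 hjs hG hXs hf hyX (by rw [← hs]; exact hD)
  obtain ⟨y1, rfl⟩ : ∃ y1, y = y1 + 1 := ⟨y - 1, by omega⟩
  have hs0 : s = a0 + e2a + Z1.card + (a1 + e2b + u') := by omega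
  have key : s + (a1 + e2b + u') + 2 * G + X + ((a0 + e2a + Z1.card) * (y1 + 1) +
      (a1 + e2b + u') * y1 + (q * c + c' + f)) = (m + 1) * j := by
    have e1' : (m + 1) * j = (m + 1) * s + (m + 1) * js := by rw [hj]; ring
    have e2' : (m + 1) * s = (y1 + 1) * s + 2 * s + w * (q * k + s') := by rw [hm, ← hs]; ring
    have e3' : q * (Tt + w + 1) + q * c = q * k + w * (q * k) := by
      rw [hT, ← hc]
      ring
    have e4' : (y1 + 1) * s = (a0 + e2a + Z1.card) * (y1 + 1) + (a1 + e2b + u') * y1 +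
        (a1 + e2b + u') := by
      rw [hs0]
      ring
    have e5' : w * (q * k + s') = w * (q * k) + w * s' := by ring
    omega
  refine ⟨by omega, hB, by omega, ?_⟩
  rw [show s - (a1 + e2b + u') = a0 + e2a + Z1.card by omega,
    show k + Tt - s - (e1 + e') = b0 by omega, hj, hs]
  refine Q_hinge (y1 + 1) _ _ _ _ _ _ (q * c + c' + f) ?_ hcore
  rw [← hs, ← hj, Nat.add_sub_cancel]
  omega

end Pool.Agent.Work.MP_f4b644_ag.Thin
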