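import Pool.Agent.Work.MP_f4b644_ag.Thin.Leaf

/-!
The part of a block which carries the tangents: q full strips of height k and one strip of height s'.

`QTop_full`: induction on q with `S.splitB` (T y 0 ↦ (T y 0, BP 0) or (BP 0, T y 0), BP 0 ↦ (BP 0, BP 0), CP 1 to one
side); one strip is `S_A0` with j = k, Z = replicate k 0, e = 0, z0 = 0, nB = T' and nC = c (c + T' + 1 = k), b = Tt.
`QTop`: `S.splitB` into the full part and the strip `S_A0` with j = s', e = e1 + e2, nB = T', nC = c';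
T (y - 1) 1 ↦ (T y 0, BP 1) by `ruleB_T (y - 1) 0 1`, BP 1 ↦ (BP 0, BP 1), the tangents of Z are BP 0 in the full part.
-/

set_option autoImplicit false

namespace Pool.Agent.Work.MP_f4b644_ag.Thin

open Big Multiset Big.Gad

theorem QTop_full (k Tt w y T' c q b : ℕ) (hy : 1 ≤ y) (hT : Tt + w = w * k + T') (hc : c + T' + 1 = k)
    (hw : w ≤ k) (hb : b + q * k = k + Tt) :
    S (y + w + 3) (q * k) k (replicate (q * k) (T y 0) + replicate b (BP 0) +
      replicate (q * c) (CP 1)) := by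
  have rT : Rule Dir.B (T y 0) (T y 0) (BP 0) := ruleB_T y 0 0
  have rB : Rule Dir.B (BP 0) (BP 0) (BP 0) := ruleB_BP 0 0
  have rC : Rule Dir.B (CP 1) (CP 1) (CP 0) := ruleB_CP 1
  induction q generalizing b with
  | zero =>
    have h := S_A0 0 k b 0 y w T' 0 0 0 hy rfl (by simp) (Nat.zero_le _) (by omega) hw
      (by rw [add_mul]; omega) (by simp) (Or.inr rfl) (Or.inr rfl)
    simpa using h
  | succ q ih =>
    have e1 : (q + 1) * k = q * k + k := by ring
    have e2 : (q + 1) * c = q * c + c := by ring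
    have hk : k * k = k + k * T' + k * c := by
      conv_lhs => rw [← hc]
      rw [← hc]; ring
    have h1 := ih (k + b) (by omega)
    have h2 := S_A0 k k (q * k + b) 0 y w T' c 0 (replicate k 0) hy (by simp)
      (fun z hz => (eq_of_mem_replicate hz).le) (Nat.zero_le _) (by omega) hw
      (by rw [add_mul]; omega) (by omega) (Or.inr rfl) (Or.inr (by simp))
    rw [e1, e2]
    refine S.splitB (Spl.of_eq (((((Spl.rep rT (q * k)).add (Spl.rep rT.symm k)).add
      (Spl.rep rB b)).add (Spl.repL rC (q * c))).add (Spl.repR rC.symm c)) ?_ ?_ ?_) h1 h2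
    · simp only [replicate_add]; abel
    · simp only [replicate_add]; abel
    · simp only [replicate_add, map_replicate, Nat.sub_zero, replicate_zero]; abel

theorem QTop (k Tt w y T' c q s' X' c' z0 e1 e2 a b : ℕ) (Z : Multiset ℕ) (hy : 1 ≤ y)
    (hT : Tt + w = w * k + T') (hc : c + T' + 1 = k) (hw : w ≤ k) (ha : a + e2 = q * k)
    (hZ : Z.card = s') (hz : ∀ z ∈ Z, z ≤ z0) (hz0 : z0 ≤ y) (hs : s' + e1 + e2 ≤ k)
    (hX : X' + c' = s') (hE : k * X' ≤ s' * (T' + 1) + (e1 + e2 + Z.sum))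
    (h1 : 1 ≤ X' ∨ e1 + e2 = 0) (h2 : z0 + 1 ≤ X' ∨ Z.sum = 0)
    (hb : b + e1 + q * k + s' = k + Tt) :
    S (y + w + 3) (q * k + s') k (replicate a (T y 0) + replicate e2 (T (y - 1) 1) +
      Z.map (fun z => T (y - z) z) + replicate b (BP 0) + replicate e1 (BP 1) +
      replicate (q * c + c') (CP 1)) := by
  have rT : Rule Dir.B (T y 0) (T y 0) (BP 0) := ruleB_T y 0 0
  have rU : Rule Dir.B (T (y - 1) 1) (T y 0) (BP 1) := by
    have := ruleB_T (y - 1) 0 1
    rwa [Nat.sub_add_cancel hy] at this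
  have rZ : ∀ z ∈ Z, Rule Dir.B (T (y - z) z) (BP 0) (T (y - z) z) :=
    fun z _ => (ruleB_T (y - z) z 0).symm
  have rB : Rule Dir.B (BP 0) (BP 0) (BP 0) := ruleB_BP 0 0
  have rE : Rule Dir.B (BP 1) (BP 0) (BP 1) := ruleB_BP 0 1
  have rC : Rule Dir.B (CP 1) (CP 1) (CP 0) := ruleB_CP 1
  have f1 := QTop_full k Tt w y T' c q (s' + b + e1) hy hT hc hw (by omega)
  have hk : s' * k = k * X' + k * c' := by rw [← hX]; ring
  have hk' : s' * (T' + 1) = s' * T' + s' := by ring
  have f2 := S_A0 s' k (a + b) (e2 + e1) y w T' c' z0 Z hy hZ hz hz0 (by omega) hw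
    (by rw [add_mul]; omega) (by omega) (by omega) (by omega)
  refine S.splitB (Spl.of_eq (((((((Spl.rep rT a).add (Spl.rep rU e2)).add
    (Spl.map Z _ _ _ rZ)).add (Spl.rep rB b)).add (Spl.rep rE e1)).add
    (Spl.repL rC (q * c))).add (Spl.repR rC.symm c')) ?_ ?_ ?_) f1 f2
  · simp only [replicate_add]; abel
  · rw [← ha, map_const', hZ]
    simp only [replicate_add]; abel
  · simp only [replicate_add]; abel

end Pool.Agent.Work.MP_f4b644_ag.Thin
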