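import Pool.Agent.Work.MP_f4b644_ag.Thin.Blocks

/-!
First dimension 4 (m = 2), the block with J + 2 columns. X = ω + 2 = J - d, k = J + 2, Tt = ω, t = d + 4.
`V_B3`: a = (d + 3) / 6, i = (J + 4) a / d, f = (J + 4) a - d i < d, s = 4 i + 2 a - f. Two strips (2 i, 2 i - 2 a, s) and the
rest (J - 4 i, ω + 2 - 4 i + 4 a, J + 2 + ω - 2 s), all `V_CG0`, glued by `V_cutB0`. The dimension counts are equalities
(k X1 - j1 Tt = (d + 4) j1 - (J + 2) (j1 - X1) = 2 s; `Dx` with x = - 2 a, t = d + 4). One needs s ≤ J + 2, ω ≤ 2 s ≤ J + 2 + ω,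
f ≤ d, d ≥ 4 a and the lower bounds 2 ≤ X. Use d d < 4 J + 16 (so 7 d ≤ J + 4 as J ≥ 200), 9 a ≤ 2 d, d ≤ 7 a
(omega; d ≠ 8), d i ≤ (J + 4) a < d i + d, so 9 i ≤ 2 (J + 4) and 7 (i + 1) > J + 4. If these crude bounds are not enough near
J = 200, treat d ≤ 30 by interval_cases (then everything is linear) and d > 30 (J > 200 automatically larger, 5 a ≤ d ≤ 7 a).
`tau2`: ω = 0: `V_CG0` (s = k). 2 ≤ ω ≤ 7: `V_B1`. ω ≥ 8: `V_B2` with a = (d + 2) / 4 if d % 4 = 0 or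
4 J + 16 ≤ d d + 2 d (write d = 4 c + ρ, ρ < 4; a = c for ρ = 0, 1 and a = c + 1 for ρ = 2, 3; substitute J = ω + 2 + d;
F1 is k (d - 4 a) ≤ 2 a (d + 4), F2a is J (4 a - d) + 8 a ≤ (d + 4) (d - 2 a) + 2 d, F2b is
(J + 2) (4 a - d) ≤ (d + 4) (2 d - 2 a), hX2 follows from X (d + 2) ≥ 6 d + 20), otherwise `V_B3`.
-/

set_option autoImplicit false

namespace Pool.Agent.Work.MP_f4b644_ag.Thin

open Big Multiset Big.Gad

theorem S4tau_up {N a d i f p q : ℕ} (hd : 0 < d) (h : d * i + f ≤ N * a) (h1 : p * a ≤ q * d) :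
    p * i ≤ q * N := Nat.le_of_mul_le_mul_left (c := d) (by
  have h2 := Nat.mul_le_mul_left N h1
  have h3 := Nat.mul_le_mul_left p h
  have h4 := Nat.zero_le (p * f)
  linarith) hd

theorem V_B3 (J d ω : ℕ) (hJ : 200 ≤ J) (h : ω + 2 + d = J) (h5 : 5 ≤ d) (h4 : d % 4 ≠ 0)
    (hd : d * d + 2 * d < 4 * J + 16) : V 2 J (ω + 2) (J + 2) ω (J + 2 + ω) 0 0 0 := by
  obtain ⟨a, a1, a2⟩ : ∃ a, 6 * a ≤ d + 3 ∧ d + 3 < 6 * a + 6 := ⟨(d + 3) / 6, by omega, by omega⟩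
  obtain ⟨i, f, hf, e⟩ : ∃ i f, f < d ∧ (J + 4) * a = d * i + f :=
    ⟨(J + 4) * a / d, (J + 4) * a % d, Nat.mod_lt _ (by omega), (Nat.div_add_mod _ _).symm⟩
  have b1 : 7 * d ≤ J + 4 := by
    by_contra k
    have : d * 28 ≤ d * d := Nat.mul_le_mul_left _ (by omega)
    omega
  have b2 : 9 * i ≤ 2 * (J + 4) := S4tau_up (by omega) e.ge (by omega)
  have b3 : d ≤ 9 ∨ 5 * i ≤ 1 * (J + 4) :=
    (le_or_gt d 9).imp_right fun k => S4tau_up (by omega) e.ge (by omega)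
  have b4 : J + 4 < 7 * (i + 1) := lt_of_mul_lt_mul_right (a := a) (by
    have : d * (i + 1) ≤ 7 * a * (i + 1) := Nat.mul_le_mul_right _ (by omega)
    linarith) (Nat.zero_le _)
  clear hd
  obtain ⟨c, rfl⟩ : ∃ c, i = a + c := ⟨i - a, by omega⟩
  obtain ⟨s, hs⟩ : ∃ s, s + f = 4 * (a + c) + 2 * a := ⟨4 * (a + c) + 2 * a - f, by omega⟩
  obtain ⟨Y, rfl⟩ : ∃ Y, ω = 4 * c + Y := ⟨ω - 4 * c, by omega⟩
  obtain ⟨g, rfl⟩ : ∃ g, d = 4 * a + g := ⟨d - 4 * a, by omega⟩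
  obtain ⟨s2, hs2⟩ : ∃ s2, 2 * s + s2 = J + 2 + (4 * c + Y) :=
    ⟨J + 2 + (4 * c + Y) - 2 * s, by omega⟩
  have H : V 2 (2 * (a + c)) (2 * c) (J + 2) (4 * c + Y) s 0 0 0 :=
    V_CG0 _ _ _ _ _ _ le_rfl (by omega) (by omega) (by omega) (by omega) (by
      subst h
      linarith)
  refine V_cutB0 (2 * (a + c)) (2 * c) s (2 * (a + c) + (Y + 2 + g)) (2 * c + (Y + 2)) (s + s2)
    (by omega) (by omega) (by omega) le_rfl H
    (V_cutB0 _ _ _ _ _ _ rfl rfl rfl (by omega) H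
      (V_CG0 _ _ _ _ _ _ le_rfl (by omega) (by omega) (by omega) (by omega) ?_))
  subst h
  linarith

theorem S4tau_B2 {J d ω : ℕ} (a : ℕ) (h : ω + 2 + d = J) (h0 : 1 ≤ ω) (ha : 2 * a ≤ d)
    (F1 : (J + 2) * d ≤ (J + 2) * (4 * a) + 2 * a * (d + 4))
    (F2a : J * (4 * a) + 8 * a + (d + 4) * (2 * a) ≤ J * d + (d + 4) * d + 2 * d)
    (F2b : (J + 2) * (4 * a) + (d + 4) * (2 * a) ≤ (J + 2) * d + (d + 4) * (2 * d))
    (hX : 2 * (d + 4) + ω * (2 * a) ≤ ω * (d + 2)) :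
    V 2 J (ω + 2) (J + 2) ω (J + 2 + ω) 0 0 0 := by
  subst h
  exact V_B2 _ _ _ _ _ a d (d + 4) le_rfl rfl (by omega) h0 (by omega) ha (by linarith)
    (by linarith) (by linarith) (by linarith) (by linarith)

theorem tau2 (J d ω : ℕ) (hJ : 200 ≤ J) (h : ω + 2 + d = J) (hω : ω ≠ 1) (hd : d = 0 ∨ 4 ≤ d) :
    V 2 J (ω + 2) (J + 2) ω (J + 2 + ω) 0 0 0 := by
  rcases Nat.eq_zero_or_pos ω with rfl | h0
  · exact V_CG0 _ _ _ _ _ _ le_rfl le_rfl (by omega) le_rfl (by omega) (by omega)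
  rcases le_or_gt ω 7 with h7 | h7
  · refine V_B1 _ _ _ _ _ le_rfl (by omega) h0 ?_ (by omega) (by omega) (by linarith)
    have : ω * (2 * ω + 2 * 2 * 2 + 3 * 2) ≤ 7 * 28 := Nat.mul_le_mul h7 (by omega)
    omega
  by_cases k : d % 4 ≠ 0 ∧ d * d + 2 * d < 4 * J + 16
  · exact V_B3 J d ω hJ h (by omega) k.1 k.2
  obtain ⟨c, r, hr, rfl⟩ : ∃ c r, r < 4 ∧ d = 4 * c + r := ⟨d / 4, d % 4, by omega, by omega⟩
  have z1 := Nat.zero_le (c * c)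
  have z2 : 8 * c ≤ ω * c := Nat.mul_le_mul_right _ h7
  have z3 := Nat.zero_le c
  have k1 : r ≠ 0 → 4 * J + 16 ≤ (4 * c + r) * (4 * c + r) + 2 * (4 * c + r) := fun k2 =>
    not_lt.1 fun k3 => k ⟨by omega, k3⟩
  clear k
  interval_cases r
  · exact S4tau_B2 c h h0 (by omega) (by linarith) (by linarith) (by linarith) (by linarith)
  · have := k1 (by omega)
    exact S4tau_B2 c h h0 (by omega) (by linarith) (by linarith) (by linarith) (by linarith)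
  · have := k1 (by omega)
    exact S4tau_B2 (c + 1) h h0 (by omega) (by linarith) (by linarith) (by linarith) (by linarith)
  · have := k1 (by omega)
    exact S4tau_B2 (c + 1) h h0 (by omega) (by linarith) (by linarith) (by linarith) (by linarith)

end Pool.Agent.Work.MP_f4b644_ag.Thin
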