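import Pool.Agent.Work.MP_f4b644_ag.Thin.Blocks

/-!
First dimension 5 (m = 3), the block with J + 3 columns for X = ω + 3 = J - d ≤ J; k = J + 3, Tt = ω, t = d + 6.
ω ≤ 11: `V_B1`. ω ≥ 12: `V_B2` with a = (d + 3) / 6 (d - 2 ≤ 6 a ≤ d + 3, 3 a ≤ d). F1: t ≤ 9 (a + 1). F2a is
J (9 a - 2 d - 3) + 27 a - 9 d - 27 + (d + 6) (3 a + 3 - d) ≤ 0, F2b is J (9 a - 2 d - 3) + 27 a + 27 + (d + 6) (3 a - 2 d - 3) ≤ 0
(equalities for d = 3; treat d < 9 by interval_cases), hX2 follows from X (d + 3) ≥ 9 d + 45.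
-/

set_option autoImplicit false

namespace Pool.Agent.Work.MP_f4b644_ag.Thin

open Big Multiset Big.Gad

theorem tau3a (J d ω : ℕ) (hJ : 200 ≤ J) (h : ω + 3 + d = J) (hω : 3 ≤ ω) :
    V 3 J (ω + 3) (J + 3) ω (J + 3 + ω) 0 0 0 := by
  have hD : (J + 3) * (ω + 3) ≤ J * ω + 3 * (J + 3 + ω) := le_of_eq (by ring)
  rcases le_or_gt ω 11 with h11 | h11
  · refine V_B1 3 J (ω + 3) (J + 3) ω (by norm_num) (by omega) (by omega) ?_ (by omega) (by omega) hD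
    have : ω * (2 * ω + 2 * 3 * 3 + 3 * 3) ≤ 11 * 49 := Nat.mul_le_mul h11 (by omega)
    omega
  rcases lt_or_ge d 9 with h9 | h9
  · subst h
    refine V_B2 3 _ (ω + 3) _ ω ((d + 3) / 6) d (d + 6) (by norm_num) rfl (by omega) (by omega)
      (by omega) (by omega) ?_ ?_ ?_ ?_ hD <;> interval_cases d <;> omega
  · obtain ⟨b, ρ, rfl, hρ⟩ : ∃ b ρ, d = 6 * b + 9 + ρ ∧ ρ < 6 :=
      ⟨(d - 9) / 6, (d - 9) % 6, by omega, by omega⟩
    obtain ⟨v, rfl⟩ : ∃ v, ω = v + 12 := ⟨ω - 12, by omega⟩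
    subst h
    have e1 := Nat.zero_le (b * b)
    have e2 := Nat.zero_le (b * ρ)
    have e3 := Nat.zero_le (b * v)
    have e4 := Nat.zero_le (ρ * ρ)
    have e5 := Nat.zero_le (ρ * v)
    have e6 := Nat.zero_le b
    have e7 := Nat.zero_le ρ
    have e8 := Nat.zero_le v
    refine V_B2 3 _ (v + 12 + 3) _ (v + 12) (b + 2) (6 * b + 9 + ρ) (6 * b + 9 + ρ + 6) (by norm_num) rfl
      (by omega) (by omega) (by omega) (by omega) ?_ (by linarith) (by linarith) (by linarith) hD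
    have := Nat.mul_le_mul_left (v + 12 + 3 + (6 * b + 9 + ρ) + 3)
      (show 6 * b + 9 + ρ + 6 ≤ 3 * 3 * (b + 2 + 1) by omega)
    linarith

end Pool.Agent.Work.MP_f4b644_ag.Thin
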