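import Pool.Agent.Work.MP_f4b644_ag.Thin.Gen
import Pool.Agent.Work.MP_f4b644_ag.Thin.S5Zd

/-!
First dimension 6, the nearly square formats: with L = 2 J - X between -5 and 17 the root is cut into tall blocks (strips for L = 0, 3).
-/

set_option autoImplicit false

namespace Pool.Agent.Work.MP_f4b644_ag.Thin

open Big Multiset Big.Gad

theorem S6_blk (J X k Tt w y : ℕ) (L t : ℤ) (hX : (X : ℤ) + L = 2 * J) (hT : (Tt : ℤ) + t = 2 * k)
    (hw : (w = 1 ∧ y = 2) ∨ (w = 2 ∧ y = 1)) (h1 : w * k ≤ Tt + w) (h2 : Tt + w + 1 ≤ (w + 1) * k)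
    (h3 : 2 ≤ k) (h4 : k + Tt + 6 ≤ J) (h5 : 3 * k ≤ 6 * Tt)
    (h6 : y * (k + Tt) + 6 * Tt + 6 * k ≤ 6 * (4 * k)) (hD : (J + 4 : ℤ) * t ≤ k * (12 + L)) :
    V 4 J X k Tt (k + Tt) 0 0 0 :=
  V_tallG 4 J X k Tt (k + Tt) w y 6 (by omega) (by omega) h1 h2 (by omega) (by omega) le_rfl h4
    (by omega) (by omega) h6 (Dw 4 2 J X k Tt (k + Tt) (-L) t (by push_cast; linarith) hT (by
      have h7 : (Tt : ℤ) = 2 * k - t := by linarith
      push_cast
      rw [h7]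
      linarith))

theorem S6_strip (j X K Tt l : ℕ) (hj : 6 ≤ j) (hX : X + l = 2 * j) (hl : l ≤ 1) (hK : 3 * j + l ≤ K)
    (hT : Tt + 12 + 3 * l = 2 * K) : V 4 j X K Tt (3 * j + l) 0 0 0 :=
  V_cutC0 3 j (X - 4) j (K - 3 * j) (2 * (K - 3 * j)) l (by omega) (by omega) rfl (by omega)
    (V_sq 4 j X (X - 4) 0 1 2 (j - 3 - l) rfl (by omega) (by omega) (by omega) (by omega) (by omega)
      (Or.inl rfl))
    (V_addT (by omega) (V_pure 4 j (X + l) _ _ 0 0 (by omega) (by omega) (by omega) (by omega)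
      (by omega) (by rw [hX]; nlinarith)))

theorem S6_n5 (i K : ℕ) (hi : 300 ≤ i)
    (hK : K * (i + 20 + (2 * i + 45)) ≤ (3 * i + 55) * (i + 20 + 4)) :
    S (4 + 2) (i + 20) K (replicate (3 * i + 55) (T 0 0)) := by
  obtain ⟨a, ha1, ha2⟩ : ∃ a, 7 * a ≤ 2 * (i + 24) + 6 ∧ 2 * (i + 24) + 6 < 7 * a + 7 :=
    ⟨(2 * (i + 24) + 6) / 7, by omega, by omega⟩
  obtain ⟨b, hb⟩ : ∃ b, i + 20 = 3 * a + b := ⟨i + 20 - 3 * a, by omega⟩
  refine S_of_V (X := 2 * i + 45) (K0 := i + 20) (T0 := 2 * i + 35) (by omega) (K_le hK (by nlinarith)) ?_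
  exact V_cutC0 3 a (2 * a - 2) (a + (2 * a - 2)) b (2 * b + 1) (b + (2 * b + 1)) hb (by omega) (by omega) (by omega)
    (S6_blk _ _ _ _ 1 2 (-5) 2 (by omega) (by omega) (by omega) (by omega) (by omega) (by omega) (by omega) (by omega) (by omega) (by omega))
    (S6_blk _ _ _ _ 2 1 (-5) (-1) (by omega) (by omega) (by omega) (by omega) (by omega) (by omega) (by omega) (by omega) (by omega) (by omega))

theorem S6_n4 (i K : ℕ) (hi : 300 ≤ i)
    (hK : K * (i + 20 + (2 * i + 44)) ≤ (3 * i + 56) * (i + 20 + 4)) :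
    S (4 + 2) (i + 20) K (replicate (3 * i + 56) (T 0 0)) := by
  obtain ⟨a, ha1, ha2⟩ : ∃ a, 8 * a ≤ 2 * (i + 24) + 7 ∧ 2 * (i + 24) + 7 < 8 * a + 8 :=
    ⟨(2 * (i + 24) + 7) / 8, by omega, by omega⟩
  obtain ⟨b, hb⟩ : ∃ b, i + 21 = 3 * a + b := ⟨i + 21 - 3 * a, by omega⟩
  refine S_of_V (X := 2 * i + 44) (K0 := i + 21) (T0 := 2 * i + 35) (by omega) (K_le hK (by nlinarith)) ?_
  exact V_cutC0 3 a (2 * a - 2) (a + (2 * a - 2)) b (2 * b - 1) (b + (2 * b - 1)) hb (by omega) (by omega) (by omega)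
    (S6_blk _ _ _ _ 1 2 (-4) 2 (by omega) (by omega) (by omega) (by omega) (by omega) (by omega) (by omega) (by omega) (by omega) (by omega))
    (S6_blk _ _ _ _ 2 1 (-4) 1 (by omega) (by omega) (by omega) (by omega) (by omega) (by omega) (by omega) (by omega) (by omega) (by omega))

theorem S6_n3 (i K : ℕ) (hi : 300 ≤ i)
    (hK : K * (i + 20 + (2 * i + 43)) ≤ (3 * i + 57) * (i + 20 + 4)) :
    S (4 + 2) (i + 20) K (replicate (3 * i + 57) (T 0 0)) := by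
  obtain ⟨a, ha1, ha2⟩ : ∃ a, 9 * a ≤ 2 * (i + 24) + 8 ∧ 2 * (i + 24) + 8 < 9 * a + 9 :=
    ⟨(2 * (i + 24) + 8) / 9, by omega, by omega⟩
  obtain ⟨b, hb⟩ : ∃ b, i + 21 = 4 * a + b := ⟨i + 21 - 4 * a, by omega⟩
  refine S_of_V (X := 2 * i + 43) (K0 := i + 21) (T0 := 2 * i + 36) (by omega) (K_le hK (by nlinarith)) ?_
  exact V_cutC0 4 a (2 * a - 2) (a + (2 * a - 2)) b (2 * b + 2) (b + (2 * b + 2)) hb (by omega) (by omega) (by omega)
    (S6_blk _ _ _ _ 1 2 (-3) 2 (by omega) (by omega) (by omega) (by omega) (by omega) (by omega) (by omega) (by omega) (by omega) (by omega))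
    (S6_blk _ _ _ _ 2 1 (-3) (-2) (by omega) (by omega) (by omega) (by omega) (by omega) (by omega) (by omega) (by omega) (by omega) (by omega))

theorem S6_n2 (i K : ℕ) (hi : 300 ≤ i)
    (hK : K * (i + 20 + (2 * i + 42)) ≤ (3 * i + 58) * (i + 20 + 4)) :
    S (4 + 2) (i + 20) K (replicate (3 * i + 58) (T 0 0)) := by
  obtain ⟨a, ha1, ha2⟩ : ∃ a, 10 * a ≤ 3 * (i + 24) + 9 ∧ 3 * (i + 24) + 9 < 10 * a + 10 :=
    ⟨(3 * (i + 24) + 9) / 10, by omega, by omega⟩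
  obtain ⟨b, hb⟩ : ∃ b, i + 22 = 3 * a + b := ⟨i + 22 - 3 * a, by omega⟩
  refine S_of_V (X := 2 * i + 42) (K0 := i + 22) (T0 := 2 * i + 36) (by omega) (K_le hK (by nlinarith)) ?_
  exact V_cutC0 3 a (2 * a - 3) (a + (2 * a - 3)) b (2 * b + 1) (b + (2 * b + 1)) hb (by omega) (by omega) (by omega)
    (S6_blk _ _ _ _ 1 2 (-2) 3 (by omega) (by omega) (by omega) (by omega) (by omega) (by omega) (by omega) (by omega) (by omega) (by omega))
    (S6_blk _ _ _ _ 2 1 (-2) (-1) (by omega) (by omega) (by omega) (by omega) (by omega) (by omega) (by omega) (by omega) (by omega) (by omega))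

theorem S6_n1 (i K : ℕ) (hi : 300 ≤ i)
    (hK : K * (i + 20 + (2 * i + 41)) ≤ (3 * i + 59) * (i + 20 + 4)) :
    S (4 + 2) (i + 20) K (replicate (3 * i + 59) (T 0 0)) := by
  obtain ⟨a, ha1, ha2⟩ : ∃ a, 11 * a ≤ 3 * (i + 24) + 10 ∧ 3 * (i + 24) + 10 < 11 * a + 11 :=
    ⟨(3 * (i + 24) + 10) / 11, by omega, by omega⟩
  obtain ⟨b, hb⟩ : ∃ b, i + 23 = 3 * a + b := ⟨i + 23 - 3 * a, by omega⟩
  refine S_of_V (X := 2 * i + 41) (K0 := i + 23) (T0 := 2 * i + 36) (by omega) (K_le hK (by nlinarith)) ?_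
  exact V_cutC0 3 a (2 * a - 3) (a + (2 * a - 3)) b (2 * b - 1) (b + (2 * b - 1)) hb (by omega) (by omega) (by omega)
    (S6_blk _ _ _ _ 1 2 (-1) 3 (by omega) (by omega) (by omega) (by omega) (by omega) (by omega) (by omega) (by omega) (by omega) (by omega))
    (S6_blk _ _ _ _ 2 1 (-1) 1 (by omega) (by omega) (by omega) (by omega) (by omega) (by omega) (by omega) (by omega) (by omega) (by omega))

theorem S6_p0 (i K : ℕ) (hi : 300 ≤ i)
    (hK : K * (i + 20 + (2 * i + 40)) ≤ (3 * i + 60) * (i + 20 + 4)) :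
    S (4 + 2) (i + 20) K (replicate (3 * i + 60) (T 0 0)) := by
  obtain ⟨a, ha1, ha2⟩ : ∃ a, 3 * a ≤ i + 22 ∧ i + 22 < 3 * a + 3 := ⟨(i + 22) / 3, by omega, by omega⟩
  obtain ⟨b, hb⟩ : ∃ b, i + 20 = 2 * a + b := ⟨i + 20 - 2 * a, by omega⟩
  refine S_of_V (X := 2 * i + 40) (K0 := i + 24) (T0 := 2 * i + 36) (by omega) (K_le hK (by nlinarith)) ?_
  exact V_cutBn 2 a (2 * a - 0) (3 * a + 0) b (2 * b - 0) (3 * b + 0) hb (by omega) (by omega) le_rfl
    (S6_strip _ _ _ _ 0 (by omega) (by omega) (by omega) (by omega) (by omega))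
    (S6_strip _ _ _ _ 0 (by omega) (by omega) (by omega) (by omega) (by omega))

theorem S6_p1 (i K : ℕ) (hi : 300 ≤ i)
    (hK : K * (i + 20 + (2 * i + 39)) ≤ (3 * i + 61) * (i + 20 + 4)) :
    S (4 + 2) (i + 20) K (replicate (3 * i + 61) (T 0 0)) := by
  obtain ⟨a, ha1, ha2⟩ : ∃ a, 13 * a ≤ 3 * (i + 24) + 12 ∧ 3 * (i + 24) + 12 < 13 * a + 13 :=
    ⟨(3 * (i + 24) + 12) / 13, by omega, by omega⟩
  obtain ⟨b, hb⟩ : ∃ b, i + 24 = 3 * a + b := ⟨i + 24 - 3 * a, by omega⟩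
  refine S_of_V (X := 2 * i + 39) (K0 := i + 24) (T0 := 2 * i + 37) (by omega) (K_le hK (by nlinarith)) ?_
  exact V_cutC0 3 a (2 * a - 3) (a + (2 * a - 3)) b (2 * b - 2) (b + (2 * b - 2)) hb (by omega) (by omega) (by omega)
    (S6_blk _ _ _ _ 1 2 1 3 (by omega) (by omega) (by omega) (by omega) (by omega) (by omega) (by omega) (by omega) (by omega) (by omega))
    (S6_blk _ _ _ _ 1 2 1 2 (by omega) (by omega) (by omega) (by omega) (by omega) (by omega) (by omega) (by omega) (by omega) (by omega))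

theorem S6_p2 (i K : ℕ) (hi : 300 ≤ i)
    (hK : K * (i + 20 + (2 * i + 38)) ≤ (3 * i + 62) * (i + 20 + 4)) :
    S (4 + 2) (i + 20) K (replicate (3 * i + 62) (T 0 0)) := by
  obtain ⟨a, ha1, ha2⟩ : ∃ a, 14 * a ≤ 4 * (i + 24) + 13 ∧ 4 * (i + 24) + 13 < 14 * a + 14 :=
    ⟨(4 * (i + 24) + 13) / 14, by omega, by omega⟩
  obtain ⟨b, hb⟩ : ∃ b, i + 25 = 3 * a + b := ⟨i + 25 - 3 * a, by omega⟩
  refine S_of_V (X := 2 * i + 38) (K0 := i + 25) (T0 := 2 * i + 37) (by omega) (K_le hK (by nlinarith)) ?_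
  exact V_cutC0 3 a (2 * a - 4) (a + (2 * a - 4)) b (2 * b - 1) (b + (2 * b - 1)) hb (by omega) (by omega) (by omega)
    (S6_blk _ _ _ _ 1 2 2 4 (by omega) (by omega) (by omega) (by omega) (by omega) (by omega) (by omega) (by omega) (by omega) (by omega))
    (S6_blk _ _ _ _ 2 1 2 1 (by omega) (by omega) (by omega) (by omega) (by omega) (by omega) (by omega) (by omega) (by omega) (by omega))

theorem S6_p3 (i K : ℕ) (hi : 300 ≤ i)
    (hK : K * (i + 20 + (2 * i + 37)) ≤ (3 * i + 63) * (i + 20 + 4)) :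
    S (4 + 2) (i + 20) K (replicate (3 * i + 63) (T 0 0)) := by
  obtain ⟨a, ha1, ha2⟩ : ∃ a, 3 * a ≤ i + 22 ∧ i + 22 < 3 * a + 3 := ⟨(i + 22) / 3, by omega, by omega⟩
  obtain ⟨b, hb⟩ : ∃ b, i + 20 = 2 * a + b := ⟨i + 20 - 2 * a, by omega⟩
  refine S_of_V (X := 2 * i + 37) (K0 := i + 26) (T0 := 2 * i + 37) (by omega) (K_le hK (by nlinarith)) ?_
  exact V_cutBn 2 a (2 * a - 1) (3 * a + 1) b (2 * b - 1) (3 * b + 1) hb (by omega) (by omega) le_rfl
    (S6_strip _ _ _ _ 1 (by omega) (by omega) (by omega) (by omega) (by omega))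
    (S6_strip _ _ _ _ 1 (by omega) (by omega) (by omega) (by omega) (by omega))

theorem S6_p4 (i K : ℕ) (hi : 300 ≤ i)
    (hK : K * (i + 20 + (2 * i + 36)) ≤ (3 * i + 64) * (i + 20 + 4)) :
    S (4 + 2) (i + 20) K (replicate (3 * i + 64) (T 0 0)) := by
  obtain ⟨a, ha1, ha2⟩ : ∃ a, 16 * a ≤ 4 * (i + 24) + 15 ∧ 4 * (i + 24) + 15 < 16 * a + 16 :=
    ⟨(4 * (i + 24) + 15) / 16, by omega, by omega⟩
  obtain ⟨b, hb⟩ : ∃ b, i + 26 = 3 * a + b := ⟨i + 26 - 3 * a, by omega⟩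
  refine S_of_V (X := 2 * i + 36) (K0 := i + 26) (T0 := 2 * i + 38) (by omega) (K_le hK (by nlinarith)) ?_
  exact V_cutC0 3 a (2 * a - 4) (a + (2 * a - 4)) b (2 * b - 2) (b + (2 * b - 2)) hb (by omega) (by omega) (by omega)
    (S6_blk _ _ _ _ 1 2 4 4 (by omega) (by omega) (by omega) (by omega) (by omega) (by omega) (by omega) (by omega) (by omega) (by omega))
    (S6_blk _ _ _ _ 1 2 4 2 (by omega) (by omega) (by omega) (by omega) (by omega) (by omega) (by omega) (by omega) (by omega) (by omega))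

theorem S6_p5 (i K : ℕ) (hi : 300 ≤ i)
    (hK : K * (i + 20 + (2 * i + 35)) ≤ (3 * i + 65) * (i + 20 + 4)) :
    S (4 + 2) (i + 20) K (replicate (3 * i + 65) (T 0 0)) := by
  obtain ⟨a, ha1, ha2⟩ : ∃ a, 17 * a ≤ 4 * (i + 24) + 16 ∧ 4 * (i + 24) + 16 < 17 * a + 17 :=
    ⟨(4 * (i + 24) + 16) / 17, by omega, by omega⟩
  obtain ⟨b, hb⟩ : ∃ b, i + 27 = 3 * a + b := ⟨i + 27 - 3 * a, by omega⟩
  refine S_of_V (X := 2 * i + 35) (K0 := i + 27) (T0 := 2 * i + 38) (by omega) (K_le hK (by nlinarith)) ?_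
  exact V_cutC0 3 a (2 * a - 4) (a + (2 * a - 4)) b (2 * b - 4) (b + (2 * b - 4)) hb (by omega) (by omega) (by omega)
    (S6_blk _ _ _ _ 1 2 5 4 (by omega) (by omega) (by omega) (by omega) (by omega) (by omega) (by omega) (by omega) (by omega) (by omega))
    (S6_blk _ _ _ _ 1 2 5 4 (by omega) (by omega) (by omega) (by omega) (by omega) (by omega) (by omega) (by omega) (by omega) (by omega))

theorem S6_p6 (i K : ℕ) (hi : 300 ≤ i)
    (hK : K * (i + 20 + (2 * i + 34)) ≤ (3 * i + 66) * (i + 20 + 4)) :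
    S (4 + 2) (i + 20) K (replicate (3 * i + 66) (T 0 0)) := by
  obtain ⟨a, ha1, ha2⟩ : ∃ a, 18 * a ≤ 5 * (i + 24) + 17 ∧ 5 * (i + 24) + 17 < 18 * a + 18 :=
    ⟨(5 * (i + 24) + 17) / 18, by omega, by omega⟩
  obtain ⟨b, hb⟩ : ∃ b, i + 28 = 3 * a + b := ⟨i + 28 - 3 * a, by omega⟩
  refine S_of_V (X := 2 * i + 34) (K0 := i + 28) (T0 := 2 * i + 38) (by omega) (K_le hK (by nlinarith)) ?_
  exact V_cutC0 3 a (2 * a - 5) (a + (2 * a - 5)) b (2 * b - 3) (b + (2 * b - 3)) hb (by omega) (by omega) (by omega)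
    (S6_blk _ _ _ _ 1 2 6 5 (by omega) (by omega) (by omega) (by omega) (by omega) (by omega) (by omega) (by omega) (by omega) (by omega))
    (S6_blk _ _ _ _ 1 2 6 3 (by omega) (by omega) (by omega) (by omega) (by omega) (by omega) (by omega) (by omega) (by omega) (by omega))

theorem S6_p7 (i K : ℕ) (hi : 300 ≤ i)
    (hK : K * (i + 20 + (2 * i + 33)) ≤ (3 * i + 67) * (i + 20 + 4)) :
    S (4 + 2) (i + 20) K (replicate (3 * i + 67) (T 0 0)) := by
  obtain ⟨a, ha1, ha2⟩ : ∃ a, 19 * a ≤ 5 * (i + 24) + 18 ∧ 5 * (i + 24) + 18 < 19 * a + 19 :=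
    ⟨(5 * (i + 24) + 18) / 19, by omega, by omega⟩
  obtain ⟨b, hb⟩ : ∃ b, i + 28 = 3 * a + b := ⟨i + 28 - 3 * a, by omega⟩
  refine S_of_V (X := 2 * i + 33) (K0 := i + 28) (T0 := 2 * i + 39) (by omega) (K_le hK (by nlinarith)) ?_
  exact V_cutC0 3 a (2 * a - 5) (a + (2 * a - 5)) b (2 * b - 2) (b + (2 * b - 2)) hb (by omega) (by omega) (by omega)
    (S6_blk _ _ _ _ 1 2 7 5 (by omega) (by omega) (by omega) (by omega) (by omega) (by omega) (by omega) (by omega) (by omega) (by omega))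
    (S6_blk _ _ _ _ 1 2 7 2 (by omega) (by omega) (by omega) (by omega) (by omega) (by omega) (by omega) (by omega) (by omega) (by omega))

theorem S6_p8 (i K : ℕ) (hi : 300 ≤ i)
    (hK : K * (i + 20 + (2 * i + 32)) ≤ (3 * i + 68) * (i + 20 + 4)) :
    S (4 + 2) (i + 20) K (replicate (3 * i + 68) (T 0 0)) := by
  obtain ⟨a, ha1, ha2⟩ : ∃ a, 20 * a ≤ 5 * (i + 24) + 19 ∧ 5 * (i + 24) + 19 < 20 * a + 20 :=
    ⟨(5 * (i + 24) + 19) / 20, by omega, by omega⟩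
  obtain ⟨b, hb⟩ : ∃ b, i + 29 = 3 * a + b := ⟨i + 29 - 3 * a, by omega⟩
  refine S_of_V (X := 2 * i + 32) (K0 := i + 29) (T0 := 2 * i + 39) (by omega) (K_le hK (by nlinarith)) ?_
  exact V_cutC0 3 a (2 * a - 5) (a + (2 * a - 5)) b (2 * b - 4) (b + (2 * b - 4)) hb (by omega) (by omega) (by omega)
    (S6_blk _ _ _ _ 1 2 8 5 (by omega) (by omega) (by omega) (by omega) (by omega) (by omega) (by omega) (by omega) (by omega) (by omega))
    (S6_blk _ _ _ _ 1 2 8 4 (by omega) (by omega) (by omega) (by omega) (by omega) (by omega) (by omega) (by omega) (by omega) (by omega))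

theorem S6_p9 (i K : ℕ) (hi : 300 ≤ i)
    (hK : K * (i + 20 + (2 * i + 31)) ≤ (3 * i + 69) * (i + 20 + 4)) :
    S (4 + 2) (i + 20) K (replicate (3 * i + 69) (T 0 0)) := by
  obtain ⟨a, ha1, ha2⟩ : ∃ a, 21 * a ≤ 5 * (i + 24) + 20 ∧ 5 * (i + 24) + 20 < 21 * a + 21 :=
    ⟨(5 * (i + 24) + 20) / 21, by omega, by omega⟩
  obtain ⟨b, hb⟩ : ∃ b, i + 30 = 3 * a + b := ⟨i + 30 - 3 * a, by omega⟩
  refine S_of_V (X := 2 * i + 31) (K0 := i + 30) (T0 := 2 * i + 39) (by omega) (K_le hK (by nlinarith)) ?_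
  exact V_cutC0 3 a (2 * a - 5) (a + (2 * a - 5)) b (2 * b - 6) (b + (2 * b - 6)) hb (by omega) (by omega) (by omega)
    (S6_blk _ _ _ _ 1 2 9 5 (by omega) (by omega) (by omega) (by omega) (by omega) (by omega) (by omega) (by omega) (by omega) (by omega))
    (S6_blk _ _ _ _ 1 2 9 6 (by omega) (by omega) (by omega) (by omega) (by omega) (by omega) (by omega) (by omega) (by omega) (by omega))

theorem S6_p10 (i K : ℕ) (hi : 300 ≤ i)
    (hK : K * (i + 20 + (2 * i + 30)) ≤ (3 * i + 70) * (i + 20 + 4)) :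
    S (4 + 2) (i + 20) K (replicate (3 * i + 70) (T 0 0)) := by
  obtain ⟨a, ha1, ha2⟩ : ∃ a, 22 * a ≤ 6 * (i + 24) + 21 ∧ 6 * (i + 24) + 21 < 22 * a + 22 :=
    ⟨(6 * (i + 24) + 21) / 22, by omega, by omega⟩
  obtain ⟨b, hb⟩ : ∃ b, i + 30 = 3 * a + b := ⟨i + 30 - 3 * a, by omega⟩
  refine S_of_V (X := 2 * i + 30) (K0 := i + 30) (T0 := 2 * i + 40) (by omega) (K_le hK (by nlinarith)) ?_
  exact V_cutC0 3 a (2 * a - 6) (a + (2 * a - 6)) b (2 * b - 2) (b + (2 * b - 2)) hb (by omega) (by omega) (by omega)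
    (S6_blk _ _ _ _ 1 2 10 6 (by omega) (by omega) (by omega) (by omega) (by omega) (by omega) (by omega) (by omega) (by omega) (by omega))
    (S6_blk _ _ _ _ 1 2 10 2 (by omega) (by omega) (by omega) (by omega) (by omega) (by omega) (by omega) (by omega) (by omega) (by omega))

theorem S6_p11 (i K : ℕ) (hi : 300 ≤ i)
    (hK : K * (i + 20 + (2 * i + 29)) ≤ (3 * i + 71) * (i + 20 + 4)) :
    S (4 + 2) (i + 20) K (replicate (3 * i + 71) (T 0 0)) := by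
  obtain ⟨a, ha1, ha2⟩ : ∃ a, 23 * a ≤ 6 * (i + 24) + 22 ∧ 6 * (i + 24) + 22 < 23 * a + 23 :=
    ⟨(6 * (i + 24) + 22) / 23, by omega, by omega⟩
  obtain ⟨b, hb⟩ : ∃ b, i + 31 = 3 * a + b := ⟨i + 31 - 3 * a, by omega⟩
  refine S_of_V (X := 2 * i + 29) (K0 := i + 31) (T0 := 2 * i + 40) (by omega) (K_le hK (by nlinarith)) ?_
  exact V_cutC0 3 a (2 * a - 6) (a + (2 * a - 6)) b (2 * b - 4) (b + (2 * b - 4)) hb (by omega) (by omega) (by omega)
    (S6_blk _ _ _ _ 1 2 11 6 (by omega) (by omega) (by omega) (by omega) (by omega) (by omega) (by omega) (by omega) (by omega) (by omega))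
    (S6_blk _ _ _ _ 1 2 11 4 (by omega) (by omega) (by omega) (by omega) (by omega) (by omega) (by omega) (by omega) (by omega) (by omega))

theorem S6_p12 (i K : ℕ) (hi : 300 ≤ i)
    (hK : K * (i + 20 + (2 * i + 28)) ≤ (3 * i + 72) * (i + 20 + 4)) :
    S (4 + 2) (i + 20) K (replicate (3 * i + 72) (T 0 0)) := by
  obtain ⟨a, ha1, ha2⟩ : ∃ a, 24 * a ≤ 6 * (i + 24) + 23 ∧ 6 * (i + 24) + 23 < 24 * a + 24 :=
    ⟨(6 * (i + 24) + 23) / 24, by omega, by omega⟩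
  obtain ⟨b, hb⟩ : ∃ b, i + 32 = 3 * a + b := ⟨i + 32 - 3 * a, by omega⟩
  refine S_of_V (X := 2 * i + 28) (K0 := i + 32) (T0 := 2 * i + 40) (by omega) (K_le hK (by nlinarith)) ?_
  exact V_cutC0 3 a (2 * a - 6) (a + (2 * a - 6)) b (2 * b - 6) (b + (2 * b - 6)) hb (by omega) (by omega) (by omega)
    (S6_blk _ _ _ _ 1 2 12 6 (by omega) (by omega) (by omega) (by omega) (by omega) (by omega) (by omega) (by omega) (by omega) (by omega))
    (S6_blk _ _ _ _ 1 2 12 6 (by omega) (by omega) (by omega) (by omega) (by omega) (by omega) (by omega) (by omega) (by omega) (by omega))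

theorem S6_p13 (i K : ℕ) (hi : 300 ≤ i)
    (hK : K * (i + 20 + (2 * i + 27)) ≤ (3 * i + 73) * (i + 20 + 4)) :
    S (4 + 2) (i + 20) K (replicate (3 * i + 73) (T 0 0)) := by
  obtain ⟨a, ha1, ha2⟩ : ∃ a, 25 * a ≤ 6 * (i + 24) + 24 ∧ 6 * (i + 24) + 24 < 25 * a + 25 :=
    ⟨(6 * (i + 24) + 24) / 25, by omega, by omega⟩
  obtain ⟨b, hb⟩ : ∃ b, i + 32 = 3 * a + b := ⟨i + 32 - 3 * a, by omega⟩
  refine S_of_V (X := 2 * i + 27) (K0 := i + 32) (T0 := 2 * i + 41) (by omega) (K_le hK (by nlinarith)) ?_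
  exact V_cutC0 3 a (2 * a - 6) (a + (2 * a - 6)) b (2 * b - 5) (b + (2 * b - 5)) hb (by omega) (by omega) (by omega)
    (S6_blk _ _ _ _ 1 2 13 6 (by omega) (by omega) (by omega) (by omega) (by omega) (by omega) (by omega) (by omega) (by omega) (by omega))
    (S6_blk _ _ _ _ 1 2 13 5 (by omega) (by omega) (by omega) (by omega) (by omega) (by omega) (by omega) (by omega) (by omega) (by omega))

theorem S6_p14 (i K : ℕ) (hi : 300 ≤ i)
    (hK : K * (i + 20 + (2 * i + 26)) ≤ (3 * i + 74) * (i + 20 + 4)) :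
    S (4 + 2) (i + 20) K (replicate (3 * i + 74) (T 0 0)) := by
  obtain ⟨a, ha1, ha2⟩ : ∃ a, 26 * a ≤ 7 * (i + 24) + 25 ∧ 7 * (i + 24) + 25 < 26 * a + 26 :=
    ⟨(7 * (i + 24) + 25) / 26, by omega, by omega⟩
  obtain ⟨b, hb⟩ : ∃ b, i + 33 = 3 * a + b := ⟨i + 33 - 3 * a, by omega⟩
  refine S_of_V (X := 2 * i + 26) (K0 := i + 33) (T0 := 2 * i + 41) (by omega) (K_le hK (by nlinarith)) ?_
  exact V_cutC0 3 a (2 * a - 7) (a + (2 * a - 7)) b (2 * b - 4) (b + (2 * b - 4)) hb (by omega) (by omega) (by omega)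
    (S6_blk _ _ _ _ 1 2 14 7 (by omega) (by omega) (by omega) (by omega) (by omega) (by omega) (by omega) (by omega) (by omega) (by omega))
    (S6_blk _ _ _ _ 1 2 14 4 (by omega) (by omega) (by omega) (by omega) (by omega) (by omega) (by omega) (by omega) (by omega) (by omega))

theorem S6_p15 (i K : ℕ) (hi : 300 ≤ i)
    (hK : K * (i + 20 + (2 * i + 25)) ≤ (3 * i + 75) * (i + 20 + 4)) :
    S (4 + 2) (i + 20) K (replicate (3 * i + 75) (T 0 0)) := by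
  obtain ⟨a, ha1, ha2⟩ : ∃ a, 27 * a ≤ 7 * (i + 24) + 26 ∧ 7 * (i + 24) + 26 < 27 * a + 27 :=
    ⟨(7 * (i + 24) + 26) / 27, by omega, by omega⟩
  obtain ⟨b, hb⟩ : ∃ b, i + 34 = 3 * a + b := ⟨i + 34 - 3 * a, by omega⟩
  refine S_of_V (X := 2 * i + 25) (K0 := i + 34) (T0 := 2 * i + 41) (by omega) (K_le hK (by nlinarith)) ?_
  exact V_cutC0 3 a (2 * a - 7) (a + (2 * a - 7)) b (2 * b - 6) (b + (2 * b - 6)) hb (by omega) (by omega) (by omega)
    (S6_blk _ _ _ _ 1 2 15 7 (by omega) (by omega) (by omega) (by omega) (by omega) (by omega) (by omega) (by omega) (by omega) (by omega))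
    (S6_blk _ _ _ _ 1 2 15 6 (by omega) (by omega) (by omega) (by omega) (by omega) (by omega) (by omega) (by omega) (by omega) (by omega))

theorem S6_p16 (i K : ℕ) (hi : 300 ≤ i)
    (hK : K * (i + 20 + (2 * i + 24)) ≤ (3 * i + 76) * (i + 20 + 4)) :
    S (4 + 2) (i + 20) K (replicate (3 * i + 76) (T 0 0)) := by
  obtain ⟨a, ha1, ha2⟩ : ∃ a, 28 * a ≤ 7 * (i + 24) + 27 ∧ 7 * (i + 24) + 27 < 28 * a + 28 :=
    ⟨(7 * (i + 24) + 27) / 28, by omega, by omega⟩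
  obtain ⟨b, hb⟩ : ∃ b, i + 34 = 3 * a + b := ⟨i + 34 - 3 * a, by omega⟩
  refine S_of_V (X := 2 * i + 24) (K0 := i + 34) (T0 := 2 * i + 42) (by omega) (K_le hK (by nlinarith)) ?_
  exact V_cutC0 3 a (2 * a - 7) (a + (2 * a - 7)) b (2 * b - 5) (b + (2 * b - 5)) hb (by omega) (by omega) (by omega)
    (S6_blk _ _ _ _ 1 2 16 7 (by omega) (by omega) (by omega) (by omega) (by omega) (by omega) (by omega) (by omega) (by omega) (by omega))
    (S6_blk _ _ _ _ 1 2 16 5 (by omega) (by omega) (by omega) (by omega) (by omega) (by omega) (by omega) (by omega) (by omega) (by omega))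

theorem S6_p17 (i K : ℕ) (hi : 300 ≤ i)
    (hK : K * (i + 20 + (2 * i + 23)) ≤ (3 * i + 77) * (i + 20 + 4)) :
    S (4 + 2) (i + 20) K (replicate (3 * i + 77) (T 0 0)) := by
  obtain ⟨a, ha1, ha2⟩ : ∃ a, 29 * a ≤ 7 * (i + 24) + 28 ∧ 7 * (i + 24) + 28 < 29 * a + 29 :=
    ⟨(7 * (i + 24) + 28) / 29, by omega, by omega⟩
  obtain ⟨b, hb⟩ : ∃ b, i + 35 = 3 * a + b := ⟨i + 35 - 3 * a, by omega⟩
  refine S_of_V (X := 2 * i + 23) (K0 := i + 35) (T0 := 2 * i + 42) (by omega) (K_le hK (by nlinarith)) ?_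
  exact V_cutC0 3 a (2 * a - 7) (a + (2 * a - 7)) b (2 * b - 7) (b + (2 * b - 7)) hb (by omega) (by omega) (by omega)
    (S6_blk _ _ _ _ 1 2 17 7 (by omega) (by omega) (by omega) (by omega) (by omega) (by omega) (by omega) (by omega) (by omega) (by omega))
    (S6_blk _ _ _ _ 1 2 17 7 (by omega) (by omega) (by omega) (by omega) (by omega) (by omega) (by omega) (by omega) (by omega) (by omega))

theorem S6_Zd (J X r K : ℕ) (hJ : 320 ≤ J) (h1 : 2 * J ≤ X + 17) (h2 : X ≤ 2 * J + 5)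
    (hr : r + X = 5 * J) (hK : K * (J + X) ≤ r * (J + 4)) : S 6 J K (replicate r (T 0 0)) := by
  obtain ⟨i, rfl⟩ : ∃ i, J = i + 20 := ⟨J - 20, by omega⟩
  have h : X = 2 * i + 45 ∨ X = 2 * i + 44 ∨ X = 2 * i + 43 ∨ X = 2 * i + 42 ∨ X = 2 * i + 41 ∨ X = 2 * i + 40 ∨ X = 2 * i + 39 ∨ X = 2 * i + 38 ∨ X = 2 * i + 37 ∨ X = 2 * i + 36 ∨ X = 2 * i + 35 ∨ X = 2 * i + 34 ∨ X = 2 * i + 33 ∨ X = 2 * i + 32 ∨ X = 2 * i + 31 ∨ X = 2 * i + 30 ∨ X = 2 * i + 29 ∨ X = 2 * i + 28 ∨ X = 2 * i + 27 ∨ X = 2 * i + 26 ∨ X = 2 * i + 25 ∨ X = 2 * i + 24 ∨ X = 2 * i + 23 := by omega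
  rcases h with rfl | rfl | rfl | rfl | rfl | rfl | rfl | rfl | rfl | rfl | rfl | rfl | rfl | rfl | rfl | rfl | rfl | rfl | rfl | rfl | rfl | rfl | rfl
  · obtain rfl : r = 3 * i + 55 := by omega
    exact S6_n5 i K (by omega) hK
  · obtain rfl : r = 3 * i + 56 := by omega
    exact S6_n4 i K (by omega) hK
  · obtain rfl : r = 3 * i + 57 := by omega
    exact S6_n3 i K (by omega) hK
  · obtain rfl : r = 3 * i + 58 := by omega
    exact S6_n2 i K (by omega) hK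
  · obtain rfl : r = 3 * i + 59 := by omega
    exact S6_n1 i K (by omega) hK
  · obtain rfl : r = 3 * i + 60 := by omega
    exact S6_p0 i K (by omega) hK
  · obtain rfl : r = 3 * i + 61 := by omega
    exact S6_p1 i K (by omega) hK
  · obtain rfl : r = 3 * i + 62 := by omega
    exact S6_p2 i K (by omega) hK
  · obtain rfl : r = 3 * i + 63 := by omega
    exact S6_p3 i K (by omega) hK
  · obtain rfl : r = 3 * i + 64 := by omega
    exact S6_p4 i K (by omega) hK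
  · obtain rfl : r = 3 * i + 65 := by omega
    exact S6_p5 i K (by omega) hK
  · obtain rfl : r = 3 * i + 66 := by omega
    exact S6_p6 i K (by omega) hK
  · obtain rfl : r = 3 * i + 67 := by omega
    exact S6_p7 i K (by omega) hK
  · obtain rfl : r = 3 * i + 68 := by omega
    exact S6_p8 i K (by omega) hK
  · obtain rfl : r = 3 * i + 69 := by omega
    exact S6_p9 i K (by omega) hK
  · obtain rfl : r = 3 * i + 70 := by omega
    exact S6_p10 i K (by omega) hK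
  · obtain rfl : r = 3 * i + 71 := by omega
    exact S6_p11 i K (by omega) hK
  · obtain rfl : r = 3 * i + 72 := by omega
    exact S6_p12 i K (by omega) hK
  · obtain rfl : r = 3 * i + 73 := by omega
    exact S6_p13 i K (by omega) hK
  · obtain rfl : r = 3 * i + 74 := by omega
    exact S6_p14 i K (by omega) hK
  · obtain rfl : r = 3 * i + 75 := by omega
    exact S6_p15 i K (by omega) hK
  · obtain rfl : r = 3 * i + 76 := by omega
    exact S6_p16 i K (by omega) hK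
  · obtain rfl : r = 3 * i + 77 := by omega
    exact S6_p17 i K (by omega) hK

end Pool.Agent.Work.MP_f4b644_ag.Thin
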