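import Pool.Agent.Work.MP_f4b644_ag.Thin.Defs

/-!
States of the thin construction. The first dimension is `m + 2`.
-/

set_option autoImplicit false

namespace Pool.Agent.Work.MP_f4b644_ag.Thin

open Big Multiset Big.Gad

/-- tangents, tangents with one mate, B-fibres, B-fibres with one token, pairs of C-fibres, C-fibres -/
def BS (I j k s0 u b e G f : ℕ) : Prop :=
  S I j k (replicate s0 (T 0 0) + replicate u (T 1 0) + replicate b (BP 0) + replicate e (BP 1) +
    replicate G (CP 2) + replicate f (CP 1))

/-- The state with `j` rows, `k` columns, `(m + 1) * j - X` C-fibres and `k + Tt` B-fibres in total,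
`s` tangents (`u` of them with a mate), `e` tokens, `G` pairs of C-fibres. -/
def V (m j X k Tt s u e G : ℕ) : Prop :=
  u ≤ s ∧ s + e ≤ k + Tt ∧ s + u + 2 * G + X ≤ (m + 1) * j ∧
    BS (m + 2) j k (s - u) u (k + Tt - s - e) e G ((m + 1) * j - X - s - u - 2 * G)

/-- A state after the first cut: as `V` without pairs of C-fibres, but with `p` pairs `TT 0` (each counts
as two tangents in `s`) and `p'` pairs `PB 0 true`. -/
def PV (m j X k Tt s u e p p' : ℕ) : Prop :=
  2 * p + u ≤ s ∧ s + e + 2 * p' ≤ k + Tt ∧ s + u + X ≤ (m + 1) * j ∧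
    S (m + 2) j k (replicate (s - 2 * p - u) (T 0 0) + replicate u (T 1 0) + replicate p (TT 0) +
      replicate (k + Tt - s - e - 2 * p') (BP 0) + replicate e (BP 1) + replicate p' (PB 0 true) +
      replicate ((m + 1) * j - X - s - u) (CP 1))

end Pool.Agent.Work.MP_f4b644_ag.Thin
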