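import Pool.Agent.Work.MP_f4b644_ag.Thin.Blocks

/-!
General m, the blocks with X = ω + m ≤ J. τ = J + m, d = J - X, δ = d + 2 m = τ - ω, t = k - Tt. From h3, h4: Tt ≤ k, 1 ≤ Tt,
τ t ≤ δ k < τ (t + 1), δ Tt < ω t + τ; the dimension count hD is h3.

`blkW0a` (2 k < τ): k = 1 is `V_col` (Tt = 1). 2 Tt ≤ ω + 1. If Tt + m ≤ ω use `V_A` (2 t ≤ δ, 2 (J - k) ≥ J - m).
Otherwise ω ≤ 2 m, 2 ≤ Tt ≤ m, ω ≤ m + Tt - 1, and `V_B1` applies: τ (Tt - 1) < ω k and Tt ω ≤ (2 m + 2) (Tt - 1)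
give τ Tt ≤ (2 m + 2) k, and (2 m + 2) (2 m m + 5 m + 2) ≤ (m m + m) τ.
`blkW0b` (2 k ≥ τ, ω ≤ 2 m + 7): `V_B1`; τ Tt ≤ (ω + 2) k and (2 m + 9) (2 m m + 7 m + 14) ≤ (m m + m) (4 m + 50).
-/

set_option autoImplicit false

namespace Pool.Agent.Work.MP_f4b644_ag.Thin

open Big Multiset Big.Gad

theorem W0a_hD (m J ω k Tt : ℕ) (h3 : ω * k ≤ (J + m) * Tt) :
    k * (ω + m) ≤ J * Tt + m * (k + Tt) := by
  have e1 : k * (ω + m) = ω * k + m * k := by ring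
  have e2 : J * Tt + m * (k + Tt) = (J + m) * Tt + m * k := by ring
  omega

theorem W0a_pos (τ ω k Tt : ℕ) (h1 : 1 ≤ ω) (hk : 1 ≤ k) (h3 : ω * k ≤ τ * Tt) : 1 ≤ Tt := by
  rcases Nat.eq_zero_or_pos Tt with h | h
  · subst h
    have : 1 * 1 ≤ ω * k := Nat.mul_le_mul h1 hk
    omega
  · exact h

theorem W0a_fin (A B c τ k Tt : ℕ) (hc : 0 < c) (h1 : c * A ≤ B * τ) (h2 : τ * Tt ≤ c * k) :
    Tt * A ≤ B * k := by
  refine Nat.le_of_mul_le_mul_left (c := c) ?_ hc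
  calc c * (Tt * A) = Tt * (c * A) := by ring
    _ ≤ Tt * (B * τ) := Nat.mul_le_mul_left _ h1
    _ = B * (τ * Tt) := by ring
    _ ≤ B * (c * k) := Nat.mul_le_mul_left _ h2
    _ = c * (B * k) := by ring

theorem W0a_small (m τ ω k Tt : ℕ) (hω : 1 ≤ ω) (h2 : 2 ≤ Tt) (hT : Tt ≤ m) (hw : ω + 1 ≤ Tt + m)
    (h4 : τ * Tt < ω * k + τ) : τ * Tt ≤ (2 * m + 2) * k := by
  obtain ⟨a, rfl⟩ : ∃ a, Tt = a + 2 := ⟨Tt - 2, by omega⟩
  obtain ⟨b, rfl⟩ : ∃ b, m = a + 2 + b := ⟨m - (a + 2), by omega⟩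
  have a1 : (a + 2) * ω ≤ (a + 2) * (2 * a + 3 + b) := Nat.mul_le_mul_left _ (by omega)
  have a2 : (a + 2) * (2 * a + 3 + b) ≤ (2 * (a + 2 + b) + 2) * (a + 1) := by nlinarith
  have a3 : τ * (a + 1) ≤ ω * k := by
    have : τ * (a + 2) = τ * (a + 1) + τ := by ring
    omega
  refine Nat.le_of_mul_le_mul_left (c := ω) ?_ hω
  calc ω * (τ * (a + 2)) = τ * ((a + 2) * ω) := by ring
    _ ≤ τ * ((2 * (a + 2 + b) + 2) * (a + 1)) := Nat.mul_le_mul_left _ (a1.trans a2)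
    _ = (2 * (a + 2 + b) + 2) * (τ * (a + 1)) := by ring
    _ ≤ (2 * (a + 2 + b) + 2) * (ω * k) := Nat.mul_le_mul_left _ a3
    _ = ω * ((2 * (a + 2 + b) + 2) * k) := by ring

theorem blkW0a (m J ω k Tt : ℕ) (hm : 4 ≤ m) (hJ : 3 * m + 50 ≤ J) (h1 : m + 1 ≤ ω) (h2 : ω + m ≤ J)
    (hk1 : 1 ≤ k) (hk : 2 * k < J + m) (h3 : ω * k ≤ (J + m) * Tt) (h4 : (J + m) * Tt < ω * k + (J + m)) :
    V m J (ω + m) k Tt (k + Tt) 0 0 0 := by
  have hD := W0a_hD m J ω k Tt h3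
  have hT : 1 ≤ Tt := W0a_pos (J + m) ω k Tt (by omega) hk1 h3
  have hτ : 0 < J + m := by omega
  have hTk : Tt ≤ k := by
    have a1 : ω * k ≤ (J + m) * k := Nat.mul_le_mul_right k (by omega)
    have a2 : (J + m) * (k + 1) = (J + m) * k + (J + m) := by ring
    have a3 : Tt < k + 1 := Nat.lt_of_mul_lt_mul_left (a := J + m) (by omega)
    omega
  rcases Nat.lt_or_ge k 2 with hk2 | hk2
  · obtain rfl : k = 1 := by omega
    obtain rfl : Tt = 1 := by omega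
    exact V_col m J (ω + m) (by omega) (by omega) (by omega)
  have h2T : 2 * Tt ≤ ω + 1 := by
    have a1 : ω * (2 * k) ≤ ω * (J + m) := Nat.mul_le_mul_left ω (by omega)
    have a2 : ω * (2 * k) = 2 * (ω * k) := by ring
    have a3 : (J + m) * (2 * Tt) = 2 * ((J + m) * Tt) := by ring
    have a4 : (J + m) * (ω + 2) = ω * (J + m) + 2 * (J + m) := by ring
    have a5 : 2 * Tt < ω + 2 := Nat.lt_of_mul_lt_mul_left (a := J + m) (by omega)
    omega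
  rcases Nat.lt_or_ge ω (Tt + m) with hc | hc
  · have hTm : Tt ≤ m := by omega
    have b1 := W0a_small m (J + m) ω k Tt (by omega) (by omega) hTm (by omega) h4
    obtain ⟨x, rfl⟩ : ∃ x, J = 3 * m + 50 + x := ⟨J - (3 * m + 50), by omega⟩
    have b2 : (2 * m + 2) * (2 * m * m + 5 * m) ≤ (m * m + m) * (3 * m + 50 + x + m) := by
      nlinarith [Nat.zero_le (m * m * x), Nat.zero_le (m * x), Nat.zero_le (m * m), Nat.zero_le m]
    have b3 := W0a_fin _ _ _ _ _ _ (by omega) b2 b1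
    refine V_B1 m _ (ω + m) k Tt (by omega) (by omega) hT ?_ ?_ ?_ hD
    · exact (Nat.mul_le_mul_left Tt (by omega)).trans b3
    · nlinarith [Nat.zero_le (m * x), Nat.zero_le (m * m)]
    · have c1 : (m + 1) * (ω + m + 1) ≤ (m + 1) * (3 * m) := Nat.mul_le_mul_left _ (by omega)
      nlinarith [Nat.zero_le (m * x), Nat.zero_le (m * m)]
  · obtain ⟨t, rfl⟩ : ∃ t, k = Tt + t := ⟨k - Tt, by omega⟩
    obtain ⟨d, rfl⟩ : ∃ d, J = ω + m + d := ⟨J - (ω + m), by omega⟩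
    have b1 : (ω + m + d + m) * t ≤ (d + 2 * m) * (Tt + t) := by
      have e1 : (ω + m + d + m) * t + (ω + m + d + m) * Tt =
          (d + 2 * m) * (Tt + t) + ω * (Tt + t) := by ring
      omega
    have b2 : (d + 2 * m) * (2 * (Tt + t)) ≤ (d + 2 * m) * (ω + m + d + m) :=
      Nat.mul_le_mul_left _ (by omega)
    have b3 : 2 * t ≤ d + 2 * m := by
      refine Nat.le_of_mul_le_mul_left (c := ω + m + d + m) ?_ hτ
      have e1 : (ω + m + d + m) * (2 * t) = 2 * ((ω + m + d + m) * t) := by ring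
      have e2 : (d + 2 * m) * (2 * (Tt + t)) = 2 * ((d + 2 * m) * (Tt + t)) := by ring
      have e3 : (ω + m + d + m) * (d + 2 * m) = (d + 2 * m) * (ω + m + d + m) := by ring
      omega
    refine V_A m _ (ω + m) (Tt + t) Tt (by omega) hk2 hTk (Or.inr (by omega)) (by omega) ?_ hD
    obtain ⟨y, hy⟩ : ∃ y, ω + m + d = Tt + t + y := ⟨ω + m + d - (Tt + t), by omega⟩
    rw [hy]
    have c1 : 2 * y ≤ (m + 1) * y := Nat.mul_le_mul_right y (by omega)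
    have c2 : (m + 1) * (Tt + t + y) = (m + 1) * (Tt + t) + (m + 1) * y := by ring
    omega

theorem blkW0b (m J ω k Tt : ℕ) (hm : 4 ≤ m) (hJ : 3 * m + 50 ≤ J) (h1 : m + 1 ≤ ω) (h2 : ω ≤ 2 * m + 7)
    (hk1 : J + m ≤ 2 * k) (hk : k ≤ J + m) (h3 : ω * k ≤ (J + m) * Tt)
    (h4 : (J + m) * Tt < ω * k + (J + m)) : V m J (ω + m) k Tt (k + Tt) 0 0 0 := by
  have hD := W0a_hD m J ω k Tt h3
  have hT : 1 ≤ Tt := W0a_pos (J + m) ω k Tt (by omega) (by omega) h3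
  have hTω : Tt ≤ ω := by
    have a1 : ω * k ≤ ω * (J + m) := Nat.mul_le_mul_left ω hk
    have a2 : (J + m) * (ω + 1) = ω * (J + m) + (J + m) := by ring
    have a3 : Tt < ω + 1 := Nat.lt_of_mul_lt_mul_left (a := J + m) (by omega)
    omega
  have b1 : (J + m) * Tt ≤ (2 * m + 9) * k := by
    have a1 : ω * k ≤ (2 * m + 7) * k := Nat.mul_le_mul_right k h2
    have a2 : (2 * m + 9) * k = (2 * m + 7) * k + 2 * k := by ring
    omega
  obtain ⟨x, rfl⟩ : ∃ x, J = 3 * m + 50 + x := ⟨J - (3 * m + 50), by omega⟩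
  obtain ⟨n, rfl⟩ : ∃ n, m = n + 4 := ⟨m - 4, by omega⟩
  have b2 : (2 * (n + 4) + 9) * (2 * (n + 4) * (n + 4) + 7 * (n + 4) + 14) ≤
      ((n + 4) * (n + 4) + (n + 4)) * (3 * (n + 4) + 50 + x + (n + 4)) := by
    nlinarith [Nat.zero_le (n * n * x), Nat.zero_le (n * x), Nat.zero_le (n * n), Nat.zero_le n,
      Nat.zero_le x]
  have b3 := W0a_fin _ _ _ _ _ _ (by omega) b2 b1
  refine V_B1 (n + 4) _ (ω + (n + 4)) k Tt (by omega) (by omega) hT ?_ ?_ ?_ hD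
  · exact (Nat.mul_le_mul_left Tt (by omega)).trans b3
  · nlinarith [Nat.zero_le (n * x), Nat.zero_le (n * n)]
  · have c1 : (n + 4 + 1) * (ω + (n + 4) + 1) ≤ (n + 4 + 1) * (3 * (n + 4) + 8) :=
      Nat.mul_le_mul_left _ (by omega)
    nlinarith [Nat.zero_le (n * x), Nat.zero_le (n * n)]

end Pool.Agent.Work.MP_f4b644_ag.Thin
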